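import Mathlib

/-!
# Primes in residue classes, smooth form

Module P4a7640S.Resid (1.5 h). Only Mathlib.

`Mathlib.NumberTheory.LSeries.PrimesInAP`: `eqOn_LFunctionResidueClassAux`, `continuousOn_LFunctionResidueClassAux`
(`LSeries (residueClass a) s - (q.totient)⁻¹/(s - 1)` extends continuously to `1 ≤ Re s`), hence
`η * LSeries (residueClass a) (1 + η) → 1/φ(q)`. The series is `∑ n, residueClass a n * n^(-1-η)` (real, terms
`residueClass a n = Λ(n)` for `n ≡ a`, else `0`); it differs from the sum over the primes by the prime powers, bounded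
uniformly in `η` (`summable_residueClass_non_primes_div`: at `η = 0`), so `η *` this difference tends to `0`.
`div_ap`: if `∑_{p ≡ a} 1/p` converged, then by `tendsto_tsum_of_dominated_convergence` (bound
`η log p p^(-1-η) ≤ 1/p`, as `x e^(-x) ≤ 1`, each term tends to `0`) the limit in `resid` would be `0`.
(`Nat.Primes` sums and partial sums over `Ioc 0 N`: a monotone unbounded sequence tends to infinity.)
-/

open Finset Filter Topology

namespace Pool.Agent.Lib.P4a7640S

namespace ResidAux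

open ArithmeticFunction.vonMangoldt

theorem key {q : ℕ} [NeZero q] {a : ZMod q} (ha : IsUnit a) {x : ℝ} (hx : 1 < x) :
    ∑' n, residueClass a n / (n : ℝ) ^ x =
      (LFunctionResidueClassAux a x).re + (q.totient : ℝ)⁻¹ / (x - 1) := by
  refine Complex.ofReal_injective ?_
  simp only [Complex.ofReal_tsum, Complex.ofReal_div, Complex.ofReal_cpow (Nat.cast_nonneg _),
    Complex.ofReal_natCast, Complex.ofReal_add, Complex.ofReal_inv, Complex.ofReal_sub,
    Complex.ofReal_one]
  simp_rw [← LFunctionResidueClassAux_real ha hx,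
    eqOn_LFunctionResidueClassAux ha <| Set.mem_ofPred.mpr (Complex.ofReal_re x ▸ hx),
    sub_add_cancel, LSeries, LSeries.term]
  refine tsum_congr fun n ↦ ?_
  split_ifs with hn
  · simp only [hn, residueClass_apply_zero, Complex.ofReal_zero, zero_div]
  · rfl

theorem summ {q : ℕ} (a : ZMod q) {x : ℝ} (hx : 1 < x) :
    Summable fun n : ℕ => residueClass a n / (n : ℝ) ^ x :=
  LSeries.summable_real_of_abscissaOfAbsConv_lt <|
    (abscissaOfAbsConv_residueClass_le_one a).trans_lt <| mod_cast hx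

/-- the sum over the primes as a sum over all numbers -/
theorem primes_eq {q : ℕ} (a : ZMod q) (η : ℝ) :
    ∑' p : Nat.Primes,
      (if ((p:ℕ) : ZMod q) = a then Real.log p * (p:ℝ) ^ (-1 - η) else 0) =
    ∑' n : ℕ, (if n.Prime then residueClass a n else 0) / (n : ℝ) ^ (1 + η) := by
  have h1 : ∑' p : Nat.Primes,
      (if ((p:ℕ) : ZMod q) = a then Real.log p * (p:ℝ) ^ (-1 - η) else 0) =
      ∑' n : ℕ, Set.indicator {p : ℕ | p.Prime}
        (fun n => if ((n:ℕ) : ZMod q) = a then Real.log n * (n:ℝ) ^ (-1 - η) else 0) n :=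
    tsum_subtype {p : ℕ | p.Prime}
      (fun n : ℕ => if ((n:ℕ) : ZMod q) = a then Real.log n * (n:ℝ) ^ (-1 - η) else 0)
  rw [h1]
  refine tsum_congr fun n => ?_
  by_cases hn : n.Prime
  · rw [Set.indicator_of_mem (show n ∈ {p : ℕ | p.Prime} from hn), if_pos hn]
    by_cases hna : ((n:ℕ) : ZMod q) = a
    · have h2 : residueClass a n = Real.log n := by
        rw [residueClass, Set.indicator_of_mem (show n ∈ {n : ℕ | (n : ZMod q) = a} from hna),
          ArithmeticFunction.vonMangoldt_apply_prime hn]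
      rw [if_pos hna, h2, show (-1 - η : ℝ) = -(1 + η) by ring,
        Real.rpow_neg (Nat.cast_nonneg n), div_eq_mul_inv]
    · have h2 : residueClass a n = 0 :=
        Set.indicator_of_notMem (show n ∉ {n : ℕ | (n : ZMod q) = a} from hna) _
      rw [if_neg hna, h2, zero_div]
  · rw [Set.indicator_of_notMem (show n ∉ {p : ℕ | p.Prime} from hn), if_neg hn, zero_div]

theorem nonprime_bound {q : ℕ} (a : ZMod q) {η : ℝ} (hη : 0 < η) :
    0 ≤ ∑' n : ℕ, (if n.Prime then 0 else residueClass a n) / (n : ℝ) ^ (1 + η) ∧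
    ∑' n : ℕ, (if n.Prime then 0 else residueClass a n) / (n : ℝ) ^ (1 + η) ≤
      ∑' n : ℕ, (if n.Prime then 0 else residueClass a n) / (n : ℝ) := by
  have hr : ∀ n : ℕ, 0 ≤ (if n.Prime then 0 else residueClass a n) := by
    intro n
    split_ifs
    · exact le_rfl
    · exact residueClass_nonneg a n
  have hle : ∀ n : ℕ, (if n.Prime then 0 else residueClass a n) / (n : ℝ) ^ (1 + η) ≤
      (if n.Prime then 0 else residueClass a n) / (n : ℝ) := by
    intro n
    rcases n.eq_zero_or_pos with rfl | hn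
    · simp
    · refine div_le_div_of_nonneg_left (hr n) (mod_cast hn) ?_
      conv_lhs => rw [← Real.rpow_one (n : ℝ)]
      exact Real.rpow_le_rpow_of_exponent_le (by exact_mod_cast hn) (by linarith)
  have h0 : ∀ n : ℕ, 0 ≤ (if n.Prime then 0 else residueClass a n) / (n : ℝ) ^ (1 + η) :=
    fun n => div_nonneg (hr n) (Real.rpow_nonneg (Nat.cast_nonneg n) _)
  refine ⟨tsum_nonneg h0, ?_⟩
  exact Summable.tsum_le_tsum hle
    (Summable.of_nonneg_of_le h0 hle (summable_residueClass_non_primes_div a))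
    (summable_residueClass_non_primes_div a)

theorem split {q : ℕ} (a : ZMod q) {η : ℝ} (hη : 0 < η) :
    ∑' n : ℕ, (if n.Prime then residueClass a n else 0) / (n : ℝ) ^ (1 + η) =
      ∑' n : ℕ, residueClass a n / (n : ℝ) ^ (1 + η) -
      ∑' n : ℕ, (if n.Prime then 0 else residueClass a n) / (n : ℝ) ^ (1 + η) := by
  have hs := summ a (x := 1 + η) (by linarith)
  have hr : ∀ n : ℕ, 0 ≤ (if n.Prime then residueClass a n else 0) := by
    intro n
    split_ifs
    · exact residueClass_nonneg a n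
    · exact le_rfl
  have hr' : ∀ n : ℕ, (if n.Prime then residueClass a n else 0) ≤ residueClass a n := by
    intro n
    split_ifs
    · exact le_rfl
    · exact residueClass_nonneg a n
  have hs1 : Summable fun n : ℕ =>
      (if n.Prime then residueClass a n else 0) / (n : ℝ) ^ (1 + η) :=
    Summable.of_nonneg_of_le
      (fun n => div_nonneg (hr n) (Real.rpow_nonneg (Nat.cast_nonneg n) _))
      (fun n => div_le_div_of_nonneg_right (hr' n) (Real.rpow_nonneg (Nat.cast_nonneg n) _)) hs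
  have h2 : ∀ n : ℕ, (if n.Prime then 0 else residueClass a n) / (n : ℝ) ^ (1 + η) =
      residueClass a n / (n : ℝ) ^ (1 + η) -
        (if n.Prime then residueClass a n else 0) / (n : ℝ) ^ (1 + η) := by
    intro n
    split_ifs <;> simp
  rw [tsum_congr h2, Summable.tsum_sub hs hs1]
  ring

end ResidAux

open ResidAux ArithmeticFunction.vonMangoldt in
theorem resid {q : ℕ} [NeZero q] (a : (ZMod q)ˣ) :
    Tendsto (fun η : ℝ => η * ∑' p : Nat.Primes,
      (if ((p:ℕ) : ZMod q) = (a : ZMod q) then Real.log p * (p:ℝ) ^ (-1 - η) else 0))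
      (𝓝[>] 0) (𝓝 (1 / (q.totient : ℝ))) := by
  have ha : IsUnit (a : ZMod q) := a.isUnit
  set b : ZMod q := (a : ZMod q) with hb
  set C : ℝ := ∑' n : ℕ, (if n.Prime then 0 else residueClass b n) / (n : ℝ) with hC
  set N : ℝ → ℝ := fun η =>
    ∑' n : ℕ, (if n.Prime then 0 else residueClass b n) / (n : ℝ) ^ (1 + η) with hN
  set A : ℝ → ℝ := fun η => (LFunctionResidueClassAux b ((1 + η : ℝ) : ℂ)).re with hA
  -- the limit of `A`
  have hcont : ContinuousOn (fun x : ℝ ↦ (LFunctionResidueClassAux b x).re) (Set.Icc 1 2) :=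
    Complex.continuous_re.continuousOn.comp (t := Set.univ)
      (continuousOn_LFunctionResidueClassAux b)
      (fun ⦃x⦄ a ↦ trivial) |>.comp Complex.continuous_ofReal.continuousOn fun x hx ↦ by
        simpa only [Set.mem_ofPred_eq, Complex.ofReal_re] using hx.1
  have hmap : Tendsto (fun η : ℝ => 1 + η) (𝓝[>] 0) (𝓝[Set.Icc 1 2] 1) := by
    rw [tendsto_nhdsWithin_iff]
    constructor
    · have h1 : Tendsto (fun η : ℝ => 1 + η) (𝓝 0) (𝓝 (1 + 0)) :=
        (continuous_const.add continuous_id).tendsto 0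
      rw [add_zero] at h1
      exact h1.mono_left nhdsWithin_le_nhds
    · have h2 : Set.Ioo (0:ℝ) 1 ∈ 𝓝[>] (0:ℝ) := Ioo_mem_nhdsGT one_pos
      filter_upwards [h2] with η hη
      exact ⟨by linarith [hη.1], by linarith [hη.2]⟩
  have hAlim : Tendsto A (𝓝[>] 0) (𝓝 ((LFunctionResidueClassAux b ((1:ℝ) : ℂ)).re)) :=
    (hcont 1 ⟨le_refl 1, by norm_num⟩).tendsto.comp hmap
  have hid : Tendsto (fun η : ℝ => η) (𝓝[>] 0) (𝓝 0) :=
    (continuous_id.tendsto (0:ℝ)).mono_left nhdsWithin_le_nhds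
  have hηA : Tendsto (fun η : ℝ => η * A η) (𝓝[>] 0) (𝓝 0) := by
    have := hid.mul hAlim
    rwa [zero_mul] at this
  have hηN : Tendsto (fun η : ℝ => η * N η) (𝓝[>] 0) (𝓝 0) := by
    have hηC : Tendsto (fun η : ℝ => η * C) (𝓝[>] 0) (𝓝 0) := by
      have := hid.mul_const C
      rwa [zero_mul] at this
    refine tendsto_of_tendsto_of_tendsto_of_le_of_le' tendsto_const_nhds hηC ?_ ?_
    · filter_upwards [self_mem_nhdsWithin] with η hη
      exact mul_nonneg (le_of_lt hη) (nonprime_bound b hη).1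
    · filter_upwards [self_mem_nhdsWithin] with η hη
      exact mul_le_mul_of_nonneg_left (nonprime_bound b hη).2 (le_of_lt hη)
  have hlim : Tendsto (fun η : ℝ => η * A η + (q.totient : ℝ)⁻¹ - η * N η) (𝓝[>] 0)
      (𝓝 (0 + (q.totient : ℝ)⁻¹ - 0)) := (hηA.add_const _).sub hηN
  rw [zero_add, sub_zero] at hlim
  rw [one_div]
  refine hlim.congr' ?_
  filter_upwards [self_mem_nhdsWithin] with η hη
  have hη0 : (0:ℝ) < η := hη
  rw [primes_eq b η, split b hη0, key ha (by linarith : (1:ℝ) < 1 + η)]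
  have h3 : (1 + η - 1 : ℝ) = η := by ring
  rw [h3]
  simp only [hA, hN]
  field_simp
  try ring

open ResidAux in
theorem div_ap {q : ℕ} [NeZero q] (a : (ZMod q)ˣ) :
    Tendsto (fun N : ℕ => ∑ p ∈ (Ioc 0 N).filter Nat.Prime,
      (if ((p:ℕ) : ZMod q) = (a : ZMod q) then (1:ℝ) / p else 0)) atTop atTop := by
  have hnn : ∀ p : ℕ, 0 ≤ (if ((p:ℕ) : ZMod q) = (a : ZMod q) then (1:ℝ) / p else 0) := by
    intro p
    split_ifs
    · positivity
    · exact le_rfl
  have hmono : Monotone (fun N : ℕ => ∑ p ∈ (Ioc 0 N).filter Nat.Prime,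
      (if ((p:ℕ) : ZMod q) = (a : ZMod q) then (1:ℝ) / p else 0)) := by
    intro M N hMN
    exact Finset.sum_le_sum_of_subset_of_nonneg
      (Finset.filter_subset_filter _ (Finset.Ioc_subset_Ioc_right hMN)) fun p _ _ => hnn p
  rcases tendsto_of_monotone hmono with h | ⟨l, hl⟩
  · exact h
  exfalso
  set F : ℕ → ℝ := fun n => if n.Prime then
    (if ((n:ℕ) : ZMod q) = (a : ZMod q) then (1:ℝ) / n else 0) else 0 with hF
  have hF0 : ∀ n, 0 ≤ F n := by
    intro n
    simp only [hF]
    split_ifs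
    · positivity
    · exact le_rfl
    · exact le_rfl
  have hsum : Summable F := by
    refine summable_of_sum_range_le hF0 (c := l) fun n => ?_
    have h1 : ∑ i ∈ range n, F i ≤ ∑ i ∈ range (n + 1), F i :=
      Finset.sum_le_sum_of_subset_of_nonneg
        (Finset.range_subset_range.2 (Nat.le_succ n)) fun i _ _ => hF0 i
    have h2 : ∑ i ∈ range (n + 1), F i = ∑ p ∈ (Ioc 0 n).filter Nat.Prime,
        (if ((p:ℕ) : ZMod q) = (a : ZMod q) then (1:ℝ) / p else 0) := by
      have h3 : (Ioc 0 n).filter Nat.Prime = (range (n + 1)).filter Nat.Prime := by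
        ext p
        simp only [Finset.mem_filter, Finset.mem_Ioc, Finset.mem_range]
        constructor
        · rintro ⟨⟨_, h5⟩, h6⟩
          exact ⟨by omega, h6⟩
        · rintro ⟨h5, h6⟩
          exact ⟨⟨h6.pos, by omega⟩, h6⟩
      rw [h3, Finset.sum_filter]
    exact h1.trans (h2.le.trans (hmono.ge_of_tendsto hl n))
  have hsumP : Summable fun p : Nat.Primes => F (p : ℕ) :=
    hsum.comp_injective Subtype.val_injective
  have hF' : ∀ p : Nat.Primes, F (p : ℕ) =
      (if (((p:ℕ)) : ZMod q) = (a : ZMod q) then (1:ℝ) / (p:ℕ) else 0) := by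
    intro p
    simp only [hF]
    rw [if_pos p.2]
  have hterm : ∀ p : Nat.Primes, ∀ η : ℝ, 0 < η →
      ‖η * (if ((p:ℕ) : ZMod q) = (a : ZMod q) then Real.log p * (p:ℝ) ^ (-1 - η) else 0)‖ ≤
        F (p : ℕ) := by
    intro p η hη
    rw [hF' p]
    split_ifs with hpa
    · have hp1 : (1:ℝ) < ((p:ℕ) : ℝ) := by exact_mod_cast p.2.one_lt
      have hp0 : (0:ℝ) < ((p:ℕ) : ℝ) := by linarith
      have hlog : 0 < Real.log ((p:ℕ) : ℝ) := Real.log_pos hp1
      have hpow : ((p:ℕ) : ℝ) ^ (-1 - η) = (1 / ((p:ℕ) : ℝ)) * Real.exp (-(η * Real.log (p:ℕ))) := by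
        rw [show (-1 - η : ℝ) = -1 + (-η) by ring, Real.rpow_add hp0, Real.rpow_neg_one, one_div,
          Real.rpow_def_of_pos hp0 (-η)]
        congr 2
        ring
      rw [hpow]
      have hx : η * Real.log ((p:ℕ) : ℝ) * Real.exp (-(η * Real.log (p:ℕ))) ≤ 1 := by
        have h5 : η * Real.log ((p:ℕ) : ℝ) ≤ Real.exp (η * Real.log (p:ℕ)) := by
          have := Real.add_one_le_exp (η * Real.log ((p:ℕ) : ℝ))
          linarith
        calc η * Real.log ((p:ℕ) : ℝ) * Real.exp (-(η * Real.log (p:ℕ)))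
            ≤ Real.exp (η * Real.log (p:ℕ)) * Real.exp (-(η * Real.log (p:ℕ))) :=
              mul_le_mul_of_nonneg_right h5 (Real.exp_nonneg _)
          _ = 1 := by rw [← Real.exp_add, add_neg_cancel, Real.exp_zero]
      have hnonneg : 0 ≤ η * (Real.log ((p:ℕ) : ℝ) *
          ((1 / ((p:ℕ) : ℝ)) * Real.exp (-(η * Real.log (p:ℕ))))) := by positivity
      rw [Real.norm_eq_abs, abs_of_nonneg hnonneg]
      calc η * (Real.log ((p:ℕ) : ℝ) * ((1 / ((p:ℕ) : ℝ)) * Real.exp (-(η * Real.log (p:ℕ)))))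
          = (1 / ((p:ℕ) : ℝ)) *
            (η * Real.log ((p:ℕ) : ℝ) * Real.exp (-(η * Real.log (p:ℕ)))) := by ring
        _ ≤ (1 / ((p:ℕ) : ℝ)) * 1 := mul_le_mul_of_nonneg_left hx (by positivity)
        _ = 1 / ((p:ℕ) : ℝ) := mul_one _
    · rw [mul_zero, norm_zero]
  have htend : Tendsto (fun η : ℝ => ∑' p : Nat.Primes,
      η * (if ((p:ℕ) : ZMod q) = (a : ZMod q) then Real.log p * (p:ℝ) ^ (-1 - η) else 0))
      (𝓝[>] 0) (𝓝 (∑' _p : Nat.Primes, (0:ℝ))) := by
    refine tendsto_tsum_of_dominated_convergence (bound := fun p : Nat.Primes => F (p : ℕ)) hsumP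
      ?_ ?_
    · intro p
      have hp0 : (0:ℝ) < ((p:ℕ) : ℝ) := by exact_mod_cast p.2.pos
      have hid : Tendsto (fun η : ℝ => η) (𝓝[>] 0) (𝓝 0) :=
        (continuous_id.tendsto (0:ℝ)).mono_left nhdsWithin_le_nhds
      split_ifs with hpa
      · have h6 : Tendsto (fun η : ℝ => Real.log p * (p:ℝ) ^ (-1 - η)) (𝓝[>] 0)
            (𝓝 (Real.log p * (p:ℝ) ^ (-1 - (0:ℝ)))) := by
          refine Tendsto.mono_left ?_ nhdsWithin_le_nhds
          have h7 : Continuous fun η : ℝ => Real.log p * ((p:ℕ):ℝ) ^ (-1 - η) :=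
            continuous_const.mul (Continuous.rpow continuous_const
              (continuous_const.sub continuous_id) fun _ => Or.inl hp0.ne')
          exact h7.tendsto 0
        have h8 := hid.mul h6
        rwa [zero_mul] at h8
      · simp only [mul_zero]
        exact tendsto_const_nhds
    · filter_upwards [self_mem_nhdsWithin] with η hη p
      exact hterm p η hη
  rw [tsum_zero] at htend
  have h9 : Tendsto (fun η : ℝ => η * ∑' p : Nat.Primes,
      (if ((p:ℕ) : ZMod q) = (a : ZMod q) then Real.log p * (p:ℝ) ^ (-1 - η) else 0))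
      (𝓝[>] 0) (𝓝 0) := by
    refine htend.congr fun η => ?_
    rw [tsum_mul_left]
  have h10 := tendsto_nhds_unique (resid a) h9
  have h11 : (0:ℝ) < (q.totient : ℝ) := by
    exact_mod_cast Nat.totient_pos.2 (Nat.pos_of_ne_zero (NeZero.ne q))
  have h12 : (0:ℝ) < 1 / (q.totient : ℝ) := by positivity
  linarith

end Pool.Agent.Lib.P4a7640S
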