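import Mathlib
import Pool.Agent.Lib.P4a7640.Defs
import Pool.Agent.Lib.P4a7640S.Resid

/-!
# Congruence functions are aperiodic

Module P4a7640S.AperQ (1.3 h). Imports are black boxes.

Let `ξ` be a character mod `r > 0`, `m = q r`. The terms `(1 - Re (u p conj ξ p))/p` of `DD u ξ 0 N` are `≥ 0`. For a
unit `a` mod `m` and primes `p ≡ a (mod m)`, `u p = ψ (a mod q)` and `ξ p = ξ (a mod r)`: the value
`v a = 1 - Re (ψ conj ξ) ≥ 0` depends only on `a`. If `v a > 0` for some `a`, then `DD u ξ 0 N ≥ v a ∑_{p ≤ N, p ≡ a}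
1/p → ∞` (`div_ap` mod `m`). Otherwise `ψ (a mod q) = ξ (a mod r)` for all units `a` mod `m` (both have modulus 1),
and as the units mod `m` map onto the units mod `q` (`ZMod.unitsMap_surjective`), `ψ` is multiplicative: for
`b, b'` choose lifts `a, a'`: `ψ (b b') = ξ (a a') = ξ a ξ a' = ψ b ψ b'`. So `ψ` is a homomorphism `φ`, which
contradicts `h` with `s = 1`.
-/

open Finset Filter Topology
open Pool.Agent.Lib.P4a7640

namespace Pool.Agent.Lib.P4a7640S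

namespace AperQAux

lemma uMap_cast {m n : ℕ} (h : n ∣ m) (a : (ZMod m)ˣ) (p : ℕ) (hp : ((p:ℕ) : ZMod m) = (a : ZMod m)) :
    ((p:ℕ) : ZMod n) = ((ZMod.unitsMap h a : (ZMod n)ˣ) : ZMod n) := by
  rw [ZMod.unitsMap_def]
  show ((p:ℕ) : ZMod n) = ZMod.castHom h (ZMod n) (a : ZMod m)
  rw [← hp, map_natCast]

lemma norm_int_unit (x : ℤˣ) : ‖((x : ℤ) : ℂ)‖ = 1 := by
  rcases Int.units_eq_one_or x with h | h
  · rw [h]; simp
  · rw [h]; simp

lemma norm_term_le {r : ℕ} (ξ : DirichletCharacter ℂ r) (x : ℤˣ) (b : ZMod r) :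
    ‖((x : ℤ) : ℂ) * (starRingEnd ℂ) (ξ b)‖ ≤ 1 := by
  rw [norm_mul, norm_int_unit, one_mul, RCLike.norm_conj]
  exact DirichletCharacter.norm_le_one ξ _

lemma term_nonneg {r : ℕ} (ξ : DirichletCharacter ℂ r) (x : ℤˣ) (b : ZMod r) :
    0 ≤ 1 - (((x : ℤ) : ℂ) * (starRingEnd ℂ) (ξ b)).re := by
  have h1 := (Complex.re_le_norm (((x : ℤ) : ℂ) * (starRingEnd ℂ) (ξ b))).trans (norm_term_le ξ x b)
  linarith

lemma eq_one_of_re {z : ℂ} (h1 : ‖z‖ ≤ 1) (h2 : 1 ≤ z.re) : z = 1 := by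
  have h3 : z.re ^ 2 + z.im ^ 2 ≤ 1 := by
    have h4 : ‖z‖ ^ 2 ≤ 1 := by
      have := norm_nonneg z
      nlinarith
    rw [← Complex.normSq_eq_norm_sq, Complex.normSq_apply] at h4
    nlinarith
  have h5 : z.re = 1 := by nlinarith [sq_nonneg z.im]
  have h6 : z.im = 0 := by
    have : z.im ^ 2 ≤ 0 := by rw [h5] at h3; linarith
    exact pow_eq_zero_iff two_ne_zero |>.1 (le_antisymm this (sq_nonneg _))
  exact Complex.ext h5 h6

lemma eq_of_term {r : ℕ} (ξ : DirichletCharacter ℂ r) (x : ℤˣ) (b : ZMod r)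
    (h : 1 - (((x : ℤ) : ℂ) * (starRingEnd ℂ) (ξ b)).re ≤ 0) : ξ b = ((x : ℤ) : ℂ) := by
  have h1 := eq_one_of_re (norm_term_le ξ x b) (by linarith)
  have h2 : (((x : ℤ) : ℂ)) * ((x : ℤ) : ℂ) = 1 := by
    rcases Int.units_eq_one_or x with h | h
    · rw [h]; simp
    · rw [h]; simp
  have h3 : (starRingEnd ℂ) (ξ b) = ((x : ℤ) : ℂ) := by
    calc (starRingEnd ℂ) (ξ b) = (((x : ℤ) : ℂ) * ((x : ℤ) : ℂ)) * (starRingEnd ℂ) (ξ b) := by
          rw [h2, one_mul]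
      _ = ((x : ℤ) : ℂ) * (((x : ℤ) : ℂ) * (starRingEnd ℂ) (ξ b)) := by ring
      _ = ((x : ℤ) : ℂ) := by rw [h1, mul_one]
  have h4 := congrArg (starRingEnd ℂ) h3
  rw [Complex.conj_conj] at h4
  rw [h4]
  simp

lemma unit_cast_inj {x y : ℤˣ} (h : ((x : ℤ) : ℂ) = ((y : ℤ) : ℂ)) : x = y := by
  apply Units.ext
  exact_mod_cast h

end AperQAux

open AperQAux in
theorem aper_cong {q : ℕ} [NeZero q] (u : ℕ → ℤˣ) (ψ : (ZMod q)ˣ → ℤˣ)
    (hu : ∀ p : ℕ, p.Prime → ∀ a : (ZMod q)ˣ, ((p:ℕ) : ZMod q) = (a : ZMod q) → u p = ψ a)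
    (h : ∀ φ : (ZMod q)ˣ →* ℤˣ, ∃ a, ψ a ≠ φ a) : Aperiodic u := by
  intro r hr ξ
  haveI : NeZero r := ⟨hr.ne'⟩
  haveI : NeZero (q * r) := ⟨Nat.mul_ne_zero (NeZero.ne q) hr.ne'⟩
  set v : (ZMod (q * r))ˣ → ℝ := fun a =>
    1 - ((((ψ (ZMod.unitsMap (dvd_mul_right q r) a) : ℤˣ) : ℤ) : ℂ) *
      (starRingEnd ℂ) (ξ ((ZMod.unitsMap (dvd_mul_left r q) a : (ZMod r)ˣ) : ZMod r))).re with hv
  by_cases hex : ∃ a, 0 < v a
  · obtain ⟨a, ha⟩ := hex
    have hdiv := (div_ap a).const_mul_atTop ha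
    refine tendsto_atTop_mono (fun N => ?_) hdiv
    rw [mul_sum]
    unfold DD
    refine sum_le_sum fun p hp => ?_
    have hpp : p.Prime := (mem_filter.1 hp).2
    have hp0 : (0:ℝ) < p := by exact_mod_cast hpp.pos
    by_cases hpa : ((p:ℕ) : ZMod (q * r)) = (a : ZMod (q * r))
    · rw [if_pos hpa]
      have h1 := hu p hpp _ (uMap_cast (dvd_mul_right q r) a p hpa)
      have h2 := uMap_cast (dvd_mul_left r q) a p hpa
      rw [h1, h2, mul_one_div]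
    · rw [if_neg hpa, mul_zero]
      exact div_nonneg (term_nonneg ξ _ _) hp0.le
  · exfalso
    push Not at hex
    have key : ∀ a : (ZMod (q * r))ˣ,
        ξ ((ZMod.unitsMap (dvd_mul_left r q) a : (ZMod r)ˣ) : ZMod r) =
          (((ψ (ZMod.unitsMap (dvd_mul_right q r) a) : ℤˣ) : ℤ) : ℂ) := fun a => eq_of_term ξ _ _ (hex a)
    have hmul : ∀ b b' : (ZMod q)ˣ, ψ (b * b') = ψ b * ψ b' := by
      intro b b'
      obtain ⟨a, rfl⟩ := ZMod.unitsMap_surjective (dvd_mul_right q r) b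
      obtain ⟨a', rfl⟩ := ZMod.unitsMap_surjective (dvd_mul_right q r) b'
      apply unit_cast_inj
      rw [← map_mul, ← key, map_mul, Units.val_mul, map_mul, key, key]
      push_cast
      rfl
    obtain ⟨a, ha⟩ := h (MonoidHom.mk' ψ hmul)
    exact ha rfl

end Pool.Agent.Lib.P4a7640S
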