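import Mathlib
import Pool.Agent.Lib.P4a7640C.Shatter

/-!
# Many patterns and large shattered sets
-/

open Finset Filter Topology
open Pool.Agent.Lib.P4a7640 Pool.Agent.Lib.P4a7640C

namespace Pool.Agent.Lib.P4a7640S

/-- Either `f` or `g` has many patterns on `J` (product more than `exp (L^α)`, `L = |J|`), and `J` has
a subset `J'` of at least `L^α` elements on which all sign patterns occur in `f`, or all occur in `g`
(with positive upper logarithmic density along `l`). -/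
def Rich (f g : ℕ → ℤˣ) (l : Filter ℕ) (J : Finset ℕ) (α : ℝ) : Prop :=
  Real.exp ((J.card : ℝ) ^ α) < ((patJ f l J).card : ℝ) * (patJ g l J).card ∧
    ∃ J' ⊆ J, (J.card : ℝ) ^ α ≤ J'.card ∧
      ((∀ x : J' → ℤˣ, x ∈ patJ f l J') ∨ ∀ x : J' → ℤˣ, x ∈ patJ g l J')

theorem rich_arith {α α' : ℝ} (hα' : 0 < α') (h : α < α') :
    ∀ᶠ L : ℕ in atTop, (L:ℝ) ^ α ≤ (L:ℝ) ^ α' ∧
      ((L:ℝ) + 1) ^ (2 * ⌈(L:ℝ) ^ α⌉₊) ≤ Real.exp ((L:ℝ) ^ α') := by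
  have h1 : Tendsto (fun L : ℕ => (L:ℝ)) atTop atTop := tendsto_natCast_atTop_atTop
  -- log (L+1) is small against powers
  set s : ℝ := (α' - max α 0) / 2 with hs
  have hm : max α 0 < α' := max_lt h hα'
  have hs0 : 0 < s := by rw [hs]; linarith
  have h2 : Tendsto (fun x : ℝ => Real.log x / x ^ s) atTop (𝓝 0) :=
    (isLittleO_log_rpow_atTop hs0).tendsto_div_nhds_zero
  have h3 := (h2.comp h1).eventually (gt_mem_nhds (show (0:ℝ) < 1 / 8 by norm_num))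
  have h4 : Tendsto (fun L : ℕ => (L:ℝ) ^ s) atTop atTop := (tendsto_rpow_atTop hs0).comp h1
  filter_upwards [h3, h4.eventually_ge_atTop 1, eventually_ge_atTop 2] with L e1 e2 e3
  have hL : (2:ℝ) ≤ L := by exact_mod_cast e3
  have hL0 : (0:ℝ) < L := by linarith
  have hL1 : (1:ℝ) ≤ L := by linarith
  refine ⟨Real.rpow_le_rpow_of_exponent_le hL1 h.le, ?_⟩
  have e4 : Real.log L ≤ 1 / 8 * (L:ℝ) ^ s := by
    have := e1
    simp only [Function.comp] at this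
    rw [div_lt_iff₀ (by positivity)] at this
    exact this.le
  have e5 : Real.log ((L:ℝ) + 1) ≤ 2 * Real.log L := by
    have : Real.log ((L:ℝ) + 1) ≤ Real.log ((L:ℝ) ^ 2) :=
      Real.log_le_log (by linarith) (by nlinarith)
    rwa [Real.log_pow] at this
  have hd : ((⌈(L:ℝ) ^ α⌉₊ : ℕ) : ℝ) ≤ 2 * (L:ℝ) ^ (max α 0) := by
    have h5 : (L:ℝ) ^ α ≤ (L:ℝ) ^ (max α 0) :=
      Real.rpow_le_rpow_of_exponent_le hL1 (le_max_left _ _)
    have h6 : 1 ≤ (L:ℝ) ^ (max α 0) := Real.one_le_rpow hL1 (le_max_right _ _)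
    have h7 := (Nat.ceil_lt_add_one (show 0 ≤ (L:ℝ) ^ α by positivity)).le
    linarith
  rw [← Real.exp_log (show (0:ℝ) < ((L:ℝ) + 1) ^ (2 * ⌈(L:ℝ) ^ α⌉₊) by positivity)]
  apply Real.exp_le_exp.2
  rw [Real.log_pow]
  push_cast
  have hlog : 0 ≤ Real.log L := Real.log_nonneg hL1
  have e6 : (L:ℝ) ^ (max α 0) * (L:ℝ) ^ s ≤ (L:ℝ) ^ α' := by
    rw [← Real.rpow_add hL0]
    apply Real.rpow_le_rpow_of_exponent_le hL1
    rw [hs]; linarith
  have h6 : 1 ≤ (L:ℝ) ^ (max α 0) := Real.one_le_rpow hL1 (le_max_right _ _)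
  calc 2 * ((⌈(L:ℝ) ^ α⌉₊ : ℕ) : ℝ) * Real.log ((L:ℝ) + 1)
      ≤ 2 * (2 * (L:ℝ) ^ (max α 0)) * (2 * Real.log L) := by
        apply mul_le_mul (by linarith) e5 (Real.log_nonneg (by linarith)) (by positivity)
    _ = 8 * (L:ℝ) ^ (max α 0) * Real.log L := by ring
    _ ≤ 8 * (L:ℝ) ^ (max α 0) * (1 / 8 * (L:ℝ) ^ s) :=
        mul_le_mul_of_nonneg_left e4 (by positivity)
    _ = (L:ℝ) ^ (max α 0) * (L:ℝ) ^ s := by ring
    _ ≤ _ := e6

theorem rich_of_large {α α' : ℝ} (hα' : 0 < α') (h : α < α') : ∃ L₀ : ℕ, ∀ (f g : ℕ → ℤˣ)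
    (l : Filter ℕ) (J : Finset ℕ), L₀ ≤ J.card →
    Real.exp ((J.card : ℝ) ^ α') < ((patJ f l J).card : ℝ) * (patJ g l J).card →
    Rich f g l J α := by
  obtain ⟨L₀, hL₀⟩ := eventually_atTop.1 (rich_arith hα' h)
  refine ⟨L₀, fun f g l J hJ hlarge => ?_⟩
  obtain ⟨h1, h2⟩ := hL₀ J.card hJ
  refine ⟨(Real.exp_le_exp.2 h1).trans_lt hlarge, ?_⟩
  have h3 : (J.card + 1) ^ (2 * ⌈(J.card:ℝ) ^ α⌉₊) < (patJ f l J).card * (patJ g l J).card := by
    have := h2.trans_lt hlarge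
    exact_mod_cast this
  obtain ⟨J', hJ', hc, hp⟩ := shat_main f g l J _ h3
  refine ⟨J', hJ', ?_, hp⟩
  refine (Nat.le_ceil _).trans ?_
  exact_mod_cast hc.le

end Pool.Agent.Lib.P4a7640S
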