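import Mathlib
import Pool.Agent.Lib.P4a7640.Defs

/-!
# Smooth mean values on primes, Dirichlet series of functions supported at the top primes
-/

open Finset Filter Topology
open Pool.Agent.Lib.P4a7640

namespace Pool.Agent.Lib.P4a7640S

/-- `u p * conj (χ p)` -/
noncomputable def ze (u : ℕ → ℤˣ) {q : ℕ} (χ : DirichletCharacter ℂ q) (p : ℕ) : ℂ :=
  (((u p : ℤˣ) : ℤ) : ℂ) * (starRingEnd ℂ) (χ (p : ZMod q))

/-- The smooth mean value of `z` over the primes `p` with `log p` of size about `1/η`: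
`η * ∑ z p * log p / p^(1+η)`. -/
noncomputable def Dm (z : ℕ → ℂ) (η : ℝ) : ℂ :=
  (η : ℂ) * ∑' p : Nat.Primes, z p * ((Real.log p * (p:ℝ) ^ (-1 - η) : ℝ) : ℂ)

/-- `∑ 1 / p^(1+η)` over the primes -/
noncomputable def Sp (η : ℝ) : ℝ := ∑' p : Nat.Primes, (p:ℝ) ^ (-1 - η)

/-- `∑ 1 / n^(1+η)` (the term `n = 0` is zero) -/
noncomputable def Zr (η : ℝ) : ℝ := ∑' n : ℕ, (n:ℝ) ^ (-1 - η)

/-- the primes `N^(1/c) < p ≤ N` -/
def Tp (c N : ℕ) : Finset ℕ := (Icc 1 N).filter (fun p => p.Prime ∧ N < p ^ c)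

/-- the product of `z p` over the primes `p` in `T` dividing `n` -/
def wT (z : ℕ → ℂ) (T : Finset ℕ) (n : ℕ) : ℂ := ∏ p ∈ T.filter (fun p => p ∣ n), z p

/-- the Dirichlet series of `wT z T` at `1 + lam / log N`, divided by `log N` -/
noncomputable def gN (z : ℕ → ℂ) (T : Finset ℕ) (N : ℕ) (lam : ℝ) : ℂ :=
  ((Real.log N)⁻¹ : ℝ) * ∑' n : ℕ, wT z T n * (((n:ℝ) ^ (-1 - lam / Real.log N) : ℝ) : ℂ)

/-- the part `N^(1/B) ≤ n ≤ N` of the series of `gN` -/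
noncomputable def mid (z : ℕ → ℂ) (T : Finset ℕ) (N B : ℕ) (lam : ℝ) : ℂ :=
  ((Real.log N)⁻¹ : ℝ) * ∑ n ∈ (Icc 1 N).filter (fun n => N ≤ n ^ B),
    wT z T n * (((n:ℝ) ^ (-1 - lam / Real.log N) : ℝ) : ℂ)

/-- `∑ (1 - Re z(p))/p` over `N^(1/c) < p ≤ N` is at most `b log c + K + o(1)` along `l` -/
def MassB (l : Filter ℕ) (z : ℕ → ℂ) (b K : ℝ) : Prop :=
  ∀ c : ℕ, 1 ≤ c → ∀ δ : ℝ, 0 < δ → ∀ᶠ N in l,
    ∑ p ∈ Tp c N, (1 - (z p).re) / (p:ℝ) ≤ b * Real.log c + K + δ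

end Pool.Agent.Lib.P4a7640S
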