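import Mathlib
import Pool.Agent.Lib.P4a7640S.Base

/-!
# Sums over primes near the pole of the zeta function

Module P4a7640S.ZetaA (1.5 h).

`summable_Sp`: `Nat.Primes.summable_rpow`. `summable_Zr`: `Real.summable_nat_rpow`.
`Zr_ge`: integral comparison, `∑_{n ≥ 1} n^(-1-η) ≥ ∫_1^∞ x^(-1-η) dx = 1/η`
(`AntitoneOn.integral_le_sum` on `[1, M+1]`, then `M → ∞`; `integral_rpow`).
`tendsto_Zr`: `riemannZeta_residue_one` along `s = 1 + η` and `zeta_eq_tsum_one_div_nat_cpow` (or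
`zeta_nat_eq_tsum_of_gt_one`-like lemmas) to identify `Zr η` with the value of `riemannZeta (1 + η)`.
`Sp_diff`: Euler product `riemannZeta_eulerProduct_exp_log` (exp of `∑_p -log (1 - p^(-s))`), real version:
`log (Zr η) = Sp η + H η` with `H η = ∑_p (-log (1 - x_p) - x_p)`, `x_p = p^(-1-η) ≤ 1/p ≤ 1/2`,
`0 ≤ -log (1 - x) - x ≤ x^2`; `H η → H 0` by `tendsto_tsum_of_dominated_convergence` (bound `1/p^2`), so
`H η - H (κ η) → 0`, and `Zr η / Zr (κ η) → κ` by `tendsto_Zr`.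
-/

open Finset Filter Topology
open Pool.Agent.Lib.P4a7640

namespace Pool.Agent.Lib.P4a7640S

theorem summable_Sp {η : ℝ} (hη : 0 < η) : Summable fun p : Nat.Primes => (p:ℝ) ^ (-1 - η) :=
  Nat.Primes.summable_rpow.2 (by linarith)

theorem summable_Zr {η : ℝ} (hη : 0 < η) : Summable fun n : ℕ => (n:ℝ) ^ (-1 - η) :=
  Real.summable_nat_rpow.2 (by linarith)

private theorem tele {η : ℝ} (hη : 0 < η) (n : ℕ) :
    (((n + 1 : ℕ) : ℝ) ^ (-η) - ((n + 2 : ℕ) : ℝ) ^ (-η)) / η ≤ ((n + 1 : ℕ) : ℝ) ^ (-1 - η) := by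
  have hn : (0:ℝ) < ((n + 1 : ℕ) : ℝ) := by positivity
  set x : ℝ := ((n + 1 : ℕ) : ℝ) with hx
  have hx2 : ((n + 2 : ℕ) : ℝ) = x * (1 + 1 / x) := by
    rw [hx]; push_cast; field_simp; ring
  have h1 : (0:ℝ) < 1 + 1 / x := by positivity
  have h2 : 1 - η / x ≤ (1 + 1 / x) ^ (-η) := by
    rw [Real.rpow_def_of_pos h1]
    have h3 : Real.log (1 + 1 / x) ≤ 1 / x := by
      have := Real.log_le_sub_one_of_pos h1
      linarith
    have h4 := Real.add_one_le_exp (Real.log (1 + 1 / x) * -η)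
    have h5 : Real.log (1 + 1 / x) * η ≤ 1 / x * η := mul_le_mul_of_nonneg_right h3 hη.le
    have h6 : 1 / x * η = η / x := by ring
    linarith
  rw [hx2, Real.mul_rpow hn.le h1.le, div_le_iff₀ hη]
  have h7 : x ^ (-1 - η) = x ^ (-η) / x := by
    rw [show (-1 - η : ℝ) = -η - 1 by ring, Real.rpow_sub_one hn.ne']
  rw [h7]
  have h8 : 0 < x ^ (-η) := Real.rpow_pos_of_pos hn _
  have h9 := mul_le_mul_of_nonneg_left h2 h8.le
  have h10 : x ^ (-η) * (1 - η / x) = x ^ (-η) - x ^ (-η) / x * η := by ring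
  linarith

theorem Zr_ge {η : ℝ} (hη : 0 < η) : 1 / η ≤ Zr η := by
  have hs : Summable fun n : ℕ => ((n + 1 : ℕ) : ℝ) ^ (-1 - η) :=
    (summable_nat_add_iff 1).2 (summable_Zr hη)
  have h0 : Zr η = ∑' n : ℕ, ((n + 1 : ℕ) : ℝ) ^ (-1 - η) := by
    unfold Zr
    rw [(summable_Zr hη).tsum_eq_zero_add]
    rw [Nat.cast_zero, Real.zero_rpow (by linarith : (-1 - η) ≠ 0), zero_add]
  rw [h0]
  have hpart : ∀ M : ℕ, (1 - ((M + 1 : ℕ) : ℝ) ^ (-η)) / η
      ≤ ∑ n ∈ range M, ((n + 1 : ℕ) : ℝ) ^ (-1 - η) := by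
    intro M
    induction M with
    | zero => simp
    | succ M ih =>
      rw [Finset.sum_range_succ]
      have h1 := tele hη M
      have h2 : (1 - ((M + 1 + 1 : ℕ) : ℝ) ^ (-η)) / η = (1 - ((M + 1 : ℕ) : ℝ) ^ (-η)) / η
          + (((M + 1 : ℕ) : ℝ) ^ (-η) - ((M + 2 : ℕ) : ℝ) ^ (-η)) / η := by
        ring
      rw [h2]
      exact add_le_add ih h1
  have hlim : Tendsto (fun M : ℕ => (1 - ((M + 1 : ℕ) : ℝ) ^ (-η)) / η) atTop (𝓝 (1 / η)) := by
    have h1 : Tendsto (fun M : ℕ => ((M + 1 : ℕ) : ℝ) ^ (-η)) atTop (𝓝 0) :=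
      (tendsto_rpow_neg_atTop hη).comp
        (tendsto_natCast_atTop_atTop.comp (tendsto_add_atTop_nat 1))
    have h2 := (tendsto_const_nhds (x := (1:ℝ))).sub h1
    rw [sub_zero] at h2
    exact h2.div_const η
  refine le_of_tendsto hlim (Filter.Eventually.of_forall (fun M => (hpart M).trans ?_))
  exact hs.sum_le_tsum _ (fun n _ => Real.rpow_nonneg (Nat.cast_nonneg _) _)

private theorem Zr_eq {η : ℝ} (hη : 0 < η) : Zr η = ∑' n : ℕ, 1 / (n : ℝ) ^ (1 + η) := by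
  unfold Zr
  refine tsum_congr (fun n => ?_)
  rw [show (-1 - η : ℝ) = -(1 + η) by ring, Real.rpow_neg (Nat.cast_nonneg _), one_div]

theorem tendsto_Zr : Tendsto (fun η => η * Zr η) (𝓝[>] 0) (𝓝 1) := by
  have h1 : Tendsto (fun η : ℝ => 1 + η) (𝓝[>] 0) (𝓝[>] 1) := by
    apply tendsto_nhdsWithin_of_tendsto_nhds_of_eventually_within
    · have : Tendsto (fun η : ℝ => 1 + η) (𝓝 0) (𝓝 (1 + 0)) :=
        (continuous_const.add continuous_id).tendsto 0
      rw [add_zero] at this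
      exact this.mono_left nhdsWithin_le_nhds
    · filter_upwards [self_mem_nhdsWithin] with η hη
      have : (0:ℝ) < η := hη
      show (1:ℝ) < 1 + η
      linarith
  refine (tendsto_sub_mul_tsum_nat_rpow.comp h1).congr' ?_
  filter_upwards [self_mem_nhdsWithin] with η hη
  rw [Zr_eq (show (0:ℝ) < η from hη)]
  simp only [Function.comp_apply, add_sub_cancel_left]

private theorem prime_ge_two (p : Nat.Primes) : (2:ℝ) ≤ (p:ℝ) := by
  have := p.2.two_le
  exact_mod_cast this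

private theorem xp_bounds {η : ℝ} (hη : 0 ≤ η) (p : Nat.Primes) :
    0 < (p:ℝ) ^ (-1 - η) ∧ (p:ℝ) ^ (-1 - η) ≤ (p:ℝ)⁻¹ ∧ (p:ℝ) ^ (-1 - η) ≤ 1 / 2 := by
  have h2 := prime_ge_two p
  have h0 : (0:ℝ) < (p:ℝ) := by linarith
  have h3 : (p:ℝ) ^ (-1 - η) ≤ (p:ℝ)⁻¹ := by
    rw [← Real.rpow_neg_one]
    exact Real.rpow_le_rpow_of_exponent_le (by linarith) (by linarith)
  refine ⟨Real.rpow_pos_of_pos h0 _, h3, h3.trans ?_⟩
  rw [one_div]
  exact inv_anti₀ (by norm_num) h2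

private noncomputable def hh (x : ℝ) : ℝ := -Real.log (1 - x) - x

private theorem hh_bound {x : ℝ} (h0 : 0 ≤ x) (h1 : x ≤ 1 / 2) : |hh x| ≤ 2 * x ^ 2 := by
  have h2 : |x| < 1 := by rw [abs_of_nonneg h0]; linarith
  have h3 := Real.abs_log_sub_add_sum_range_le h2 1
  simp only [Finset.range_one, Finset.sum_singleton, zero_add, pow_one, Nat.cast_zero, div_one]
    at h3
  have h4 : |hh x| = |x + Real.log (1 - x)| := by
    unfold hh
    rw [← abs_neg]
    congr 1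
    ring
  rw [h4]
  refine h3.trans ?_
  rw [abs_of_nonneg h0, div_le_iff₀ (by linarith)]
  have h5 : 0 ≤ x ^ 2 * (1 - 2 * x) := mul_nonneg (sq_nonneg x) (by linarith)
  have h6 : x ^ (1 + 1) = x ^ 2 := by norm_num
  rw [h6]
  nlinarith [h5]

private theorem log_Zr {η : ℝ} (hη : 0 < η) :
    Real.log (Zr η) = Sp η + ∑' p : Nat.Primes, hh ((p:ℝ) ^ (-1 - η)) := by
  have hs : Summable fun p : Nat.Primes => hh ((p:ℝ) ^ (-1 - η)) := by
    have hb : Summable fun p : Nat.Primes => 2 * ((p:ℝ) ^ (-2 : ℝ)) :=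
      (Nat.Primes.summable_rpow.2 (by norm_num)).mul_left 2
    refine Summable.of_norm_bounded hb (fun p => ?_)
    obtain ⟨h1, h2, h3⟩ := xp_bounds hη.le p
    rw [Real.norm_eq_abs]
    refine (hh_bound h1.le h3).trans ?_
    have h0 : (0:ℝ) < (p:ℝ) := by linarith [prime_ge_two p]
    have h4 : (p:ℝ) ^ (-2 : ℝ) = ((p:ℝ)⁻¹) ^ 2 := by
      rw [Real.rpow_neg h0.le, inv_pow]
      norm_num
    rw [h4]
    have := pow_le_pow_left₀ h1.le h2 2
    linarith
  have hre : (1:ℝ) < ((1 + η : ℝ) : ℂ).re := by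
    rw [Complex.ofReal_re]; linarith
  have h1 := riemannZeta_eulerProduct_exp_log hre
  have h2 : ∀ p : Nat.Primes, -Complex.log (1 - (p:ℂ) ^ (-((1 + η : ℝ) : ℂ)))
      = ((-Real.log (1 - (p:ℝ) ^ (-1 - η)) : ℝ) : ℂ) := by
    intro p
    obtain ⟨h3, _, h5⟩ := xp_bounds hη.le p
    have h0 : (0:ℝ) ≤ (p:ℝ) := by linarith [prime_ge_two p]
    have h6 : (p:ℂ) ^ (-((1 + η : ℝ) : ℂ)) = (((p:ℝ) ^ (-1 - η) : ℝ) : ℂ) := by
      rw [Complex.ofReal_cpow h0]
      push_cast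
      congr 1
      ring
    rw [h6, Complex.ofReal_neg, Complex.ofReal_log (by linarith)]
    push_cast
    rfl
  rw [tsum_congr h2, ← Complex.ofReal_tsum, ← Complex.ofReal_exp,
    zeta_eq_tsum_one_div_nat_cpow hre] at h1
  have h3 : (∑' n : ℕ, 1 / (n:ℂ) ^ ((1 + η : ℝ) : ℂ)) = ((Zr η : ℝ) : ℂ) := by
    rw [Zr_eq hη, Complex.ofReal_tsum]
    refine tsum_congr (fun n => ?_)
    rw [Complex.ofReal_div, Complex.ofReal_cpow (Nat.cast_nonneg _)]
    push_cast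
    rfl
  rw [h3] at h1
  have h4 : Real.exp (∑' p : Nat.Primes, -Real.log (1 - (p:ℝ) ^ (-1 - η))) = Zr η :=
    Complex.ofReal_injective h1
  rw [← h4, Real.log_exp]
  unfold Sp
  rw [← (summable_Sp hη).tsum_add hs]
  refine tsum_congr (fun p => ?_)
  unfold hh
  ring

private theorem tendsto_H {κ : ℝ} (hκ : 0 < κ) :
    Tendsto (fun η => ∑' p : Nat.Primes, hh ((p:ℝ) ^ (-1 - κ * η))) (𝓝[>] 0)
      (𝓝 (∑' p : Nat.Primes, hh ((p:ℝ) ^ (-1 : ℝ)))) := by
  have hb : Summable fun p : Nat.Primes => 2 * ((p:ℝ) ^ (-2 : ℝ)) :=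
    (Nat.Primes.summable_rpow.2 (by norm_num)).mul_left 2
  refine tendsto_tsum_of_dominated_convergence hb ?_ ?_
  · intro p
    have h2 := prime_ge_two p
    have h0 : (0:ℝ) < (p:ℝ) := by linarith
    have hc1 : ContinuousAt (fun η : ℝ => (p:ℝ) ^ (-1 - κ * η)) 0 := by
      apply Continuous.continuousAt
      exact Continuous.rpow continuous_const (by fun_prop) (fun _ => Or.inl h0.ne')
    have hv : (p:ℝ) ^ (-1 - κ * 0) = (p:ℝ) ^ (-1 : ℝ) := by norm_num
    have h5 : (p:ℝ) ^ (-1 - κ * 0) ≤ 1 / 2 := by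
      rw [hv, Real.rpow_neg_one, one_div]
      exact inv_anti₀ (by norm_num) h2
    have hc2 : ContinuousAt (fun η : ℝ => hh ((p:ℝ) ^ (-1 - κ * η))) 0 := by
      unfold hh
      refine ContinuousAt.sub (ContinuousAt.neg (ContinuousAt.log
        (continuousAt_const.sub hc1) ?_)) hc1
      have : (0:ℝ) < 1 - (p:ℝ) ^ (-1 - κ * 0) := by linarith
      exact this.ne'
    have h6 := hc2.tendsto
    rw [hv] at h6
    exact h6.mono_left nhdsWithin_le_nhds
  · filter_upwards [self_mem_nhdsWithin] with η hη p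
    have hη' : (0:ℝ) < η := hη
    obtain ⟨h1, h2, h3⟩ := xp_bounds (mul_pos hκ hη').le p
    rw [Real.norm_eq_abs]
    refine (hh_bound h1.le h3).trans ?_
    have h0 : (0:ℝ) < (p:ℝ) := by linarith [prime_ge_two p]
    have h4 : (p:ℝ) ^ (-2 : ℝ) = ((p:ℝ)⁻¹) ^ 2 := by
      rw [Real.rpow_neg h0.le, inv_pow]
      norm_num
    rw [h4]
    have := pow_le_pow_left₀ h1.le h2 2
    linarith

theorem Sp_diff {κ : ℝ} (hκ : 1 < κ) :
    Tendsto (fun η => Sp η - Sp (κ * η)) (𝓝[>] 0) (𝓝 (Real.log κ)) := by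
  have hκ0 : 0 < κ := by linarith
  have hscale : Tendsto (fun η : ℝ => κ * η) (𝓝[>] 0) (𝓝[>] 0) := by
    apply tendsto_nhdsWithin_of_tendsto_nhds_of_eventually_within
    · have : Tendsto (fun η : ℝ => κ * η) (𝓝 0) (𝓝 (κ * 0)) :=
        (continuous_const.mul continuous_id).tendsto 0
      rw [mul_zero] at this
      exact this.mono_left nhdsWithin_le_nhds
    · filter_upwards [self_mem_nhdsWithin] with η hη
      exact mul_pos hκ0 hη
  have h1 := (Real.continuousAt_log one_ne_zero).tendsto.comp tendsto_Zr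
  have h2 := h1.comp hscale
  rw [Real.log_one] at h1 h2
  have h3 := h1.sub h2
  have hH1 := tendsto_H (κ := 1) one_pos
  have hH2 := tendsto_H hκ0
  have h4 := (h3.sub (hH1.sub hH2)).add_const (Real.log κ)
  simp only [sub_self, zero_add] at h4
  refine h4.congr' ?_
  filter_upwards [self_mem_nhdsWithin] with η hη
  have hη' : (0:ℝ) < η := hη
  have hκη : 0 < κ * η := mul_pos hκ0 hη'
  have hZ1 : 0 < Zr η := lt_of_lt_of_le (by positivity) (Zr_ge hη')
  have hZ2 : 0 < Zr (κ * η) := lt_of_lt_of_le (by positivity) (Zr_ge hκη)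
  simp only [Function.comp_apply, one_mul]
  rw [Real.log_mul hη'.ne' hZ1.ne', Real.log_mul hκη.ne' hZ2.ne', Real.log_mul hκ0.ne' hη'.ne',
    log_Zr hη', log_Zr hκη]
  ring

end Pool.Agent.Lib.P4a7640S
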