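import Mathlib
import Pool.Agent.Lib.P4a7640S.ZetaA

/-!
# The Euler product

Module P4a7640S.Euler (1 h). Imports are black boxes.

`norm_wT_le`: product of numbers of norm at most 1. `gN_eq`: it suffices to show, for `η > 0`,
`∑' n, wT z T n * n^(-1-η) = Zr η * ∏ p ∈ T, (1 - (1 - z p) p^(-1-η))`, by induction on `T` (`Finset.induction_on`):
for a prime `p ∉ T`: `wT z (insert p T) n = wT z T n + (if p ∣ n then (z p - 1) * wT z T n else 0)`, and
`∑_{p ∣ n} wT z T n n^(-1-η) = p^(-1-η) ∑_m wT z T m m^(-1-η)` since for `r ∈ T` (a prime `≠ p`)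
`r ∣ p m ↔ r ∣ m` (reindex `n = p m`: `tsum_eq_tsum_of_ne_zero_bij` or `Function.Injective.tsum_eq`;
`Real.mul_rpow`). All series converge absolutely (`summable_Zr`).
-/

open Finset Filter Topology
open Pool.Agent.Lib.P4a7640

namespace Pool.Agent.Lib.P4a7640S

theorem norm_wT_le {z : ℕ → ℂ} (hz : ∀ p, ‖z p‖ ≤ 1) (T : Finset ℕ) (n : ℕ) : ‖wT z T n‖ ≤ 1 := by
  unfold wT
  rw [norm_prod]
  exact Finset.prod_le_one (fun _ _ => norm_nonneg _) (fun p _ => hz p)

namespace EulerAux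

theorem wT_insert {z : ℕ → ℂ} {T : Finset ℕ} {p : ℕ} (hp : p ∉ T) (n : ℕ) :
    wT z (insert p T) n = wT z T n + (if p ∣ n then (z p - 1) * wT z T n else 0) := by
  unfold wT
  rw [Finset.filter_insert]
  split_ifs with h
  · rw [Finset.prod_insert (by simp [hp])]
    ring
  · simp

theorem wT_mul {z : ℕ → ℂ} {T : Finset ℕ} {p : ℕ} (hT : ∀ r ∈ T, r.Prime) (hpp : p.Prime)
    (hp : p ∉ T) (m : ℕ) : wT z T (p * m) = wT z T m := by
  unfold wT
  congr 1
  apply Finset.filter_congr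
  intro r hr
  have hne : r ≠ p := fun h => hp (h ▸ hr)
  have hc : Nat.Coprime r p := (Nat.coprime_primes (hT r hr) hpp).2 hne
  exact hc.dvd_mul_left

theorem summable_wT {z : ℕ → ℂ} (hz : ∀ p, ‖z p‖ ≤ 1) (T : Finset ℕ) {η : ℝ} (hη : 0 < η) :
    Summable fun n : ℕ => wT z T n * (((n:ℝ) ^ (-1 - η) : ℝ) : ℂ) := by
  refine Summable.of_norm_bounded (summable_Zr hη) (fun n => ?_)
  rw [norm_mul, Complex.norm_real, Real.norm_of_nonneg (Real.rpow_nonneg (Nat.cast_nonneg n) _)]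
  calc ‖wT z T n‖ * (n:ℝ) ^ (-1 - η) ≤ 1 * (n:ℝ) ^ (-1 - η) :=
        mul_le_mul_of_nonneg_right (norm_wT_le hz T n) (Real.rpow_nonneg (Nat.cast_nonneg n) _)
    _ = (n:ℝ) ^ (-1 - η) := one_mul _

theorem euler {z : ℕ → ℂ} (hz : ∀ p, ‖z p‖ ≤ 1) {η : ℝ} (hη : 0 < η) (T : Finset ℕ)
    (hT : ∀ p ∈ T, p.Prime) :
    ∑' n : ℕ, wT z T n * (((n:ℝ) ^ (-1 - η) : ℝ) : ℂ) =
      (Zr η : ℂ) * ∏ p ∈ T, (1 - (1 - z p) * (((p:ℝ) ^ (-1 - η) : ℝ) : ℂ)) := by
  induction T using Finset.induction_on with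
  | empty =>
    simp only [Finset.prod_empty, mul_one]
    unfold Zr
    rw [Complex.ofReal_tsum]
    refine tsum_congr (fun n => ?_)
    simp [wT]
  | insert p T hp ih =>
    have hpp : p.Prime := hT p (Finset.mem_insert_self p T)
    have hT' : ∀ r ∈ T, r.Prime := fun r hr => hT r (Finset.mem_insert_of_mem hr)
    have ih' := ih hT'
    set f : ℕ → ℂ := fun n => wT z T n * (((n:ℝ) ^ (-1 - η) : ℝ) : ℂ) with hf
    set g : ℕ → ℂ := fun n => if p ∣ n then (z p - 1) * f n else 0 with hg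
    have hsf : Summable f := summable_wT hz T hη
    have hsg : Summable g := by
      refine Summable.of_norm_bounded ((hsf.mul_left (z p - 1)).norm) (fun n => ?_)
      simp only [hg]
      split_ifs
      · exact le_refl _
      · rw [norm_zero]; exact norm_nonneg _
    have h1 : ∀ n, wT z (insert p T) n * (((n:ℝ) ^ (-1 - η) : ℝ) : ℂ) = f n + g n := by
      intro n
      rw [wT_insert hp]
      simp only [hf, hg]
      split_ifs <;> ring
    have hinj : Function.Injective (fun m : ℕ => p * m) := fun a b h =>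
      Nat.eq_of_mul_eq_mul_left hpp.pos h
    have hsupp : Function.support g ⊆ Set.range (fun m : ℕ => p * m) := by
      intro n hn
      by_cases h : p ∣ n
      · obtain ⟨m, rfl⟩ := h
        exact ⟨m, rfl⟩
      · exact absurd (by simp only [hg, if_neg h]) hn
    have h2 : ∑' n, g n = ((z p - 1) * (((p:ℝ) ^ (-1 - η) : ℝ) : ℂ)) * ∑' n, f n := by
      rw [← hinj.tsum_eq hsupp, ← tsum_mul_left]
      refine tsum_congr (fun m => ?_)
      simp only [hg, hf, if_pos (Dvd.intro m rfl : p ∣ p * m)]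
      rw [wT_mul hT' hpp hp, Nat.cast_mul,
        Real.mul_rpow (Nat.cast_nonneg p) (Nat.cast_nonneg m), Complex.ofReal_mul]
      ring
    rw [tsum_congr h1, hsf.tsum_add hsg, h2, ih', Finset.prod_insert hp]
    ring

end EulerAux

theorem gN_eq {z : ℕ → ℂ} (hz : ∀ p, ‖z p‖ ≤ 1) {T : Finset ℕ} (hT : ∀ p ∈ T, p.Prime) {N : ℕ}
    (hN : 2 ≤ N) {lam : ℝ} (hlam : 0 < lam) :
    gN z T N lam = (((Real.log N)⁻¹ * Zr (lam / Real.log N) : ℝ) : ℂ) *
      ∏ p ∈ T, (1 - (1 - z p) * (((p:ℝ) ^ (-1 - lam / Real.log N) : ℝ) : ℂ)) := by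
  have hlog : 0 < Real.log N := Real.log_pos (by exact_mod_cast hN)
  have hη : 0 < lam / Real.log N := div_pos hlam hlog
  unfold gN
  rw [EulerAux.euler hz hη T hT, Complex.ofReal_mul, mul_assoc]

end Pool.Agent.Lib.P4a7640S
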