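import Mathlib
import Pool.Agent.Lib.P4a7640S.Euler

/-!
# The part `n^B < N` is close to a polynomial

Module P4a7640S.Decomp (1.3 h). Imports are black boxes.

With `t = log n/log N`: `n^(-1-lam/log N) = n⁻¹ exp (-lam t)` for `n ≥ 1`. Split the series of `gN` at
`n^B < N` / `N ≤ n^B, n ≤ N` / `N < n`. First part: `|exp (-x) - ∑_{j<m} (-x)^j/j!| ≤ x^m/m! ≤ x^m` for
`x = lam t ∈ [0, lam/B]` (`x ≤ 1`; e.g. `Real.exp_bound`-type or the alternating Taylor remainder; for `0 ≤ x ≤ 1`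
the remainder is at most `x^m`), and `(log N)⁻¹ ∑_{n^B < N} 1/n ≤ (1 + log N/B)/log N ≤ 1` for `N` large (`B ≥ 2`).
The middle part is `mid`. Tail: `(log N)⁻¹ ∑_{n > N} n^(-1-η) ≤ (log N)⁻¹ N^(-η)/η = exp (-lam)/lam`
(`η = lam/log N`; integral comparison, or `k ≥ N+1`: `k^(-1-η) ≤ ((k-1)^(-η) - k^(-η))/η` and telescoping).
-/

open Finset Filter Topology Polynomial
open Pool.Agent.Lib.P4a7640

namespace Pool.Agent.Lib.P4a7640S

/-- the Taylor polynomial of the part `n^B < N` -/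
noncomputable def QN (z : ℕ → ℂ) (T : Finset ℕ) (N B m : ℕ) : ℂ[X] :=
  ∑ j ∈ range m, C ((((Real.log N)⁻¹ : ℝ) : ℂ) * ∑ n ∈ (Icc 1 N).filter (fun n => n ^ B < N),
    wT z T n * (((n:ℝ)⁻¹ * (-(Real.log n / Real.log N)) ^ j / j.factorial : ℝ) : ℂ)) * X ^ j

theorem QN_deg (z : ℕ → ℂ) (T : Finset ℕ) (N B : ℕ) {m : ℕ} (hm : 1 ≤ m) :
    (QN z T N B m).natDegree < m := by
  have h : (QN z T N B m).natDegree ≤ m - 1 := by
    unfold QN
    apply natDegree_sum_le_of_forall_le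
    intro j hj
    rw [mem_range] at hj
    exact (natDegree_C_mul_X_pow_le _ _).trans (by omega)
  omega

private theorem tay (m : ℕ) {x : ℝ} (h0 : 0 ≤ x) (h1 : x ≤ 1) :
    |Real.exp (-x) - ∑ j ∈ range m, (-x) ^ j / (j.factorial : ℝ)| ≤ x ^ m := by
  rcases Nat.lt_or_ge m 2 with hm | hm
  · interval_cases m
    · simp only [range_zero, sum_empty, sub_zero, pow_zero]
      rw [abs_of_pos (Real.exp_pos _), Real.exp_le_one_iff]
      linarith
    · simp only [sum_range_one, pow_zero, Nat.factorial_zero, Nat.cast_one, div_one, pow_one]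
      rw [abs_le]
      constructor
      · have := Real.add_one_le_exp (-x)
        linarith
      · have : Real.exp (-x) ≤ 1 := by
          rw [Real.exp_le_one_iff]
          linarith
        linarith
  · have hx : |(-x)| ≤ 1 := by rw [abs_neg, abs_of_nonneg h0]; exact h1
    have h2 := Real.exp_bound hx (n := m) (by omega)
    refine h2.trans ?_
    rw [abs_neg, abs_of_nonneg h0]
    have h3 : ((m.succ : ℝ) / (m.factorial * m)) ≤ 1 := by
      have hf : 2 ≤ m.factorial := by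
        calc 2 = Nat.factorial 2 := rfl
          _ ≤ m.factorial := Nat.factorial_le hm
      have hpos : (0:ℝ) < (m.factorial : ℝ) * m := by
        have : 0 < m := by omega
        positivity
      rw [div_le_one hpos]
      have h4 : m.succ ≤ m.factorial * m := by nlinarith
      exact_mod_cast h4
    calc x ^ m * ((m.succ : ℝ) / (m.factorial * m)) ≤ x ^ m * 1 := by gcongr
      _ = x ^ m := mul_one _

private theorem step_up {η : ℝ} (hη : 0 < η) {k : ℕ} (hk : 1 ≤ k) :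
    ((k + 1 : ℕ) : ℝ) ^ (-1 - η) ≤ ((k : ℝ) ^ (-η) - ((k + 1 : ℕ) : ℝ) ^ (-η)) / η := by
  have hk0 : (0:ℝ) < k := by exact_mod_cast hk
  set y : ℝ := ((k + 1 : ℕ) : ℝ) with hy
  have hy0 : 0 < y := by rw [hy]; positivity
  have hky : (k : ℝ) = y * (1 - 1 / y) := by
    rw [mul_sub, mul_one, mul_one_div_cancel hy0.ne', hy]
    push_cast
    ring
  have h1 : 0 < 1 - 1 / y := by
    have : 0 < y * (1 - 1 / y) := hky ▸ hk0
    exact (pos_iff_pos_of_mul_pos this).1 hy0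
  have h2 : 1 + η / y ≤ (1 - 1 / y) ^ (-η) := by
    rw [Real.rpow_def_of_pos h1]
    have h3 : Real.log (1 - 1 / y) ≤ - (1 / y) := by
      have := Real.log_le_sub_one_of_pos h1
      linarith
    have h4 := Real.add_one_le_exp (Real.log (1 - 1 / y) * -η)
    have h5 : Real.log (1 - 1 / y) * η ≤ - (1 / y) * η := mul_le_mul_of_nonneg_right h3 hη.le
    have h6 : - (1 / y) * η = - (η / y) := by ring
    linarith
  rw [hky, Real.mul_rpow hy0.le h1.le, le_div_iff₀ hη]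
  have h7 : y ^ (-1 - η) = y ^ (-η) / y := by
    rw [show (-1 - η : ℝ) = -η - 1 by ring, Real.rpow_sub_one hy0.ne']
  rw [h7]
  have h8 : 0 < y ^ (-η) := Real.rpow_pos_of_pos hy0 _
  have h9 := mul_le_mul_of_nonneg_left h2 h8.le
  have h10 : y ^ (-η) * (1 + η / y) = y ^ (-η) + y ^ (-η) / y * η := by ring
  linarith

private theorem tail_le {η : ℝ} (hη : 0 < η) {N : ℕ} (hN : 1 ≤ N) :
    ∑' n : ℕ, ((n + (N + 1) : ℕ) : ℝ) ^ (-1 - η) ≤ (N : ℝ) ^ (-η) / η := by
  apply Real.tsum_le_of_sum_range_le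
  · intro n
    positivity
  · intro M
    have h : ∑ i ∈ range M, ((i + (N + 1) : ℕ) : ℝ) ^ (-1 - η) ≤
        ((N : ℝ) ^ (-η) - ((N + M : ℕ) : ℝ) ^ (-η)) / η := by
      induction M with
      | zero => simp
      | succ M ih =>
        rw [sum_range_succ]
        have h1 := step_up hη (k := N + M) (by omega)
        have h2 : M + (N + 1) = N + M + 1 := by ring
        rw [h2]
        have h3 : ((N : ℝ) ^ (-η) - ((N + (M + 1) : ℕ) : ℝ) ^ (-η)) / η =
            ((N : ℝ) ^ (-η) - ((N + M : ℕ) : ℝ) ^ (-η)) / η +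
            (((N + M : ℕ) : ℝ) ^ (-η) - ((N + M + 1 : ℕ) : ℝ) ^ (-η)) / η := by
          rw [show N + (M + 1) = N + M + 1 by ring]
          ring
        rw [h3]
        exact add_le_add ih h1
    refine h.trans ?_
    have h4 : 0 ≤ ((N + M : ℕ) : ℝ) ^ (-η) := by positivity
    gcongr
    linarith

private theorem small_sum {B : ℕ} (hB : 2 ≤ B) {N : ℕ} (hL : 2 ≤ Real.log N) :
    ∑ n ∈ (Icc 1 N).filter (fun n => n ^ B < N), (n : ℝ)⁻¹ ≤ Real.log N := by
  have hsub : (Icc 1 N).filter (fun n => n ^ B < N) ⊆ Icc 1 (Nat.sqrt N) := by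
    intro n hn
    rw [mem_filter, mem_Icc] at hn
    rw [mem_Icc]
    refine ⟨hn.1.1, ?_⟩
    rw [Nat.le_sqrt]
    have h1 : n ^ 2 ≤ n ^ B := Nat.pow_le_pow_right hn.1.1 hB
    have h2 : n * n = n ^ 2 := by ring
    rw [h2]
    exact (h1.trans hn.2.le)
  have h1 : ∑ n ∈ (Icc 1 N).filter (fun n => n ^ B < N), (n : ℝ)⁻¹ ≤
      ∑ n ∈ Icc 1 (Nat.sqrt N), (n : ℝ)⁻¹ :=
    sum_le_sum_of_subset_of_nonneg hsub (fun i _ _ => by positivity)
  have h2 : ∑ n ∈ Icc 1 (Nat.sqrt N), (n : ℝ)⁻¹ = ((harmonic (Nat.sqrt N) : ℚ) : ℝ) := by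
    rw [harmonic_eq_sum_Icc]
    push_cast
    rfl
  have h3 := harmonic_le_one_add_log (Nat.sqrt N)
  have h4 : Real.log (Nat.sqrt N) ≤ Real.log N / 2 := by
    rcases Nat.eq_zero_or_pos (Nat.sqrt N) with h0 | h0
    · rw [h0, Nat.cast_zero, Real.log_zero]
      linarith
    · have h5 : Nat.sqrt N * Nat.sqrt N ≤ N := Nat.sqrt_le N
      have h6 : ((Nat.sqrt N : ℝ)) ^ 2 ≤ N := by
        have : ((Nat.sqrt N * Nat.sqrt N : ℕ) : ℝ) ≤ N := by exact_mod_cast h5
        push_cast at this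
        nlinarith
      have h7 : (0:ℝ) < Nat.sqrt N := by exact_mod_cast h0
      have h8 := Real.log_le_log (by positivity) h6
      rw [Real.log_pow] at h8
      push_cast at h8
      linarith
  rw [h2] at h1
  linarith

theorem decomp {B : ℕ} (hB : 2 ≤ B) (m : ℕ) {lam : ℝ} (hlam : 0 < lam) (hlB : lam ≤ B) :
    ∀ᶠ N : ℕ in atTop, ∀ z : ℕ → ℂ, (∀ p, ‖z p‖ ≤ 1) → ∀ T : Finset ℕ,
      ‖gN z T N lam - (QN z T N B m).eval (lam:ℂ)‖ ≤
        (lam / B) ^ m + ‖mid z T N B lam‖ + Real.exp (-lam) / lam := by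
  have hev : ∀ᶠ N : ℕ in atTop, 2 ≤ Real.log (N : ℝ) :=
    (Real.tendsto_log_atTop.comp tendsto_natCast_atTop_atTop).eventually_ge_atTop 2
  filter_upwards [hev, eventually_ge_atTop 2] with N hL hN2 z hz T
  have hN0 : (0:ℝ) < N := by
    have : 0 < N := by omega
    exact_mod_cast this
  set L := Real.log (N : ℝ) with hLdef
  have hL0 : 0 < L := by linarith
  set η := lam / L with hη
  have hη0 : 0 < η := by positivity
  have hBr : (0:ℝ) < B := by
    have : 0 < B := by omega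
    exact_mod_cast this
  set f : ℕ → ℂ := fun n => wT z T n * (((n:ℝ) ^ (-1 - η) : ℝ) : ℂ) with hf
  have hfn : ∀ n, ‖f n‖ ≤ (n:ℝ) ^ (-1 - η) := by
    intro n
    rw [hf]
    simp only [norm_mul, Complex.norm_real]
    rw [Real.norm_of_nonneg (by positivity : (0:ℝ) ≤ (n:ℝ) ^ (-1 - η))]
    calc ‖wT z T n‖ * (n:ℝ) ^ (-1 - η) ≤ 1 * (n:ℝ) ^ (-1 - η) := by
          gcongr
          exact norm_wT_le hz T n
      _ = _ := one_mul _
  have hfs : Summable f := Summable.of_norm_bounded (summable_Zr hη0) hfn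
  have hsplit : ∑' n, f n = ∑ n ∈ range (N + 1), f n + ∑' n, f (n + (N + 1)) :=
    (hfs.sum_add_tsum_nat_add (N + 1)).symm
  have hrange : ∑ n ∈ range (N + 1), f n = ∑ n ∈ Icc 1 N, f n := by
    have h1 : range (N + 1) = insert 0 (Icc 1 N) := by
      ext n
      simp only [mem_range, mem_insert, mem_Icc]
      omega
    rw [h1, sum_insert (by simp)]
    have h2 : f 0 = 0 := by
      rw [hf]
      simp only [Nat.cast_zero]
      rw [Real.zero_rpow (by linarith : (-1 - η) ≠ 0)]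
      simp
    rw [h2, zero_add]
  have hfilt : ∑ n ∈ Icc 1 N, f n = ∑ n ∈ (Icc 1 N).filter (fun n => n ^ B < N), f n +
      ∑ n ∈ (Icc 1 N).filter (fun n => N ≤ n ^ B), f n := by
    rw [← sum_filter_add_sum_filter_not (Icc 1 N) (fun n => n ^ B < N)]
    congr 1
    apply sum_congr _ (fun _ _ => rfl)
    ext n
    simp only [mem_filter, not_lt]
  set A := (Icc 1 N).filter (fun n => n ^ B < N) with hA
  have hg : gN z T N lam = ((L⁻¹ : ℝ) : ℂ) * ∑ n ∈ A, f n + mid z T N B lam +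
      ((L⁻¹ : ℝ) : ℂ) * ∑' n, f (n + (N + 1)) := by
    unfold gN mid
    change ((L⁻¹ : ℝ) : ℂ) * ∑' n, f n = _
    rw [hsplit, hrange, hfilt]
    ring
  have htail : ‖((L⁻¹ : ℝ) : ℂ) * ∑' n, f (n + (N + 1))‖ ≤ Real.exp (-lam) / lam := by
    rw [norm_mul, Complex.norm_real, Real.norm_of_nonneg (by positivity : (0:ℝ) ≤ L⁻¹)]
    have hs2 : Summable fun n : ℕ => ((n + (N + 1) : ℕ) : ℝ) ^ (-1 - η) :=
      (summable_nat_add_iff (N + 1)).2 (summable_Zr hη0)
    have h1 : ‖∑' n, f (n + (N + 1))‖ ≤ ∑' n : ℕ, ((n + (N + 1) : ℕ) : ℝ) ^ (-1 - η) :=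
      tsum_of_norm_bounded hs2.hasSum (fun n => hfn _)
    have h2 := tail_le hη0 (N := N) (by omega)
    have h3 : (N:ℝ) ^ (-η) = Real.exp (-lam) := by
      rw [Real.rpow_def_of_pos hN0]
      congr 1
      rw [hη]
      change L * -(lam / L) = -lam
      field_simp
    rw [h3] at h2
    calc L⁻¹ * ‖∑' n, f (n + (N + 1))‖ ≤ L⁻¹ * (Real.exp (-lam) / η) := by
          gcongr
          exact h1.trans h2
      _ = Real.exp (-lam) / lam := by
          rw [hη]
          field_simp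
  -- the first part
  have hx : ∀ n ∈ A, 0 ≤ lam * (Real.log n / L) ∧ lam * (Real.log n / L) ≤ lam / B := by
    intro n hn
    rw [hA, mem_filter, mem_Icc] at hn
    have hn1 : (1:ℝ) ≤ n := by exact_mod_cast hn.1.1
    have hlog : 0 ≤ Real.log n := Real.log_nonneg hn1
    refine ⟨by positivity, ?_⟩
    have h1 : ((n:ℝ)) ^ B ≤ N := by
      have : ((n ^ B : ℕ) : ℝ) ≤ N := by exact_mod_cast hn.2.le
      simpa using this
    have h2 := Real.log_le_log (by positivity) h1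
    rw [Real.log_pow] at h2
    rw [div_eq_mul_one_div lam (B:ℝ)]
    apply mul_le_mul_of_nonneg_left _ hlam.le
    rw [div_le_div_iff₀ hL0 hBr]
    linarith
  have hval : ∀ n ∈ A, (n:ℝ) ^ (-1 - η) = (n:ℝ)⁻¹ * Real.exp (-(lam * (Real.log n / L))) := by
    intro n hn
    rw [hA, mem_filter, mem_Icc] at hn
    have hn0 : (0:ℝ) < n := by
      have : 0 < n := hn.1.1
      exact_mod_cast this
    rw [Real.rpow_sub hn0, Real.rpow_neg_one, Real.rpow_def_of_pos hn0, div_eq_mul_inv,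
      ← Real.exp_neg]
    congr 2
    rw [hη]
    ring
  have hQ : (QN z T N B m).eval (lam:ℂ) = ((L⁻¹ : ℝ) : ℂ) * ∑ n ∈ A, wT z T n *
      (((n:ℝ)⁻¹ * ∑ j ∈ range m, (-(lam * (Real.log n / L))) ^ j / (j.factorial : ℝ) : ℝ) : ℂ) := by
    unfold QN
    rw [eval_finset_sum]
    simp only [eval_mul, eval_C, eval_pow, eval_X]
    rw [mul_sum]
    simp_rw [mul_sum, sum_mul]
    rw [sum_comm]
    apply sum_congr rfl
    intro n _
    have hLN : Real.log (N:ℝ) = L := rfl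
    rw [hLN]
    generalize Real.log (n:ℝ) / L = r
    generalize (n:ℝ)⁻¹ = y
    generalize L⁻¹ = w
    push_cast
    simp only [mul_sum]
    apply sum_congr rfl
    intro j _
    have h1 : (-((lam : ℂ) * (r : ℂ))) ^ j = (-(r : ℂ)) ^ j * (lam : ℂ) ^ j := by
      rw [← mul_pow]
      congr 1
      ring
    rw [h1]
    ring
  have hmain : ‖((L⁻¹ : ℝ) : ℂ) * ∑ n ∈ A, f n - (QN z T N B m).eval (lam:ℂ)‖ ≤
      (lam / B) ^ m := by
    rw [hQ, ← mul_sub, ← sum_sub_distrib, norm_mul, Complex.norm_real,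
      Real.norm_of_nonneg (by positivity : (0:ℝ) ≤ L⁻¹)]
    have h1 : ‖∑ n ∈ A, (f n - wT z T n * (((n:ℝ)⁻¹ *
        ∑ j ∈ range m, (-(lam * (Real.log n / L))) ^ j / (j.factorial : ℝ) : ℝ) : ℂ))‖ ≤
        ∑ n ∈ A, (n:ℝ)⁻¹ * (lam / B) ^ m := by
      refine (norm_sum_le _ _).trans (sum_le_sum ?_)
      intro n hn
      have h2 : f n - wT z T n * (((n:ℝ)⁻¹ *
          ∑ j ∈ range m, (-(lam * (Real.log n / L))) ^ j / (j.factorial : ℝ) : ℝ) : ℂ) =
          wT z T n * (((n:ℝ)⁻¹ * (Real.exp (-(lam * (Real.log n / L))) -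
          ∑ j ∈ range m, (-(lam * (Real.log n / L))) ^ j / (j.factorial : ℝ)) : ℝ) : ℂ) := by
        rw [hf]
        simp only
        rw [hval n hn, ← mul_sub, ← Complex.ofReal_sub]
        congr 2
        ring
      rw [h2, norm_mul, Complex.norm_real, Real.norm_eq_abs, abs_mul,
        abs_of_nonneg (by positivity : (0:ℝ) ≤ (n:ℝ)⁻¹)]
      have h3 := tay m (hx n hn).1 ((hx n hn).2.trans ((div_le_one hBr).2 hlB))
      have h4 : (lam * (Real.log n / L)) ^ m ≤ (lam / B) ^ m :=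
        pow_le_pow_left₀ (hx n hn).1 (hx n hn).2 m
      have h5 : (0:ℝ) ≤ (n:ℝ)⁻¹ := by positivity
      calc ‖wT z T n‖ * ((n:ℝ)⁻¹ * |Real.exp (-(lam * (Real.log n / L))) -
          ∑ j ∈ range m, (-(lam * (Real.log n / L))) ^ j / (j.factorial : ℝ)|)
          ≤ 1 * ((n:ℝ)⁻¹ * (lam / B) ^ m) := by
            apply mul_le_mul (norm_wT_le hz T n) _ (by positivity) zero_le_one
            exact mul_le_mul_of_nonneg_left (h3.trans h4) h5
        _ = (n:ℝ)⁻¹ * (lam / B) ^ m := one_mul _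
    have h6 := small_sum hB hL
    calc L⁻¹ * ‖∑ n ∈ A, (f n - wT z T n * (((n:ℝ)⁻¹ *
        ∑ j ∈ range m, (-(lam * (Real.log n / L))) ^ j / (j.factorial : ℝ) : ℝ) : ℂ))‖
        ≤ L⁻¹ * ∑ n ∈ A, (n:ℝ)⁻¹ * (lam / B) ^ m := by gcongr
      _ = L⁻¹ * (∑ n ∈ A, (n:ℝ)⁻¹) * (lam / B) ^ m := by rw [← sum_mul]; ring
      _ ≤ L⁻¹ * L * (lam / B) ^ m := by gcongr
      _ = (lam / B) ^ m := by rw [inv_mul_cancel₀ hL0.ne', one_mul]
  rw [hg]
  have hre : ((L⁻¹ : ℝ) : ℂ) * ∑ n ∈ A, f n + mid z T N B lam +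
      ((L⁻¹ : ℝ) : ℂ) * ∑' n, f (n + (N + 1)) - (QN z T N B m).eval (lam:ℂ) =
      (((L⁻¹ : ℝ) : ℂ) * ∑ n ∈ A, f n - (QN z T N B m).eval (lam:ℂ)) + mid z T N B lam +
      ((L⁻¹ : ℝ) : ℂ) * ∑' n, f (n + (N + 1)) := by ring
  rw [hre]
  refine (norm_add_le _ _).trans ?_
  refine add_le_add ((norm_add_le _ _).trans ?_) htail
  exact add_le_add hmain le_rfl

end Pool.Agent.Lib.P4a7640S
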