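import Mathlib
import Pool.Agent.Lib.P4a7640S.Base

/-!
# Products over the top primes and exponentials

Module P4a7640S.ProdExp (1 h). Imports are black boxes.

For `w = (1 - z p) p^(-1-η)`: `‖w‖ ≤ 2/p`; for `‖w‖ ≤ 1`: `‖(1 - w) exp w - 1‖ ≤ 4 ‖w‖^2`
(`‖exp w - 1 - w‖ ≤ ‖w‖^2`, `Complex.norm_exp_sub_one_sub_id_le`; `(1 - w)(1 + w + e) - 1 = -w^2 + (1 - w) e`).
The product over `T` of `(1 - w) exp w` is within `exp (∑ 4 ‖w‖^2) - 1` of `1`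
(`Finset.norm_prod_one_add_sub_one_le`), and `∑_{p ∈ Tp c N} 16/p^2 ≤ 16 ∑_{n : n^c > N} 1/n^2 → 0`
(`sum_Ioc_inv_sq_le_sub` or `tendsto` of the tail of a summable series).
-/

open Finset Filter Topology
open Pool.Agent.Lib.P4a7640

namespace Pool.Agent.Lib.P4a7640S

namespace ProdExpAux

theorem one_sub_mul_exp {w : ℂ} (hw : ‖w‖ ≤ 1) : ‖(1 - w) * Complex.exp w - 1‖ ≤ 4 * ‖w‖ ^ 2 := by
  have h1 := Complex.norm_exp_sub_one_sub_id_le hw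
  have h2 : (1 - w) * Complex.exp w - 1 =
      (1 - w) * (Complex.exp w - 1 - w) - w ^ 2 := by ring
  have h3 : ‖1 - w‖ ≤ 2 := by
    calc ‖1 - w‖ ≤ ‖(1:ℂ)‖ + ‖w‖ := norm_sub_le _ _
      _ ≤ 1 + 1 := by
        rw [norm_one]
        linarith
      _ = 2 := by norm_num
  rw [h2]
  calc ‖(1 - w) * (Complex.exp w - 1 - w) - w ^ 2‖
      ≤ ‖(1 - w) * (Complex.exp w - 1 - w)‖ + ‖w ^ 2‖ := norm_sub_le _ _
    _ = ‖1 - w‖ * ‖Complex.exp w - 1 - w‖ + ‖w‖ ^ 2 := by rw [norm_mul, norm_pow]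
    _ ≤ 2 * ‖w‖ ^ 2 + ‖w‖ ^ 2 := by
        gcongr
    _ ≤ 4 * ‖w‖ ^ 2 := by nlinarith [sq_nonneg ‖w‖]

theorem norm_w_le {z : ℂ} (hz : ‖z‖ ≤ 1) {η : ℝ} (hη : 0 ≤ η) {p : ℕ} (hp : 1 ≤ p) :
    ‖(1 - z) * (((p:ℝ) ^ (-1 - η) : ℝ) : ℂ)‖ ≤ 2 / p := by
  have hp' : (1:ℝ) ≤ p := by exact_mod_cast hp
  have h1 : ‖1 - z‖ ≤ 2 := by
    calc ‖1 - z‖ ≤ ‖(1:ℂ)‖ + ‖z‖ := norm_sub_le _ _
      _ ≤ 1 + 1 := by
        rw [norm_one]
        linarith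
      _ = 2 := by norm_num
  have h2 : (p:ℝ) ^ (-1 - η) ≤ (p:ℝ)⁻¹ := by
    rw [← Real.rpow_neg_one]
    exact Real.rpow_le_rpow_of_exponent_le hp' (by linarith)
  have h3 : 0 ≤ (p:ℝ) ^ (-1 - η) := Real.rpow_nonneg (by linarith) _
  rw [norm_mul, Complex.norm_real, Real.norm_of_nonneg h3, div_eq_mul_inv]
  exact mul_le_mul h1 h2 h3 (by norm_num)

theorem tail_sq (c : ℕ) {δ : ℝ} (hδ : 0 < δ) : ∀ᶠ N : ℕ in atTop,
    ∑ p ∈ Tp c N, ((p:ℝ) ^ 2)⁻¹ ≤ δ := by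
  have hs : Summable (fun n : ℕ => ((n:ℝ) ^ 2)⁻¹) := Real.summable_nat_pow_inv.2 (by norm_num)
  obtain ⟨s, hs'⟩ := summable_iff_vanishing_norm.1 hs δ hδ
  have h1 : ∀ᶠ N : ℕ in atTop, ∑ p ∈ s, p ^ c ≤ N := eventually_ge_atTop _
  filter_upwards [h1] with N hN
  have h2 : Disjoint (Tp c N) s := by
    rw [Finset.disjoint_left]
    intro p hp hps
    have h3 := (mem_filter.1 hp).2.2
    have h4 : p ^ c ≤ ∑ p ∈ s, p ^ c := single_le_sum (f := fun p => p ^ c)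
      (fun _ _ => Nat.zero_le _) hps
    omega
  exact (le_abs_self _).trans (hs' _ h2).le

end ProdExpAux

open ProdExpAux

theorem prod_exp (c : ℕ) {ε : ℝ} (hε : 0 < ε) : ∀ᶠ N : ℕ in atTop, ∀ z : ℕ → ℂ,
    (∀ p, ‖z p‖ ≤ 1) → ∀ η : ℝ, 0 ≤ η →
      ‖(∏ p ∈ Tp c N, (1 - (1 - z p) * (((p:ℝ) ^ (-1 - η) : ℝ) : ℂ))) *
        Complex.exp (∑ p ∈ Tp c N, (1 - z p) * (((p:ℝ) ^ (-1 - η) : ℝ) : ℂ)) - 1‖ ≤ ε := by
  have hδ : 0 < Real.log (1 + ε) / 16 := div_pos (Real.log_pos (by linarith)) (by norm_num)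
  filter_upwards [tail_sq c hδ] with N hN z hz η hη
  set w : ℕ → ℂ := fun p => (1 - z p) * (((p:ℝ) ^ (-1 - η) : ℝ) : ℂ) with hw
  have hpr : ∀ p ∈ Tp c N, p.Prime := fun p hp => (mem_filter.1 hp).2.1
  have hw1 : ∀ p ∈ Tp c N, ‖w p‖ ≤ 2 / p := fun p hp =>
    norm_w_le (hz p) hη (hpr p hp).one_lt.le
  have hw2 : ∀ p ∈ Tp c N, ‖w p‖ ≤ 1 := by
    intro p hp
    refine (hw1 p hp).trans ?_
    have : (2:ℝ) ≤ p := by exact_mod_cast (hpr p hp).two_le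
    rw [div_le_one (by linarith)]
    exact this
  have h1 : (∏ p ∈ Tp c N, (1 - w p)) * Complex.exp (∑ p ∈ Tp c N, w p) =
      ∏ p ∈ Tp c N, (1 + ((1 - w p) * Complex.exp (w p) - 1)) := by
    rw [Complex.exp_sum, ← prod_mul_distrib]
    refine prod_congr rfl fun p _ => ?_
    ring
  have h2 : ∑ p ∈ Tp c N, ‖(1 - w p) * Complex.exp (w p) - 1‖ ≤ Real.log (1 + ε) := by
    calc ∑ p ∈ Tp c N, ‖(1 - w p) * Complex.exp (w p) - 1‖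
        ≤ ∑ p ∈ Tp c N, 16 * ((p:ℝ) ^ 2)⁻¹ := by
          refine sum_le_sum fun p hp => ?_
          refine (one_sub_mul_exp (hw2 p hp)).trans ?_
          have h3 := hw1 p hp
          calc 4 * ‖w p‖ ^ 2 ≤ 4 * (2 / p) ^ 2 := by gcongr
            _ = 16 * ((p:ℝ) ^ 2)⁻¹ := by
              rw [div_pow, div_eq_mul_inv]
              ring
      _ = 16 * ∑ p ∈ Tp c N, ((p:ℝ) ^ 2)⁻¹ := by rw [mul_sum]
      _ ≤ 16 * (Real.log (1 + ε) / 16) := by gcongr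
      _ = Real.log (1 + ε) := by ring
  change ‖(∏ p ∈ Tp c N, (1 - w p)) * Complex.exp (∑ p ∈ Tp c N, w p) - 1‖ ≤ ε
  rw [h1]
  calc _ ≤ Real.exp (∑ p ∈ Tp c N, ‖(1 - w p) * Complex.exp (w p) - 1‖) - 1 :=
        Finset.norm_prod_one_add_sub_one_le _ _
    _ ≤ Real.exp (Real.log (1 + ε)) - 1 := by gcongr
    _ = ε := by
      rw [Real.exp_log (by linarith)]
      ring

end Pool.Agent.Lib.P4a7640S
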