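import Mathlib
import Pool.Agent.Lib.P4a7640S.Euler
import Pool.Agent.Lib.P4a7640S.ProdExp

/-!
# The lower bound

Module P4a7640S.Lower (0.7 h). Imports are black boxes.

`gN_eq`, `Zr_ge` (`(log N)⁻¹ * Zr (lam/log N) ≥ 1/lam`), `prod_exp` with `ε = 1/2`: the product has norm at least
`(1/2) ‖exp (-∑ (1 - z p) p^(-1-η))‖ = (1/2) exp (-∑ (1 - Re z p) p^(-1-η)) ≥ (1/2) exp (-∑ (1 - Re z p)/p)`.
-/

open Finset Filter Topology
open Pool.Agent.Lib.P4a7640

namespace Pool.Agent.Lib.P4a7640S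

theorem g_lower (c : ℕ) {lam : ℝ} (hlam : 0 < lam) : ∀ᶠ N : ℕ in atTop, ∀ z : ℕ → ℂ,
    (∀ p, ‖z p‖ ≤ 1) →
      Real.exp (-∑ p ∈ Tp c N, (1 - (z p).re) / (p:ℝ)) / (2 * lam) ≤ ‖gN z (Tp c N) N lam‖ := by
  filter_upwards [prod_exp c (ε := 1 / 2) (by norm_num), eventually_ge_atTop 2] with N hP hN z hz
  have hT : ∀ p ∈ Tp c N, p.Prime := fun p hp => (Finset.mem_filter.1 hp).2.1
  have hlog : 0 < Real.log N := Real.log_pos (by exact_mod_cast hN)
  have hη : 0 < lam / Real.log N := div_pos hlam hlog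
  rw [gN_eq hz hT hN hlam, norm_mul, Complex.norm_real]
  have hexp : (-1 - lam / Real.log N : ℝ) = -1 - (lam / Real.log N) := rfl
  have h1 := hP z hz (lam / Real.log N) hη.le
  set η : ℝ := lam / Real.log N with hηd
  set P : ℂ := ∏ p ∈ Tp c N, (1 - (1 - z p) * (((p:ℝ) ^ (-1 - η) : ℝ) : ℂ)) with hPd
  set E : ℂ := ∑ p ∈ Tp c N, (1 - z p) * (((p:ℝ) ^ (-1 - η) : ℝ) : ℂ) with hEd
  set A : ℝ := ∑ p ∈ Tp c N, (1 - (z p).re) / (p:ℝ) with hA
  -- the scalar factor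
  have hZ : 1 / lam ≤ ‖(Real.log N)⁻¹ * Zr η‖ := by
    refine le_trans ?_ (le_abs_self _)
    have h2 := Zr_ge hη
    have h3 : (Real.log N)⁻¹ * (1 / η) = 1 / lam := by
      rw [hηd]; field_simp
    rw [← h3]
    exact mul_le_mul_of_nonneg_left h2 (inv_nonneg.2 hlog.le)
  -- the real part of `E`
  have hre : E.re ≤ A := by
    rw [hEd, Complex.re_sum, hA]
    refine Finset.sum_le_sum (fun p hp => ?_)
    have hp0 : (0:ℝ) < (p:ℝ) := by exact_mod_cast (hT p hp).pos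
    have hp1 : (1:ℝ) ≤ (p:ℝ) := by exact_mod_cast (hT p hp).one_le
    have h4 : ((1 - z p) * (((p:ℝ) ^ (-1 - η) : ℝ) : ℂ)).re = (1 - (z p).re) * (p:ℝ) ^ (-1 - η) := by
      rw [Complex.re_mul_ofReal, Complex.sub_re, Complex.one_re]
    rw [h4, div_eq_mul_inv]
    have h5 : 0 ≤ 1 - (z p).re := by
      have := (Complex.re_le_norm (z p)).trans (hz p)
      linarith
    refine mul_le_mul_of_nonneg_left ?_ h5
    rw [← Real.rpow_neg_one]
    exact Real.rpow_le_rpow_of_exponent_le hp1 (by linarith)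
  -- the product
  have hPE : 1 / 2 ≤ ‖P‖ * Real.exp E.re := by
    rw [← Complex.norm_exp, ← norm_mul]
    have h6 : ‖(1:ℂ)‖ ≤ ‖P * Complex.exp E‖ + ‖P * Complex.exp E - 1‖ := by
      have h7 : (1:ℂ) = P * Complex.exp E - (P * Complex.exp E - 1) := by ring
      calc ‖(1:ℂ)‖ = ‖P * Complex.exp E - (P * Complex.exp E - 1)‖ := by rw [← h7]
        _ ≤ _ := norm_sub_le _ _
    rw [norm_one] at h6
    linarith
  have hPA : Real.exp (-A) / 2 ≤ ‖P‖ := by
    have h8 : 1 / 2 ≤ ‖P‖ * Real.exp A :=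
      hPE.trans (mul_le_mul_of_nonneg_left (Real.exp_le_exp.2 hre) (norm_nonneg _))
    have h9 : Real.exp (-A) * Real.exp A = 1 := by rw [← Real.exp_add]; simp
    have h10 := mul_le_mul_of_nonneg_left h8 (Real.exp_pos (-A)).le
    have h11 : Real.exp (-A) * (‖P‖ * Real.exp A) = ‖P‖ := by
      rw [mul_left_comm, h9, mul_one]
    rw [h11] at h10
    linarith
  have h12 : Real.exp (-A) / (2 * lam) = 1 / lam * (Real.exp (-A) / 2) := by
    field_simp
  rw [h12]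
  exact mul_le_mul hZ hPA (by positivity) (norm_nonneg _)

end Pool.Agent.Lib.P4a7640S
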