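import Mathlib
import Pool.Agent.Lib.P4a7640S.ZetaA

/-!
# Moments of the exponential kernel over the primes

Module P4a7640S.KerA (1.2 h). Imports are black boxes.

Write `x = η log p`, so that `p^(-1-η) = e^(-x)/p`. `summable_k`: `x^k e^(-x) ≤ C_k e^(-x/2)`
(e.g. `Real.add_pow_le_pow_mul_pow_of_add_eq_one`-free: `x^k ≤ k! 2^k e^(x/2)`, `Real.pow_div_factorial_le_exp`)
and `summable_Sp` for `η/2`. `sum_sq_le`: for `x ≥ 0`: `x^2 e^(-x) ≤ 8 (e^(-x/2) - e^(-x))` (with `y = x/2`: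
`4 y^2 e^(-y) ≤ 8 (1 - e^(-y))`, i.e. `y^2/2 ≤ e^y - 1`, from `Real.quadratic_le_exp_of_nonneg`), sum over the
primes and `Sp_diff` with `κ = 2` applied to `η/2` (`8 log 2 < 6`).
`sum_one_le`: for `κ > 1`: `(κ-1) x e^(-x) ≤ (e^(-x) - e^(-κ x)) + ((κ-1) x)^2 e^(-x)/2`
(`1 - e^(-h) ≥ h - h^2/2` for `h ≥ 0`), so the sum is at most `(log κ + o(1))/(κ-1) + 3 (κ-1)` by `Sp_diff` and
`sum_sq_le`, and `log κ ≤ κ - 1`; take `κ = 1 + ε/6`.
-/

open Finset Filter Topology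
open Pool.Agent.Lib.P4a7640

namespace Pool.Agent.Lib.P4a7640S

private theorem ge_two (p : Nat.Primes) : (2:ℝ) ≤ (p:ℝ) := by
  have := p.2.two_le
  exact_mod_cast this

private theorem rpow_eq (p : Nat.Primes) (η : ℝ) :
    (p:ℝ) ^ (-1 - η) = (p:ℝ)⁻¹ * Real.exp (-(η * Real.log p)) := by
  have h0 : (0:ℝ) < (p:ℝ) := by linarith [ge_two p]
  rw [Real.rpow_def_of_pos h0]
  have h1 : (p:ℝ)⁻¹ = Real.exp (-Real.log p) := by
    rw [Real.exp_neg, Real.exp_log h0]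
  rw [h1, ← Real.exp_add]
  congr 1
  ring

private theorem x_nonneg {η : ℝ} (hη : 0 ≤ η) (p : Nat.Primes) : 0 ≤ η * Real.log p :=
  mul_nonneg hη (Real.log_nonneg (by linarith [ge_two p]))

theorem summable_k (k : ℕ) {η : ℝ} (hη : 0 < η) :
    Summable fun p : Nat.Primes => (η * Real.log p) ^ k * (p:ℝ) ^ (-1 - η) := by
  have hs : Summable fun p : Nat.Primes =>
      (2 ^ k * (Nat.factorial k : ℝ)) * (p:ℝ) ^ (-1 - η / 2) :=
    (summable_Sp (by linarith : 0 < η / 2)).mul_left _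
  refine Summable.of_nonneg_of_le (fun p => ?_) (fun p => ?_) hs
  · exact mul_nonneg (pow_nonneg (x_nonneg hη.le p) _)
      (Real.rpow_nonneg (by linarith [ge_two p]) _)
  · have hx := x_nonneg hη.le p
    have h0 : (0:ℝ) < (p:ℝ) := by linarith [ge_two p]
    rw [rpow_eq, rpow_eq]
    set x := η * Real.log p with hxd
    have h1 : η / 2 * Real.log p = x / 2 := by rw [hxd]; ring
    rw [h1]
    have h2 := Real.pow_div_factorial_le_exp (x / 2) (by linarith) k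
    have hf : (0:ℝ) < (Nat.factorial k : ℝ) := by exact_mod_cast Nat.factorial_pos k
    rw [div_le_iff₀ hf, div_pow, div_le_iff₀ (by positivity)] at h2
    have h3 : Real.exp (-x) = Real.exp (-(x / 2)) * Real.exp (-(x / 2)) := by
      rw [← Real.exp_add]; congr 1; ring
    have h4 : Real.exp (x / 2) * Real.exp (-(x / 2)) = 1 := by
      rw [← Real.exp_add]; simp
    have h5 : (0:ℝ) ≤ (p:ℝ)⁻¹ * Real.exp (-x) := by positivity
    calc x ^ k * ((p:ℝ)⁻¹ * Real.exp (-x))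
        ≤ (Real.exp (x / 2) * (Nat.factorial k : ℝ) * 2 ^ k) * ((p:ℝ)⁻¹ * Real.exp (-x)) :=
          mul_le_mul_of_nonneg_right h2 h5
      _ = (2 ^ k * (Nat.factorial k : ℝ)) * ((p:ℝ)⁻¹ * ((Real.exp (x / 2)
            * Real.exp (-(x / 2))) * Real.exp (-(x / 2)))) := by rw [h3]; ring
      _ = (2 ^ k * (Nat.factorial k : ℝ)) * ((p:ℝ)⁻¹ * Real.exp (-(x / 2))) := by
          rw [h4, one_mul]

private theorem exists_of_tendsto {f : ℝ → ℝ} {a c : ℝ} (h : Tendsto f (𝓝[>] 0) (𝓝 a))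
    (hac : a < c) : ∃ η₀ : ℝ, 0 < η₀ ∧ ∀ η : ℝ, 0 < η → η < η₀ → f η ≤ c := by
  have h1 : ∀ᶠ η in 𝓝[>] (0:ℝ), f η < c := h.eventually_lt_const hac
  obtain ⟨η₀, hη₀, h2⟩ := mem_nhdsGT_iff_exists_Ioo_subset.1 h1
  exact ⟨η₀, hη₀, fun η h3 h4 => le_of_lt (h2 ⟨h3, h4⟩)⟩

theorem sum_sq_le : ∃ η₀ : ℝ, 0 < η₀ ∧ ∀ η : ℝ, 0 < η → η < η₀ →
    ∑' p : Nat.Primes, (η * Real.log p) ^ 2 * (p:ℝ) ^ (-1 - η) ≤ 6 := by
  have hlog : Real.log 2 < 3 / 4 := by linarith [Real.log_two_lt_d9]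
  obtain ⟨η₀, hη₀, h⟩ := exists_of_tendsto (Sp_diff one_lt_two) hlog
  refine ⟨2 * η₀, by linarith, fun η hη hlt => ?_⟩
  have h1 := h (η / 2) (by linarith) (by linarith)
  have h2 : 2 * (η / 2) = η := by ring
  rw [h2] at h1
  have hs2 : Summable fun p : Nat.Primes => 8 * ((p:ℝ) ^ (-1 - η / 2) - (p:ℝ) ^ (-1 - η)) :=
    ((summable_Sp (by linarith : 0 < η / 2)).sub (summable_Sp hη)).mul_left 8
  have h3 : ∑' p : Nat.Primes, (η * Real.log p) ^ 2 * (p:ℝ) ^ (-1 - η)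
      ≤ ∑' p : Nat.Primes, 8 * ((p:ℝ) ^ (-1 - η / 2) - (p:ℝ) ^ (-1 - η)) := by
    refine (summable_k 2 hη).tsum_le_tsum (fun p => ?_) hs2
    have hx := x_nonneg hη.le p
    have h0 : (0:ℝ) < (p:ℝ) := by linarith [ge_two p]
    rw [rpow_eq, rpow_eq]
    set x := η * Real.log p with hxd
    have h4 : η / 2 * Real.log p = x / 2 := by rw [hxd]; ring
    rw [h4]
    have h5 := Real.quadratic_le_exp_of_nonneg (x := x / 2) (by linarith)
    have h6 : Real.exp (-(x / 2)) = Real.exp (x / 2) * Real.exp (-x) := by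
      rw [← Real.exp_add]; congr 1; ring
    rw [h6]
    have h7 : (0:ℝ) ≤ (p:ℝ)⁻¹ * Real.exp (-x) := by positivity
    have h8 : x ^ 2 ≤ 8 * (Real.exp (x / 2) - 1) := by nlinarith
    calc x ^ 2 * ((p:ℝ)⁻¹ * Real.exp (-x))
        ≤ (8 * (Real.exp (x / 2) - 1)) * ((p:ℝ)⁻¹ * Real.exp (-x)) :=
          mul_le_mul_of_nonneg_right h8 h7
      _ = 8 * ((p:ℝ)⁻¹ * (Real.exp (x / 2) * Real.exp (-x)) - (p:ℝ)⁻¹ * Real.exp (-x)) := by
          ring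
  have h9 : ∑' p : Nat.Primes, 8 * ((p:ℝ) ^ (-1 - η / 2) - (p:ℝ) ^ (-1 - η))
      = 8 * (Sp (η / 2) - Sp η) := by
    unfold Sp
    rw [tsum_mul_left, (summable_Sp (by linarith : 0 < η / 2)).tsum_sub (summable_Sp hη)]
  rw [h9] at h3
  linarith

private theorem exp_neg_le {t : ℝ} (ht : 0 ≤ t) : Real.exp (-t) ≤ 1 - t + t ^ 2 / 2 := by
  have h1 := Real.quadratic_le_exp_of_nonneg ht
  have h2 : Real.exp t * Real.exp (-t) = 1 := by rw [← Real.exp_add]; simp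
  have h3 := Real.exp_pos (-t)
  have h4 : 0 < 1 - t + t ^ 2 / 2 := by nlinarith [sq_nonneg (t - 1)]
  have h5 : (1 + t + t ^ 2 / 2) * Real.exp (-t) ≤ 1 := by
    exact (mul_le_mul_of_nonneg_right h1 h3.le).trans h2.le
  have h6 : 1 ≤ (1 - t + t ^ 2 / 2) * (1 + t + t ^ 2 / 2) := by nlinarith [sq_nonneg (t ^ 2)]
  have h7 : 0 < 1 + t + t ^ 2 / 2 := by positivity
  by_contra hc
  push Not at hc
  have := mul_lt_mul_of_pos_left hc h7
  nlinarith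

theorem sum_one_le {ε : ℝ} (hε : 0 < ε) : ∃ η₀ : ℝ, 0 < η₀ ∧ ∀ η : ℝ, 0 < η → η < η₀ →
    ∑' p : Nat.Primes, (η * Real.log p) * (p:ℝ) ^ (-1 - η) ≤ 1 + ε := by
  obtain ⟨η₁, hη₁, h1⟩ := sum_sq_le
  set κ : ℝ := 1 + ε / 6 with hκd
  have hκ : 1 < κ := by rw [hκd]; linarith
  have hlog : Real.log κ < (κ - 1) * (1 + ε / 2) := by
    have h2 := Real.log_le_sub_one_of_pos (by linarith : 0 < κ)
    have h3 : 0 < (κ - 1) * (ε / 2) := mul_pos (by linarith) (by linarith)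
    linarith
  obtain ⟨η₂, hη₂, h2⟩ := exists_of_tendsto (Sp_diff hκ) hlog
  refine ⟨min η₁ η₂, lt_min hη₁ hη₂, fun η hη hlt => ?_⟩
  have hA := h1 η hη (hlt.trans_le (min_le_left _ _))
  have hB := h2 η hη (hlt.trans_le (min_le_right _ _))
  have hκη : 0 < κ * η := mul_pos (by linarith) hη
  have hs1 : Summable fun p : Nat.Primes => (η * Real.log p) * (p:ℝ) ^ (-1 - η) := by
    have := summable_k 1 hη
    simpa only [pow_one] using this
  have hsd : Summable fun p : Nat.Primes => ((p:ℝ) ^ (-1 - η) - (p:ℝ) ^ (-1 - κ * η)) :=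
    (summable_Sp hη).sub (summable_Sp hκη)
  have hs2 : Summable fun p : Nat.Primes =>
      (κ - 1) ^ 2 / 2 * ((η * Real.log p) ^ 2 * (p:ℝ) ^ (-1 - η)) :=
    (summable_k 2 hη).mul_left _
  have h3 : ∑' p : Nat.Primes, (κ - 1) * ((η * Real.log p) * (p:ℝ) ^ (-1 - η))
      ≤ ∑' p : Nat.Primes, (((p:ℝ) ^ (-1 - η) - (p:ℝ) ^ (-1 - κ * η))
        + (κ - 1) ^ 2 / 2 * ((η * Real.log p) ^ 2 * (p:ℝ) ^ (-1 - η))) := by
    refine (hs1.mul_left _).tsum_le_tsum (fun p => ?_) (hsd.add hs2)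
    have hx := x_nonneg hη.le p
    have h0 : (0:ℝ) < (p:ℝ) := by linarith [ge_two p]
    rw [rpow_eq, rpow_eq]
    set x := η * Real.log p with hxd
    have h4 : κ * η * Real.log p = κ * x := by rw [hxd]; ring
    rw [h4]
    have h5 := exp_neg_le (t := (κ - 1) * x) (mul_nonneg (by linarith) hx)
    have h6 : Real.exp (-(κ * x)) = Real.exp (-((κ - 1) * x)) * Real.exp (-x) := by
      rw [← Real.exp_add]; congr 1; ring
    rw [h6]
    have h7 : (0:ℝ) ≤ (p:ℝ)⁻¹ * Real.exp (-x) := by positivity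
    have h8 := mul_le_mul_of_nonneg_right h5 h7
    have h9 : (1 - (κ - 1) * x + ((κ - 1) * x) ^ 2 / 2) * ((p:ℝ)⁻¹ * Real.exp (-x))
        = (p:ℝ)⁻¹ * Real.exp (-x) - (κ - 1) * (x * ((p:ℝ)⁻¹ * Real.exp (-x)))
          + (κ - 1) ^ 2 / 2 * (x ^ 2 * ((p:ℝ)⁻¹ * Real.exp (-x))) := by ring
    have h10 : (p:ℝ)⁻¹ * (Real.exp (-((κ - 1) * x)) * Real.exp (-x))
        = Real.exp (-((κ - 1) * x)) * ((p:ℝ)⁻¹ * Real.exp (-x)) := by ring
    rw [h10]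
    linarith
  rw [tsum_mul_left, hsd.tsum_add hs2, tsum_mul_left,
    (summable_Sp hη).tsum_sub (summable_Sp hκη)] at h3
  change (κ - 1) * _ ≤ Sp η - Sp (κ * η) + _ at h3
  have hk : 0 < κ - 1 := by linarith
  have h4 : (κ - 1) ^ 2 / 2 * ∑' p : Nat.Primes, (η * Real.log p) ^ 2 * (p:ℝ) ^ (-1 - η)
      ≤ (κ - 1) ^ 2 / 2 * 6 := mul_le_mul_of_nonneg_left hA (by positivity)
  have h5 : (κ - 1) * ∑' p : Nat.Primes, (η * Real.log p) * (p:ℝ) ^ (-1 - η)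
      ≤ (κ - 1) * (1 + ε) := by
    have h6 : (κ - 1) ^ 2 / 2 * 6 = (κ - 1) * (ε / 2) := by rw [hκd]; ring
    rw [h6] at h4
    have h7 : (κ - 1) * (1 + ε) = (κ - 1) * (1 + ε / 2) + (κ - 1) * (ε / 2) := by ring
    linarith
  exact le_of_mul_le_mul_left h5 hk

end Pool.Agent.Lib.P4a7640S
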