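import Mathlib
import Pool.Agent.Lib.P4a7640S.KerA

/-!
# The smooth mean value: difference quotient, bound, Lipschitz bound

Module P4a7640S.DmA (1.5 h). Imports are black boxes.

`x = η log p`, `p^(-1-η) = e^(-x)/p`, `p^(-1-κη) = e^(-κx)/p`, so `Dm z η = ∑ z p x e^(-x)/p` (move `η` into the
sum). `Dm_diff`: pointwise `|e^(-x) - e^(-κ x) - (κ-1) x e^(-x)| ≤ ((κ-1) x)^2 e^(-x)/2`
(`0 ≤ e^(-h) - 1 + h ≤ h^2/2` for `h = (κ-1) x ≥ 0`), sum with `sum_sq_le`. `Dm_le`: `sum_one_le`.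
`Dm_lip`: `η' = ρ η`, `1 ≤ ρ ≤ κ ≤ 2`: `|ρ x e^(-ρ x) - x e^(-x)| ≤ (ρ-1) x (1 + x) e^(-x)`, sum.
-/

open Finset Filter Topology
open Pool.Agent.Lib.P4a7640

namespace Pool.Agent.Lib.P4a7640S

namespace DmAAux

private theorem exp_lower (h : ℝ) : 1 - h ≤ Real.exp (-h) := by
  have := Real.add_one_le_exp (-h)
  linarith

private theorem exp_upper {h : ℝ} (hh : 0 ≤ h) : Real.exp (-h) ≤ 1 - h + h ^ 2 / 2 := by
  have h1 := Real.quadratic_le_exp_of_nonneg hh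
  rw [Real.exp_neg]
  have h2 : (0:ℝ) < 1 + h + h ^ 2 / 2 := by positivity
  calc (Real.exp h)⁻¹ ≤ (1 + h + h ^ 2 / 2)⁻¹ := inv_anti₀ h2 h1
    _ ≤ 1 - h + h ^ 2 / 2 := by
      rw [inv_le_iff_one_le_mul₀ h2]
      nlinarith [sq_nonneg (h ^ 2)]

private theorem pr_pos (p : Nat.Primes) : (0:ℝ) < (p:ℝ) := by
  exact_mod_cast p.2.pos

private theorem log_nn (p : Nat.Primes) : 0 ≤ Real.log (p:ℝ) := by
  apply Real.log_nonneg
  exact_mod_cast p.2.one_lt.le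

private theorem rpow_shift (p : Nat.Primes) (η κ : ℝ) :
    (p:ℝ) ^ (-1 - κ * η) = (p:ℝ) ^ (-1 - η) * Real.exp (-((κ - 1) * (η * Real.log p))) := by
  rw [Real.rpow_def_of_pos (pr_pos p), Real.rpow_def_of_pos (pr_pos p), ← Real.exp_add]
  congr 1
  ring

private theorem e_nn (p : Nat.Primes) (η : ℝ) : 0 ≤ (p:ℝ) ^ (-1 - η) :=
  Real.rpow_nonneg (pr_pos p).le _

/-- `Dm` with the factor inside -/
private theorem Dm_eq (z : ℕ → ℂ) (η : ℝ) :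
    Dm z η = ∑' p : Nat.Primes, z p * (((η * Real.log p) * (p:ℝ) ^ (-1 - η) : ℝ) : ℂ) := by
  unfold Dm
  rw [← tsum_mul_left]
  congr 1
  ext p
  push_cast
  ring

private theorem summ_one {η : ℝ} (hη : 0 < η) {z : ℕ → ℂ} (hz : ∀ p, ‖z p‖ ≤ 1) :
    Summable fun p : Nat.Primes => z p * (((η * Real.log p) * (p:ℝ) ^ (-1 - η) : ℝ) : ℂ) := by
  apply Summable.of_norm_bounded (summable_k 1 hη)
  intro p
  rw [norm_mul, Complex.norm_real, Real.norm_eq_abs, pow_one,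
    abs_of_nonneg (mul_nonneg (mul_nonneg hη.le (log_nn p)) (e_nn p η))]
  have h0 := mul_nonneg (mul_nonneg hη.le (log_nn p)) (e_nn p η)
  calc ‖z p‖ * (η * Real.log p * (p:ℝ) ^ (-1 - η))
      ≤ 1 * (η * Real.log p * (p:ℝ) ^ (-1 - η)) := mul_le_mul_of_nonneg_right (hz p) h0
    _ = _ := one_mul _

end DmAAux

open DmAAux

theorem Dm_diff : ∃ η₀ : ℝ, 0 < η₀ ∧ ∀ η : ℝ, 0 < η → η < η₀ → ∀ κ : ℝ, 1 ≤ κ →
    ∀ z : ℕ → ℂ, (∀ p, ‖z p‖ ≤ 1) →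
      ‖∑' p : Nat.Primes, z p * (((p:ℝ) ^ (-1 - η) - (p:ℝ) ^ (-1 - κ * η) : ℝ) : ℂ) -
        ((κ - 1 : ℝ) : ℂ) * Dm z η‖ ≤ 3 * (κ - 1) ^ 2 := by
  obtain ⟨η₀, h0, hs⟩ := sum_sq_le
  refine ⟨η₀, h0, fun η hη hlt κ hκ z hz => ?_⟩
  have hS := hs η hη hlt
  have hsum2 := summable_k 2 hη
  have hsum0 := summable_k 0 hη
  rw [Dm_eq, ← tsum_mul_left]
  have hx : ∀ p : Nat.Primes, 0 ≤ (κ - 1) * (η * Real.log p) := fun p =>
    mul_nonneg (by linarith) (mul_nonneg hη.le (log_nn p))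
  have hA : Summable fun p : Nat.Primes =>
      z p * (((p:ℝ) ^ (-1 - η) - (p:ℝ) ^ (-1 - κ * η) : ℝ) : ℂ) := by
    apply Summable.of_norm_bounded hsum0
    intro p
    rw [norm_mul, Complex.norm_real, Real.norm_eq_abs, pow_zero, one_mul, rpow_shift]
    have h1 : Real.exp (-((κ - 1) * (η * Real.log p))) ≤ 1 := by
      apply Real.exp_le_one_iff.2
      linarith [hx p]
    have h2 := (Real.exp_pos (-((κ - 1) * (η * Real.log p)))).le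
    have h3 := e_nn p η
    rw [show (p:ℝ) ^ (-1 - η) - (p:ℝ) ^ (-1 - η) * Real.exp (-((κ - 1) * (η * Real.log p)))
      = (p:ℝ) ^ (-1 - η) * (1 - Real.exp (-((κ - 1) * (η * Real.log p)))) by ring,
      abs_of_nonneg (mul_nonneg h3 (by linarith))]
    calc ‖z p‖ * ((p:ℝ) ^ (-1 - η) * (1 - Real.exp (-((κ - 1) * (η * Real.log p)))))
        ≤ 1 * ((p:ℝ) ^ (-1 - η) * 1) := by
          apply mul_le_mul (hz p) (mul_le_mul_of_nonneg_left (by linarith) h3)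
            (mul_nonneg h3 (by linarith)) zero_le_one
      _ = _ := by ring
  have hB : Summable fun p : Nat.Primes =>
      ((κ - 1 : ℝ) : ℂ) * (z p * (((η * Real.log p) * (p:ℝ) ^ (-1 - η) : ℝ) : ℂ)) :=
    (summ_one hη hz).mul_left _
  rw [← hA.tsum_sub hB]
  have hbd : HasSum (fun p : Nat.Primes => (κ - 1) ^ 2 / 2 * ((η * Real.log p) ^ 2 * (p:ℝ) ^ (-1 - η)))
      ((κ - 1) ^ 2 / 2 * ∑' p : Nat.Primes, (η * Real.log p) ^ 2 * (p:ℝ) ^ (-1 - η)) :=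
    hsum2.hasSum.mul_left _
  refine (tsum_of_norm_bounded hbd ?_).trans ?_
  · intro p
    have e1 : z p * (((p:ℝ) ^ (-1 - η) - (p:ℝ) ^ (-1 - κ * η) : ℝ) : ℂ) -
        ((κ - 1 : ℝ) : ℂ) * (z p * (((η * Real.log p) * (p:ℝ) ^ (-1 - η) : ℝ) : ℂ))
        = z p * (((p:ℝ) ^ (-1 - η) * (1 - Real.exp (-((κ - 1) * (η * Real.log p)))
          - (κ - 1) * (η * Real.log p)) : ℝ) : ℂ) := by
      rw [rpow_shift]
      push_cast
      ring
    rw [e1, norm_mul, Complex.norm_real, Real.norm_eq_abs, abs_mul, abs_of_nonneg (e_nn p η)]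
    set h := (κ - 1) * (η * Real.log p) with hh
    have h1 := exp_lower h
    have h2 := exp_upper (hx p)
    have h3 : |1 - Real.exp (-h) - h| ≤ h ^ 2 / 2 := by
      rw [abs_le]
      constructor <;> linarith [sq_nonneg h]
    calc ‖z p‖ * ((p:ℝ) ^ (-1 - η) * |1 - Real.exp (-h) - h|)
        ≤ 1 * ((p:ℝ) ^ (-1 - η) * (h ^ 2 / 2)) := by
          apply mul_le_mul (hz p) (mul_le_mul_of_nonneg_left h3 (e_nn p η))
            (mul_nonneg (e_nn p η) (abs_nonneg _)) zero_le_one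
      _ = _ := by rw [hh]; ring
  · have : (κ - 1) ^ 2 / 2 * ∑' p : Nat.Primes, (η * Real.log p) ^ 2 * (p:ℝ) ^ (-1 - η)
        ≤ (κ - 1) ^ 2 / 2 * 6 := mul_le_mul_of_nonneg_left hS (by positivity)
    linarith

theorem Dm_le {ε : ℝ} (hε : 0 < ε) : ∃ η₀ : ℝ, 0 < η₀ ∧ ∀ η : ℝ, 0 < η → η < η₀ →
    ∀ z : ℕ → ℂ, (∀ p, ‖z p‖ ≤ 1) → ‖Dm z η‖ ≤ 1 + ε := by
  obtain ⟨η₀, h0, hs⟩ := sum_one_le hε
  refine ⟨η₀, h0, fun η hη hlt z hz => ?_⟩
  rw [Dm_eq]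
  have hbd := (summable_k 1 hη).hasSum
  refine (tsum_of_norm_bounded hbd ?_).trans ?_
  · intro p
    have h1 := mul_nonneg (mul_nonneg hη.le (log_nn p)) (e_nn p η)
    rw [norm_mul, Complex.norm_real, Real.norm_eq_abs, pow_one, abs_of_nonneg h1]
    calc ‖z p‖ * (η * Real.log p * (p:ℝ) ^ (-1 - η))
        ≤ 1 * (η * Real.log p * (p:ℝ) ^ (-1 - η)) := mul_le_mul_of_nonneg_right (hz p) h1
      _ = _ := one_mul _
  · simpa using hs η hη hlt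

theorem Dm_lip : ∃ η₀ : ℝ, 0 < η₀ ∧ ∀ η : ℝ, 0 < η → η < η₀ → ∀ κ : ℝ, 1 ≤ κ → κ ≤ 2 →
    ∀ η' : ℝ, η ≤ η' → η' ≤ κ * η → ∀ z : ℕ → ℂ, (∀ p, ‖z p‖ ≤ 1) →
      ‖Dm z η' - Dm z η‖ ≤ 14 * (κ - 1) := by
  obtain ⟨η₁, h1, hs1⟩ := sum_sq_le
  obtain ⟨η₂, h2, hs2⟩ := sum_one_le (ε := 1) one_pos
  refine ⟨min η₁ η₂, lt_min h1 h2, fun η hη hlt κ hκ1 hκ2 η' hη1 hη2 z hz => ?_⟩
  have hS2 := hs1 η hη (hlt.trans_le (min_le_left _ _))
  have hS1 := hs2 η hη (hlt.trans_le (min_le_right _ _))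
  have hη' : 0 < η' := hη.trans_le hη1
  obtain ⟨ρ, hρ⟩ : ∃ ρ : ℝ, η' = ρ * η := ⟨η' / η, by field_simp⟩
  have hρ1 : 1 ≤ ρ := by
    by_contra hc
    push Not at hc
    nlinarith
  have hρκ : ρ ≤ κ := by
    by_contra hc
    push Not at hc
    nlinarith
  rw [Dm_eq, Dm_eq, ← (summ_one hη' hz).tsum_sub (summ_one hη hz)]
  have hbd : HasSum (fun p : Nat.Primes => (ρ - 1) * ((η * Real.log p) ^ 1 * (p:ℝ) ^ (-1 - η)
      + (η * Real.log p) ^ 2 * (p:ℝ) ^ (-1 - η)))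
      ((ρ - 1) * (∑' p : Nat.Primes, (η * Real.log p) ^ 1 * (p:ℝ) ^ (-1 - η)
        + ∑' p : Nat.Primes, (η * Real.log p) ^ 2 * (p:ℝ) ^ (-1 - η))) :=
    ((summable_k 1 hη).hasSum.add (summable_k 2 hη).hasSum).mul_left _
  refine (tsum_of_norm_bounded hbd ?_).trans ?_
  · intro p
    set x := η * Real.log p with hx
    have hx0 : 0 ≤ x := mul_nonneg hη.le (log_nn p)
    have e1 : z p * (((η' * Real.log p) * (p:ℝ) ^ (-1 - η') : ℝ) : ℂ)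
        - z p * ((x * (p:ℝ) ^ (-1 - η) : ℝ) : ℂ)
        = z p * (((p:ℝ) ^ (-1 - η) * (ρ * x * Real.exp (-((ρ - 1) * x)) - x) : ℝ) : ℂ) := by
      rw [hρ, rpow_shift p η ρ, hx]
      push_cast
      ring
    rw [e1, norm_mul, Complex.norm_real, Real.norm_eq_abs, abs_mul, abs_of_nonneg (e_nn p η)]
    have hl := exp_lower ((ρ - 1) * x)
    have hpos := Real.exp_pos (-((ρ - 1) * x))
    have hle : Real.exp (-((ρ - 1) * x)) ≤ 1 := by
      apply Real.exp_le_one_iff.2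
      have : 0 ≤ (ρ - 1) * x := mul_nonneg (by linarith) hx0
      linarith
    set E := Real.exp (-((ρ - 1) * x)) with hE
    have h3 : |ρ * x * E - x| ≤ (ρ - 1) * (x + x ^ 2) := by
      have hr : 0 ≤ ρ - 1 := by linarith
      have a1 : 0 ≤ (ρ - 1) * x := mul_nonneg hr hx0
      have a2 : (ρ - 1) * x * E ≤ (ρ - 1) * x * 1 := mul_le_mul_of_nonneg_left hle a1
      have a3 : 0 ≤ (ρ - 1) * x * E := mul_nonneg a1 hpos.le
      have a4 : x * (1 - E) ≤ x * ((ρ - 1) * x) := mul_le_mul_of_nonneg_left (by linarith) hx0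
      have a5 : 0 ≤ x * (1 - E) := mul_nonneg hx0 (by linarith)
      rw [abs_le]
      constructor
      · nlinarith
      · nlinarith
    calc ‖z p‖ * ((p:ℝ) ^ (-1 - η) * |ρ * x * E - x|)
        ≤ 1 * ((p:ℝ) ^ (-1 - η) * ((ρ - 1) * (x + x ^ 2))) := by
          apply mul_le_mul (hz p) (mul_le_mul_of_nonneg_left h3 (e_nn p η))
            (mul_nonneg (e_nn p η) (abs_nonneg _)) zero_le_one
      _ = _ := by ring
  · have hS1' : ∑' p : Nat.Primes, (η * Real.log p) ^ 1 * (p:ℝ) ^ (-1 - η) ≤ 1 + 1 := by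
      simpa using hS1
    have hr : 0 ≤ ρ - 1 := by linarith
    calc (ρ - 1) * (∑' p : Nat.Primes, (η * Real.log p) ^ 1 * (p:ℝ) ^ (-1 - η)
        + ∑' p : Nat.Primes, (η * Real.log p) ^ 2 * (p:ℝ) ^ (-1 - η))
        ≤ (ρ - 1) * (2 + 6) := mul_le_mul_of_nonneg_left (by linarith) hr
      _ ≤ 14 * (κ - 1) := by nlinarith

end Pool.Agent.Lib.P4a7640S
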