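import Mathlib
import Pool.Agent.Lib.P4a7640S.ZetaA

/-!
# The primes outside of `Tp c N`

Module P4a7640S.Tails (1.2 h). Imports are black boxes.

Let `η = lam/log N`, `x = η log p`. A prime not in `Tp c N` has `p^c ≤ N` or `N < p`.
For `p^c ≤ N`: `e^(-x) - e^(-κ x) ≤ (κ-1) x`, and with `η' = c/log N`, `x' = η' log p ≤ 1`, `x = (lam/c) x'` and
`x' ≤ 8 (e^(-x') - e^(-2x'))` for `0 ≤ x' ≤ 1` (`e^(-x')(1 - e^(-x')) ≥ e^(-1) x'/2`, `2 e < 8`); the sum over all
primes of `e^(-x')/p - e^(-2x')/p` is `Sp η' - Sp (2 η') → log 2 < 1` (`Sp_diff`).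
For `N < p`: `x > lam ≥ 2`, `e^(-x) - e^(-κ x) ≤ e^(-x) ≤ e^(-lam/2) e^(-x/2) ≤ 2 e^(-lam/2) (e^(-x/2) - e^(-x))`
and `Sp (η/2) - Sp η → log 2 < 1`.
-/

open Finset Filter Topology
open Pool.Agent.Lib.P4a7640

namespace Pool.Agent.Lib.P4a7640S

namespace TailsAux

theorem rp {P : ℝ} (hP : 0 < P) (s : ℝ) : P ^ (-1 - s) = P⁻¹ * Real.exp (-(s * Real.log P)) := by
  rw [Real.rpow_def_of_pos hP, show Real.log P * (-1 - s) = -Real.log P + -(s * Real.log P) by ring,
    Real.exp_add, Real.exp_neg, Real.exp_log hP]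

theorem caseA {l L lam κ c : ℝ} (hl : 0 ≤ l) (hL : 0 < L) (hc : 1 ≤ c) (hκ : 1 < κ)
    (hlam : 2 ≤ lam) (h : c * l ≤ L) :
    Real.exp (-(lam / L * l)) - Real.exp (-(κ * (lam / L) * l)) ≤
      8 * (κ - 1) * (lam / c) * (Real.exp (-(c / L * l)) - Real.exp (-(2 * (c / L) * l))) := by
  have hc0 : 0 < c := by linarith
  have hlam0 : 0 < lam := by linarith
  set x := c / L * l with hx
  have hx0 : 0 ≤ x := by positivity
  have hx1 : x ≤ 1 := by
    rw [hx, div_mul_eq_mul_div, div_le_one hL]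
    exact h
  have hxl : lam / L * l = lam / c * x := by
    rw [hx]
    field_simp
  have e1 : κ * (lam / L) * l = lam / c * x + (κ - 1) * (lam / c * x) := by
    rw [mul_assoc, hxl]
    ring
  have e2 : 2 * (c / L) * l = x + x := by
    rw [hx]
    ring
  rw [e1, e2, hxl]
  set y := lam / c * x with hy
  have hy0 : 0 ≤ y := by positivity
  have h1 : Real.exp (-y) - Real.exp (-(y + (κ - 1) * y)) ≤ (κ - 1) * y := by
    have h2 : Real.exp (-(y + (κ - 1) * y)) = Real.exp (-y) * Real.exp (-((κ - 1) * y)) := by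
      rw [← Real.exp_add]
      congr 1
      ring
    rw [h2]
    have h3 := Real.add_one_le_exp (-((κ - 1) * y))
    have h4 : Real.exp (-y) ≤ 1 := Real.exp_le_one_iff.2 (by linarith)
    have h5 := Real.exp_pos (-y)
    have h6 : 0 ≤ (κ - 1) * y := mul_nonneg (by linarith) hy0
    have h7 : Real.exp (-y) * (1 - Real.exp (-((κ - 1) * y))) ≤ Real.exp (-y) * ((κ - 1) * y) :=
      mul_le_mul_of_nonneg_left (by linarith) h5.le
    have h8 : Real.exp (-y) * ((κ - 1) * y) ≤ 1 * ((κ - 1) * y) :=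
      mul_le_mul_of_nonneg_right h4 h6
    nlinarith [h7, h8]
  have h2 : x ≤ 8 * (Real.exp (-x) - Real.exp (-(x + x))) := by
    have h3 : Real.exp (-(x + x)) = Real.exp (-x) * Real.exp (-x) := by
      rw [← Real.exp_add]
      congr 1
      ring
    rw [h3]
    have h4 : Real.exp (-1) ≤ Real.exp (-x) := Real.exp_le_exp.2 (by linarith)
    have h5 : (1 / 4 : ℝ) ≤ Real.exp (-1) := by
      rw [Real.exp_neg, one_div]
      apply inv_anti₀ (Real.exp_pos 1)
      have := Real.exp_one_lt_d9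
      linarith
    have h6 : Real.exp (-x) ≤ 1 - x / 2 := by
      have h8 : 1 + x ≤ Real.exp x := by
        have := Real.add_one_le_exp x
        linarith
      have h9 : Real.exp (-x) * Real.exp x = 1 := by rw [← Real.exp_add]; simp
      have h10 := Real.exp_pos (-x)
      have h11 : Real.exp (-x) * (1 + x) ≤ 1 :=
        (mul_le_mul_of_nonneg_left h8 h10.le).trans h9.le
      have h12 : 1 ≤ (1 - x / 2) * (1 + x) := by nlinarith
      have h13 : Real.exp (-x) * (1 + x) ≤ (1 - x / 2) * (1 + x) := h11.trans h12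
      exact le_of_mul_le_mul_right h13 (by linarith)
    have h7 : (1 / 4) * (x / 2) ≤ Real.exp (-x) * (1 - Real.exp (-x)) :=
      mul_le_mul (h5.trans h4) (by linarith) (by linarith) (Real.exp_pos _).le
    nlinarith [h7]
  calc Real.exp (-y) - Real.exp (-(y + (κ - 1) * y)) ≤ (κ - 1) * y := h1
    _ = (κ - 1) * (lam / c) * x := by rw [hy]; ring
    _ ≤ (κ - 1) * (lam / c) * (8 * (Real.exp (-x) - Real.exp (-(x + x)))) := by
      apply mul_le_mul_of_nonneg_left h2
      have : 0 ≤ κ - 1 := by linarith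
      positivity
    _ = _ := by ring

theorem caseB {l L lam κ : ℝ} (hL : 0 < L) (hlam : 2 ≤ lam) (h : L ≤ l) :
    Real.exp (-(lam / L * l)) - Real.exp (-(κ * (lam / L) * l)) ≤
      2 * Real.exp (-lam / 2) *
        (Real.exp (-(lam / 2 / L * l)) - Real.exp (-(2 * (lam / 2 / L) * l))) := by
  set x := lam / 2 / L * l with hx
  have hx1 : lam / 2 ≤ x := by
    rw [hx, div_mul_eq_mul_div, le_div_iff₀ hL]
    exact mul_le_mul_of_nonneg_left h (by linarith)
  have e1 : lam / L * l = x + x := by rw [hx]; ring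
  have e2 : 2 * (lam / 2 / L) * l = x + x := by rw [hx]; ring
  rw [e1, e2]
  have h3 : Real.exp (-(x + x)) = Real.exp (-x) * Real.exp (-x) := by
    rw [← Real.exp_add]
    congr 1
    ring
  rw [h3]
  have h4 : Real.exp (-x) ≤ Real.exp (-lam / 2) := Real.exp_le_exp.2 (by linarith)
  have h5 : Real.exp (-x) ≤ 1 / 2 := by
    have h6 : Real.exp (-x) ≤ Real.exp (-1) := Real.exp_le_exp.2 (by linarith)
    have h7 : Real.exp (-1) ≤ 1 / 2 := by
      rw [Real.exp_neg, one_div]
      apply inv_anti₀ (by norm_num)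
      have := Real.add_one_le_exp (1 : ℝ)
      linarith
    exact h6.trans h7
  have h6 := Real.exp_pos (-(κ * (lam / L) * l))
  have h7 := Real.exp_pos (-x)
  have h8 : Real.exp (-x) * Real.exp (-x) ≤ Real.exp (-lam / 2) * Real.exp (-x) :=
    mul_le_mul_of_nonneg_right h4 h7.le
  have h9 : Real.exp (-x) ≤ 2 * (Real.exp (-x) - Real.exp (-x) * Real.exp (-x)) := by nlinarith
  have h10 : Real.exp (-lam / 2) * Real.exp (-x) ≤
      Real.exp (-lam / 2) * (2 * (Real.exp (-x) - Real.exp (-x) * Real.exp (-x))) :=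
    mul_le_mul_of_nonneg_left h9 (Real.exp_pos _).le
  nlinarith [h8, h10, h6]

theorem dpos {l a : ℝ} (hl : 0 ≤ l) (ha : 0 ≤ a) :
    0 ≤ Real.exp (-(a * l)) - Real.exp (-(2 * a * l)) := by
  have : Real.exp (-(2 * a * l)) ≤ Real.exp (-(a * l)) := by
    apply Real.exp_le_exp.2
    have := mul_nonneg ha hl
    linarith
  linarith

end TailsAux

open TailsAux

theorem tails (c : ℕ) (hc : 1 ≤ c) {κ lam : ℝ} (hκ : 1 < κ) (hlam : 2 ≤ lam) :
    ∀ᶠ N : ℕ in atTop, ∑' p : Nat.Primes, (if (p:ℕ) ∈ Tp c N then 0 else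
      ((p:ℝ) ^ (-1 - lam / Real.log N) - (p:ℝ) ^ (-1 - κ * (lam / Real.log N)))) ≤
      8 * (κ - 1) * (lam / c) + 2 * Real.exp (-lam / 2) := by
  have hc1 : (1:ℝ) ≤ c := by exact_mod_cast hc
  have hlog2 : Real.log 2 < 1 := by
    have := Real.log_two_lt_d9
    linarith
  have hdiff := Sp_diff (κ := 2) (by norm_num)
  have hev : ∀ᶠ η in 𝓝[>] (0:ℝ), Sp η - Sp (2 * η) < 1 := hdiff.eventually_lt_const hlog2
  have hlogT : Tendsto (fun N : ℕ => Real.log N) atTop atTop :=
    Real.tendsto_log_atTop.comp tendsto_natCast_atTop_atTop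
  have hscale : ∀ a : ℝ, 0 < a → Tendsto (fun N : ℕ => a / Real.log N) atTop (𝓝[>] 0) := by
    intro a ha
    apply tendsto_nhdsWithin_of_tendsto_nhds_of_eventually_within
    · exact hlogT.const_div_atTop a
    · filter_upwards [hlogT.eventually_gt_atTop 0] with N hN
      exact div_pos ha hN
  have e1 := (hscale c (by linarith)).eventually hev
  have e2 := (hscale (lam / 2) (by linarith)).eventually hev
  filter_upwards [e1, e2, hlogT.eventually_gt_atTop 0, eventually_ge_atTop 1] with N h1 h2 hL hN1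
  have hN0 : (0:ℝ) < N := by exact_mod_cast hN1
  set L := Real.log N with hLdef
  have hs : ∀ a : ℝ, 0 < a → Summable fun p : Nat.Primes => (p:ℝ) ^ (-1 - a) :=
    fun a ha => summable_Sp ha
  have hA0 : 0 < (c:ℝ) / L := div_pos (by linarith) hL
  have hB0 : 0 < lam / 2 / L := div_pos (by linarith) hL
  have hC0 : 0 < lam / L := div_pos (by linarith) hL
  have sA : Summable fun p : Nat.Primes => (p:ℝ) ^ (-1 - c / L) - (p:ℝ) ^ (-1 - 2 * (c / L)) :=
    (hs _ hA0).sub (hs _ (by linarith))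
  have sB : Summable fun p : Nat.Primes =>
      (p:ℝ) ^ (-1 - lam / 2 / L) - (p:ℝ) ^ (-1 - 2 * (lam / 2 / L)) :=
    (hs _ hB0).sub (hs _ (by linarith))
  have sT0 : Summable fun p : Nat.Primes =>
      (p:ℝ) ^ (-1 - lam / L) - (p:ℝ) ^ (-1 - κ * (lam / L)) :=
    (hs _ hC0).sub (hs _ (mul_pos (by linarith) hC0))
  have sT : Summable fun p : Nat.Primes => if (p:ℕ) ∈ Tp c N then 0 else
      (p:ℝ) ^ (-1 - lam / L) - (p:ℝ) ^ (-1 - κ * (lam / L)) := by
    refine Summable.of_norm_bounded sT0.norm fun p => ?_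
    split_ifs
    · rw [norm_zero]
      exact norm_nonneg _
    · exact le_rfl
  set α := 8 * (κ - 1) * (lam / c) with hα
  set β := 2 * Real.exp (-lam / 2) with hβ
  have hα0 : 0 ≤ α := by
    have : 0 ≤ κ - 1 := by linarith
    have : 0 < lam := by linarith
    positivity
  have hβ0 : 0 ≤ β := by positivity
  have hterm : ∀ p : Nat.Primes, (if (p:ℕ) ∈ Tp c N then 0 else
      (p:ℝ) ^ (-1 - lam / L) - (p:ℝ) ^ (-1 - κ * (lam / L))) ≤
      α * ((p:ℝ) ^ (-1 - c / L) - (p:ℝ) ^ (-1 - 2 * (c / L))) +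
      β * ((p:ℝ) ^ (-1 - lam / 2 / L) - (p:ℝ) ^ (-1 - 2 * (lam / 2 / L))) := by
    intro p
    have hp1 : (1:ℝ) ≤ (p:ℝ) := by exact_mod_cast p.2.one_lt.le
    have hp0 : (0:ℝ) < (p:ℝ) := by linarith
    have hl0 : 0 ≤ Real.log p := Real.log_nonneg hp1
    rw [rp hp0, rp hp0, rp hp0, rp hp0, rp hp0, rp hp0, ← mul_sub, ← mul_sub, ← mul_sub]
    have hpi : 0 ≤ (p:ℝ)⁻¹ := inv_nonneg.2 hp0.le
    have dA := mul_nonneg hα0 (mul_nonneg hpi (dpos hl0 hA0.le))
    have dB := mul_nonneg hβ0 (mul_nonneg hpi (dpos hl0 hB0.le))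
    split_ifs with hT
    · linarith
    · by_cases hpN : (p:ℕ) ≤ N
      · have hpc : (p:ℕ) ^ c ≤ N := by
          by_contra hcon
          apply hT
          rw [Tp, Finset.mem_filter, Finset.mem_Icc]
          exact ⟨⟨p.2.one_lt.le, hpN⟩, p.2, not_le.1 hcon⟩
        have hlc : (c:ℝ) * Real.log p ≤ L := by
          rw [← Real.log_pow, hLdef]
          apply Real.log_le_log (by positivity)
          exact_mod_cast hpc
        have h3 := mul_le_mul_of_nonneg_left (caseA hl0 hL hc1 hκ hlam hlc) hpi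
        have h4 : (p:ℝ)⁻¹ * (α * (Real.exp (-(c / L * Real.log p)) -
            Real.exp (-(2 * (c / L) * Real.log p)))) =
            α * ((p:ℝ)⁻¹ * (Real.exp (-(c / L * Real.log p)) -
            Real.exp (-(2 * (c / L) * Real.log p)))) := by ring
        rw [← hα, h4] at h3
        linarith
      · have hlp : L ≤ Real.log p := by
          rw [hLdef]
          apply Real.log_le_log hN0
          exact_mod_cast (not_le.1 hpN).le
        have h3 := mul_le_mul_of_nonneg_left (caseB (κ := κ) hL hlam hlp) hpi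
        have h4 : (p:ℝ)⁻¹ * (β * (Real.exp (-(lam / 2 / L * Real.log p)) -
            Real.exp (-(2 * (lam / 2 / L) * Real.log p)))) =
            β * ((p:ℝ)⁻¹ * (Real.exp (-(lam / 2 / L * Real.log p)) -
            Real.exp (-(2 * (lam / 2 / L) * Real.log p)))) := by ring
        rw [← hβ, h4] at h3
        linarith
  refine (sT.tsum_le_tsum hterm ((sA.mul_left α).add (sB.mul_left β))).trans ?_
  rw [(sA.mul_left α).tsum_add (sB.mul_left β), tsum_mul_left, tsum_mul_left,
    (hs _ hA0).tsum_sub (hs _ (by linarith)), (hs _ hB0).tsum_sub (hs _ (by linarith))]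
  have h3 : α * (Sp (c / L) - Sp (2 * (c / L))) ≤ α * 1 := mul_le_mul_of_nonneg_left h1.le hα0
  have h4 : β * (Sp (lam / 2 / L) - Sp (2 * (lam / 2 / L))) ≤ β * 1 :=
    mul_le_mul_of_nonneg_left h2.le hβ0
  have h5 := add_le_add h3 h4
  rw [mul_one, mul_one] at h5
  exact h5

end Pool.Agent.Lib.P4a7640S
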