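import Mathlib
import Pool.Agent.Lib.P4a7640S.Tails
import Pool.Agent.Lib.P4a7640S.DmA
import Pool.Agent.Lib.P4a7640S.Euler
import Pool.Agent.Lib.P4a7640S.ProdExp

/-!
# The ratio of two values of the series

Module P4a7640S.Ratio (2 h). Imports are black boxes.

`η = lam/log N → 0`. By `gN_eq` and `prod_exp` (for `η` and `κ η`; `T = Tp c N`):
`gN (κ lam)/gN lam = (Zr (κη)/Zr η) * exp (∑_T (1 - z p)(p^(-1-η) - p^(-1-κη))) * (1 + small)`,
`Zr (κη)/Zr η → 1/κ` (`tendsto_Zr`), all factors nonzero (`Zr_ge`, `prod_exp`). Split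
`∑_T (1 - z p) d_p = ∑_all d_p - ∑_all z p d_p - ∑_{p ∉ T} (1 - z p) d_p`, `d_p = p^(-1-η) - p^(-1-κη) ≥ 0`:
the first sum is `Sp η - Sp (κη) → log κ` (`Sp_diff`), the second is `(κ-1) Dm z η` up to `3 (κ-1)^2` (`Dm_diff`),
the third is at most `2 (8 (κ-1) lam/c + 2 e^(-lam/2))` (`tails`). So the ratio is `exp (w) (1 + o(1))`,
`w = -(κ-1) Dm z η + θ`, `|θ| ≤ 3 (κ-1)^2 + 16 (κ-1) lam/c + 4 e^(-lam/2) + o(1)`, `|w| ≤ 1` (`Dm_le`;
`κ - 1 ≤ 1/4`, `lam/c ≤ 1/16`, `e^(-4) < 0.02`), `‖exp w - 1 - w‖ ≤ ‖w‖^2 ≤ 2 (1.1 (κ-1))^2 + 2 |θ|^2`,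
`2 |θ|^2 ≤ 1.5 |θ|`; sum up: at most `10 (κ-1)^2 + 40 lam/c + 10 e^(-lam/2) + o(1)`.
-/

open Finset Filter Topology
open Pool.Agent.Lib.P4a7640

namespace Pool.Agent.Lib.P4a7640S

namespace RatioAux

/-- the differences of the kernels -/
noncomputable def dk (η κ : ℝ) (p : ℕ) : ℝ := (p:ℝ) ^ (-1 - η) - (p:ℝ) ^ (-1 - κ * η)

theorem dk_nonneg {η κ : ℝ} (hη : 0 < η) (hκ : 1 < κ) {p : ℕ} (hp : p.Prime) :
    0 ≤ dk η κ p := by
  have h1 : (1:ℝ) ≤ p := by exact_mod_cast hp.one_lt.le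
  unfold dk
  rw [sub_nonneg]
  refine Real.rpow_le_rpow_of_exponent_le h1 ?_
  nlinarith

theorem summable_dk {η κ : ℝ} (hη : 0 < η) (hκ : 1 < κ) :
    Summable fun p : Nat.Primes => dk η κ p :=
  (summable_Sp hη).sub (summable_Sp (by positivity))

theorem tsum_dk {η κ : ℝ} (hη : 0 < η) (hκ : 1 < κ) :
    ∑' p : Nat.Primes, dk η κ p = Sp η - Sp (κ * η) :=
  (summable_Sp hη).tsum_sub (summable_Sp (by positivity))

theorem sum_T {T : Finset ℕ} (hT : ∀ p ∈ T, p.Prime) (f : ℕ → ℂ) :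
    ∑ p ∈ T, f p = ∑' p : Nat.Primes, if (p:ℕ) ∈ T then f p else 0 := by
  classical
  let s : Finset Nat.Primes := T.subtype Nat.Prime
  have hs : ∀ b : Nat.Primes, b ∈ s ↔ (b : ℕ) ∈ T := fun b => Finset.mem_subtype
  have h0 : ∑' p : Nat.Primes, (if (p:ℕ) ∈ T then f p else 0) =
      ∑ p ∈ s, (if (p:ℕ) ∈ T then f p else 0) := by
    refine tsum_eq_sum fun b hb => ?_
    rw [if_neg]
    exact fun h => hb ((hs b).2 h)
  rw [h0]
  have h1 : ∑ b ∈ s, (if (b:ℕ) ∈ T then f b else 0) = ∑ b ∈ s, f (b : ℕ) := by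
    refine Finset.sum_congr rfl fun b hb => ?_
    rw [if_pos ((hs b).1 hb)]
  rw [h1]
  have h2 := Finset.sum_subtype_eq_sum_filter (s := T) (p := Nat.Prime) f
  have h3 : T.filter Nat.Prime = T := Finset.filter_true_of_mem hT
  rw [h3] at h2
  exact h2.symm

/-- the exponent -/
theorem exponent {T : Finset ℕ} (hT : ∀ p ∈ T, p.Prime) {η κ : ℝ} (hη : 0 < η) (hκ : 1 < κ)
    {z : ℕ → ℂ} (hz : ∀ p, ‖z p‖ ≤ 1) {b : ℝ}
    (hb : ∑' p : Nat.Primes, (if (p:ℕ) ∈ T then 0 else dk η κ p) ≤ b) :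
    ‖(∑ p ∈ T, (1 - z p) * (((p:ℝ) ^ (-1 - η) : ℝ) : ℂ)
      - ∑ p ∈ T, (1 - z p) * (((p:ℝ) ^ (-1 - κ * η) : ℝ) : ℂ))
      - (((Sp η - Sp (κ * η) : ℝ) : ℂ) - ∑' p : Nat.Primes, z p * ((dk η κ p : ℝ) : ℂ))‖ ≤
      2 * b := by
  have hsd := summable_dk hη hκ
  have hsz : Summable fun p : Nat.Primes => z p * ((dk η κ p : ℝ) : ℂ) := by
    refine Summable.of_norm_bounded hsd fun p => ?_
    rw [norm_mul, Complex.norm_real, Real.norm_of_nonneg (dk_nonneg hη hκ p.2)]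
    calc ‖z p‖ * dk η κ p ≤ 1 * dk η κ p :=
          mul_le_mul_of_nonneg_right (hz p) (dk_nonneg hη hκ p.2)
      _ = dk η κ p := one_mul _
  have hsc : Summable fun p : Nat.Primes => ((dk η κ p : ℝ) : ℂ) :=
    Complex.ofRealCLM.summable hsd
  have hall : ∑' p : Nat.Primes, (1 - z p) * ((dk η κ p : ℝ) : ℂ) =
      ((Sp η - Sp (κ * η) : ℝ) : ℂ) - ∑' p : Nat.Primes, z p * ((dk η κ p : ℝ) : ℂ) := by
    rw [← tsum_dk hη hκ, Complex.ofReal_tsum, ← hsc.tsum_sub hsz]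
    refine tsum_congr fun p => ?_
    ring
  have hn : ∀ p : Nat.Primes, ‖(1 - z p) * ((dk η κ p : ℝ) : ℂ)‖ ≤ 2 * dk η κ p := by
    intro p
    rw [norm_mul, Complex.norm_real, Real.norm_of_nonneg (dk_nonneg hη hκ p.2)]
    refine mul_le_mul_of_nonneg_right ?_ (dk_nonneg hη hκ p.2)
    calc ‖1 - z p‖ ≤ ‖(1:ℂ)‖ + ‖z p‖ := norm_sub_le _ _
      _ ≤ 1 + 1 := by rw [norm_one]; linarith [hz p]
      _ = 2 := by norm_num
  have hd2 : Summable fun p : Nat.Primes => 2 * dk η κ p := hsd.mul_left 2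
  have hin : Summable fun p : Nat.Primes =>
      (if (p:ℕ) ∈ T then (1 - z p) * ((dk η κ p : ℝ) : ℂ) else 0) := by
    refine Summable.of_norm_bounded hd2 fun p => ?_
    split_ifs
    · exact hn p
    · rw [norm_zero]
      have := dk_nonneg hη hκ p.2
      positivity
  have hout : Summable fun p : Nat.Primes =>
      (if (p:ℕ) ∈ T then 0 else (1 - z p) * ((dk η κ p : ℝ) : ℂ)) := by
    refine Summable.of_norm_bounded hd2 fun p => ?_
    split_ifs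
    · rw [norm_zero]
      have := dk_nonneg hη hκ p.2
      positivity
    · exact hn p
  have hsplit : ∑' p : Nat.Primes, (1 - z p) * ((dk η κ p : ℝ) : ℂ) =
      ∑' p : Nat.Primes, (if (p:ℕ) ∈ T then (1 - z p) * ((dk η κ p : ℝ) : ℂ) else 0) +
      ∑' p : Nat.Primes, (if (p:ℕ) ∈ T then 0 else (1 - z p) * ((dk η κ p : ℝ) : ℂ)) := by
    rw [← hin.tsum_add hout]
    refine tsum_congr fun p => ?_
    split_ifs
    · rw [add_zero]
    · rw [zero_add]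
  have hST : ∑ p ∈ T, (1 - z p) * (((p:ℝ) ^ (-1 - η) : ℝ) : ℂ)
      - ∑ p ∈ T, (1 - z p) * (((p:ℝ) ^ (-1 - κ * η) : ℝ) : ℂ) =
      ∑' p : Nat.Primes, (if (p:ℕ) ∈ T then (1 - z p) * ((dk η κ p : ℝ) : ℂ) else 0) := by
    rw [← sum_T hT (fun p => (1 - z p) * ((dk η κ p : ℝ) : ℂ)), ← Finset.sum_sub_distrib]
    refine Finset.sum_congr rfl fun p _ => ?_
    unfold dk
    push_cast
    ring
  rw [hST, ← hall, hsplit]
  have e : ∀ a b : ℂ, a - (a + b) = -b := fun a b => by ring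
  rw [e, norm_neg]
  have hso : Summable fun p : Nat.Primes => (if (p:ℕ) ∈ T then 0 else dk η κ p) := by
    refine Summable.of_nonneg_of_le (fun p => ?_) (fun p => ?_) hsd
    · split_ifs
      · exact le_rfl
      · exact dk_nonneg hη hκ p.2
    · split_ifs
      · exact dk_nonneg hη hκ p.2
      · exact le_rfl
  refine (tsum_of_norm_bounded (hso.hasSum.mul_left 2) fun p => ?_).trans
    (mul_le_mul_of_nonneg_left hb (by norm_num))
  split_ifs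
  · rw [norm_zero, mul_zero]
  · exact hn p

/-- the numerical part -/
theorem final {k μ e ε δ : ℝ} (hk : 0 < k) (hk4 : k ≤ 1 / 4) (hμ : 0 ≤ μ) (hμ16 : μ ≤ 1 / 16)
    (he : 0 ≤ e) (he2 : e ≤ 1 / 50) (hδ : 0 ≤ δ) (hδε : 3 * δ ≤ ε)
    {A D θ : ℂ} (hA : ‖A - 1‖ ≤ δ) (hD : ‖D‖ ≤ 11 / 10)
    (hθ : ‖θ‖ ≤ 3 * k ^ 2 + 16 * k * μ + 4 * e) :
    ‖A * Complex.exp (-((k : ℂ) * D) + θ) - (1 - (k : ℂ) * D)‖ ≤
      10 * k ^ 2 + 40 * μ + 10 * e + ε := by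
  set w := -((k : ℂ) * D) + θ with hw
  set t := 3 * k ^ 2 + 16 * k * μ + 4 * e with ht
  have ht0 : 0 ≤ t := (norm_nonneg θ).trans hθ
  have hkD : ‖(k : ℂ) * D‖ ≤ k * (11 / 10) := by
    rw [norm_mul, Complex.norm_real, Real.norm_of_nonneg hk.le]
    exact mul_le_mul_of_nonneg_left hD hk.le
  have hwn : ‖w‖ ≤ k * (11 / 10) + t := by
    calc ‖w‖ ≤ ‖-((k : ℂ) * D)‖ + ‖θ‖ := norm_add_le _ _
      _ ≤ k * (11 / 10) + t := by rw [norm_neg]; exact add_le_add hkD hθ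
  have hkμ : k * μ ≤ μ / 4 := by nlinarith
  have hk2 : k ^ 2 ≤ 1 / 16 := by nlinarith
  have htb : t ≤ 52 / 100 := by
    have : 16 * k * μ ≤ 1 / 4 := by nlinarith
    rw [ht]
    nlinarith
  have hw1 : ‖w‖ ≤ 1 := hwn.trans (by nlinarith)
  have hexp : ‖Complex.exp w - 1 - w‖ ≤ ‖w‖ ^ 2 := Complex.norm_exp_sub_one_sub_id_le hw1
  have hexp3 : ‖Complex.exp w‖ ≤ 3 := by
    have h1 : Complex.exp w = (Complex.exp w - 1 - w) + (1 + w) := by ring
    rw [h1]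
    calc ‖(Complex.exp w - 1 - w) + (1 + w)‖ ≤ ‖Complex.exp w - 1 - w‖ + ‖1 + w‖ :=
          norm_add_le _ _
      _ ≤ ‖w‖ ^ 2 + (1 + ‖w‖) := by
          refine add_le_add hexp ((norm_add_le _ _).trans ?_)
          rw [norm_one]
      _ ≤ 3 := by nlinarith [norm_nonneg w]
  have hid : A * Complex.exp w - (1 - (k : ℂ) * D) =
      (A - 1) * Complex.exp w + (Complex.exp w - 1 - w) + θ := by
    rw [hw]
    ring
  have hw2 : ‖w‖ ^ 2 ≤ 2 * (k * (11 / 10)) ^ 2 + 2 * t ^ 2 := by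
    have h1 : ‖w‖ ^ 2 ≤ (k * (11 / 10) + t) ^ 2 := pow_le_pow_left₀ (norm_nonneg _) hwn 2
    nlinarith [sq_nonneg (k * (11 / 10) - t)]
  have ht2 : 2 * t ^ 2 ≤ 104 / 100 * t := by nlinarith
  rw [hid]
  calc ‖(A - 1) * Complex.exp w + (Complex.exp w - 1 - w) + θ‖
      ≤ ‖(A - 1) * Complex.exp w‖ + ‖Complex.exp w - 1 - w‖ + ‖θ‖ := norm_add₃_le
    _ ≤ δ * 3 + (2 * (k * (11 / 10)) ^ 2 + 2 * t ^ 2) + t := by
        refine add_le_add (add_le_add ?_ (hexp.trans hw2)) hθ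
        rw [norm_mul]
        exact mul_le_mul hA hexp3 (norm_nonneg _) hδ
    _ ≤ 10 * k ^ 2 + 40 * μ + 10 * e + ε := by
        rw [ht] at ht2 ⊢
        nlinarith

theorem tendsto_B {κ : ℝ} (hκ : 1 < κ) :
    Tendsto (fun η => (κ * Zr (κ * η) / Zr η) * Real.exp (Sp η - Sp (κ * η) - Real.log κ))
      (𝓝[>] 0) (𝓝 1) := by
  have hκ0 : 0 < κ := by linarith
  have h1 : Tendsto (fun η : ℝ => κ * η) (𝓝[>] 0) (𝓝[>] 0) := by
    apply tendsto_nhdsWithin_of_tendsto_nhds_of_eventually_within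
    · have : Tendsto (fun η : ℝ => κ * η) (𝓝 0) (𝓝 (κ * 0)) :=
        (continuous_const.mul continuous_id).tendsto 0
      rw [mul_zero] at this
      exact this.mono_left nhdsWithin_le_nhds
    · filter_upwards [self_mem_nhdsWithin] with η hη
      exact mul_pos hκ0 hη
  have h2 := tendsto_Zr.comp h1
  have h3 := h2.div tendsto_Zr one_ne_zero
  have h4 : Tendsto (fun η => Sp η - Sp (κ * η) - Real.log κ) (𝓝[>] 0) (𝓝 0) := by
    have := (Sp_diff hκ).sub_const (Real.log κ)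
    rwa [sub_self] at this
  have h5 := (Real.continuous_exp.tendsto 0).comp h4
  rw [Real.exp_zero] at h5
  have h6 := h3.mul h5
  rw [div_one, mul_one] at h6
  refine h6.congr' ?_
  filter_upwards [self_mem_nhdsWithin] with η hη
  have hη0 : (0:ℝ) < η := hη
  simp only [Function.comp_apply, Pi.div_apply]
  congr 1
  field_simp

end RatioAux

open RatioAux in
theorem ratio (c : ℕ) {κ lam : ℝ} (hκ : 1 < κ) (hκ2 : κ ≤ 5 / 4) (hlam : 8 ≤ lam)
    (hlc : 16 * lam ≤ c) {ε : ℝ} (hε : 0 < ε) : ∀ᶠ N : ℕ in atTop, ∀ z : ℕ → ℂ,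
    (∀ p, ‖z p‖ ≤ 1) → gN z (Tp c N) N lam ≠ 0 ∧
      ‖gN z (Tp c N) N (κ * lam) / gN z (Tp c N) N lam -
        (1 - ((κ - 1 : ℝ) : ℂ) * Dm z (lam / Real.log N))‖ ≤
      10 * (κ - 1) ^ 2 + 40 * (lam / c) + 10 * Real.exp (-lam / 2) + ε := by
  have hκ0 : 0 < κ := by linarith
  have hlam0 : 0 < lam := by linarith
  have hcR : (128:ℝ) ≤ c := by linarith
  have hc0 : (0:ℝ) < c := by linarith
  have hc1 : 1 ≤ c := by
    have : (1:ℝ) ≤ c := by linarith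
    exact_mod_cast this
  set δ : ℝ := min (1 / 2) (ε / 21) with hδ
  have hδ0 : 0 < δ := lt_min (by norm_num) (by positivity)
  have hδ2 : δ ≤ 1 / 2 := min_le_left _ _
  have hδε : δ ≤ ε / 21 := min_le_right _ _
  have hlogT : Tendsto (fun N : ℕ => Real.log N) atTop atTop :=
    Real.tendsto_log_atTop.comp tendsto_natCast_atTop_atTop
  have hscale : Tendsto (fun N : ℕ => lam / Real.log N) atTop (𝓝[>] 0) := by
    apply tendsto_nhdsWithin_of_tendsto_nhds_of_eventually_within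
    · exact hlogT.const_div_atTop lam
    · filter_upwards [hlogT.eventually_gt_atTop 0] with N hN
      exact div_pos hlam0 hN
  obtain ⟨η₁, hη₁, hdiff⟩ := Dm_diff
  obtain ⟨η₂, hη₂, hle⟩ := Dm_le (ε := 1 / 10) (by norm_num)
  have hev1 : ∀ᶠ N : ℕ in atTop, lam / Real.log N < η₁ :=
    (tendsto_nhdsWithin_iff.1 hscale).1.eventually_lt_const hη₁
  have hev2 : ∀ᶠ N : ℕ in atTop, lam / Real.log N < η₂ :=
    (tendsto_nhdsWithin_iff.1 hscale).1.eventually_lt_const hη₂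
  have hevB : ∀ᶠ N : ℕ in atTop, |(κ * Zr (κ * (lam / Real.log N)) / Zr (lam / Real.log N)) *
      Real.exp (Sp (lam / Real.log N) - Sp (κ * (lam / Real.log N)) - Real.log κ) - 1| < δ := by
    have h1 := (tendsto_B hκ).comp hscale
    have h2 := (Metric.tendsto_nhds.1 h1) δ hδ0
    filter_upwards [h2] with N hN
    rw [Real.dist_eq] at hN
    exact hN
  filter_upwards [hev1, hev2, hevB, prod_exp c hδ0, tails c hc1 hκ (by linarith : 2 ≤ lam),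
    eventually_ge_atTop 2, hlogT.eventually_gt_atTop 0] with N hN1 hN2 hNB hNP hNT hN h2log z hz
  set η : ℝ := lam / Real.log N with hη
  have hη0 : 0 < η := div_pos hlam0 h2log
  set T := Tp c N with hT
  have hTp : ∀ p ∈ T, p.Prime := fun p hp => (Finset.mem_filter.1 hp).2.1
  have hκη : κ * lam / Real.log N = κ * η := by rw [hη, mul_div_assoc]
  have e1 := gN_eq hz hTp hN hlam0
  have e2 := gN_eq hz hTp hN (mul_pos hκ0 hlam0)
  rw [← hη] at e1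
  rw [hκη] at e2
  set P1 := ∏ p ∈ T, (1 - (1 - z p) * (((p:ℝ) ^ (-1 - η) : ℝ) : ℂ)) with hP1
  set P2 := ∏ p ∈ T, (1 - (1 - z p) * (((p:ℝ) ^ (-1 - κ * η) : ℝ) : ℂ)) with hP2
  set S1 := ∑ p ∈ T, (1 - z p) * (((p:ℝ) ^ (-1 - η) : ℝ) : ℂ) with hS1
  set S2 := ∑ p ∈ T, (1 - z p) * (((p:ℝ) ^ (-1 - κ * η) : ℝ) : ℂ) with hS2
  have p1 : ‖P1 * Complex.exp S1 - 1‖ ≤ δ := hNP z hz η hη0.le
  have p2 : ‖P2 * Complex.exp S2 - 1‖ ≤ δ := hNP z hz (κ * η) (by positivity)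
  have hZ1 : 0 < Zr η := lt_of_lt_of_le (by positivity) (Zr_ge hη0)
  have hZ2 : 0 < Zr (κ * η) :=
    lt_of_lt_of_le (by positivity) (Zr_ge (mul_pos hκ0 hη0))
  have hne1 : P1 * Complex.exp S1 ≠ 0 := by
    intro h0
    rw [h0, zero_sub, norm_neg, norm_one] at p1
    linarith
  have hP1ne : P1 ≠ 0 := left_ne_zero_of_mul hne1
  have hL : ((Real.log N)⁻¹ : ℝ) ≠ 0 := inv_ne_zero h2log.ne'
  have hg1 : gN z T N lam ≠ 0 := by
    rw [e1]
    refine mul_ne_zero ?_ hP1ne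
    exact_mod_cast mul_ne_zero hL hZ1.ne'
  refine ⟨hg1, ?_⟩
  -- the error terms
  have hx := exponent hTp hη0 hκ hz (b := 8 * (κ - 1) * (lam / c) + 2 * Real.exp (-lam / 2)) hNT
  rw [← hS1, ← hS2] at hx
  have hy := hdiff η hη0 hN1 κ hκ.le z hz
  set F := ∑' p : Nat.Primes, z p * ((dk η κ p : ℝ) : ℂ) with hF
  have hy' : ‖F - ((κ - 1 : ℝ) : ℂ) * Dm z η‖ ≤ 3 * (κ - 1) ^ 2 := hy
  set G : ℝ := Sp η - Sp (κ * η) with hG
  set θ : ℂ := (S1 - S2 - ((G : ℂ) - F)) - (F - ((κ - 1 : ℝ) : ℂ) * Dm z η) with hθ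
  have hθn : ‖θ‖ ≤ 3 * (κ - 1) ^ 2 + 16 * (κ - 1) * (lam / c) + 4 * Real.exp (-lam / 2) := by
    calc ‖θ‖ ≤ ‖S1 - S2 - ((G : ℂ) - F)‖ + ‖F - ((κ - 1 : ℝ) : ℂ) * Dm z η‖ := norm_sub_le _ _
      _ ≤ 2 * (8 * (κ - 1) * (lam / c) + 2 * Real.exp (-lam / 2)) + 3 * (κ - 1) ^ 2 :=
          add_le_add hx hy'
      _ = _ := by ring
  -- the main factor
  set B : ℝ := (κ * Zr (κ * η) / Zr η) * Real.exp (G - Real.log κ) with hB
  set A : ℂ := (B : ℂ) * (P2 * Complex.exp S2) / (P1 * Complex.exp S1) with hA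
  have hAn : ‖A - 1‖ ≤ 7 * δ := by
    have h1 : A - 1 = (((B : ℂ) - 1) * (P2 * Complex.exp S2) + (P2 * Complex.exp S2 - 1)
        - (P1 * Complex.exp S1 - 1)) / (P1 * Complex.exp S1) := by
      rw [hA, div_sub_one hne1]
      congr 1
      ring
    have h2 : (1:ℝ) / 2 ≤ ‖P1 * Complex.exp S1‖ := by
      have h3 : ‖(1:ℂ)‖ ≤ ‖P1 * Complex.exp S1‖ + ‖P1 * Complex.exp S1 - 1‖ := by
        have h4 : (1:ℂ) = P1 * Complex.exp S1 - (P1 * Complex.exp S1 - 1) := by ring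
        calc ‖(1:ℂ)‖ = ‖P1 * Complex.exp S1 - (P1 * Complex.exp S1 - 1)‖ := by rw [← h4]
          _ ≤ _ := norm_sub_le _ _
      rw [norm_one] at h3
      linarith
    have h3 : ‖P2 * Complex.exp S2‖ ≤ 3 / 2 := by
      have h4 : P2 * Complex.exp S2 = (P2 * Complex.exp S2 - 1) + 1 := by ring
      calc ‖P2 * Complex.exp S2‖ = ‖(P2 * Complex.exp S2 - 1) + 1‖ := by rw [← h4]
        _ ≤ ‖P2 * Complex.exp S2 - 1‖ + ‖(1:ℂ)‖ := norm_add_le _ _
        _ ≤ 3 / 2 := by rw [norm_one]; linarith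
    have h4 : ‖(B : ℂ) - 1‖ ≤ δ := by
      have : (B : ℂ) - 1 = ((B - 1 : ℝ) : ℂ) := by push_cast; ring
      rw [this, Complex.norm_real, Real.norm_eq_abs]
      exact hNB.le
    rw [h1, norm_div, div_le_iff₀ (by linarith)]
    calc ‖((B : ℂ) - 1) * (P2 * Complex.exp S2) + (P2 * Complex.exp S2 - 1)
        - (P1 * Complex.exp S1 - 1)‖
        ≤ ‖((B : ℂ) - 1) * (P2 * Complex.exp S2) + (P2 * Complex.exp S2 - 1)‖
          + ‖P1 * Complex.exp S1 - 1‖ := norm_sub_le _ _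
      _ ≤ ‖((B : ℂ) - 1) * (P2 * Complex.exp S2)‖ + ‖P2 * Complex.exp S2 - 1‖
          + ‖P1 * Complex.exp S1 - 1‖ := by
          gcongr
          exact norm_add_le _ _
      _ ≤ δ * (3 / 2) + δ + δ := by
          refine add_le_add (add_le_add ?_ p2) p1
          rw [norm_mul]
          exact mul_le_mul h4 h3 (norm_nonneg _) hδ0.le
      _ ≤ 7 * δ * ‖P1 * Complex.exp S1‖ := by nlinarith
  have hratio : gN z T N (κ * lam) / gN z T N lam =
      A * Complex.exp (-(((κ - 1 : ℝ) : ℂ) * Dm z η) + θ) := by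
    have h1 : -(((κ - 1 : ℝ) : ℂ) * Dm z η) + θ = S1 - S2 - (G : ℂ) := by
      rw [hθ]
      ring
    have h2 : Complex.exp (S1 - S2 - (G : ℂ)) =
        Complex.exp S1 * (Complex.exp S2)⁻¹ * (Complex.exp (G : ℂ))⁻¹ := by
      rw [Complex.exp_sub, Complex.exp_sub, div_eq_mul_inv, div_eq_mul_inv]
    have h3 : (B : ℂ) = ((κ : ℂ) * (Zr (κ * η) : ℂ) / (Zr η : ℂ)) *
        (Complex.exp (G : ℂ) / (κ : ℂ)) := by
      rw [hB, Real.exp_sub, Real.exp_log hκ0]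
      push_cast
      ring
    have hZ1c : (Zr η : ℂ) ≠ 0 := by exact_mod_cast hZ1.ne'
    have hκc : (κ : ℂ) ≠ 0 := by exact_mod_cast hκ0.ne'
    have hLc : (((Real.log N)⁻¹ : ℝ) : ℂ) ≠ 0 := by exact_mod_cast hL
    have hE1 := Complex.exp_ne_zero S1
    have hE2 := Complex.exp_ne_zero S2
    have hEG := Complex.exp_ne_zero (G : ℂ)
    obtain ⟨l, hl⟩ : ∃ l : ℂ, l = (((Real.log N)⁻¹ : ℝ) : ℂ) := ⟨_, rfl⟩
    rw [h1, h2, hA, h3, e1, e2, Complex.ofReal_mul, Complex.ofReal_mul, ← hl]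
    rw [← hl] at hLc
    field_simp
  rw [hratio]
  have hμ : lam / c ≤ 1 / 16 := by
    rw [div_le_div_iff₀ hc0 (by norm_num)]
    linarith
  have he : Real.exp (-lam / 2) ≤ 1 / 50 := by
    have h1 : Real.exp (-lam / 2) ≤ Real.exp (-4) := Real.exp_le_exp.2 (by linarith)
    have h2 : (50:ℝ) ≤ Real.exp 4 := by
      have h3 := Real.exp_one_gt_d9
      have h4 : Real.exp 4 = Real.exp 1 ^ 4 := by
        rw [← Real.exp_nat_mul]
        norm_num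
      rw [h4]
      have h5 : (2.718:ℝ) ^ 4 ≤ Real.exp 1 ^ 4 :=
        pow_le_pow_left₀ (by norm_num) (by linarith) 4
      have h6 : (50:ℝ) ≤ (2.718:ℝ) ^ 4 := by norm_num
      linarith
    have h3 : Real.exp (-4) ≤ 1 / 50 := by
      rw [Real.exp_neg, one_div]
      exact inv_anti₀ (by norm_num) h2
    linarith
  exact final (k := κ - 1) (μ := lam / c) (e := Real.exp (-lam / 2)) (δ := 7 * δ) (by linarith)
    (by linarith) (by positivity) hμ (Real.exp_pos _).le he (by positivity) (by linarith) hAn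
    (by have := hle η hη0 hN2 z hz; linarith) hθn

end Pool.Agent.Lib.P4a7640S
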