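import Mathlib

/-!
# Ratios of values of a polynomial away from its zeros

Module P4a7640S.Poly (1.3 h). Only Mathlib.

`Q` splits over `ℂ`: `Q = C a * ∏ (X - z_k)` over `Q.roots` (`Polynomial.eval_eq_prod_roots_of_splits`,
`IsAlgClosed.splits`), `card roots = natDegree < m`. With `f_k = lam/(lam - z_k)`:
`(κ lam - z_k)/(lam - z_k) = 1 + (κ-1) f_k`. If `‖z_k‖ ≤ th lam` then `‖f_k - 1‖ = ‖z_k‖/‖lam - z_k‖ ≤ th/(1-th) ≤ 2 th`;
if `‖z_k‖ ≥ lam/th` then `‖f_k‖ ≤ 1/(1/th - 1) ≤ 2 th`. `‖∏ (1 + x_k) - 1 - ∑ x_k‖ ≤ s^2` for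
`s = ∑ ‖x_k‖ ≤ 1` (induction: `≤ exp s - 1 - s`), `x_k = (κ-1) f_k`, `‖f_k‖ ≤ 2`, `s ≤ 2 m (κ-1) ≤ 1`.
-/

open Polynomial

namespace Pool.Agent.Lib.P4a7640S

/-- number of zeros of modulus at most `r` -/
noncomputable def nz (Q : ℂ[X]) (r : ℝ) : ℕ := (Q.roots.filter (fun w => ‖w‖ ≤ r)).card

private theorem prod_one_add (x : ℂ → ℂ) {δ : ℝ} (hδ : 0 ≤ δ) (M : Multiset ℂ) :
    (∀ w ∈ M, ‖x w‖ ≤ δ) → (M.card : ℝ) * δ ≤ 1 →
      ‖(M.map x).sum‖ ≤ M.card * δ ∧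
      ‖(M.map (fun w => 1 + x w)).prod - 1 - (M.map x).sum‖ ≤ (M.card : ℝ) ^ 2 * δ ^ 2 := by
  induction M using Multiset.induction with
  | empty => intro _ _; simp
  | cons a M ih =>
    intro hx hc
    rw [Multiset.card_cons] at hc ⊢
    push_cast at hc ⊢
    have hn : (0:ℝ) ≤ (M.card : ℝ) := Nat.cast_nonneg _
    have hc' : (M.card : ℝ) * δ ≤ 1 := by nlinarith
    obtain ⟨h1, h2⟩ := ih (fun w hw => hx w (Multiset.mem_cons_of_mem hw)) hc'
    have ha := hx a (Multiset.mem_cons_self a M)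
    rw [Multiset.map_cons, Multiset.map_cons, Multiset.prod_cons, Multiset.sum_cons]
    set P := (M.map (fun w => 1 + x w)).prod with hP
    set S := (M.map x).sum with hS
    have hPS : ‖P - 1‖ ≤ M.card * δ + (M.card : ℝ) ^ 2 * δ ^ 2 := by
      have e : P - 1 = S + (P - 1 - S) := by ring
      rw [e]
      exact (norm_add_le _ _).trans (add_le_add h1 h2)
    refine ⟨?_, ?_⟩
    · refine (norm_add_le _ _).trans ?_
      linarith
    · have e : (1 + x a) * P - 1 - (x a + S) = (P - 1 - S) + x a * (P - 1) := by ring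
      rw [e]
      refine (norm_add_le _ _).trans ?_
      rw [norm_mul]
      have h3 : ‖x a‖ * ‖P - 1‖ ≤ δ * (M.card * δ + (M.card : ℝ) ^ 2 * δ ^ 2) :=
        mul_le_mul ha hPS (norm_nonneg _) hδ
      have h4 : (M.card : ℝ) ^ 2 * δ ^ 2 * δ ≤ M.card * δ ^ 2 := by
        have h5 : (M.card : ℝ) ^ 2 * δ ^ 2 * δ = (M.card * δ ^ 2) * (M.card * δ) := by ring
        rw [h5]
        have h6 : 0 ≤ (M.card : ℝ) * δ ^ 2 := by positivity
        nlinarith
      nlinarith [sq_nonneg δ]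

private theorem sum_sub_card (f : ℂ → ℂ) (p : ℂ → Prop) [DecidablePred p] {δ : ℝ}
    (M : Multiset ℂ) :
    (∀ w ∈ M, ‖f w - (if p w then 1 else 0)‖ ≤ δ) →
      ‖(M.map f).sum - ((M.filter p).card : ℂ)‖ ≤ M.card * δ := by
  induction M using Multiset.induction with
  | empty => intro _; simp
  | cons a M ih =>
    intro h
    have h1 := ih (fun w hw => h w (Multiset.mem_cons_of_mem hw))
    have ha := h a (Multiset.mem_cons_self a M)
    rw [Multiset.map_cons, Multiset.sum_cons, Multiset.card_cons, Multiset.filter_cons]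
    by_cases hp : p a
    · rw [if_pos hp] at ha ⊢
      rw [Multiset.card_add, Multiset.card_singleton]
      push_cast
      have e : f a + (M.map f).sum - (1 + ((M.filter p).card : ℂ))
          = (f a - 1) + ((M.map f).sum - ((M.filter p).card : ℂ)) := by ring
      rw [e]
      refine (norm_add_le _ _).trans ?_
      linarith
    · rw [if_neg hp] at ha ⊢
      rw [zero_add]
      push_cast
      have e : f a + (M.map f).sum - ((M.filter p).card : ℂ)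
          = (f a - 0) + ((M.map f).sum - ((M.filter p).card : ℂ)) := by ring
      rw [e]
      refine (norm_add_le _ _).trans ?_
      linarith

private theorem prod_div (f g : ℂ → ℂ) (M : Multiset ℂ) :
    (M.map f).prod / (M.map g).prod = (M.map (fun w => f w / g w)).prod := by
  induction M using Multiset.induction with
  | empty => simp
  | cons a M ih =>
    rw [Multiset.map_cons, Multiset.map_cons, Multiset.map_cons, Multiset.prod_cons,
      Multiset.prod_cons, Multiset.prod_cons, ← ih]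
    rw [mul_div_mul_comm]

theorem poly_ratio {m : ℕ} {Q : ℂ[X]} (hQ : Q ≠ 0) (hdeg : Q.natDegree < m) {lam th κ : ℝ}
    (hlam : 0 < lam) (hth : 0 < th) (hth2 : th ≤ 1 / 2) (hκ : 1 < κ) (hκ2 : 2 * m * (κ - 1) ≤ 1)
    (hz : ∀ w ∈ Q.roots, ‖w‖ ≤ th * lam ∨ lam / th ≤ ‖w‖) :
    Q.eval (lam:ℂ) ≠ 0 ∧ ‖Q.eval ((κ * lam : ℝ) : ℂ) / Q.eval (lam:ℂ) -
      (1 + ((κ - 1 : ℝ) : ℂ) * (nz Q (th * lam) : ℂ))‖ ≤
      2 * m * th * (κ - 1) + 4 * m ^ 2 * (κ - 1) ^ 2 := by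
  have hlamn : ‖(lam:ℂ)‖ = lam := by
    rw [Complex.norm_real, Real.norm_eq_abs, abs_of_pos hlam]
  -- the two cases
  have hsmall : ∀ w : ℂ, ‖w‖ ≤ th * lam → lam / 2 ≤ ‖(lam:ℂ) - w‖ := by
    intro w hw
    have h1 : ‖(lam:ℂ)‖ - ‖w‖ ≤ ‖(lam:ℂ) - w‖ := norm_sub_norm_le _ _
    rw [hlamn] at h1
    nlinarith
  have hlarge : ∀ w : ℂ, lam / th ≤ ‖w‖ → lam / (2 * th) ≤ ‖(lam:ℂ) - w‖ := by
    intro w hw
    have h1 : ‖w‖ - ‖(lam:ℂ)‖ ≤ ‖(lam:ℂ) - w‖ := by
      rw [norm_sub_rev]; exact norm_sub_norm_le _ _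
    rw [hlamn] at h1
    have h2 : lam / th = 2 * (lam / (2 * th)) := by field_simp
    have h3 : lam ≤ lam / (2 * th) := by
      rw [le_div_iff₀ (by linarith)]
      nlinarith
    linarith
  have hne : ∀ w ∈ Q.roots, (lam:ℂ) - w ≠ 0 := by
    intro w hw h
    rcases hz w hw with h1 | h1
    · have := hsmall w h1
      rw [h, norm_zero] at this
      linarith
    · have h2 := hlarge w h1
      rw [h, norm_zero] at h2
      have : 0 < lam / (2 * th) := by positivity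
      linarith
  have hQlam : Q.eval (lam:ℂ) ≠ 0 := by
    intro h
    have h1 : (lam:ℂ) ∈ Q.roots := (mem_roots hQ).2 h
    exact hne _ h1 (sub_self _)
  refine ⟨hQlam, ?_⟩
  have hspl := IsAlgClosed.splits Q
  have hlc : Q.leadingCoeff ≠ 0 := leadingCoeff_ne_zero.2 hQ
  have hratio : Q.eval ((κ * lam : ℝ) : ℂ) / Q.eval (lam:ℂ)
      = (Q.roots.map (fun w => 1 + ((κ - 1 : ℝ) : ℂ) * ((lam:ℂ) / ((lam:ℂ) - w)))).prod := by
    rw [hspl.eval_eq_prod_roots, hspl.eval_eq_prod_roots, mul_div_mul_left _ _ hlc, prod_div]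
    congr 1
    refine Multiset.map_congr rfl (fun w hw => ?_)
    have h1 := hne w hw
    rw [div_eq_iff h1]
    push_cast
    field_simp
    ring
  set f : ℂ → ℂ := fun w => (lam:ℂ) / ((lam:ℂ) - w) with hf
  have hfg : ∀ w ∈ Q.roots, ‖f w - (if ‖w‖ ≤ th * lam then 1 else 0)‖ ≤ 2 * th := by
    intro w hw
    have h1 := hne w hw
    have h1' : 0 < ‖(lam:ℂ) - w‖ := norm_pos_iff.2 h1
    by_cases hs : ‖w‖ ≤ th * lam
    · rw [if_pos hs]
      have e : f w - 1 = w / ((lam:ℂ) - w) := by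
        rw [hf]; field_simp; ring
      rw [e, norm_div, div_le_iff₀ h1']
      have := hsmall w hs
      nlinarith
    · rw [if_neg hs, sub_zero]
      have hl := (hz w hw).resolve_left hs
      rw [hf]
      simp only
      rw [norm_div, div_le_iff₀ h1', hlamn]
      have h2 := hlarge w hl
      have h3 : 2 * th * (lam / (2 * th)) = lam := by field_simp
      nlinarith
  have hf2 : ∀ w ∈ Q.roots, ‖f w‖ ≤ 2 := by
    intro w hw
    have h1 := hfg w hw
    have h2 : ‖f w‖ ≤ ‖f w - (if ‖w‖ ≤ th * lam then 1 else 0)‖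
        + ‖(if ‖w‖ ≤ th * lam then (1:ℂ) else 0)‖ := by
      have e : f w = (f w - (if ‖w‖ ≤ th * lam then 1 else 0))
        + (if ‖w‖ ≤ th * lam then (1:ℂ) else 0) := by ring
      conv_lhs => rw [e]
      exact norm_add_le _ _
    have h3 : ‖(if ‖w‖ ≤ th * lam then (1:ℂ) else 0)‖ ≤ 1 := by
      split_ifs <;> simp
    linarith
  set δ : ℝ := 2 * (κ - 1) with hδ
  have hδ0 : 0 ≤ δ := by rw [hδ]; linarith
  have hcard : (Q.roots.card : ℝ) ≤ m := by
    have := (card_roots' Q).trans hdeg.le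
    exact_mod_cast this
  have hx : ∀ w ∈ Q.roots, ‖((κ - 1 : ℝ) : ℂ) * f w‖ ≤ δ := by
    intro w hw
    rw [norm_mul, Complex.norm_real, Real.norm_eq_abs, abs_of_pos (by linarith : 0 < κ - 1), hδ]
    nlinarith [hf2 w hw]
  have hcδ : (Q.roots.card : ℝ) * δ ≤ 1 := by
    have h1 : (Q.roots.card : ℝ) * δ ≤ m * δ := mul_le_mul_of_nonneg_right hcard hδ0
    rw [hδ] at h1 ⊢
    linarith
  obtain ⟨_, hE⟩ := prod_one_add (fun w => ((κ - 1 : ℝ) : ℂ) * f w) hδ0 Q.roots hx hcδ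
  have hS := sum_sub_card f (fun w => ‖w‖ ≤ th * lam) Q.roots hfg
  rw [hratio]
  have hsum : (Q.roots.map (fun w => ((κ - 1 : ℝ) : ℂ) * f w)).sum
      = ((κ - 1 : ℝ) : ℂ) * (Q.roots.map f).sum := Multiset.sum_map_mul_left
  rw [hsum] at hE
  have e : (Q.roots.map (fun w => 1 + ((κ - 1 : ℝ) : ℂ) * f w)).prod
        - (1 + ((κ - 1 : ℝ) : ℂ) * (nz Q (th * lam) : ℂ))
      = ((Q.roots.map (fun w => 1 + ((κ - 1 : ℝ) : ℂ) * f w)).prod - 1
          - ((κ - 1 : ℝ) : ℂ) * (Q.roots.map f).sum)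
        + ((κ - 1 : ℝ) : ℂ) * ((Q.roots.map f).sum - (nz Q (th * lam) : ℂ)) := by ring
  rw [e]
  refine (norm_add_le _ _).trans ?_
  rw [norm_mul, Complex.norm_real, Real.norm_eq_abs, abs_of_pos (by linarith : 0 < κ - 1)]
  have h1 : (Q.roots.card : ℝ) ^ 2 * δ ^ 2 ≤ 4 * m ^ 2 * (κ - 1) ^ 2 := by
    have h2 : (Q.roots.card : ℝ) ^ 2 ≤ (m:ℝ) ^ 2 := pow_le_pow_left₀ (Nat.cast_nonneg _) hcard 2
    have h3 := mul_le_mul_of_nonneg_right h2 (sq_nonneg δ)
    have h4 : (m:ℝ) ^ 2 * δ ^ 2 = 4 * m ^ 2 * (κ - 1) ^ 2 := by rw [hδ]; ring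
    linarith
  have h2 : (κ - 1) * ‖(Q.roots.map f).sum - (nz Q (th * lam) : ℂ)‖ ≤ 2 * m * th * (κ - 1) := by
    have h3 : ‖(Q.roots.map f).sum - (nz Q (th * lam) : ℂ)‖ ≤ m * (2 * th) :=
      hS.trans (mul_le_mul_of_nonneg_right hcard (by linarith))
    have h4 := mul_le_mul_of_nonneg_left h3 (by linarith : 0 ≤ κ - 1)
    linarith
  linarith

end Pool.Agent.Lib.P4a7640S
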