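import Mathlib
import Pool.Agent.Lib.P4a7640S.Poly

/-!
# A long interval without zeros

Module P4a7640S.Pigeon (0.7 h). Imports are black boxes.

The finite set `E` of the numbers `log ‖w‖`, `w` a zero of some `Q i`, has at most `X (m-1) ≤ X m` elements; the
`X m + 1` intervals `[A_j, A_{j+1})`, `A_j = (4R)^j A`, `0 ≤ j ≤ X m`, are disjoint, so one of them contains no
element of `E` (otherwise choose an element of `E` in each: an injection `Fin (X m + 1) → E`).
-/

open Polynomial

namespace Pool.Agent.Lib.P4a7640S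

theorem pigeon {X m : ℕ} (Q : Fin X → ℂ[X]) (hdeg : ∀ i, (Q i).natDegree < m) {R A : ℝ}
    (hR : 1 ≤ R) (hA : 0 < A) :
    ∃ j : ℕ, j ≤ X * m ∧ ∀ i, ∀ w ∈ (Q i).roots,
      Real.log ‖w‖ < (4 * R) ^ j * A ∨ (4 * R) ^ (j + 1) * A ≤ Real.log ‖w‖ := by
  classical
  by_contra hcon
  push Not at hcon
  have h1 : ∀ j : ℕ, ∃ w : ℂ, j ≤ X * m → (∃ i, w ∈ (Q i).roots) ∧
      (4 * R) ^ j * A ≤ Real.log ‖w‖ ∧ Real.log ‖w‖ < (4 * R) ^ (j + 1) * A := by
    intro j
    by_cases hj : j ≤ X * m
    · obtain ⟨i, w, hw, h2, h3⟩ := hcon j hj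
      exact ⟨w, fun _ => ⟨⟨i, hw⟩, h2, h3⟩⟩
    · exact ⟨0, fun h => absurd h hj⟩
  choose w hw using h1
  set E : Finset ℂ := (Finset.univ : Finset (Fin X)).biUnion (fun i => (Q i).roots.toFinset) with hE
  have hcard : E.card ≤ X * m := by
    calc E.card ≤ ∑ i : Fin X, ((Q i).roots.toFinset).card := Finset.card_biUnion_le
      _ ≤ ∑ _i : Fin X, m := Finset.sum_le_sum (fun i _ =>
          ((Multiset.toFinset_card_le _).trans (Polynomial.card_roots' (Q i))).trans (hdeg i).le)
      _ = X * m := by simp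
  have hmono : ∀ a b : ℕ, a ≤ b → (4 * R) ^ a * A ≤ (4 * R) ^ b * A := fun a b hab =>
    mul_le_mul_of_nonneg_right (pow_le_pow_right₀ (by linarith) hab) hA.le
  have hinj : Set.InjOn w (Finset.range (X * m + 1) : Set ℕ) := by
    intro a ha b hb hab
    have ha' : a ≤ X * m := by
      have := Finset.mem_range.1 (Finset.mem_coe.1 ha); omega
    have hb' : b ≤ X * m := by
      have := Finset.mem_range.1 (Finset.mem_coe.1 hb); omega
    obtain ⟨_, a1, a2⟩ := hw a ha'
    obtain ⟨_, b1, b2⟩ := hw b hb'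
    rw [hab] at a1 a2
    rcases lt_trichotomy a b with h | h | h
    · have := hmono (a + 1) b h
      linarith
    · exact h
    · have := hmono (b + 1) a h
      linarith
  have hmaps : Set.MapsTo w (Finset.range (X * m + 1) : Set ℕ) (E : Set ℂ) := by
    intro a ha
    have ha' : a ≤ X * m := by
      have := Finset.mem_range.1 (Finset.mem_coe.1 ha); omega
    obtain ⟨⟨i, hi⟩, _, _⟩ := hw a ha'
    rw [Finset.mem_coe, hE, Finset.mem_biUnion]
    exact ⟨i, Finset.mem_univ i, Multiset.mem_toFinset.2 hi⟩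
  have := Finset.card_le_card_of_injOn w hmaps hinj
  rw [Finset.card_range] at this
  omega

end Pool.Agent.Lib.P4a7640S
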