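import Mathlib
import Pool.Agent.Lib.P4a7640S.Poly
import Pool.Agent.Lib.P4a7640S.Pigeon

/-!
# The window

Module P4a7640S.Window (2 h). Imports are black boxes.

Choose `th = min (1/2) (δ/(16 m))`, `κ = 1 + s` with `s = min(1/4, 1/(2m), δ/(8 (10 + 4 m^2)), δ/56)` (m ≥ 1),
`ξ = min (1/2) (s δ/72)`, `a₀ = log κ + log (1/th) + 1`. Given the data, `pigeon` gives `j₀`; put `A = (4R)^j₀ A₀`,
`y = 2 A`, so `R y = 2 R A` and `4 R A = (4R)^(j₀+1) A₀ ≤ (4R)^(X m+1) A₀`. For every `j` with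
`y - log κ ≤ j log κ ≤ R y` and `lam = κ^j`: every zero `w ≠ 0` has `log ‖w‖ < A ≤ log lam - log (1/th)`, or
`log ‖w‖ ≥ 4 R A ≥ log lam + log (1/th)`; so `poly_ratio` applies (`w = 0` satisfies `‖w‖ ≤ th lam`) and
`nz (Q i) (th lam) = d i` := number of the zeros with `w = 0` or `log ‖w‖ < A`, independent of `j`.
`Q i ≠ 0` since `‖g - Q‖ ≤ ξ ‖g‖ < ‖g‖`. With `h1` at `j` and `j+1` (range: `(j+1) log κ` may exceed `R y` by
`log κ`: still below `(4R)^(X m+1) A₀`): `‖g'/g - Q'/Q‖ ≤ 8 ξ` (`‖g'/g‖ ≤ 2`, `Q' = g' (1+e₁)`, `Q = g (1+e₂)`), so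
`s ‖D + d‖ ≤ 10 s^2 + ξ + 8 ξ + 2 m th s + 4 m^2 s^2`, `‖D i (κ^j) + d i‖ ≤ δ/2`; `‖D‖ ≤ 5/4` gives `d i < 2`, so
`d i = 0` or `d i = 1`. For `t ∈ [y, R y]` take `j = ⌊t/log κ⌋`: `κ^j ≤ exp t ≤ κ^(j+1)` and `h3`.
-/

open Finset Filter Topology Polynomial

namespace Pool.Agent.Lib.P4a7640S

namespace WindowAux

theorem ratio_close {g g' q q' : ℂ} {ξ : ℝ} (hξ : 0 ≤ ξ) (hξ2 : ξ ≤ 1 / 2) (hg : g ≠ 0)
    (h : ‖g - q‖ ≤ ξ * ‖g‖) (h' : ‖g' - q'‖ ≤ ξ * ‖g'‖) (h2 : ‖g' / g‖ ≤ 2) :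
    ‖g' / g - q' / q‖ ≤ 8 * ξ := by
  have hgp : 0 < ‖g‖ := norm_pos_iff.2 hg
  have hq1 : ‖g‖ / 2 ≤ ‖q‖ := by
    have h3 : ‖g‖ ≤ ‖g - q‖ + ‖q‖ := by
      have := norm_add_le (g - q) q
      rwa [sub_add_cancel] at this
    nlinarith
  have hqp : 0 < ‖q‖ := by linarith
  have hq : q ≠ 0 := norm_pos_iff.1 hqp
  have e : g' / g - q' / q = (g' * (q - g) + g * (g' - q')) / (g * q) := by
    field_simp
    ring
  rw [norm_div, div_le_iff₀ hgp] at h2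
  have h5 : ‖g'‖ ≤ 4 * ‖q‖ := by linarith
  rw [e, norm_div, norm_mul g q, div_le_iff₀ (by positivity)]
  have h4 : ‖g' * (q - g) + g * (g' - q')‖ ≤ ‖g'‖ * (ξ * ‖g‖) + ‖g‖ * (ξ * ‖g'‖) := by
    refine (norm_add_le _ _).trans ?_
    rw [norm_mul, norm_mul, norm_sub_rev q g]
    gcongr
  calc ‖g' * (q - g) + g * (g' - q')‖ ≤ ‖g'‖ * (ξ * ‖g‖) + ‖g‖ * (ξ * ‖g'‖) := h4
    _ = 2 * (ξ * ‖g‖) * ‖g'‖ := by ring
    _ ≤ 2 * (ξ * ‖g‖) * (4 * ‖q‖) := by gcongr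
    _ = _ := by ring

theorem est {m : ℕ} {δ s ξ th : ℝ} (hs : 0 < s)
    (hs3 : 8 * (10 + 4 * (m:ℝ) ^ 2) * s ≤ δ) (hξ2 : 72 * ξ ≤ s * δ)
    (hth : 16 * m * th ≤ δ) {r ρ D : ℂ} {d : ℕ}
    (h1 : ‖r - (1 - (s:ℂ) * D)‖ ≤ 10 * s ^ 2 + ξ) (h2 : ‖r - ρ‖ ≤ 8 * ξ)
    (h3 : ‖ρ - (1 + (s:ℂ) * (d:ℂ))‖ ≤ 2 * m * th * s + 4 * m ^ 2 * s ^ 2) :
    ‖D + (d:ℂ)‖ ≤ 3 * δ / 8 := by
  have e : (s:ℂ) * (D + (d:ℂ)) = (r - (1 - (s:ℂ) * D)) - (r - ρ) - (ρ - (1 + (s:ℂ) * (d:ℂ))) := by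
    ring
  have hn : s * ‖D + (d:ℂ)‖ ≤ (10 * s ^ 2 + ξ) + 8 * ξ + (2 * m * th * s + 4 * m ^ 2 * s ^ 2) := by
    have h4 : ‖(s:ℂ) * (D + (d:ℂ))‖ = s * ‖D + (d:ℂ)‖ := by
      rw [norm_mul, Complex.norm_real, Real.norm_of_nonneg hs.le]
    rw [← h4, e]
    refine (norm_sub_le _ _).trans ?_
    refine add_le_add ((norm_sub_le _ _).trans (add_le_add h1 h2)) h3
  have h5 : s * ((10 + 4 * (m:ℝ) ^ 2) * s) ≤ s * (δ / 8) := by
    apply mul_le_mul_of_nonneg_left _ hs.le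
    linarith
  have h6 : s * (2 * m * th) ≤ s * (δ / 8) := by
    apply mul_le_mul_of_nonneg_left _ hs.le
    linarith
  have h7 : s * ‖D + (d:ℂ)‖ ≤ s * (3 * δ / 8) := by
    linarith
  exact le_of_mul_le_mul_left h7 hs

theorem nz_eq {Q : ℂ[X]} {A A' th lam : ℝ} (hlam : 0 < lam) (hth : 0 < th) (hth2 : th ≤ 1 / 2)
    (hA : 0 < A) (hA1 : A ≤ Real.log lam + Real.log th) (hA' : Real.log lam - Real.log th ≤ A')
    (hw : ∀ w ∈ Q.roots, Real.log ‖w‖ < A ∨ A' ≤ Real.log ‖w‖) :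
    (∀ w ∈ Q.roots, ‖w‖ ≤ th * lam ∨ lam / th ≤ ‖w‖) ∧
      nz Q (th * lam) = (Q.roots.filter (fun w => Real.log ‖w‖ < A)).card := by
  have hlt : Real.log th < 0 := Real.log_neg hth (by linarith)
  have c1 : ∀ w : ℂ, Real.log ‖w‖ < A → ‖w‖ ≤ th * lam := by
    intro w h
    rcases eq_or_ne w 0 with h0 | h0
    · rw [h0, norm_zero]
      positivity
    · have hwp : 0 < ‖w‖ := norm_pos_iff.2 h0
      rw [← Real.log_le_log_iff hwp (by positivity), Real.log_mul hth.ne' hlam.ne']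
      linarith
  have c2 : ∀ w : ℂ, A' ≤ Real.log ‖w‖ → lam / th ≤ ‖w‖ := by
    intro w h
    have h0 : w ≠ 0 := by
      intro h0
      rw [h0, norm_zero, Real.log_zero] at h
      linarith
    have hwp : 0 < ‖w‖ := norm_pos_iff.2 h0
    rw [← Real.log_le_log_iff (by positivity) hwp, Real.log_div hlam.ne' hth.ne']
    linarith
  refine ⟨fun w h => (hw w h).imp (c1 w) (c2 w), ?_⟩
  unfold nz
  congr 1
  apply Multiset.filter_congr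
  intro w h
  constructor
  · intro h1
    rcases hw w h with h2 | h2
    · exact h2
    · exfalso
      have h3 := c2 w h2
      have h4 : lam ≤ lam / th := by
        rw [le_div_iff₀ hth]
        nlinarith
      nlinarith
  · exact c1 w

end WindowAux

open WindowAux in
theorem window (X m : ℕ) (hm : 1 ≤ m) {R δ : ℝ} (hR : 1 ≤ R) (hδ : 0 < δ) (hδ1 : δ ≤ 1) :
    ∃ κ : ℝ, 1 < κ ∧ κ ≤ 5 / 4 ∧ ∃ ξ : ℝ, 0 < ξ ∧ ∃ a₀ : ℝ, ∀ A₀ : ℝ, a₀ ≤ A₀ → 0 < A₀ →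
      ∀ (g D : Fin X → ℝ → ℂ) (Q : Fin X → ℂ[X]), (∀ i, (Q i).natDegree < m) →
      (∀ i, ∀ j : ℕ, A₀ ≤ j * Real.log κ → j * Real.log κ ≤ (4 * R) ^ (X * m + 1) * A₀ →
        g i (κ ^ j) ≠ 0 ∧ ‖g i (κ ^ j) - (Q i).eval ((κ ^ j : ℝ) : ℂ)‖ ≤ ξ * ‖g i (κ ^ j)‖) →
      (∀ i, ∀ j : ℕ, A₀ ≤ j * Real.log κ → j * Real.log κ ≤ (4 * R) ^ (X * m + 1) * A₀ →
        ‖g i (κ ^ (j + 1)) / g i (κ ^ j) - (1 - ((κ - 1 : ℝ) : ℂ) * D i (κ ^ j))‖ ≤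
          10 * (κ - 1) ^ 2 + ξ) →
      (∀ i, ∀ j : ℕ, A₀ ≤ j * Real.log κ → j * Real.log κ ≤ (4 * R) ^ (X * m + 1) * A₀ →
        ‖D i (κ ^ j)‖ ≤ 5 / 4) →
      (∀ i, ∀ j : ℕ, A₀ ≤ j * Real.log κ → j * Real.log κ ≤ (4 * R) ^ (X * m + 1) * A₀ →
        ∀ t : ℝ, κ ^ j ≤ t → t ≤ κ ^ (j + 1) → ‖D i t - D i (κ ^ j)‖ ≤ 14 * (κ - 1)) →
      ∃ y : ℝ, A₀ ≤ y ∧ R * y ≤ (4 * R) ^ (X * m + 1) * A₀ ∧ ∀ i,
        (∀ t : ℝ, y ≤ t → t ≤ R * y → ‖D i (Real.exp t)‖ ≤ δ) ∨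
        (∀ t : ℝ, y ≤ t → t ≤ R * y → ‖D i (Real.exp t) + 1‖ ≤ δ) := by
  have hmr : (1:ℝ) ≤ m := by exact_mod_cast hm
  obtain ⟨th, hth, hth2, hth3⟩ : ∃ th : ℝ, 0 < th ∧ th ≤ 1 / 2 ∧ 16 * m * th ≤ δ := by
    refine ⟨δ / (16 * m), by positivity, ?_, ?_⟩
    · rw [div_le_iff₀ (by positivity)]
      linarith
    · rw [mul_div_cancel₀ _ (by positivity : (16 * (m:ℝ)) ≠ 0)]
  obtain ⟨κ, hκ, hs1, hs2, hs3, hs4⟩ : ∃ κ : ℝ, 0 < κ - 1 ∧ κ - 1 ≤ 1 / 4 ∧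
      2 * m * (κ - 1) ≤ 1 ∧ 8 * (10 + 4 * (m:ℝ) ^ 2) * (κ - 1) ≤ δ ∧ 56 * (κ - 1) ≤ δ := by
    have hp : 0 < 8 * (10 + 4 * (m:ℝ) ^ 2) := by positivity
    refine ⟨1 + δ / (8 * (10 + 4 * (m:ℝ) ^ 2)), ?_, ?_, ?_, ?_, ?_⟩ <;>
      rw [add_sub_cancel_left]
    · positivity
    · rw [div_le_iff₀ hp]
      nlinarith
    · rw [mul_div_assoc', div_le_iff₀ hp]
      nlinarith
    · rw [mul_div_cancel₀ _ hp.ne']
    · rw [mul_div_assoc', div_le_iff₀ hp]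
      nlinarith
  have hκ1 : 1 < κ := by linarith
  have hκ0 : 0 < κ := by linarith
  have hlk : 0 < Real.log κ := Real.log_pos hκ1
  have hlt : Real.log th < 0 := Real.log_neg hth (by linarith)
  obtain ⟨ξ, hξ, hξ2, hξ3⟩ : ∃ ξ : ℝ, 0 < ξ ∧ 72 * ξ ≤ (κ - 1) * δ ∧ ξ ≤ 1 / 16 := by
    refine ⟨(κ - 1) * δ / 72, by positivity, by linarith, ?_⟩
    have : (κ - 1) * δ ≤ 1 / 4 * 1 := by gcongr
    linarith
  refine ⟨κ, hκ1, by linarith, ξ, hξ, Real.log κ - Real.log th + 1, ?_⟩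
  intro A₀ hA₀ hA₀p g D Q hdeg h1 h2 h3 h4
  obtain ⟨j₀, hj₀, hroot⟩ := pigeon Q hdeg hR hA₀p
  obtain ⟨A, hA⟩ : ∃ A, (4 * R) ^ j₀ * A₀ = A := ⟨_, rfl⟩
  obtain ⟨B, hB⟩ : ∃ B, (4 * R) ^ (X * m + 1) * A₀ = B := ⟨_, rfl⟩
  have hAA : A₀ ≤ A := by
    rw [← hA]
    exact le_mul_of_one_le_left hA₀p.le (one_le_pow₀ (by linarith))
  have hAp : 0 < A := by linarith
  have h4R : (4 * R) ^ (j₀ + 1) * A₀ = 4 * R * A := by
    rw [← hA]; ring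
  have hAB : 4 * R * A ≤ B := by
    rw [← h4R, ← hB]
    apply mul_le_mul_of_nonneg_right _ hA₀p.le
    exact pow_le_pow_right₀ (by linarith) (by omega)
  have hRA : A ≤ R * A := le_mul_of_one_le_left hAp.le hR
  rw [hB] at h1 h2 h3 h4 ⊢
  rw [hA, h4R] at hroot
  obtain ⟨d, hd⟩ : ∃ d : Fin X → ℕ, ∀ i, d i =
      ((Q i).roots.filter (fun w => Real.log ‖w‖ < A)).card := ⟨_, fun i => rfl⟩
  have key : ∀ i, ∀ j : ℕ, 2 * A - Real.log κ ≤ j * Real.log κ → j * Real.log κ ≤ 2 * (R * A) →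
      ‖D i (κ ^ j) + (d i : ℂ)‖ ≤ 3 * δ / 8 := by
    intro i j hj1 hj2
    have hjA : A₀ ≤ j * Real.log κ := by linarith
    have hjB : j * Real.log κ ≤ B := by linarith
    have hjA' : A₀ ≤ ((j + 1 : ℕ) : ℝ) * Real.log κ := by
      push_cast
      linarith
    have hjB' : ((j + 1 : ℕ) : ℝ) * Real.log κ ≤ B := by
      push_cast
      linarith
    obtain ⟨hg, hgq⟩ := h1 i j hjA hjB
    obtain ⟨hg', hgq'⟩ := h1 i (j + 1) hjA' hjB'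
    have hr := h2 i j hjA hjB
    have hD := h3 i j hjA hjB
    have hQ0 : Q i ≠ 0 := by
      intro h0
      rw [h0, Polynomial.eval_zero, sub_zero] at hgq
      have : 0 < ‖g i (κ ^ j)‖ := norm_pos_iff.2 hg
      nlinarith
    have hlam : (0:ℝ) < κ ^ j := by positivity
    have hlog : Real.log (κ ^ j) = j * Real.log κ := Real.log_pow _ _
    obtain ⟨hz, hnz⟩ := nz_eq (Q := Q i) (A := A) (A' := 4 * R * A) hlam hth hth2 hAp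
      (by rw [hlog]; linarith) (by rw [hlog]; linarith) (hroot i)
    obtain ⟨_, hpr⟩ := poly_ratio hQ0 (hdeg i) hlam hth hth2 hκ1 hs2 hz
    rw [hnz, ← hd i] at hpr
    have hrn : ‖g i (κ ^ (j + 1)) / g i (κ ^ j)‖ ≤ 2 := by
      have h5 : ‖g i (κ ^ (j + 1)) / g i (κ ^ j)‖ ≤
          ‖g i (κ ^ (j + 1)) / g i (κ ^ j) - (1 - ((κ - 1 : ℝ) : ℂ) * D i (κ ^ j))‖ +
          ‖(1 - ((κ - 1 : ℝ) : ℂ) * D i (κ ^ j))‖ := by
        have := norm_add_le (g i (κ ^ (j + 1)) / g i (κ ^ j) -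
          (1 - ((κ - 1 : ℝ) : ℂ) * D i (κ ^ j))) (1 - ((κ - 1 : ℝ) : ℂ) * D i (κ ^ j))
        rwa [sub_add_cancel] at this
      have h6 : ‖(1 - ((κ - 1 : ℝ) : ℂ) * D i (κ ^ j))‖ ≤ 1 + (κ - 1) * (5 / 4) := by
        refine (norm_sub_le _ _).trans ?_
        rw [norm_one, norm_mul, Complex.norm_real, Real.norm_of_nonneg hκ.le]
        gcongr
      nlinarith
    have hrc := ratio_close hξ.le (by linarith) hg hgq hgq' hrn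
    have epow : ((κ ^ (j + 1) : ℝ) : ℂ) = ((κ * κ ^ j : ℝ) : ℂ) := by
      rw [pow_succ, mul_comm]
    rw [epow] at hrc
    exact est hκ hs3 hξ2 hth3 hr hrc hpr
  have point : ∀ i, ∀ t : ℝ, 2 * A ≤ t → t ≤ 2 * (R * A) →
      ‖D i (Real.exp t) + (d i : ℂ)‖ ≤ δ ∧ d i < 2 := by
    intro i t ht1 ht2
    have ht0 : 0 ≤ t / Real.log κ := by
      apply div_nonneg _ hlk.le
      linarith
    have f1 := Nat.floor_le ht0
    have f2 := Nat.lt_floor_add_one (t / Real.log κ)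
    obtain ⟨j, hj⟩ : ∃ j : ℕ, ⌊t / Real.log κ⌋₊ = j := ⟨_, rfl⟩
    rw [hj] at f1 f2
    rw [le_div_iff₀ hlk] at f1
    rw [div_lt_iff₀ hlk] at f2
    have k1 := key i j (by linarith) (by linarith)
    have hjA : A₀ ≤ j * Real.log κ := by linarith
    have hjB : j * Real.log κ ≤ B := by linarith
    have e1 : κ ^ j = Real.exp (j * Real.log κ) := by
      rw [← Real.log_pow, Real.exp_log (by positivity)]
    have e2 : κ ^ (j + 1) = Real.exp ((j + 1) * Real.log κ) := by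
      have : ((j:ℝ) + 1) = ((j + 1 : ℕ) : ℝ) := by push_cast; ring
      rw [this, ← Real.log_pow, Real.exp_log (by positivity)]
    have k2 := h4 i j hjA hjB (Real.exp t) (by rw [e1]; exact Real.exp_le_exp.2 f1)
      (by rw [e2]; exact Real.exp_le_exp.2 f2.le)
    have hD := h3 i j hjA hjB
    constructor
    · have e3 : D i (Real.exp t) + (d i : ℂ) = (D i (Real.exp t) - D i (κ ^ j)) +
          (D i (κ ^ j) + (d i : ℂ)) := by ring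
      rw [e3]
      refine (norm_add_le _ _).trans ?_
      linarith
    · have h5 : ‖((d i : ℕ) : ℂ)‖ ≤ ‖D i (κ ^ j) + (d i : ℂ)‖ + ‖D i (κ ^ j)‖ := by
        have := norm_sub_le (D i (κ ^ j) + (d i : ℂ)) (D i (κ ^ j))
        rwa [add_sub_cancel_left] at this
      rw [Complex.norm_natCast] at h5
      have h6 : ((d i : ℕ) : ℝ) < (2 : ℕ) := by
        push_cast
        linarith
      exact_mod_cast h6
  have e2 : R * (2 * A) = 2 * (R * A) := by ring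
  refine ⟨2 * A, by linarith, by rw [e2]; linarith, fun i => ?_⟩
  have hd2 := (point i (2 * A) le_rfl (by linarith)).2
  rw [e2]
  rcases (by omega : d i = 0 ∨ d i = 1) with h0 | h0
  · left
    intro t ht1 ht2
    have h5 := (point i t ht1 ht2).1
    rw [h0, Nat.cast_zero, add_zero] at h5
    exact h5
  · right
    intro t ht1 ht2
    have h5 := (point i t ht1 ht2).1
    rw [h0, Nat.cast_one] at h5
    exact h5

end Pool.Agent.Lib.P4a7640S
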