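import Mathlib
import Pool.Agent.Lib.P4a7640S.Ratio
import Pool.Agent.Lib.P4a7640S.Lower
import Pool.Agent.Lib.P4a7640S.Decomp
import Pool.Agent.Lib.P4a7640S.Window

/-!
# The structure theorem at one scale
-/

open Finset Filter Topology
open Pool.Agent.Lib.P4a7640

namespace Pool.Agent.Lib.P4a7640S

theorem loglog (C a ε : ℝ) (hC : 0 ≤ C) (hε : 0 < ε) :
    ∀ᶠ L : ℕ in atTop, C * max a (Real.log (3 * Real.log L)) ≤ ε * Real.log L := by
  have h1 : Tendsto (fun L : ℕ => Real.log (L:ℝ)) atTop atTop :=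
    Real.tendsto_log_atTop.comp tendsto_natCast_atTop_atTop
  have h2 : Tendsto (fun x : ℝ => Real.log (3 * x) / x) atTop (𝓝 0) := by
    have h3 : Tendsto (fun x : ℝ => Real.log x / x) atTop (𝓝 0) := by
      have := Real.isLittleO_log_id_atTop.tendsto_div_nhds_zero
      simpa using this
    have h4 : Tendsto (fun x : ℝ => Real.log 3 / x) atTop (𝓝 0) :=
      tendsto_const_nhds.div_atTop tendsto_id
    have h5 := h4.add h3
    rw [add_zero] at h5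
    refine h5.congr' ?_
    filter_upwards [eventually_gt_atTop 0] with x hx
    rw [Real.log_mul (by norm_num) hx.ne', add_div]
  have h6 : Tendsto (fun L : ℕ => Real.log (3 * Real.log L) / Real.log L) atTop (𝓝 0) :=
    h2.comp h1
  have h7 := h6.const_mul C
  rw [mul_zero] at h7
  filter_upwards [h1.eventually_ge_atTop (C * a / ε), h1.eventually_gt_atTop 0,
    h7.eventually (gt_mem_nhds hε)] with L e1 e2 e3
  rw [mul_max_of_nonneg _ _ hC]
  refine max_le ?_ ?_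
  · rw [div_le_iff₀ hε] at e1
    linarith
  · have : C * (Real.log (3 * Real.log L) / Real.log L) * Real.log L ≤ ε * Real.log L :=
      mul_le_mul_of_nonneg_right e3.le e2.le
    have h8 : C * (Real.log (3 * Real.log L) / Real.log L) * Real.log L =
        C * Real.log (3 * Real.log L) := by
      field_simp
    linarith

/-- The structure theorem at one scale, for arbitrary bounded functions `z i` on the primes: if the
middle parts are small then there is a window. -/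
theorem struct_abs {b K R δ : ℝ} (hR : 1 ≤ R) (hδ : 0 < δ) (X : ℕ) {m : ℕ} (hm : 1 ≤ m)
    {ε : ℝ} (hε : 0 < ε) (hε1 : ε ≤ 1) :
    ∃ ξ κ : ℝ, 0 < ξ ∧ 1 < κ ∧ ∃ L₀ : ℕ, ∀ L : ℕ, L₀ ≤ L → ∃ M : ℕ, ∀ (b' c' : ℕ) (B₀ : ℝ),
      1 ≤ b' →
      (∀ lam : ℝ, 3 * Real.log L ≤ lam → lam ≤ (L:ℝ) ^ ε →
          8 ≤ lam ∧ 16 * lam ≤ 2 ^ c' ∧ lam ≤ 2 ^ b' ∧
          40 * (lam / 2 ^ c') + 10 * Real.exp (-lam / 2) ≤ ξ / 2 ∧
          (lam / 2 ^ b') ^ m + B₀ + Real.exp (-lam) / lam ≤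
            ξ * (Real.exp (-(K + 1)) * ((2:ℝ) ^ c') ^ (-b) / (2 * lam))) →
      ∀ z : Fin X → ℕ → ℂ, (∀ i p, ‖z i p‖ ≤ 1) → ∀ l : Filter ℕ, l ≤ atTop →
      (∀ i, MassB l (z i) b K) →
      ∀ᶠ N : ℕ in l, (∀ i, ∀ j ∈ range (M + 1), 3 * Real.log L ≤ κ ^ j → κ ^ j ≤ (L:ℝ) ^ ε →
          ‖mid (z i) (Tp (2 ^ c') N) N (2 ^ b') (κ ^ j)‖ ≤ B₀) →
        ∃ y : ℝ, R ≤ y ∧ R * y ≤ Real.log L ∧ ∀ i,
        (∀ t : ℝ, y ≤ t → t ≤ R * y → ‖Dm (z i) (Real.exp t / Real.log N)‖ ≤ δ) ∨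
        (∀ t : ℝ, y ≤ t → t ≤ R * y → ‖Dm (z i) (Real.exp t / Real.log N) + 1‖ ≤ δ) := by
  classical
  obtain ⟨κ, hκ1, hκ2, ξ, hξ, a₀, hwin⟩ := window X m hm hR (δ := min δ 1)
    (lt_min hδ one_pos) (min_le_right _ _)
  set C : ℝ := (4 * R) ^ (X * m + 1) with hC
  have hC1 : 1 ≤ C := one_le_pow₀ (by linarith)
  have hlk : 0 < Real.log κ := Real.log_pos hκ1
  obtain ⟨L₂, hL₂⟩ := eventually_atTop.1 (loglog C (max (max a₀ R) 1) ε (by linarith) hε)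
  obtain ⟨η₁, hη₁, hDle⟩ := Dm_le (ε := 1 / 4) (by norm_num)
  obtain ⟨η₂, hη₂, hDlip⟩ := Dm_lip
  refine ⟨ξ / 2, κ, by positivity, hκ1, max L₂ 3, fun L hLL => ?_⟩
  have hLL₂ : L₂ ≤ L := (le_max_left _ _).trans hLL
  have hL3 : 3 ≤ L := (le_max_right _ _).trans hLL
  have hLR : (3:ℝ) ≤ L := by exact_mod_cast hL3
  have hLpos : (0:ℝ) < L := by linarith
  have hlogL : 0 < Real.log L := Real.log_pos (by linarith)
  have hll := hL₂ L hLL₂
  set A₀ : ℝ := max (max (max a₀ R) 1) (Real.log (3 * Real.log L)) with hA₀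
  have hA₀a : a₀ ≤ A₀ := ((le_max_left _ _).trans (le_max_left _ _)).trans (le_max_left _ _)
  have hA₀R : R ≤ A₀ := ((le_max_right _ _).trans (le_max_left _ _)).trans (le_max_left _ _)
  have hA₀1 : 1 ≤ A₀ := (le_max_right _ _).trans (le_max_left _ _)
  have hA₀L : Real.log (3 * Real.log L) ≤ A₀ := le_max_right _ _
  have hA₀0 : 0 < A₀ := by linarith
  have hwin' := hwin A₀ hA₀a hA₀0
  -- the points of the grid
  have hκ0 : 0 < κ := by linarith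
  have hpow : ∀ j : ℕ, Real.exp (j * Real.log κ) = κ ^ j := by
    intro j
    rw [mul_comm, Real.exp_mul, Real.exp_log hκ0, Real.rpow_natCast]
  have hlam1 : ∀ j : ℕ, A₀ ≤ j * Real.log κ → 3 * Real.log L ≤ κ ^ j := by
    intro j hj
    rw [← hpow j]
    have h1 : Real.exp (Real.log (3 * Real.log L)) ≤ Real.exp (j * Real.log κ) :=
      Real.exp_le_exp.2 (hA₀L.trans hj)
    rwa [Real.exp_log (by positivity)] at h1
  have hlam2 : ∀ j : ℕ, j * Real.log κ ≤ C * A₀ → κ ^ j ≤ (L:ℝ) ^ ε := by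
    intro j hj
    rw [← hpow j, Real.rpow_def_of_pos hLpos]
    apply Real.exp_le_exp.2
    linarith
  -- the finite range of `j`
  obtain ⟨M, hM⟩ := exists_nat_ge (C * A₀ / Real.log κ)
  have hjM : ∀ j : ℕ, j * Real.log κ ≤ C * A₀ → j ∈ range (M + 1) := by
    intro j hj
    rw [mem_range]
    have h1 : (j:ℝ) ≤ C * A₀ / Real.log κ := by rwa [le_div_iff₀ hlk]
    have h2 : (j:ℝ) ≤ M := h1.trans hM
    have h3 : j ≤ M := by exact_mod_cast h2
    omega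
  refine ⟨M, fun b' c' B₀ hb' hlam z hz l hl hmass => ?_⟩
  -- eventual facts
  have e0 : ∀ᶠ N : ℕ in l, 2 ≤ N := hl (eventually_ge_atTop 2)
  have hlogN : Tendsto (fun N : ℕ => Real.log (N:ℝ)) l atTop :=
    (Real.tendsto_log_atTop.comp tendsto_natCast_atTop_atTop).mono_left hl
  have hB2 : 2 ≤ 2 ^ b' := by
    calc 2 = 2 ^ 1 := by norm_num
      _ ≤ 2 ^ b' := Nat.pow_le_pow_right (by norm_num) hb'
  have e2 : ∀ᶠ N : ℕ in l, ∀ j ∈ range (M + 1), A₀ ≤ j * Real.log κ → j * Real.log κ ≤ C * A₀ →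
      ∀ z : ℕ → ℂ, (∀ p, ‖z p‖ ≤ 1) → ∀ T : Finset ℕ,
      ‖gN z T N (κ ^ j) - (QN z T N (2 ^ b') m).eval ((κ ^ j : ℝ) : ℂ)‖ ≤
        (κ ^ j / (2 ^ b' : ℕ)) ^ m + ‖mid z T N (2 ^ b') (κ ^ j)‖ + Real.exp (-κ ^ j) / κ ^ j := by
    rw [eventually_all_finset]
    intro j _
    by_cases hj : A₀ ≤ j * Real.log κ ∧ j * Real.log κ ≤ C * A₀
    · obtain ⟨g1, g2, g3, g4, g5⟩ := hlam (κ ^ j) (hlam1 j hj.1) (hlam2 j hj.2)
      have h1 := decomp (B := 2 ^ b') hB2 m (lam := κ ^ j) (by positivity) (by push_cast; exact g3)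
      filter_upwards [hl h1] with N h2 _ _
      exact h2
    · filter_upwards with N h1 h2
      exact absurd ⟨h1, h2⟩ hj
  have e3 : ∀ᶠ N : ℕ in l, ∀ j ∈ range (M + 1), ∀ z : ℕ → ℂ, (∀ p, ‖z p‖ ≤ 1) →
      Real.exp (-∑ p ∈ Tp (2 ^ c') N, (1 - (z p).re) / (p:ℝ)) / (2 * κ ^ j) ≤
        ‖gN z (Tp (2 ^ c') N) N (κ ^ j)‖ := by
    rw [eventually_all_finset]
    intro j _
    exact hl (g_lower (2 ^ c') (by positivity))
  have e4 : ∀ᶠ N : ℕ in l, ∀ j ∈ range (M + 1), A₀ ≤ j * Real.log κ → j * Real.log κ ≤ C * A₀ →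
      ∀ z : ℕ → ℂ, (∀ p, ‖z p‖ ≤ 1) → gN z (Tp (2 ^ c') N) N (κ ^ j) ≠ 0 ∧
      ‖gN z (Tp (2 ^ c') N) N (κ * κ ^ j) / gN z (Tp (2 ^ c') N) N (κ ^ j) -
        (1 - ((κ - 1 : ℝ) : ℂ) * Dm z (κ ^ j / Real.log N))‖ ≤
      10 * (κ - 1) ^ 2 + 40 * (κ ^ j / (2 ^ c' : ℕ)) + 10 * Real.exp (-κ ^ j / 2) + ξ / 2 := by
    rw [eventually_all_finset]
    intro j _
    by_cases hj : A₀ ≤ j * Real.log κ ∧ j * Real.log κ ≤ C * A₀
    · obtain ⟨g1, g2, g3, g4, g5⟩ := hlam (κ ^ j) (hlam1 j hj.1) (hlam2 j hj.2)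
      have h1 := ratio (2 ^ c') hκ1 hκ2 g1 (by push_cast; exact g2) (ε := ξ / 2) (by positivity)
      filter_upwards [hl h1] with N h2 _ _
      exact h2
    · filter_upwards with N h1 h2
      exact absurd ⟨h1, h2⟩ hj
  have e5 : ∀ᶠ N : ℕ in l, ∀ i, ∑ p ∈ Tp (2 ^ c') N, (1 - (z i p).re) / (p:ℝ) ≤
      b * Real.log ((2 ^ c' : ℕ) : ℝ) + K + 1 := by
    rw [eventually_all]
    intro i
    exact hmass i (2 ^ c') Nat.one_le_two_pow 1 one_pos
  have e6 : ∀ᶠ N : ℕ in l, ∀ j ∈ range (M + 1), κ ^ j / Real.log N < min η₁ η₂ := by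
    rw [eventually_all_finset]
    intro j _
    have h1 : Tendsto (fun N : ℕ => κ ^ j / Real.log (N:ℝ)) l (𝓝 0) := hlogN.const_div_atTop _
    exact h1.eventually (gt_mem_nhds (lt_min hη₁ hη₂))
  filter_upwards [e0, e2, e3, e4, e5, e6] with N h0 h2 h3 h4 h5 h6 h1
  have hlogN0 : 0 < Real.log (N:ℝ) := Real.log_pos (by exact_mod_cast h0)
  have hzi : ∀ i, ∀ p, ‖z i p‖ ≤ 1 := hz
  have hfin : ∃ y : ℝ, A₀ ≤ y ∧ R * y ≤ C * A₀ ∧ ∀ i,
      (∀ t : ℝ, y ≤ t → t ≤ R * y → ‖Dm (z i) (Real.exp t / Real.log N)‖ ≤ min δ 1) ∨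
      (∀ t : ℝ, y ≤ t → t ≤ R * y → ‖Dm (z i) (Real.exp t / Real.log N) + 1‖ ≤ min δ 1) := by
    refine hwin' (fun i lam => gN (z i) (Tp (2 ^ c') N) N lam)
      (fun i lam => Dm (z i) (lam / Real.log N))
      (fun i => QN (z i) (Tp (2 ^ c') N) N (2 ^ b') m)
      (fun i => QN_deg _ _ _ _ hm) ?_ ?_ ?_ ?_
    · intro i j hj1 hj2
      obtain ⟨g1, g2, g3, g4, g5⟩ := hlam (κ ^ j) (hlam1 j hj1) (hlam2 j hj2)
      refine ⟨(h4 j (hjM j hj2) hj1 hj2 _ (hzi i)).1, ?_⟩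
      have k1 := h2 j (hjM j hj2) hj1 hj2 _ (hzi i) (Tp (2 ^ c') N)
      have k2 := h1 i j (hjM j hj2) (hlam1 j hj1) (hlam2 j hj2)
      have k3 := h3 j (hjM j hj2) _ (hzi i)
      have hc0 : (0:ℝ) < 2 ^ c' := by positivity
      have k4 : Real.exp (-(K + 1)) * ((2:ℝ) ^ c') ^ (-b) / (2 * κ ^ j) ≤
          ‖gN (z i) (Tp (2 ^ c') N) N (κ ^ j)‖ := by
        refine le_trans ?_ k3
        apply div_le_div_of_nonneg_right _ (by positivity)
        rw [Real.rpow_def_of_pos hc0, ← Real.exp_add]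
        apply Real.exp_le_exp.2
        have := h5 i
        push_cast at this
        linarith
      have k5 : (κ ^ j / (2 ^ b' : ℕ)) ^ m + ‖mid (z i) (Tp (2 ^ c') N) N (2 ^ b') (κ ^ j)‖ +
          Real.exp (-κ ^ j) / κ ^ j ≤
          ξ / 2 * (Real.exp (-(K + 1)) * ((2:ℝ) ^ c') ^ (-b) / (2 * κ ^ j)) := by
        refine le_trans ?_ g5
        push_cast
        linarith
      calc _ ≤ _ := k1
        _ ≤ _ := k5
        _ ≤ ξ / 2 * ‖gN (z i) (Tp (2 ^ c') N) N (κ ^ j)‖ :=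
            mul_le_mul_of_nonneg_left k4 (by positivity)
        _ ≤ _ := mul_le_mul_of_nonneg_right (by linarith) (norm_nonneg _)
    · intro i j hj1 hj2
      obtain ⟨g1, g2, g3, g4, g5⟩ := hlam (κ ^ j) (hlam1 j hj1) (hlam2 j hj2)
      have k1 := (h4 j (hjM j hj2) hj1 hj2 _ (hzi i)).2
      have k2 : κ ^ (j + 1) = κ * κ ^ j := by ring
      simp only [k2]
      refine k1.trans ?_
      push_cast
      linarith
    · intro i j hj1 hj2
      have k1 := hDle (κ ^ j / Real.log N) (by positivity)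
        ((h6 j (hjM j hj2)).trans_le (min_le_left _ _)) _ (hzi i)
      linarith
    · intro i j hj1 hj2 t ht1 ht2
      refine hDlip (κ ^ j / Real.log N) (by positivity)
        ((h6 j (hjM j hj2)).trans_le (min_le_right _ _)) κ hκ1.le (by linarith) _ ?_ ?_ _ (hzi i)
      · exact div_le_div_of_nonneg_right ht1 hlogN0.le
      · rw [← mul_div_assoc]
        refine div_le_div_of_nonneg_right (ht2.trans (le_of_eq ?_)) hlogN0.le
        ring
  obtain ⟨y, hy1, hy2, hy3⟩ := hfin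
  refine ⟨y, hA₀R.trans hy1, ?_, fun i => ?_⟩
  · refine hy2.trans ?_
    have : ε * Real.log L ≤ Real.log L := by nlinarith
    linarith
  · rcases hy3 i with h | h
    · exact Or.inl fun t ht1 ht2 => (h t ht1 ht2).trans (min_le_left _ _)
    · exact Or.inr fun t ht1 ht2 => (h t ht1 ht2).trans (min_le_left _ _)

end Pool.Agent.Lib.P4a7640S
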