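import Mathlib

/-!
# Choice of the parameters

Module P4a7640S.Par (2 h). Only Mathlib.

`0 < α`, `0 ≤ b ≤ 2`, `α (1 + 2 b) < 1`. Choose `e > 0` with `α (1 + 2b) + 20 e ≤ 1` and `e ≤ 1/20`; put `m = ⌈8/e⌉₊ + 1`
and the exponent `ε = e/2`. For `L` large: `r = ⌈L^α/2⌉₊` (so `L^α ≤ 2 r ≤ L^α + 2`), `Ks = ⌈r log L/log 2⌉₊ + 2 r + 2`
(then `4^Ks ≥ 8 L^(2r)`), `b'` with `L^e ≤ 2^b' ≤ 2 L^e`, `c'` with `A Ks 2^b' ≤ 2^c' ≤ 2 A Ks 2^b'`; since
`Ks ≤ C L^α log L`, `2^c' ≤ L^(α + 2e)` for `L` large, and `2^c' ≥ L^(α+e)`. For `3 log L ≤ lam ≤ L^(e/2)`: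
`16 lam ≤ 16 L^(e/2) ≤ 2^b' ≤ 2^c'`; `40 lam/2^c' ≤ 40 L^(-e/2)`, `exp (-lam/2) ≤ L^(-3/2)`;
`(lam/2^b')^m ≤ L^(-m e/2) ≤ L^(-4)`; `6 √(2 e₁ r/L) ≤ 20 L^((α-1)/2)` (`e₁ = exp 1`); `2 exp (-lam)/lam ≤ L^(-3)`;
right-hand side: `ξ exp (-(K+1)) (2^c')^(-b)/(2 lam) ≥ ξ exp (-(K+1)) L^(-b(α+2e)) L^(-e/2)/2` with
`b (α + 2e) + e/2 ≤ b α + 4.5 e < (1 - α)/2 - e` (as `2 b α + α + 20 e ≤ 1`) and `< 3 - e` (`b α ≤ 1/2`).
All comparisons are of the form `C (log L)^k L^(-a) → 0`.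
-/

open Filter Topology

namespace Pool.Agent.Lib.P4a7640S

namespace ParAux

theorem ev_big {δ : ℝ} (hδ : 0 < δ) (C : ℝ) : ∀ᶠ L : ℕ in atTop, C ≤ (L : ℝ) ^ δ :=
  ((tendsto_rpow_atTop hδ).comp tendsto_natCast_atTop_atTop).eventually_ge_atTop C

theorem ev_small {δ c : ℝ} (hδ : 0 < δ) (hc : 0 < c) (C : ℝ) :
    ∀ᶠ L : ℕ in atTop, C * (L : ℝ) ^ (-δ) ≤ c := by
  have h1 : Tendsto (fun L : ℕ => C * (L : ℝ) ^ (-δ)) atTop (𝓝 (C * 0)) :=
    ((tendsto_rpow_neg_atTop hδ).comp tendsto_natCast_atTop_atTop).const_mul C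
  rw [mul_zero] at h1
  exact h1.eventually_le_const hc

theorem ev_log (C : ℝ) : ∀ᶠ L : ℕ in atTop, C ≤ Real.log (L : ℝ) :=
  (Real.tendsto_log_atTop.comp tendsto_natCast_atTop_atTop).eventually_ge_atTop C

/-- a power of two between `x` and `2 x` -/
theorem exists_pow {x : ℝ} (hx : 1 ≤ x) : ∃ n : ℕ, 1 ≤ n ∧ x ≤ 2 ^ n ∧ (2 : ℝ) ^ n ≤ 2 * x := by
  obtain ⟨n, h1, h2⟩ := exists_nat_pow_near hx (show (1 : ℝ) < 2 by norm_num)
  refine ⟨n + 1, by omega, h2.le, ?_⟩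
  rw [pow_succ]
  linarith

/-- the choice of `r`, `Ks` -/
theorem exists_rK {x α e : ℝ} (hα0 : 0 < α) (he : 0 < e) (hx : 1 ≤ x) (h2 : 2 ≤ x ^ α)
    (h3 : 4 / (e * Real.log 2) + 5 ≤ x ^ (e / 4)) :
    ∃ r Ks : ℕ, 1 ≤ r ∧ x ^ α ≤ 2 * r ∧ (r : ℝ) ≤ x ^ α ∧ 2 * r ≤ Ks ∧ 1 ≤ Ks ∧
      8 * x ^ (2 * r) ≤ 4 ^ Ks ∧ (Ks : ℝ) ≤ x ^ (α + e / 2) := by
  have hx0 : 0 < x := by linarith
  have hlog : 0 ≤ Real.log x := Real.log_nonneg hx
  have hlog2 : 0 < Real.log 2 := Real.log_pos (by norm_num)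
  obtain ⟨r, hr⟩ : ∃ r : ℕ, r = ⌈x ^ α / 2⌉₊ := ⟨_, rfl⟩
  obtain ⟨s, hs⟩ : ∃ s : ℕ, s = ⌈r * Real.log x / Real.log 2⌉₊ := ⟨_, rfl⟩
  have hxα : 0 < x ^ α := by positivity
  have hr1 : x ^ α / 2 ≤ r := by rw [hr]; exact Nat.le_ceil _
  have hr2 : (r : ℝ) ≤ x ^ α / 2 + 1 := by
    rw [hr]
    exact (Nat.ceil_lt_add_one (by positivity)).le
  have hr3 : (r : ℝ) ≤ x ^ α := by linarith
  have hs1 : r * Real.log x / Real.log 2 ≤ s := by rw [hs]; exact Nat.le_ceil _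
  have hs2 : (s : ℝ) ≤ r * Real.log x / Real.log 2 + 1 := by
    rw [hs]
    exact (Nat.ceil_lt_add_one (by positivity)).le
  refine ⟨r, s + 2 * r + 2, ?_, by linarith, hr3, by omega, by omega, ?_, ?_⟩
  · have h1 : (0 : ℝ) < r := by linarith
    exact_mod_cast h1
  · have h1 : x ^ r ≤ 2 ^ s := by
      have h4 : (r : ℝ) * Real.log x ≤ s * Real.log 2 := by
        rwa [div_le_iff₀ hlog2] at hs1
      rw [← Real.log_le_log_iff (by positivity) (by positivity), Real.log_pow, Real.log_pow]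
      exact h4
    calc 8 * x ^ (2 * r) = 8 * (x ^ r) ^ 2 := by ring
      _ ≤ 8 * ((2 : ℝ) ^ s) ^ 2 := by gcongr
      _ ≤ (4 ^ (2 * r) * 16) * ((2 : ℝ) ^ s) ^ 2 := by
          have h4 : (1 : ℝ) ≤ 4 ^ (2 * r) := one_le_pow₀ (by norm_num)
          gcongr
          linarith
      _ = 4 ^ (s + 2 * r + 2) := by
          have h5 : ((2 : ℝ) ^ s) ^ 2 = 4 ^ s := by
            rw [← pow_mul, mul_comm, pow_mul]
            norm_num
          rw [h5, pow_add, pow_add]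
          norm_num
          ring
  · have h1 : Real.log x ≤ x ^ (e / 4) / (e / 4) := Real.log_le_rpow_div hx0.le (by positivity)
    have h4 : 1 ≤ x ^ (e / 4) := Real.one_le_rpow hx (by positivity)
    have h5 : (r : ℝ) * Real.log x / Real.log 2 ≤ 4 / (e * Real.log 2) * (x ^ α * x ^ (e / 4)) := by
      calc (r : ℝ) * Real.log x / Real.log 2 ≤ x ^ α * (x ^ (e / 4) / (e / 4)) / Real.log 2 := by
            gcongr
        _ = 4 / (e * Real.log 2) * (x ^ α * x ^ (e / 4)) := by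
            field_simp
    have h6 : x ^ α ≤ x ^ α * x ^ (e / 4) := le_mul_of_one_le_right hxα.le h4
    have h7 : (1 : ℝ) ≤ x ^ α * x ^ (e / 4) := by nlinarith
    have h8 : x ^ (α + e / 2) = (x ^ α * x ^ (e / 4)) * x ^ (e / 4) := by
      rw [← Real.rpow_add hx0, ← Real.rpow_add hx0]
      congr 1
      ring
    rw [h8]
    push_cast
    calc (s : ℝ) + 2 * r + 2 ≤ (r * Real.log x / Real.log 2 + 1) + 2 * x ^ α + 2 := by linarith
      _ ≤ 4 / (e * Real.log 2) * (x ^ α * x ^ (e / 4)) + 5 * (x ^ α * x ^ (e / 4)) := by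
          linarith
      _ = (x ^ α * x ^ (e / 4)) * (4 / (e * Real.log 2) + 5) := by ring
      _ ≤ (x ^ α * x ^ (e / 4)) * x ^ (e / 4) := by gcongr

end ParAux

open ParAux

theorem par {α b : ℝ} (K : ℝ) (hα0 : 0 < α) (hb0 : 0 ≤ b) (hb2 : b ≤ 2)
    (hα : α * (1 + 2 * b) < 1) (A : ℕ) (hA : 1 ≤ A) :
    ∃ m : ℕ, 1 ≤ m ∧ ∃ ε : ℝ, 0 < ε ∧ ε ≤ 1 ∧ ∀ ξ : ℝ, 0 < ξ → ∃ L₀ : ℕ, ∀ L : ℕ, L₀ ≤ L →
      ∃ r Ks b' c' : ℕ, 1 ≤ r ∧ (L:ℝ) ^ α ≤ 2 * r ∧ 2 * r ≤ Ks ∧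
        8 * L ^ (2 * r) ≤ 4 ^ Ks ∧ A * Ks * 2 ^ b' ≤ 2 ^ c' ∧ 1 ≤ b' ∧
        ∀ lam : ℝ, 3 * Real.log L ≤ lam → lam ≤ (L:ℝ) ^ ε →
          8 ≤ lam ∧ 16 * lam ≤ 2 ^ c' ∧ lam ≤ 2 ^ b' ∧
          40 * (lam / 2 ^ c') + 10 * Real.exp (-lam / 2) ≤ ξ / 2 ∧
          (lam / 2 ^ b') ^ m + 6 * Real.sqrt (2 * Real.exp 1 * r / L) + Real.exp (-lam) / lam ≤
            ξ * (Real.exp (-(K + 1)) * ((2:ℝ) ^ c') ^ (-b) / (2 * lam)) := by
  obtain ⟨e, he0, he20, hsum⟩ : ∃ e : ℝ, 0 < e ∧ e ≤ 1 / 20 ∧ α * (1 + 2 * b) + 20 * e ≤ 1 := by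
    refine ⟨min (1 / 20) ((1 - α * (1 + 2 * b)) / 20), ?_, min_le_left _ _, ?_⟩
    · exact lt_min (by norm_num) (by linarith)
    · have := min_le_right (1 / 20 : ℝ) ((1 - α * (1 + 2 * b)) / 20)
      linarith
  refine ⟨⌈8 / e⌉₊ + 1, by omega, e / 2, by positivity, by linarith, fun ξ hξ => ?_⟩
  obtain ⟨m, hm⟩ : ∃ m : ℕ, m = ⌈8 / e⌉₊ + 1 := ⟨_, rfl⟩
  rw [← hm]
  have hme : 4 ≤ (m : ℝ) * (e / 2) := by
    have h1 : 8 / e ≤ m := by
      rw [hm]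
      push_cast
      have := Nat.le_ceil (8 / e)
      linarith
    rw [div_le_iff₀ he0] at h1
    linarith
  obtain ⟨q, hq⟩ : ∃ q : ℝ, q = b * (α + 2 * e) + e / 2 := ⟨_, rfl⟩
  have hbα : b * α ≤ 1 / 2 := by nlinarith
  have hbe : b * (2 * e) ≤ 4 * e := by nlinarith
  have hq1 : q ≤ b * α + 9 / 2 * e := by
    rw [hq]
    nlinarith
  have hq2 : q < 3 := by linarith
  have hq3 : q < (1 - α) / 2 := by nlinarith
  obtain ⟨c, hc⟩ : ∃ c : ℝ, c = ξ * Real.exp (-(K + 1)) / 2 := ⟨_, rfl⟩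
  have hc0 : 0 < c := by rw [hc]; positivity
  have key : ∀ᶠ L : ℕ in atTop, ∃ r Ks b' c' : ℕ, 1 ≤ r ∧ (L:ℝ) ^ α ≤ 2 * r ∧ 2 * r ≤ Ks ∧
        8 * L ^ (2 * r) ≤ 4 ^ Ks ∧ A * Ks * 2 ^ b' ≤ 2 ^ c' ∧ 1 ≤ b' ∧
        ∀ lam : ℝ, 3 * Real.log L ≤ lam → lam ≤ (L:ℝ) ^ (e / 2) →
          8 ≤ lam ∧ 16 * lam ≤ 2 ^ c' ∧ lam ≤ 2 ^ b' ∧
          40 * (lam / 2 ^ c') + 10 * Real.exp (-lam / 2) ≤ ξ / 2 ∧
          (lam / 2 ^ b') ^ m + 6 * Real.sqrt (2 * Real.exp 1 * r / L) + Real.exp (-lam) / lam ≤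
            ξ * (Real.exp (-(K + 1)) * ((2:ℝ) ^ c') ^ (-b) / (2 * lam)) := by
    filter_upwards [eventually_ge_atTop 1, ev_big hα0 2,
      ev_big (show 0 < e / 4 by positivity) (4 / (e * Real.log 2) + 5),
      ev_big (show 0 < e / 2 by positivity) (4 * A), ev_log (8 / 3),
      ev_big (show 0 < e / 2 by positivity) 16,
      ev_small (show 0 < e / 2 by positivity) (show 0 < ξ / 4 by positivity) 40,
      ev_small (show (0 : ℝ) < 3 / 2 by norm_num) (show 0 < ξ / 4 by positivity) 10,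
      ev_small (show 0 < 4 - q by linarith) (show 0 < c / 3 by positivity) 1,
      ev_small (show 0 < (1 - α) / 2 - q by linarith) (show 0 < c / 3 by positivity)
        (6 * Real.sqrt (2 * Real.exp 1)),
      ev_small (show 0 < 3 - q by linarith) (show 0 < c / 3 by positivity) 1] with
      L g1 g2 g3 g4 g5 g6 g7 g8 g9 g10 g11
    obtain ⟨x, hx⟩ : ∃ x : ℝ, x = L := ⟨_, rfl⟩
    rw [← hx] at g2 g3 g4 g5 g6 g7 g8 g9 g10 g11 ⊢
    have hx1 : 1 ≤ x := by rw [hx]; exact_mod_cast g1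
    have hx0 : 0 < x := by linarith
    obtain ⟨r, Ks, hr1, hr2, hr3, hr4, hK1, hK2, hK3⟩ := exists_rK hα0 he0 hx1 g2 g3
    obtain ⟨b', hb1, hb2, hb3⟩ := exists_pow (Real.one_le_rpow hx1 he0.le)
    have hAK : (1 : ℝ) ≤ A * Ks := by
      have h1 : (1 : ℝ) ≤ A := by exact_mod_cast hA
      have h2 : (1 : ℝ) ≤ Ks := by exact_mod_cast hK1
      exact one_le_mul_of_one_le_of_one_le h1 h2
    have h2b : (1 : ℝ) ≤ 2 ^ b' := one_le_pow₀ (by norm_num)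
    obtain ⟨c', hc1, hc2, hc3⟩ := exists_pow (one_le_mul_of_one_le_of_one_le hAK h2b)
    have hcb : (2 : ℝ) ^ b' ≤ 2 ^ c' :=
      (le_mul_of_one_le_left (by positivity) hAK).trans hc2
    have hxe : x ^ e = x ^ (e / 2) * x ^ (e / 2) := by
      rw [← Real.rpow_add hx0]
      congr 1
      ring
    have hc4 : (2 : ℝ) ^ c' ≤ x ^ (α + 2 * e) := by
      have h1 : x ^ (α + 2 * e) = x ^ (α + e / 2) * (x ^ e * x ^ (e / 2)) := by
        rw [← Real.rpow_add hx0, ← Real.rpow_add hx0]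
        congr 1
        ring
      rw [h1]
      calc (2 : ℝ) ^ c' ≤ 2 * (A * Ks * 2 ^ b') := hc3
        _ ≤ 2 * (A * x ^ (α + e / 2) * (2 * x ^ e)) := by gcongr
        _ = x ^ (α + e / 2) * (x ^ e * (4 * A)) := by ring
        _ ≤ _ := by gcongr
    refine ⟨r, Ks, b', c', hr1, hr2, hr4, ?_, ?_, hb1, ?_⟩
    · rw [hx] at hK2
      exact_mod_cast hK2
    · exact_mod_cast hc2
    intro lam hl1 hl2
    have hl8 : 8 ≤ lam := by linarith
    have hl0 : 0 < lam := by linarith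
    have hle : 16 * lam ≤ x ^ e := by
      rw [hxe]
      have h1 : 0 < x ^ (e / 2) := by positivity
      calc 16 * lam ≤ 16 * x ^ (e / 2) := by gcongr
        _ ≤ x ^ (e / 2) * x ^ (e / 2) := by gcongr
    have hlog : Real.exp (-lam) ≤ x ^ (-3 : ℝ) := by
      rw [Real.rpow_def_of_pos hx0]
      exact Real.exp_le_exp.2 (by linarith)
    refine ⟨hl8, hle.trans (hb2.trans hcb), ?_, ?_, ?_⟩
    · linarith
    · have h1 : 40 * (lam / 2 ^ c') ≤ ξ / 4 := by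
        refine le_trans ?_ g7
        have h2 : lam / 2 ^ c' ≤ x ^ (-(e / 2)) := by
          rw [div_le_iff₀ (by positivity)]
          calc lam ≤ x ^ (e / 2) := hl2
            _ = x ^ (-(e / 2)) * x ^ e := by
              rw [← Real.rpow_add hx0]
              congr 1
              ring
            _ ≤ x ^ (-(e / 2)) * 2 ^ c' := by
              have := hb2.trans hcb
              gcongr
        linarith
      have h3 : 10 * Real.exp (-lam / 2) ≤ ξ / 4 := by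
        refine le_trans ?_ g8
        have h4 : Real.exp (-lam / 2) ≤ x ^ (-(3 / 2) : ℝ) := by
          rw [Real.rpow_def_of_pos hx0]
          exact Real.exp_le_exp.2 (by linarith)
        linarith
      linarith
    · -- the right-hand side
      have hRHS : c * x ^ (-q) ≤ ξ * (Real.exp (-(K + 1)) * ((2:ℝ) ^ c') ^ (-b) / (2 * lam)) := by
        have h1 : x ^ (-(b * (α + 2 * e))) ≤ ((2:ℝ) ^ c') ^ (-b) := by
          have h2 : x ^ (-(b * (α + 2 * e))) = (x ^ (α + 2 * e)) ^ (-b) := by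
            rw [← Real.rpow_mul hx0.le]
            congr 1
            ring
          rw [h2]
          exact Real.rpow_le_rpow_of_nonpos (by positivity) hc4 (by linarith)
        have h3 : x ^ (-(e / 2)) ≤ 1 / lam := by
          rw [Real.rpow_neg hx0.le, ← one_div]
          exact one_div_le_one_div_of_le hl0 hl2
        have h4 : x ^ (-q) = x ^ (-(b * (α + 2 * e))) * x ^ (-(e / 2)) := by
          rw [← Real.rpow_add hx0]
          congr 1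
          rw [hq]
          ring
        rw [h4, hc]
        calc ξ * Real.exp (-(K + 1)) / 2 * (x ^ (-(b * (α + 2 * e))) * x ^ (-(e / 2)))
            ≤ ξ * Real.exp (-(K + 1)) / 2 * (((2:ℝ) ^ c') ^ (-b) * (1 / lam)) := by gcongr
          _ = ξ * (Real.exp (-(K + 1)) * ((2:ℝ) ^ c') ^ (-b) / (2 * lam)) := by
            field_simp
      refine le_trans ?_ hRHS
      have hxq : 0 < x ^ (-q) := by positivity
      -- the three terms
      have t1 : (lam / 2 ^ b') ^ m ≤ c / 3 * x ^ (-q) := by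
        have h2 : lam / 2 ^ b' ≤ x ^ (-(e / 2)) := by
          rw [div_le_iff₀ (by positivity)]
          calc lam ≤ x ^ (e / 2) := hl2
            _ = x ^ (-(e / 2)) * x ^ e := by
              rw [← Real.rpow_add hx0]
              congr 1
              ring
            _ ≤ x ^ (-(e / 2)) * 2 ^ b' := by gcongr
        calc (lam / 2 ^ b') ^ m ≤ (x ^ (-(e / 2))) ^ m := by gcongr
          _ = x ^ (-(e / 2) * m) := by rw [Real.rpow_mul hx0.le, Real.rpow_natCast]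
          _ ≤ x ^ (-4 : ℝ) := Real.rpow_le_rpow_of_exponent_le hx1 (by linarith)
          _ = (1 * x ^ (-(4 - q))) * x ^ (-q) := by
            rw [one_mul, ← Real.rpow_add hx0]
            congr 1
            ring
          _ ≤ c / 3 * x ^ (-q) := by gcongr
      have t2 : 6 * Real.sqrt (2 * Real.exp 1 * r / x) ≤ c / 3 * x ^ (-q) := by
        have h1 : 2 * Real.exp 1 * r / x ≤ 2 * Real.exp 1 * x ^ (α - 1) := by
          rw [Real.rpow_sub_one hx0.ne', mul_div_assoc]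
          gcongr
        have h2 : Real.sqrt (x ^ (α - 1)) = x ^ ((α - 1) / 2) := by
          rw [Real.sqrt_eq_rpow, ← Real.rpow_mul hx0.le]
          congr 1
          ring
        calc 6 * Real.sqrt (2 * Real.exp 1 * r / x)
            ≤ 6 * Real.sqrt (2 * Real.exp 1 * x ^ (α - 1)) := by
              gcongr
          _ = 6 * Real.sqrt (2 * Real.exp 1) * x ^ ((α - 1) / 2) := by
              rw [Real.sqrt_mul (by positivity), h2]
              ring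
          _ = (6 * Real.sqrt (2 * Real.exp 1) * x ^ (-((1 - α) / 2 - q))) * x ^ (-q) := by
              rw [mul_assoc (6 * Real.sqrt (2 * Real.exp 1)), ← Real.rpow_add hx0]
              congr 2
              ring
          _ ≤ c / 3 * x ^ (-q) := by gcongr
      have t3 : Real.exp (-lam) / lam ≤ c / 3 * x ^ (-q) := by
        calc Real.exp (-lam) / lam ≤ Real.exp (-lam) / 1 := by gcongr; linarith
          _ ≤ x ^ (-3 : ℝ) := by rw [div_one]; exact hlog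
          _ = (1 * x ^ (-(3 - q))) * x ^ (-q) := by
            rw [one_mul, ← Real.rpow_add hx0]
            congr 1
            ring
          _ ≤ c / 3 * x ^ (-q) := by gcongr
      linarith
  obtain ⟨L₀, hL₀⟩ := eventually_atTop.1 key
  exact ⟨L₀, hL₀⟩

end Pool.Agent.Lib.P4a7640S
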