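import Mathlib
import Pool.Agent.Lib.P4a7640C.Core
import Pool.Agent.Lib.P4a7640S.Bridge
import Pool.Agent.Lib.P4a7640S.Abs
import Pool.Agent.Lib.P4a7640S.Par

/-!
# The structure theorem
-/

open Finset Filter Topology
open Pool.Agent.Lib.P4a7640 Pool.Agent.Lib.P4a7640C

namespace Pool.Agent.Lib.P4a7640S

theorem structure_thm {α b K R δ : ℝ} (hα0 : 0 < α) (hb0 : 0 ≤ b) (hb2 : b ≤ 2)
    (hα : α * (1 + 2 * b) < 1) (hR : 1 ≤ R) (hδ : 0 < δ) (X : ℕ) :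
    ∃ L₀ : ℕ, ∀ f g : ℕ → ℤˣ, (MultS fun n => f n * g n) → (Aperiodic fun n => f n * g n) →
      ∀ q : Fin X → ℕ, (∀ i, 0 < q i) → ∀ (χ : ∀ i, DirichletCharacter ℂ (q i)) (l : Filter ℕ),
      l ≤ atTop → (∀ i, MassB l (ze (fun n => f n * g n) (χ i)) b K) →
      ∀ J : Finset ℕ, L₀ ≤ J.card →
      ((patJ f l J).card : ℝ) * (patJ g l J).card ≤ Real.exp ((J.card : ℝ) ^ α) →
      ∀ᶠ N : ℕ in l, ∃ y : ℝ, R ≤ y ∧ R * y ≤ Real.log J.card ∧ ∀ i,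
        (∀ t : ℝ, y ≤ t → t ≤ R * y →
          ‖Dm (ze (fun n => f n * g n) (χ i)) (Real.exp t / Real.log N)‖ ≤ δ) ∨
        (∀ t : ℝ, y ≤ t → t ≤ R * y →
          ‖Dm (ze (fun n => f n * g n) (χ i)) (Real.exp t / Real.log N) + 1‖ ≤ δ) := by
  classical
  obtain ⟨A, hA, hcore⟩ := core
  obtain ⟨m, hm, ε, hε, hε1, hpar⟩ := par K hα0 hb0 hb2 hα A hA
  obtain ⟨ξ, κ, hξ, hκ, L₂, hL₂⟩ := struct_abs (b := b) (K := K) hR hδ X hm hε hε1
  obtain ⟨L₁, hL₁⟩ := hpar ξ hξ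
  refine ⟨max (max L₁ L₂) 1, ?_⟩
  intro f g hmul haper q hq χ l hl hmass J hJ hcard
  have hLL₁ : L₁ ≤ J.card := ((le_max_left _ _).trans (le_max_left _ _)).trans hJ
  have hLL₂ : L₂ ≤ J.card := ((le_max_right _ _).trans (le_max_left _ _)).trans hJ
  have hL1 : 1 ≤ J.card := (le_max_right _ _).trans hJ
  have hJne : J.Nonempty := by
    rw [← Finset.card_pos]; omega
  obtain ⟨r, Ks, b', c', hr, hLα, hrK, h8, hAK, hb', hlam⟩ := hL₁ J.card hLL₁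
  obtain ⟨M, hM⟩ := hL₂ J.card hLL₂
  have hmain := hM b' c' (6 * Real.sqrt (2 * Real.exp 1 * r / J.card)) hb' hlam
    (fun i => ze (fun n => f n * g n) (χ i)) (fun i p => norm_ze_le _ (χ i) p) l hl hmass
  have e0 : ∀ᶠ N : ℕ in l, 2 ≤ N := hl (eventually_ge_atTop 2)
  have e1 : ∀ᶠ N : ℕ in l, ∀ i, ∀ j ∈ range (M + 1), 3 * Real.log J.card ≤ κ ^ j →
      κ ^ j ≤ (J.card:ℝ) ^ ε →
      ‖mid (ze (fun n => f n * g n) (χ i)) (Tp (2 ^ c') N) N (2 ^ b') (κ ^ j)‖ ≤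
        6 * Real.sqrt (2 * Real.exp 1 * r / J.card) := by
    rw [eventually_all]
    intro i
    rw [eventually_all_finset]
    intro j _
    have h1 := hcore f g hmul haper (q i) (hq i) (χ i) l hl J hJne r Ks b' c' hr hrK h8 hAK
      (hcard.trans (Real.exp_le_exp.2 hLα)) (κ ^ j) (by positivity)
    filter_upwards [h1, e0] with N h2 h3 _ _
    rw [mid_eq (fun n => f n * g n) (χ i) (2 ^ c') (2 ^ b') h3]
    exact h2
  filter_upwards [hmain, e1] with N h1 h2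
  exact h1 h2

end Pool.Agent.Lib.P4a7640S
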