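import Mathlib
import Pool.Agent.Lib.P4a7640S.DmA

/-!
# A bound of the mass from a lower bound of the smooth means

Module P4a7640S.MassD (1.8 h). Imports are black boxes.

Choose `A ≥ 1` with `(1 - β + ε/2) ≤ (exp (-1/A) - exp (-A)) (1 - β + ε)` and `s ∈ (0, 1/4]` with `8 s ≤ ε/2`,
`κ = 1 + s`. Given `c ≥ 1` let `n = ⌈log (A^2 c)/log κ⌉₊`, so `A^2 c ≤ κ^n`, `n log κ ≤ log (A^2 c) + log κ`; for `N`
large `η = 1/(A log N)`. For `p ∈ Tp c N`: `p^(-η) ≥ exp (-1/A)` (`p ≤ N`), `p^(-κ^n η) ≤ exp (-A)` (`p^c > N`), so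
`(exp (-1/A) - exp (-A))/p ≤ p^(-1-η) - p^(-1-κ^n η)`; the terms `1 - Re z p ≥ 0`, hence
`(exp (-1/A) - exp (-A)) ∑_T (1 - Re z p)/p ≤ ∑_all p (1 - Re z p) (p^(-1-η) - p^(-1-κ^n η))
= (Sp η - Sp (κ^n η)) - Re ∑_{j<n} ∑_p z p (p^(-1-κ^j η) - p^(-1-κ^(j+1) η))`. `Sp_diff` (for `κ^n`, if `n ≥ 1`):
the first term is `≤ n log κ + δ'`; `Dm_diff`: each inner sum is within `3 s^2` of `s Dm z (κ^j η)`, whose real part
is `≥ s β`. Now `-s β ≤ -β log κ + s^2` (`log κ ≤ s ≤ log κ + s^2`, `|β| ≤ 1`), `4 s^2 ≤ 8 s log κ`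
(`log κ ≥ s/2`), so the total is `≤ n log κ (1 - β + 8 s) + δ' ≤ (log c + 2 log A + 1) (1 - β + ε/2) + δ'`.
`K = (2 log A + 1) (1 - β + ε)` (plus `δ'` divided by the factor, made `≤ δ`).
-/

open Finset Filter Topology
open Pool.Agent.Lib.P4a7640

namespace Pool.Agent.Lib.P4a7640S

namespace MassDAux

private theorem pr_pos (p : Nat.Primes) : (0:ℝ) < (p:ℝ) := by
  exact_mod_cast p.2.pos

private theorem e_nn (p : Nat.Primes) (η : ℝ) : 0 ≤ (p:ℝ) ^ (-1 - η) :=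
  Real.rpow_nonneg (pr_pos p).le _

private theorem summ {z : ℕ → ℂ} (hz : ∀ p, ‖z p‖ ≤ 1) {a b : ℝ} (ha : 0 < a) (hb : 0 < b) :
    Summable fun p : Nat.Primes => z p * (((p:ℝ) ^ (-1 - a) - (p:ℝ) ^ (-1 - b) : ℝ) : ℂ) := by
  apply Summable.of_norm_bounded ((summable_Sp ha).add (summable_Sp hb))
  intro p
  rw [norm_mul, Complex.norm_real, Real.norm_eq_abs]
  calc ‖z p‖ * |(p:ℝ) ^ (-1 - a) - (p:ℝ) ^ (-1 - b)|
      ≤ 1 * ((p:ℝ) ^ (-1 - a) + (p:ℝ) ^ (-1 - b)) := by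
        apply mul_le_mul (hz p) _ (abs_nonneg _) zero_le_one
        have h1 := e_nn p a
        have h2 := e_nn p b
        rw [abs_le]
        constructor <;> linarith
    _ = _ := one_mul _

private theorem W_lower {z : ℕ → ℂ} (hz : ∀ p, ‖z p‖ ≤ 1) {s β ρ : ℝ} (hs : 0 < s)
    (hdiff : ∀ η : ℝ, 0 < η → η < ρ →
      ‖∑' p : Nat.Primes, z p * (((p:ℝ) ^ (-1 - η) - (p:ℝ) ^ (-1 - (1 + s) * η) : ℝ) : ℂ) -
        ((s : ℝ) : ℂ) * Dm z η‖ ≤ 3 * s ^ 2)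
    (hD : ∀ η : ℝ, 0 < η → η < ρ → β ≤ (Dm z η).re) {η : ℝ} (hη : 0 < η) :
    ∀ n : ℕ, (1 + s) ^ n * η < ρ → n * (s * β - 3 * s ^ 2) ≤
      (∑' p : Nat.Primes, z p *
        (((p:ℝ) ^ (-1 - η) - (p:ℝ) ^ (-1 - (1 + s) ^ n * η) : ℝ) : ℂ)).re := by
  intro n
  induction n with
  | zero =>
    intro _
    simp
  | succ n ih =>
    intro hlt
    have hpos : 0 < (1 + s) ^ n * η := by positivity
    have hle : (1 + s) ^ n * η ≤ (1 + s) ^ (n + 1) * η := by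
      rw [pow_succ]
      nlinarith
    have h1 := ih (hle.trans_lt hlt)
    have h2 := hdiff _ hpos (hle.trans_lt hlt)
    have h3 := hD _ hpos (hle.trans_lt hlt)
    have e : (1 + s) * ((1 + s) ^ n * η) = (1 + s) ^ (n + 1) * η := by ring
    rw [e] at h2
    have hsum : ∑' p : Nat.Primes, z p *
        (((p:ℝ) ^ (-1 - η) - (p:ℝ) ^ (-1 - (1 + s) ^ (n + 1) * η) : ℝ) : ℂ) =
        ∑' p : Nat.Primes, z p *
          (((p:ℝ) ^ (-1 - η) - (p:ℝ) ^ (-1 - (1 + s) ^ n * η) : ℝ) : ℂ) +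
        ∑' p : Nat.Primes, z p * (((p:ℝ) ^ (-1 - (1 + s) ^ n * η) -
          (p:ℝ) ^ (-1 - (1 + s) ^ (n + 1) * η) : ℝ) : ℂ) := by
      rw [← (summ hz hη hpos).tsum_add (summ hz hpos (hpos.trans_le hle))]
      congr 1
      ext p
      push_cast
      ring
    rw [hsum, Complex.add_re]
    have h4 := (Complex.abs_re_le_norm _).trans h2
    rw [Complex.sub_re, Complex.re_ofReal_mul] at h4
    have h5 := (abs_le.1 h4).1
    have h6 : s * β ≤ s * (Dm z ((1 + s) ^ n * η)).re := mul_le_mul_of_nonneg_left h3 hs.le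
    rw [Nat.cast_succ, add_mul, one_mul]
    linarith

private theorem total {z : ℕ → ℂ} (hz : ∀ p, ‖z p‖ ≤ 1) {a b : ℝ} (ha : 0 < a) (hab : a ≤ b)
    (T : Finset ℕ) (hT : ∀ p ∈ T, p.Prime) :
    ∑ p ∈ T, (1 - (z p).re) * ((p:ℝ) ^ (-1 - a) - (p:ℝ) ^ (-1 - b)) ≤
      (Sp a - Sp b) - (∑' p : Nat.Primes, z p *
        (((p:ℝ) ^ (-1 - a) - (p:ℝ) ^ (-1 - b) : ℝ) : ℂ)).re := by
  have hb : 0 < b := ha.trans_le hab
  have hs := summ hz ha hb
  have hre : Summable fun p : Nat.Primes =>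
      (z p * (((p:ℝ) ^ (-1 - a) - (p:ℝ) ^ (-1 - b) : ℝ) : ℂ)).re :=
    (Complex.hasSum_re hs.hasSum).summable
  have hsum : (Sp a - Sp b) - (∑' p : Nat.Primes, z p *
        (((p:ℝ) ^ (-1 - a) - (p:ℝ) ^ (-1 - b) : ℝ) : ℂ)).re =
      ∑' p : Nat.Primes, (1 - (z p).re) * ((p:ℝ) ^ (-1 - a) - (p:ℝ) ^ (-1 - b)) := by
    rw [Complex.re_tsum hs, Sp, Sp, ← (summable_Sp ha).tsum_sub (summable_Sp hb),
      ← ((summable_Sp ha).sub (summable_Sp hb)).tsum_sub hre]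
    congr 1
    ext p
    rw [Complex.re_mul_ofReal]
    ring
  have hsm : Summable fun p : Nat.Primes =>
      (1 - (z p).re) * ((p:ℝ) ^ (-1 - a) - (p:ℝ) ^ (-1 - b)) := by
    refine (((summable_Sp ha).sub (summable_Sp hb)).sub hre).congr fun p => ?_
    rw [Complex.re_mul_ofReal]
    ring
  rw [hsum]
  have h1 : ∑ p ∈ T, (1 - (z p).re) * ((p:ℝ) ^ (-1 - a) - (p:ℝ) ^ (-1 - b)) =
      ∑ p ∈ T.subtype Nat.Prime,
        (1 - (z (p : ℕ)).re) * (((p : ℕ) : ℝ) ^ (-1 - a) - ((p : ℕ) : ℝ) ^ (-1 - b)) := by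
    rw [Finset.sum_subtype_eq_sum_filter (f := fun p : ℕ =>
      (1 - (z p).re) * ((p:ℝ) ^ (-1 - a) - (p:ℝ) ^ (-1 - b))), Finset.filter_true_of_mem hT]
  rw [h1]
  refine Summable.sum_le_tsum (f := fun p : Nat.Primes =>
    (1 - (z p).re) * ((p:ℝ) ^ (-1 - a) - (p:ℝ) ^ (-1 - b))) (T.subtype Nat.Prime)
    (fun p _ => ?_) hsm
  have h2 : (z p).re ≤ 1 := (Complex.re_le_norm _).trans (hz p)
  have h3 : (p:ℝ) ^ (-1 - b) ≤ (p:ℝ) ^ (-1 - a) := by
    apply Real.rpow_le_rpow_of_exponent_le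
    · exact_mod_cast p.2.one_lt.le
    · linarith
  exact mul_nonneg (by linarith) (by linarith)

private theorem exists_of_ev {P : ℝ → Prop} (h : ∀ᶠ η in 𝓝[>] (0:ℝ), P η) :
    ∃ η₀ : ℝ, 0 < η₀ ∧ ∀ η : ℝ, 0 < η → η < η₀ → P η := by
  obtain ⟨η₀, hη₀, h2⟩ := mem_nhdsGT_iff_exists_Ioo_subset.1 h
  exact ⟨η₀, hη₀, fun η h3 h4 => h2 ⟨h3, h4⟩⟩

private theorem exists_A {b b' : ℝ} (hb' : 0 < b') (hbb : b' < b) :
    ∃ A : ℝ, 1 ≤ A ∧ b' ≤ (Real.exp (-(1 / A)) - Real.exp (-A)) * b := by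
  have hb : 0 < b := hb'.trans hbb
  have h1 : Tendsto (fun A : ℝ => (Real.exp (-(1 / A)) - Real.exp (-A)) * b) atTop
      (𝓝 ((Real.exp (-0) - 0) * b)) := by
    refine Tendsto.mul_const b (Tendsto.sub ?_ ?_)
    · refine (Real.continuous_exp.tendsto _).comp (Tendsto.neg ?_)
      exact (tendsto_inv_atTop_zero (𝕜 := ℝ)).congr fun x => (one_div x).symm
    · exact Real.tendsto_exp_neg_atTop_nhds_zero
  have h2 : b' < (Real.exp (-0) - 0) * b := by simpa using hbb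
  obtain ⟨A, hA1, hA2⟩ := ((h1.eventually_const_lt h2).and (eventually_ge_atTop 1)).exists
  exact ⟨A, hA2, hA1.le⟩

private theorem log_facts {s : ℝ} (hs : 0 < s) (hs4 : s ≤ 1 / 4) :
    Real.log (1 + s) ≤ s ∧ s - s ^ 2 ≤ Real.log (1 + s) ∧ s / 2 ≤ Real.log (1 + s) := by
  have h1 : Real.log (1 + s) ≤ s := by
    have := Real.log_le_sub_one_of_pos (by linarith : 0 < 1 + s)
    linarith
  have h2 : s - s ^ 2 ≤ Real.log (1 + s) := by
    have h3 := Real.one_sub_inv_le_log_of_pos (by linarith : 0 < 1 + s)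
    refine le_trans ?_ h3
    rw [le_sub_iff_add_le, ← le_sub_iff_add_le', inv_le_comm₀ (by linarith) (by nlinarith),
      inv_le_iff_one_le_mul₀ (by nlinarith)]
    nlinarith [mul_pos hs (mul_pos hs hs)]
  exact ⟨h1, h2, by nlinarith⟩

private theorem theta_le {A η κn : ℝ} {c N p : ℕ} (hA : 1 ≤ A) (hc : 1 ≤ c)
    (hη : η = 1 / (A * Real.log N)) (hN : 0 < Real.log N) (hκ : A ^ 2 * c ≤ κn)
    (hp : p.Prime) (hpN : p ≤ N) (hNp : N < p ^ c) :
    (Real.exp (-(1 / A)) - Real.exp (-A)) / (p:ℝ) ≤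
      (p:ℝ) ^ (-1 - η) - (p:ℝ) ^ (-1 - κn * η) := by
  have hp0 : (0:ℝ) < p := by exact_mod_cast hp.pos
  have hlp : 0 ≤ Real.log p := Real.log_nonneg (by exact_mod_cast hp.one_lt.le)
  have hA0 : 0 < A := by linarith
  have hN0 : (0:ℝ) < N := by
    have : 0 < N := hp.pos.trans_le hpN
    exact_mod_cast this
  have hη0 : 0 < η := by rw [hη]; positivity
  have e : ∀ y : ℝ, (p:ℝ) ^ (-1 - y) = (p:ℝ)⁻¹ * Real.exp (-(y * Real.log p)) := by
    intro y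
    rw [Real.rpow_def_of_pos hp0]
    have h1 : (p:ℝ)⁻¹ = Real.exp (-Real.log p) := by
      rw [Real.exp_neg, Real.exp_log hp0]
    rw [h1, ← Real.exp_add]
    congr 1
    ring
  rw [e, e, div_eq_mul_inv, mul_comm, ← mul_sub]
  refine mul_le_mul_of_nonneg_left ?_ (inv_nonneg.2 hp0.le)
  have h1 : η * Real.log p ≤ 1 / A := by
    have h2 : Real.log p ≤ Real.log N := Real.log_le_log hp0 (by exact_mod_cast hpN)
    rw [hη, div_mul_eq_mul_div, one_mul, div_le_div_iff₀ (by positivity) hA0]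
    nlinarith
  have h3 : A ≤ κn * η * Real.log p := by
    have h4 : Real.log N ≤ c * Real.log p := by
      rw [← Real.log_pow]
      exact Real.log_le_log hN0 (by exact_mod_cast hNp.le)
    have h5 : A ^ 2 * c * η * Real.log p ≤ κn * η * Real.log p := by
      refine mul_le_mul_of_nonneg_right (mul_le_mul_of_nonneg_right hκ hη0.le) hlp
    refine le_trans ?_ h5
    have h6 : A ^ 2 * c * η * Real.log p = A * ((c * Real.log p) / Real.log N) := by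
      rw [hη]
      field_simp
    rw [h6]
    have h7 : 1 ≤ (c * Real.log p) / Real.log N := by
      rw [le_div_iff₀ hN]
      linarith
    nlinarith
  have h8 : Real.exp (-(1 / A)) ≤ Real.exp (-(η * Real.log p)) :=
    Real.exp_le_exp.2 (by linarith)
  have h9 : Real.exp (-(κn * η * Real.log p)) ≤ Real.exp (-A) :=
    Real.exp_le_exp.2 (by linarith)
  linarith

private theorem arith1 {l s β ε : ℝ} (hs0 : 0 < s) (hβ1 : -1 ≤ β) (hl1 : l ≤ s)
    (hl2 : s - s ^ 2 ≤ l) (hl3 : s / 2 ≤ l) (hsε : 8 * s ≤ ε / 2) :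
    l - (s * β - 3 * s ^ 2) ≤ l * (1 - β + ε / 2) := by
  have h1 : β * (l - s) ≤ s ^ 2 := by nlinarith
  have h2 : 4 * s ^ 2 ≤ 8 * s * l := by nlinarith
  have h3 : 8 * s * l ≤ ε / 2 * l := mul_le_mul_of_nonneg_right hsε (by linarith)
  nlinarith

private theorem arith2 {θ S nl β ε δ lc lA : ℝ} (hb' : 0 ≤ 1 - β + ε / 2)
    (h1 : θ * S ≤ nl * (1 - β + ε / 2) + θ * δ) (h3 : nl ≤ lc + 2 * lA + 2)
    (hA : 1 - β + ε / 2 ≤ θ * (1 - β + ε)) (h0 : 0 ≤ lc + 2 * lA + 2) :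
    θ * S ≤ θ * ((1 - β + ε) * lc + (1 - β + ε) * (2 * lA + 2) + δ) := by
  have h5 : nl * (1 - β + ε / 2) ≤ (lc + 2 * lA + 2) * (1 - β + ε / 2) :=
    mul_le_mul_of_nonneg_right h3 hb'
  have h6 : (lc + 2 * lA + 2) * (1 - β + ε / 2) ≤ (lc + 2 * lA + 2) * (θ * (1 - β + ε)) :=
    mul_le_mul_of_nonneg_left hA h0
  calc _ ≤ _ := h1
    _ ≤ (lc + 2 * lA + 2) * (θ * (1 - β + ε)) + θ * δ := add_le_add (h5.trans h6) le_rfl
    _ = _ := by ring

end MassDAux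

open MassDAux in
theorem mass_of_D {β ε : ℝ} (hβ1 : -1 ≤ β) (hβ : β ≤ 1) (hε : 0 < ε) :
    ∃ K : ℝ, ∀ z : ℕ → ℂ, (∀ p, ‖z p‖ ≤ 1) → (∀ᶠ η in 𝓝[>] (0:ℝ), β ≤ (Dm z η).re) →
      MassB atTop z (1 - β + ε) K := by
  have hb' : 0 < 1 - β + ε / 2 := by linarith
  have hb : 0 < 1 - β + ε := by linarith
  obtain ⟨A, hA1, hA⟩ := exists_A hb' (show 1 - β + ε / 2 < 1 - β + ε by linarith)
  set θ := Real.exp (-(1 / A)) - Real.exp (-A) with hθ
  have hθ0 : 0 < θ := by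
    by_contra hcon
    push Not at hcon
    nlinarith
  have hlA : 0 ≤ Real.log A := Real.log_nonneg hA1
  set s := min (1 / 4) (ε / 16) with hs
  have hs0 : 0 < s := lt_min (by norm_num) (by linarith)
  have hs4 : s ≤ 1 / 4 := min_le_left _ _
  have hsε : 8 * s ≤ ε / 2 := by
    have : s ≤ ε / 16 := min_le_right _ _
    linarith
  obtain ⟨hl1, hl2, hl3⟩ := log_facts hs0 hs4
  have hl0 : 0 < Real.log (1 + s) := by linarith
  refine ⟨(1 - β + ε) * (2 * Real.log A + 2), fun z hz hDev c hc δ hδ => ?_⟩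
  have hc' : (1:ℝ) ≤ c := by exact_mod_cast hc
  have hlc : 0 ≤ Real.log c := Real.log_nonneg hc'
  obtain ⟨η₁, hη₁, hD⟩ := exists_of_ev hDev
  obtain ⟨η₀, hη₀, hdiff⟩ := Dm_diff
  set n := ⌈Real.log (A ^ 2 * c) / Real.log (1 + s)⌉₊ + 1 with hn
  have hlAc : Real.log (A ^ 2 * c) = 2 * Real.log A + Real.log c := by
    rw [Real.log_mul (by positivity) (by positivity), Real.log_pow]
    norm_num
  have hlAc0 : 0 ≤ Real.log (A ^ 2 * c) := by rw [hlAc]; positivity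
  have hn1 : Real.log (A ^ 2 * c) ≤ n * Real.log (1 + s) := by
    have h1 := Nat.le_ceil (Real.log (A ^ 2 * c) / Real.log (1 + s))
    rw [div_le_iff₀ hl0] at h1
    rw [hn]
    push_cast
    nlinarith
  have hn2 : n * Real.log (1 + s) ≤ Real.log (A ^ 2 * c) + 2 * Real.log (1 + s) := by
    have h1 := (Nat.ceil_lt_add_one (div_nonneg hlAc0 hl0.le)).le
    have h2 := mul_le_mul_of_nonneg_right h1 hl0.le
    rw [add_mul, div_mul_cancel₀ _ hl0.ne'] at h2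
    rw [hn]
    push_cast
    nlinarith
  have hκn : A ^ 2 * c ≤ (1 + s) ^ n := by
    have h1 : Real.log (A ^ 2 * c) ≤ Real.log ((1 + s) ^ n) := by
      rw [Real.log_pow]
      exact hn1
    exact (Real.log_le_log_iff (by positivity) (by positivity)).1 h1
  have hκ1 : 1 < (1 + s) ^ n := one_lt_pow₀ (by linarith) (by omega)
  obtain ⟨η₂, hη₂, hSp⟩ := exists_of_ev ((Sp_diff hκ1).eventually_lt_const
    (show Real.log ((1 + s) ^ n) < Real.log ((1 + s) ^ n) + θ * δ by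
      have := mul_pos hθ0 hδ
      linarith))
  set τ := min η₂ (min η₀ η₁ / (1 + s) ^ n) with hτ
  have hτ0 : 0 < τ := lt_min hη₂ (div_pos (lt_min hη₀ hη₁) (by positivity))
  have hA0 : 0 < A := by linarith
  have hev : ∀ᶠ N : ℕ in atTop, max 1 (1 / (A * τ)) < Real.log (N:ℝ) :=
    (Real.tendsto_log_atTop.comp tendsto_natCast_atTop_atTop).eventually_gt_atTop _
  filter_upwards [hev] with N hN
  have hlN : 0 < Real.log (N:ℝ) := by
    have := (le_max_left (1:ℝ) (1 / (A * τ))).trans_lt hN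
    linarith
  set η := 1 / (A * Real.log (N:ℝ)) with hη
  have hη0 : 0 < η := by rw [hη]; positivity
  have hητ : η < τ := by
    have h1 := (le_max_right (1:ℝ) (1 / (A * τ))).trans_lt hN
    rw [div_lt_iff₀ (by positivity)] at h1
    rw [hη, div_lt_iff₀ (by positivity)]
    linarith
  have hη2 : η < η₂ := hητ.trans_le (min_le_left _ _)
  have hηρ : (1 + s) ^ n * η < min η₀ η₁ := by
    have h1 := hητ.trans_le (min_le_right _ _)
    rw [lt_div_iff₀ (by positivity)] at h1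
    linarith
  have hW := W_lower (β := β) (ρ := min η₀ η₁) hz hs0
    (fun y hy hy2 => by
      have h1 := hdiff y hy (hy2.trans_le (min_le_left _ _)) (1 + s) (by linarith) z hz
      have e : (1 + s) - 1 = s := by ring
      rw [e] at h1
      exact h1)
    (fun y hy hy2 => hD y hy (hy2.trans_le (min_le_right _ _))) hη0 n hηρ
  have hab : η ≤ (1 + s) ^ n * η := by nlinarith
  have hT : ∀ p ∈ Tp c N, p.Prime := fun p hp => (mem_filter.1 hp).2.1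
  have htot := total hz hη0 hab (Tp c N) hT
  have hSp' := (hSp η hη0 hη2).le
  rw [Real.log_pow] at hSp'
  have hsum : θ * ∑ p ∈ Tp c N, (1 - (z p).re) / (p:ℝ) ≤
      ∑ p ∈ Tp c N, (1 - (z p).re) * ((p:ℝ) ^ (-1 - η) - (p:ℝ) ^ (-1 - (1 + s) ^ n * η)) := by
    rw [mul_sum]
    refine sum_le_sum fun p hp => ?_
    have hp' := mem_filter.1 hp
    have h1 := theta_le hA1 hc hη hlN hκn hp'.2.1 (mem_Icc.1 hp'.1).2 hp'.2.2
    have h2 : (z p).re ≤ 1 := (Complex.re_le_norm _).trans (hz p)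
    calc θ * ((1 - (z p).re) / (p:ℝ)) = (1 - (z p).re) * (θ / (p:ℝ)) := by ring
      _ ≤ _ := mul_le_mul_of_nonneg_left h1 (by linarith)
  have hkey := arith1 hs0 hβ1 hl1 hl2 hl3 hsε
  have hn0 : (0:ℝ) ≤ n := Nat.cast_nonneg _
  have h1 : θ * ∑ p ∈ Tp c N, (1 - (z p).re) / (p:ℝ) ≤
      n * Real.log (1 + s) * (1 - β + ε / 2) + θ * δ := by
    calc _ ≤ _ := hsum
      _ ≤ _ := htot
      _ ≤ (n * Real.log (1 + s) + θ * δ) - n * (s * β - 3 * s ^ 2) := sub_le_sub hSp' hW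
      _ = n * (Real.log (1 + s) - (s * β - 3 * s ^ 2)) + θ * δ := by ring
      _ ≤ n * (Real.log (1 + s) * (1 - β + ε / 2)) + θ * δ :=
        add_le_add (mul_le_mul_of_nonneg_left hkey hn0) le_rfl
      _ = _ := by ring
  have h3 : n * Real.log (1 + s) ≤ Real.log c + 2 * Real.log A + 2 := by
    have : Real.log (1 + s) ≤ 1 := by linarith
    linarith
  exact le_of_mul_le_mul_left (arith2 hb'.le h1 h3 hA (by positivity)) hθ0

end Pool.Agent.Lib.P4a7640S
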