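import Mathlib
import Pool.Agent.Lib.P4a7640S.Base
import Pool.Agent.Lib.P4a7640S.KerA
import Pool.Agent.Lib.P4a7640S.Resid

/-!
# Smooth means of congruence functions

Module P4a7640S.TauLim (1 h). Imports are black boxes.

For a prime `p ∤ q`, `(p : ZMod q)` is a unit `a` and `ze u χ p = ψ a * conj (χ a)`; the primes `p ∣ q` (finitely
many) have `ze u χ p = 0` as `χ p = 0`. So `Dm (ze u χ) η = ∑ a : (ZMod q)ˣ, ψ a conj (χ a) * (η ∑' p, if p ≡ a then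
log p p^(-1-η) else 0)` (finite sum of summable series, `summable_k 1`), and `resid`.
-/

open Finset Filter Topology
open Pool.Agent.Lib.P4a7640

namespace Pool.Agent.Lib.P4a7640S

/-- the mean value of `ψ conj χ` on the units mod `q` -/
noncomputable def tau {q : ℕ} [NeZero q] (ψ : (ZMod q)ˣ → ℤˣ) (χ : DirichletCharacter ℂ q) : ℂ :=
  (∑ a : (ZMod q)ˣ, (((ψ a : ℤˣ) : ℤ) : ℂ) * (starRingEnd ℂ) (χ (a : ZMod q))) / (q.totient : ℂ)

namespace TauLimAux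

theorem smX {η : ℝ} (hη : 0 < η) :
    Summable fun p : Nat.Primes => Real.log p * (p:ℝ) ^ (-1 - η) := by
  have h := (summable_k 1 hη).mul_left η⁻¹
  refine h.congr (fun p => ?_)
  rw [pow_one, ← mul_assoc, ← mul_assoc, inv_mul_cancel₀ hη.ne', one_mul]

theorem smI {η : ℝ} (hη : 0 < η) {q : ℕ} (a : ZMod q) :
    Summable fun p : Nat.Primes =>
      (if ((p:ℕ) : ZMod q) = a then Real.log p * (p:ℝ) ^ (-1 - η) else 0) := by
  refine Summable.of_nonneg_of_le (fun p => ?_) (fun p => ?_) (smX hη)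
  · have h2 : (1:ℝ) ≤ (p:ℝ) := by exact_mod_cast p.2.one_le
    split_ifs
    · exact mul_nonneg (Real.log_nonneg h2) (Real.rpow_nonneg (by linarith) _)
    · exact le_refl _
  · have h2 : (1:ℝ) ≤ (p:ℝ) := by exact_mod_cast p.2.one_le
    split_ifs
    · exact le_refl _
    · exact mul_nonneg (Real.log_nonneg h2) (Real.rpow_nonneg (by linarith) _)

theorem ze_mul {q : ℕ} [NeZero q] (u : ℕ → ℤˣ) (ψ : (ZMod q)ˣ → ℤˣ)
    (hu : ∀ p : ℕ, p.Prime → ∀ a : (ZMod q)ˣ, ((p:ℕ) : ZMod q) = (a : ZMod q) → u p = ψ a)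
    (χ : DirichletCharacter ℂ q) (p : Nat.Primes) (X : ℝ) :
    ze u χ p * (X : ℂ) = ∑ a : (ZMod q)ˣ, ((((ψ a : ℤˣ) : ℤ) : ℂ) * (starRingEnd ℂ) (χ (a : ZMod q)))
      * (((if ((p:ℕ) : ZMod q) = (a : ZMod q) then X else 0 : ℝ)) : ℂ) := by
  by_cases hp : IsUnit ((p:ℕ) : ZMod q)
  · obtain ⟨b, hb⟩ := hp
    rw [Finset.sum_eq_single b]
    · rw [if_pos hb.symm]
      unfold ze
      rw [hu p p.2 b hb.symm, hb]
    · intro a _ hab
      have : ¬ (((p:ℕ) : ZMod q) = (a : ZMod q)) := by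
        intro h
        apply hab
        apply Units.ext
        rw [← h, ← hb]
      rw [if_neg this, Complex.ofReal_zero, mul_zero]
    · intro h
      exact absurd (Finset.mem_univ b) h
  · rw [Finset.sum_eq_zero]
    · unfold ze
      rw [MulChar.map_nonunit χ hp, map_zero, mul_zero, zero_mul]
    · intro a _
      have : ¬ (((p:ℕ) : ZMod q) = (a : ZMod q)) := fun h => hp (h ▸ a.isUnit)
      rw [if_neg this, Complex.ofReal_zero, mul_zero]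

theorem swap_sum {ι A : Type*} [Fintype A] (c : A → ℂ) (F : A → ι → ℝ) (h : ∀ a, Summable (F a))
    (η : ℝ) : (η : ℂ) * ∑' p, ∑ a, c a * ((F a p : ℝ) : ℂ)
      = ∑ a, c a * ((η * ∑' p, F a p : ℝ) : ℂ) := by
  have hs : ∀ a, Summable fun p => c a * ((F a p : ℝ) : ℂ) := fun a =>
    (Complex.ofRealCLM.summable (h a)).mul_left _
  rw [Summable.tsum_finsetSum (fun a _ => hs a), Finset.mul_sum]
  refine Finset.sum_congr rfl (fun a _ => ?_)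
  rw [Complex.ofReal_mul, Complex.ofReal_tsum, tsum_mul_left]
  ring

theorem Dm_eq {q : ℕ} [NeZero q] (u : ℕ → ℤˣ) (ψ : (ZMod q)ˣ → ℤˣ)
    (hu : ∀ p : ℕ, p.Prime → ∀ a : (ZMod q)ˣ, ((p:ℕ) : ZMod q) = (a : ZMod q) → u p = ψ a)
    (χ : DirichletCharacter ℂ q) {η : ℝ} (hη : 0 < η) :
    Dm (ze u χ) η = ∑ a : (ZMod q)ˣ, ((((ψ a : ℤˣ) : ℤ) : ℂ) * (starRingEnd ℂ) (χ (a : ZMod q)))
      * ((η * ∑' p : Nat.Primes,
        (if ((p:ℕ) : ZMod q) = (a : ZMod q) then Real.log p * (p:ℝ) ^ (-1 - η) else 0) : ℝ) : ℂ) := by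
  unfold Dm
  rw [tsum_congr (fun p => ze_mul u ψ hu χ p (Real.log p * (p:ℝ) ^ (-1 - η)))]
  exact swap_sum (fun a : (ZMod q)ˣ => (((ψ a : ℤˣ) : ℤ) : ℂ) * (starRingEnd ℂ) (χ (a : ZMod q)))
    (fun (a : (ZMod q)ˣ) (p : Nat.Primes) =>
      (if ((p:ℕ) : ZMod q) = (a : ZMod q) then Real.log p * (p:ℝ) ^ (-1 - η) else 0))
    (fun a => smI hη (a : ZMod q)) η

end TauLimAux

theorem Dm_lim {q : ℕ} [NeZero q] (u : ℕ → ℤˣ) (ψ : (ZMod q)ˣ → ℤˣ)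
    (hu : ∀ p : ℕ, p.Prime → ∀ a : (ZMod q)ˣ, ((p:ℕ) : ZMod q) = (a : ZMod q) → u p = ψ a)
    (χ : DirichletCharacter ℂ q) :
    Tendsto (fun η : ℝ => Dm (ze u χ) η) (𝓝[>] 0) (𝓝 (tau ψ χ)) := by
  have h1 : Tendsto (fun η : ℝ => ∑ a : (ZMod q)ˣ,
      ((((ψ a : ℤˣ) : ℤ) : ℂ) * (starRingEnd ℂ) (χ (a : ZMod q)))
      * ((η * ∑' p : Nat.Primes,
        (if ((p:ℕ) : ZMod q) = (a : ZMod q) then Real.log p * (p:ℝ) ^ (-1 - η) else 0) : ℝ) : ℂ))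
      (𝓝[>] 0) (𝓝 (∑ a : (ZMod q)ˣ, ((((ψ a : ℤˣ) : ℤ) : ℂ) * (starRingEnd ℂ) (χ (a : ZMod q)))
        * ((1 / (q.totient : ℝ) : ℝ) : ℂ))) := by
    refine tendsto_finsetSum _ (fun a _ => ?_)
    exact Tendsto.const_mul _ ((Complex.continuous_ofReal.tendsto _).comp (resid a))
  have h2 : (∑ a : (ZMod q)ˣ, ((((ψ a : ℤˣ) : ℤ) : ℂ) * (starRingEnd ℂ) (χ (a : ZMod q)))
        * ((1 / (q.totient : ℝ) : ℝ) : ℂ)) = tau ψ χ := by
    unfold tau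
    rw [← Finset.sum_mul]
    push_cast
    rw [mul_one_div]
  rw [h2] at h1
  refine h1.congr' ?_
  filter_upwards [self_mem_nhdsWithin] with η hη
  exact (TauLimAux.Dm_eq u ψ hu χ hη).symm

end Pool.Agent.Lib.P4a7640S
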