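import Mathlib
import Pool.Agent.Lib.P4a7640S.TauLim

/-!
# A good character for a congruence function

Module P4a7640S.Select (1.5 h). Imports are black boxes.

Orthogonality of the Dirichlet characters mod `q` (`DirichletCharacter.sum_char_inv_mul_char_eq`, `χ a⁻¹ = conj (χ a)`
on units) gives Fourier inversion `ψ a = ∑ χ, tau ψ χ * χ a` and Parseval `∑ χ, ‖tau ψ χ‖^2 = 1`. Suppose that every
`χ` has `tau = 0` or `Re tau < -1/2`. Not all `tau` vanish (Parseval). `∑ χ, Re (tau ψ χ) = Re ψ(1) = ±1` and it is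
`< -k/2` where `k ≥ 1` is the number of the `χ` with `tau ≠ 0`; so it is `-1`, `k < 2`, `k = 1`: only one `χ` has
`tau ≠ 0`, `ψ a = tau * χ a` for all `a`, `a = 1`: `tau = ψ 1 = -1`. Then `χ a = -ψ a ∈ {1,-1}` for all units and
`φ a = -ψ a = (-1) * ψ a` is a homomorphism `(ZMod q)ˣ →* ℤˣ` with `ψ = (-1) * φ`: contradiction to `h`.
-/

open Finset Filter Topology
open Pool.Agent.Lib.P4a7640

namespace Pool.Agent.Lib.P4a7640S

namespace SelectAux

theorem conj_eq {q : ℕ} [NeZero q] (χ : DirichletCharacter ℂ q) (a : (ZMod q)ˣ) :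
    (starRingEnd ℂ) (χ (a : ZMod q)) = χ ((a : ZMod q)⁻¹) := by
  have h1 : ‖χ (a : ZMod q)‖ = 1 := χ.unit_norm_eq_one a
  have h2 : χ (a : ZMod q) * (starRingEnd ℂ) (χ (a : ZMod q)) = 1 := by
    rw [Complex.mul_conj, Complex.normSq_eq_norm_sq, h1]
    norm_num
  have h3 : χ (a : ZMod q) * χ ((a : ZMod q)⁻¹) = 1 := by
    rw [← map_mul, ZMod.mul_inv_of_unit _ a.isUnit, map_one]
  have h4 : χ (a : ZMod q) ≠ 0 := by
    intro h0
    rw [h0, norm_zero] at h1
    exact zero_ne_one h1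
  exact mul_left_cancel₀ h4 (h2.trans h3.symm)

/-- Fourier inversion -/
theorem inv {q : ℕ} [NeZero q] (ψ : (ZMod q)ˣ → ℤˣ) (b : (ZMod q)ˣ) :
    ∑ χ : DirichletCharacter ℂ q, tau ψ χ * χ (b : ZMod q) = (((ψ b : ℤˣ) : ℤ) : ℂ) := by
  have hq : (q.totient : ℂ) ≠ 0 := by
    have : 0 < q.totient := Nat.totient_pos.2 (NeZero.pos q)
    exact_mod_cast this.ne'
  have h1 : ∀ χ : DirichletCharacter ℂ q, tau ψ χ * χ (b : ZMod q) =
      (∑ a : (ZMod q)ˣ, (((ψ a : ℤˣ) : ℤ) : ℂ) * (χ ((a : ZMod q)⁻¹) * χ (b : ZMod q))) /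
        (q.totient : ℂ) := by
    intro χ
    unfold tau
    rw [div_mul_eq_mul_div, Finset.sum_mul]
    congr 1
    refine Finset.sum_congr rfl fun a _ => ?_
    rw [conj_eq, mul_assoc]
  simp only [h1]
  rw [← Finset.sum_div, Finset.sum_comm, div_eq_iff hq]
  have h2 : ∀ a : (ZMod q)ˣ, ∑ χ : DirichletCharacter ℂ q,
      (((ψ a : ℤˣ) : ℤ) : ℂ) * (χ ((a : ZMod q)⁻¹) * χ (b : ZMod q)) =
      if a = b then (((ψ b : ℤˣ) : ℤ) : ℂ) * (q.totient : ℂ) else 0 := by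
    intro a
    rw [← Finset.mul_sum, DirichletCharacter.sum_char_inv_mul_char_eq ℂ a.isUnit]
    by_cases hab : a = b
    · rw [if_pos hab, if_pos (congrArg _ hab), hab]
    · rw [if_neg hab, if_neg (fun h => hab (Units.ext h)), mul_zero]
  rw [Finset.sum_congr rfl fun a _ => h2 a, Finset.sum_ite_eq' Finset.univ b,
    if_pos (Finset.mem_univ b)]

theorem cast_inj {x y : ℤˣ} (h : (((x : ℤˣ) : ℤ) : ℂ) = (((y : ℤˣ) : ℤ) : ℂ)) : x = y :=
  Units.ext (by exact_mod_cast h)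

end SelectAux

open SelectAux

theorem exists_tau {q : ℕ} [NeZero q] (ψ : (ZMod q)ˣ → ℤˣ)
    (h : ∀ (φ : (ZMod q)ˣ →* ℤˣ) (s : ℤˣ), ∃ a, ψ a ≠ s * φ a) :
    ∃ χ : DirichletCharacter ℂ q, tau ψ χ ≠ 0 ∧ -(1 / 2) ≤ (tau ψ χ).re := by
  classical
  by_contra hno
  push Not at hno
  have hone : ∑ χ : DirichletCharacter ℂ q, (tau ψ χ).re = (((ψ 1 : ℤˣ) : ℤ) : ℝ) := by
    have h1 := congrArg Complex.re (inv ψ 1)
    simp only [Units.val_one, map_one, mul_one, Complex.re_sum] at h1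
    rw [h1]
    exact Complex.intCast_re _
  set S : Finset (DirichletCharacter ℂ q) := Finset.univ.filter fun χ => tau ψ χ ≠ 0 with hS
  have hsum : ∑ χ ∈ S, (tau ψ χ).re = (((ψ 1 : ℤˣ) : ℤ) : ℝ) := by
    rw [← hone]
    refine Finset.sum_subset (Finset.subset_univ _) fun χ _ hχ => ?_
    rw [hS, Finset.mem_filter] at hχ
    have : tau ψ χ = 0 := by
      by_contra h0
      exact hχ ⟨Finset.mem_univ _, h0⟩
    rw [this, Complex.zero_re]
  have hval : (((ψ 1 : ℤˣ) : ℤ) : ℝ) = 1 ∨ (((ψ 1 : ℤˣ) : ℤ) : ℝ) = -1 := by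
    rcases Int.units_eq_one_or (ψ 1) with h1 | h1
    · left
      rw [h1]
      simp
    · right
      rw [h1]
      simp
  have hne : S.Nonempty := by
    rw [Finset.nonempty_iff_ne_empty]
    intro h0
    rw [h0, Finset.sum_empty] at hsum
    rcases hval with h1 | h1
    · rw [h1] at hsum
      norm_num at hsum
    · rw [h1] at hsum
      norm_num at hsum
  have hlt : ∑ χ ∈ S, (tau ψ χ).re < ∑ _χ ∈ S, (-(1 / 2) : ℝ) :=
    Finset.sum_lt_sum_of_nonempty hne fun χ hχ => hno χ (Finset.mem_filter.1 hχ).2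
  rw [Finset.sum_const, nsmul_eq_mul, hsum] at hlt
  have hc1 : (1 : ℝ) ≤ S.card := by exact_mod_cast hne.card_pos
  have h1 : (((ψ 1 : ℤˣ) : ℤ) : ℝ) = -1 := by
    rcases hval with h1 | h1
    · rw [h1] at hlt
      nlinarith
    · exact h1
  rw [h1] at hlt
  have hc2 : (S.card : ℝ) < 2 := by linarith
  have hc3 : S.card = 1 := by
    have : S.card < 2 := by exact_mod_cast hc2
    have := hne.card_pos
    omega
  obtain ⟨χ₀, hχ₀⟩ := Finset.card_eq_one.1 hc3
  have hall : ∀ b : (ZMod q)ˣ, (((ψ b : ℤˣ) : ℤ) : ℂ) = tau ψ χ₀ * χ₀ (b : ZMod q) := by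
    intro b
    rw [← inv ψ b]
    refine Finset.sum_eq_single χ₀ (fun χ _ hχ => ?_) (fun h0 => absurd (Finset.mem_univ _) h0)
    have : tau ψ χ = 0 := by
      by_contra h0
      have h2 : χ ∈ S := Finset.mem_filter.2 ⟨Finset.mem_univ _, h0⟩
      rw [hχ₀, Finset.mem_singleton] at h2
      exact hχ h2
    rw [this, zero_mul]
  have htau : tau ψ χ₀ = -1 := by
    have h2 := hall 1
    rw [Units.val_one, map_one, mul_one] at h2
    rw [← h2]
    have h3 : ((ψ 1 : ℤˣ) : ℤ) = -1 := by exact_mod_cast h1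
    rw [h3]
    simp
  have hχ : ∀ b : (ZMod q)ˣ, χ₀ (b : ZMod q) = (((-ψ b : ℤˣ) : ℤ) : ℂ) := by
    intro b
    have h2 := hall b
    rw [htau] at h2
    rw [Units.val_neg, Int.cast_neg, h2]
    ring
  let φ : (ZMod q)ˣ →* ℤˣ :=
    { toFun := fun b => -ψ b
      map_one' := by
        apply SelectAux.cast_inj
        rw [← hχ 1, Units.val_one, map_one]
        simp
      map_mul' := by
        intro x y
        apply SelectAux.cast_inj
        rw [← hχ (x * y), Units.val_mul, map_mul, hχ x, hχ y, Units.val_mul, Int.cast_mul] }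
  obtain ⟨a, ha⟩ := h φ (-1)
  apply ha
  show ψ a = -1 * -ψ a
  simp

end Pool.Agent.Lib.P4a7640S
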