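import Mathlib
import Pool.Agent.Lib.P4a7640S.ZetaA
import Pool.Agent.Lib.P4a7640L.MertensB

/-!
# The trivial bound of the mass

Module P4a7640S.Triv (1.2 h). Imports are black boxes.

`1 - Re z p ≤ 2`, and `∑_{p ∈ Tp c N} 1/p ≤ log c + o(1)` (Mertens). In the library: `P4a7640.Mertens`
(Pool/Agent/Lib/P4a7640/Mertens.lean) has sums of `1/p` over windows `(y, N]`; or directly from `Sp_diff`: for `A ≥ 1`
and `κ = A^2 c`, `p ∈ Tp c N`: `(exp (-1/A) - exp (-A))/p ≤ p^(-1-η) - p^(-1-κη)`, `η = 1/(A log N)`, gives only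
`(exp (-1/A) - exp (-A))⁻¹ (log c + 2 log A)`; the exact form needs Mertens' second theorem (library).
-/

open Finset Filter Topology
open Pool.Agent.Lib.P4a7640

namespace Pool.Agent.Lib.P4a7640S

theorem mass_triv (z : ℕ → ℂ) (hz : ∀ p, ‖z p‖ ≤ 1) : MassB atTop z 2 0 := by
  intro c hc δ hδ
  obtain ⟨C, hC0, hC⟩ := P4a7640L.mertens_upper
  have hc0 : (0:ℝ) < c := by exact_mod_cast hc
  have hlogc : 0 ≤ Real.log c := Real.log_nonneg (by exact_mod_cast hc)
  have hlim : Tendsto (fun N : ℕ => Real.log (N:ℝ)) atTop atTop :=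
    Real.tendsto_log_atTop.comp tendsto_natCast_atTop_atTop
  have hlim2 : Tendsto (fun N : ℕ => Real.log (Real.log (N:ℝ))) atTop atTop :=
    Real.tendsto_log_atTop.comp hlim
  filter_upwards [hlim2.eventually_ge_atTop (Real.log c), hlim.eventually_ge_atTop 1,
    hlim.eventually_ge_atTop (2 * C * c / δ)] with N h1 h2 h3
  have hlogN : 0 < Real.log N := by linarith
  have hkey := hC (Real.log (Real.log N) - Real.log c) (Real.log (Real.log N)) (by linarith) (by linarith)
    (Tp c N) (by
      intro p hp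
      unfold Tp at hp
      rw [Finset.mem_filter, Finset.mem_Icc] at hp
      obtain ⟨⟨_, hpN⟩, hpp, hpc⟩ := hp
      have hp0 : (0:ℝ) < p := by exact_mod_cast hpp.pos
      have hlogp : 0 < Real.log p := Real.log_pos (by exact_mod_cast hpp.one_lt)
      have hle : Real.log p ≤ Real.log N := Real.log_le_log hp0 (by exact_mod_cast hpN)
      have hN0 : (0:ℝ) < N := lt_of_lt_of_le hp0 (by exact_mod_cast hpN)
      have hlt : Real.log N ≤ c * Real.log p := by
        rw [← Real.log_pow]
        exact Real.log_le_log hN0 (by exact_mod_cast hpc.le)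
      refine ⟨hpp, ?_, ?_⟩
      · unfold P4a7640L.ll
        have h4 : Real.log (Real.log N) ≤ Real.log (c * Real.log p) := Real.log_le_log hlogN hlt
        rw [Real.log_mul hc0.ne' hlogp.ne'] at h4
        linarith
      · unfold P4a7640L.ll
        exact Real.log_le_log hlogp hle)
  have h5 : Real.exp (-(Real.log (Real.log N) - Real.log c)) = c / Real.log N := by
    rw [neg_sub, Real.exp_sub, Real.exp_log hc0, Real.exp_log hlogN]
  rw [h5] at hkey
  have h6 : ∑ p ∈ Tp c N, (1 - (z p).re) / (p:ℝ) ≤ ∑ p ∈ Tp c N, 2 * ((1:ℝ) / p) := by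
    refine Finset.sum_le_sum fun p _ => ?_
    have h7 : -1 ≤ (z p).re := by
      have := Complex.abs_re_le_norm (z p)
      have h8 := (abs_le.1 (this.trans (hz p))).1
      exact h8
    rw [mul_one_div]
    exact div_le_div_of_nonneg_right (by linarith) (Nat.cast_nonneg p)
  rw [← Finset.mul_sum] at h6
  have h9 : 2 * (C * (c / Real.log N)) ≤ δ := by
    rw [div_le_iff₀ hδ] at h3
    rw [show 2 * (C * (c / Real.log N)) = 2 * C * c / Real.log N by ring, div_le_iff₀ hlogN]
    linarith
  linarith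

end Pool.Agent.Lib.P4a7640S
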