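import Mathlib
import Pool.Agent.Lib.P4a7640S.DmA
import Pool.Agent.Lib.P4a7640S.Tails

/-!
# The mass of a window on which the smooth mean is small

Module P4a7640S.WinMass (2 h). Imports are black boxes.

`κ = 1 + s`, `s = δ/8`. Everything is uniform in `y` (`1 ≤ y`, `R y ≤ Y`): `η = exp y/log N ≤ exp Y/log N → 0`,
`n = ⌊(R-1) y/log κ⌋₊ ≤ Y/log κ` (finitely many values), `c = ⌈exp (R y)⌉₊ ≤ exp Y + 1` (finitely many values);
`κ^n η ≤ exp (R y)/log N ≤ c/log N`. Put `d p = p^(-1-η) - p^(-1-κ^n η) ≥ 0`.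
Upper bound: `∑_all p (1 - Re z p) d p ≤ ∑_{Tp c N} (1 - Re z p)/p + 2 ∑_{p ∉ Tp c N} d p`; for `p^c ≤ N`:
`d p ≤ κ^n η log p/p ≤ x'/p` with `x' = (c/log N) log p ∈ [0,1]`, `x' ≤ 8 (exp (-x') - exp (-2x'))`, so this part is
at most `8 (Sp η' - Sp (2 η')) ≤ 8`, `η' = c/log N` (`Sp_diff`, `κ = 2`, `log 2 < 1`); for `p > N`:
`d p ≤ p^(-1-η) ≤ p^(-1-e/log N) ≤ 2 (p^(-1-(e/2)/log N) - p^(-1-e/log N))` (`e = exp 1 > 2`), at most `2`.
Lower bound: `∑ d p = Sp η - Sp (κ^n η) ≥ n log κ - 1/2`, and `Re ∑ z p d p ≤ n (s δ + 3 s^2)` by telescoping and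
`Dm_diff` (the points `κ^j η`, `j < n`, are `exp t/log N` with `t ∈ [y, R y]`). With `s ≤ log κ + s^2`,
`log κ ≥ s/2`: `s δ + 3 s^2 ≤ (δ + 8 s) log κ ≤ 2 δ log κ`. So
`∑_{Tp} ≥ n log κ (1 - 2 δ) - 1/2 - 20 ≥ ((R-1) y - log κ)(1 - 2 δ) - 20.5 ≥ (R-1) y (1 - 2 δ) - 22`.
-/

open Finset Filter Topology
open Pool.Agent.Lib.P4a7640

namespace Pool.Agent.Lib.P4a7640S

namespace WinMassAux

open TailsAux

theorem pr_one (p : Nat.Primes) : (1:ℝ) ≤ (p:ℝ) := by exact_mod_cast p.2.one_lt.le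

theorem summ_z {z : ℕ → ℂ} (hz : ∀ p, ‖z p‖ ≤ 1) {a b : ℝ} (ha : 0 < a) (hb : 0 < b) :
    Summable fun p : Nat.Primes => z p * (((p:ℝ) ^ (-1 - a) - (p:ℝ) ^ (-1 - b) : ℝ) : ℂ) := by
  apply Summable.of_norm_bounded ((summable_Sp ha).add (summable_Sp hb))
  intro p
  rw [norm_mul, Complex.norm_real, Real.norm_eq_abs]
  have h1 : 0 ≤ (p:ℝ) ^ (-1 - a) := by positivity
  have h2 : 0 ≤ (p:ℝ) ^ (-1 - b) := by positivity
  have h3 : |(p:ℝ) ^ (-1 - a) - (p:ℝ) ^ (-1 - b)| ≤ (p:ℝ) ^ (-1 - a) + (p:ℝ) ^ (-1 - b) := by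
    rw [abs_le]
    constructor <;> linarith
  calc ‖z p‖ * |(p:ℝ) ^ (-1 - a) - (p:ℝ) ^ (-1 - b)|
      ≤ 1 * ((p:ℝ) ^ (-1 - a) + (p:ℝ) ^ (-1 - b)) :=
        mul_le_mul (hz p) h3 (abs_nonneg _) zero_le_one
    _ = _ := one_mul _

theorem tele {η₀ : ℝ} (hD : ∀ η : ℝ, 0 < η → η < η₀ → ∀ κ : ℝ, 1 ≤ κ →
    ∀ z : ℕ → ℂ, (∀ p, ‖z p‖ ≤ 1) →
      ‖∑' p : Nat.Primes, z p * (((p:ℝ) ^ (-1 - η) - (p:ℝ) ^ (-1 - κ * η) : ℝ) : ℂ) -
        ((κ - 1 : ℝ) : ℂ) * Dm z η‖ ≤ 3 * (κ - 1) ^ 2) {z : ℕ → ℂ} (hz : ∀ p, ‖z p‖ ≤ 1)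
    {η κ δ : ℝ} (hη : 0 < η) (hκ : 1 ≤ κ) (n : ℕ) (hn : κ ^ n * η < η₀)
    (hδ : ∀ j < n, (Dm z (κ ^ j * η)).re ≤ δ) :
    (∑' p : Nat.Primes, z p * (((p:ℝ) ^ (-1 - η) - (p:ℝ) ^ (-1 - κ ^ n * η) : ℝ) : ℂ)).re ≤
      n * ((κ - 1) * δ + 3 * (κ - 1) ^ 2) := by
  induction n with
  | zero => simp
  | succ n ih =>
    have hκ0 : 0 < κ := by linarith
    have hκn : κ ^ n * η ≤ κ ^ (n + 1) * η :=
      mul_le_mul_of_nonneg_right (pow_le_pow_right₀ hκ (by omega)) hη.le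
    have h1 := ih (by linarith) (fun j hj => hδ j (by omega))
    have hpos : 0 < κ ^ n * η := by positivity
    have hpos' : 0 < κ ^ (n + 1) * η := by positivity
    have h2 := hD (κ ^ n * η) hpos (by linarith) κ hκ z hz
    have e : κ * (κ ^ n * η) = κ ^ (n + 1) * η := by ring
    rw [e] at h2
    have hsplit : ∑' p : Nat.Primes,
        z p * (((p:ℝ) ^ (-1 - η) - (p:ℝ) ^ (-1 - κ ^ (n + 1) * η) : ℝ) : ℂ) =
        ∑' p : Nat.Primes, z p * (((p:ℝ) ^ (-1 - η) - (p:ℝ) ^ (-1 - κ ^ n * η) : ℝ) : ℂ) +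
        ∑' p : Nat.Primes,
          z p * (((p:ℝ) ^ (-1 - κ ^ n * η) - (p:ℝ) ^ (-1 - κ ^ (n + 1) * η) : ℝ) : ℂ) := by
      rw [← (summ_z hz hη hpos).tsum_add (summ_z hz hpos hpos')]
      congr 1
      ext p
      rw [← mul_add, ← Complex.ofReal_add]
      congr 2
      ring
    rw [hsplit, Complex.add_re]
    have h3 := (Complex.re_le_norm _).trans h2
    rw [Complex.sub_re, Complex.re_ofReal_mul] at h3
    have h4 := hδ n (by omega)
    have h5 : (κ - 1) * (Dm z (κ ^ n * η)).re ≤ (κ - 1) * δ :=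
      mul_le_mul_of_nonneg_left h4 (by linarith)
    rw [Nat.cast_succ]
    linarith

theorem sum_Tp (c N : ℕ) (a : ℕ → ℝ) :
    ∑' p : Nat.Primes, (if (p:ℕ) ∈ Tp c N then a p else 0) = ∑ p ∈ Tp c N, a p := by
  have h1 : ∑' p : Nat.Primes, (if (p:ℕ) ∈ Tp c N then a p else 0) =
      ∑' n : ℕ, Set.indicator {p : ℕ | p.Prime} (fun n => if n ∈ Tp c N then a n else 0) n :=
    tsum_subtype {p : ℕ | p.Prime} (fun n => if n ∈ Tp c N then a n else 0)
  rw [h1, tsum_eq_sum (s := Tp c N)]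
  · apply sum_congr rfl
    intro p hp
    have hpp : p.Prime := by
      rw [Tp, mem_filter] at hp
      exact hp.2.1
    rw [Set.indicator_of_mem (show p ∈ {p : ℕ | p.Prime} from hpp), if_pos hp]
  · intro p hp
    by_cases hpp : p.Prime
    · rw [Set.indicator_of_mem (show p ∈ {p : ℕ | p.Prime} from hpp), if_neg hp]
    · rw [Set.indicator_of_notMem (show p ∉ {p : ℕ | p.Prime} from hpp)]

theorem summ_Tp (c N : ℕ) (a : ℕ → ℝ) :
    Summable fun p : Nat.Primes => (if (p:ℕ) ∈ Tp c N then a p else 0) := by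
  have hfin : {p : Nat.Primes | (p:ℕ) ∈ Tp c N}.Finite :=
    Set.Finite.preimage (f := fun p : Nat.Primes => (p:ℕ)) (fun a _ b _ h => Subtype.ext h)
      (Tp c N).finite_toSet
  refine summable_of_finite_support (hfin.subset ?_)
  intro p hp
  by_contra h
  exact hp (if_neg h)

end WinMassAux

open WinMassAux TailsAux

theorem win_mass {δ R : ℝ} (hδ0 : 0 < δ) (hδ : δ ≤ 1 / 4) (hR : 1 ≤ R) (Y : ℝ) :
    ∀ᶠ N : ℕ in atTop, ∀ z : ℕ → ℂ, (∀ p, ‖z p‖ ≤ 1) → ∀ y : ℝ, 1 ≤ y → R * y ≤ Y →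
      (∀ t : ℝ, y ≤ t → t ≤ R * y → (Dm z (Real.exp t / Real.log N)).re ≤ δ) →
      (R - 1) * y * (1 - 2 * δ) - 22 ≤
        ∑ p ∈ Tp ⌈Real.exp (R * y)⌉₊ N, (1 - (z p).re) / (p:ℝ) := by
  obtain ⟨η₀, hη₀, hD⟩ := Dm_diff
  set s : ℝ := δ / 8 with hs
  set κ : ℝ := 1 + s with hκ
  have hs0 : 0 < s := by positivity
  have hs1 : s ≤ 1 / 32 := by rw [hs]; linarith
  have hκ1 : 1 < κ := by rw [hκ]; linarith
  have hκ0 : 0 < κ := by linarith
  have hlogκ : 0 < Real.log κ := Real.log_pos hκ1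
  set n0 : ℕ := ⌊Y / Real.log κ⌋₊ with hn0
  -- uniform statements for small η
  have hA : ∀ᶠ η in 𝓝[>] (0:ℝ), ∀ n ∈ range (n0 + 1),
      (n : ℝ) * Real.log κ - 1 / 2 ≤ Sp η - Sp (κ ^ n * η) := by
    rw [Filter.eventually_all_finset]
    intro n _
    rcases Nat.eq_zero_or_pos n with h0 | h0
    · subst h0
      filter_upwards with η
      simp
    · have h1 : 1 < κ ^ n := one_lt_pow₀ hκ1 (by omega)
      have h2 := Sp_diff h1
      rw [Real.log_pow] at h2
      have h3 := h2.eventually_const_lt (show (n:ℝ) * Real.log κ - 1 / 2 < n * Real.log κ by linarith)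
      filter_upwards [h3] with η hη
      exact hη.le
  have hlog2 : Real.log 2 < 1 := by
    have := Real.log_two_lt_d9
    linarith
  have hB : ∀ᶠ η in 𝓝[>] (0:ℝ), Sp η - Sp (2 * η) < 1 :=
    (Sp_diff (κ := 2) (by norm_num)).eventually_lt_const hlog2
  obtain ⟨η₁, hη₁, hAB⟩ := mem_nhdsGT_iff_exists_Ioo_subset.1 (hA.and hB)
  have hη₁0 : (0:ℝ) < η₁ := hη₁
  have hA' : ∀ η : ℝ, 0 < η → η < η₁ → ∀ n ∈ range (n0 + 1),
      (n : ℝ) * Real.log κ - 1 / 2 ≤ Sp η - Sp (κ ^ n * η) := fun η h1 h2 => (hAB ⟨h1, h2⟩).1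
  have hB' : ∀ η : ℝ, 0 < η → η < η₁ → Sp η - Sp (2 * η) < 1 := fun η h1 h2 => (hAB ⟨h1, h2⟩).2
  have hlogT : Tendsto (fun N : ℕ => Real.log N) atTop atTop :=
    Real.tendsto_log_atTop.comp tendsto_natCast_atTop_atTop
  have hlim : Tendsto (fun N : ℕ => (Real.exp Y + 1) / Real.log N) atTop (𝓝 0) :=
    hlogT.const_div_atTop _
  filter_upwards [hlim.eventually_lt_const hη₀, hlim.eventually_lt_const hη₁0,
    hlogT.eventually_gt_atTop 0, eventually_ge_atTop 1] with N hN0 hN1 hL hN z hz y hy hRy hsm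
  have hNr : (0:ℝ) < N := by exact_mod_cast hN
  set L := Real.log (N:ℝ) with hLdef
  set lam := Real.exp y with hlam
  set η := lam / L with hη
  have hlam2 : 2 ≤ lam := by
    have := Real.add_one_le_exp y
    linarith
  have hη0 : 0 < η := by positivity
  have hRy0 : 0 ≤ (R - 1) * y := mul_nonneg (by linarith) (by linarith)
  set n : ℕ := ⌊(R - 1) * y / Real.log κ⌋₊ with hn
  have hnle : (n:ℝ) * Real.log κ ≤ (R - 1) * y := by
    have := Nat.floor_le (div_nonneg hRy0 hlogκ.le)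
    rwa [le_div_iff₀ hlogκ] at this
  have hnge : (R - 1) * y - Real.log κ ≤ (n:ℝ) * Real.log κ := by
    have := Nat.lt_floor_add_one ((R - 1) * y / Real.log κ)
    rw [div_lt_iff₀ hlogκ] at this
    have h1 : ((⌊(R - 1) * y / Real.log κ⌋₊ : ℝ) + 1) * Real.log κ =
      (n:ℝ) * Real.log κ + Real.log κ := by rw [hn]; ring
    linarith
  have hnn0 : n ≤ n0 := by
    rw [hn, hn0]
    apply Nat.floor_le_floor
    apply div_le_div_of_nonneg_right _ hlogκ.le
    nlinarith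
  have hκn : κ ^ n * lam ≤ Real.exp (R * y) := by
    have h1 : κ ^ n = Real.exp ((n:ℝ) * Real.log κ) := by
      rw [Real.exp_nat_mul, Real.exp_log hκ0]
    rw [h1, hlam, ← Real.exp_add]
    apply Real.exp_le_exp.2
    linarith
  have hexpY : Real.exp (R * y) ≤ Real.exp Y := Real.exp_le_exp.2 hRy
  set c : ℕ := ⌈Real.exp (R * y)⌉₊ with hc
  have hcge : Real.exp (R * y) ≤ c := Nat.le_ceil _
  have hcle : (c:ℝ) ≤ Real.exp Y + 1 := by
    have := Nat.ceil_lt_add_one (Real.exp_pos (R * y)).le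
    linarith
  have hc1 : (1:ℝ) ≤ c := by
    have : 1 ≤ Real.exp (R * y) := by
      apply Real.one_le_exp
      nlinarith
    linarith
  have hc0 : (0:ℝ) < c := by linarith
  -- nonnegativity of the right side
  have hnonneg : ∀ p : ℕ, 0 ≤ 1 - (z p).re := by
    intro p
    have := (Complex.re_le_norm (z p)).trans (hz p)
    linarith
  have hle2 : ∀ p : ℕ, 1 - (z p).re ≤ 2 := by
    intro p
    have h1 := (Complex.abs_re_le_norm (z p)).trans (hz p)
    have h2 := (abs_le.1 h1).1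
    linarith
  have hlogκs : Real.log κ ≤ s := by
    have := Real.log_le_sub_one_of_pos hκ0
    rw [hκ] at this ⊢
    linarith
  have hlogκl : s / (1 + s) ≤ Real.log κ := by
    have h1 := Real.one_sub_inv_le_log_of_pos hκ0
    have h2 : 1 - κ⁻¹ = s / (1 + s) := by
      rw [hκ]
      field_simp
      ring
    linarith
  rcases Nat.eq_zero_or_pos n with hn0' | hnpos
  · rw [hn0', Nat.cast_zero, zero_mul] at hnge
    have h1 : 0 ≤ ∑ p ∈ Tp c N, (1 - (z p).re) / (p:ℝ) :=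
      sum_nonneg (fun p _ => div_nonneg (hnonneg p) (Nat.cast_nonneg p))
    have h2 : (R - 1) * y * (1 - 2 * δ) ≤ (R - 1) * y * 1 :=
      mul_le_mul_of_nonneg_left (by linarith) hRy0
    linarith
  set K : ℝ := κ ^ n with hK
  have hK1 : 1 < K := one_lt_pow₀ hκ1 (by omega)
  have hK0 : 0 < K := by linarith
  have hKη0 : 0 < K * η := by positivity
  have hKη : K * η ≤ Real.exp (R * y) / L := by
    rw [hη, ← mul_div_assoc]
    exact div_le_div_of_nonneg_right hκn hL.le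
  have hsmall : ∀ a : ℝ, a ≤ Real.exp Y + 1 → a / L ≤ (Real.exp Y + 1) / L := fun a ha =>
    div_le_div_of_nonneg_right ha hL.le
  have hKη₀ : K * η < η₀ := by
    refine (hKη.trans (hsmall _ (by linarith))).trans_lt hN0
  have hηK : η ≤ K * η := by nlinarith
  have hlamRy : lam ≤ Real.exp (R * y) := by
    rw [hlam]
    apply Real.exp_le_exp.2
    nlinarith
  have hη₁' : η < η₁ := (hsmall lam (by linarith)).trans_lt hN1
  -- the lower bound
  have hlow := hA' η hη0 hη₁' n (mem_range.2 (by omega))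
  have hre := tele hD hz hη0 hκ1.le n hKη₀ (δ := δ) (by
    intro j hj
    have h1 : κ ^ j * η = Real.exp (y + j * Real.log κ) / L := by
      rw [hη, ← mul_div_assoc, Real.exp_add, Real.exp_nat_mul, Real.exp_log hκ0, mul_comm]
    rw [h1]
    apply hsm
    · have : 0 ≤ (j:ℝ) * Real.log κ := by positivity
      linarith
    · have h2 : (j:ℝ) * Real.log κ ≤ n * Real.log κ := by
        apply mul_le_mul_of_nonneg_right _ hlogκ.le
        exact_mod_cast hj.le
      linarith)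
  have hκs : κ - 1 = s := by rw [hκ]; ring
  rw [hκs] at hre
  -- summability
  have hsη := summable_Sp hη0
  have hsK := summable_Sp hKη0
  set d : Nat.Primes → ℝ := fun p => (p:ℝ) ^ (-1 - η) - (p:ℝ) ^ (-1 - K * η) with hd
  have hdsum : Summable d := hsη.sub hsK
  have hd0 : ∀ p, 0 ≤ d p := by
    intro p
    have : (p:ℝ) ^ (-1 - K * η) ≤ (p:ℝ) ^ (-1 - η) :=
      Real.rpow_le_rpow_of_exponent_le (pr_one p) (by linarith)
    rw [hd]
    simp only
    linarith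
  have hzd := summ_z hz hη0 hKη0
  have hre2 : (∑' p : Nat.Primes, z p * ((d p : ℝ) : ℂ)).re = ∑' p : Nat.Primes, (z p).re * d p := by
    rw [Complex.re_tsum hzd]
    congr 1
    ext p
    rw [Complex.re_mul_ofReal]
  have hzdre : Summable fun p : Nat.Primes => (z p).re * d p := by
    have h1 := (Complex.hasSum_re hzd.hasSum).summable
    refine h1.congr ?_
    intro p
    rw [Complex.re_mul_ofReal]
  have hdtot : ∑' p : Nat.Primes, d p = Sp η - Sp (K * η) := hsη.tsum_sub hsK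
  have hmainlow : (n:ℝ) * Real.log κ - 1 / 2 - n * (s * δ + 3 * s ^ 2) ≤
      ∑' p : Nat.Primes, (1 - (z p).re) * d p := by
    have h1 : ∑' p : Nat.Primes, (1 - (z p).re) * d p =
        ∑' p : Nat.Primes, d p - ∑' p : Nat.Primes, (z p).re * d p := by
      rw [← hdsum.tsum_sub hzdre]
      congr 1
      ext p
      ring
    rw [h1, hdtot, ← hre2]
    have h2 : (∑' p : Nat.Primes, z p * ((d p : ℝ) : ℂ)).re ≤ n * (s * δ + 3 * s ^ 2) := hre
    linarith
  -- the upper bound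
  have hcL0 : 0 < (c:ℝ) / L := by positivity
  have hcL1 : (c:ℝ) / L < η₁ := (hsmall _ hcle).trans_lt hN1
  have hlL0 : 0 < lam / 2 / L := by positivity
  have hlL1 : lam / 2 / L < η₁ := by
    refine (hsmall _ ?_).trans_lt hN1
    linarith
  have sA : Summable fun p : Nat.Primes => (p:ℝ) ^ (-1 - c / L) - (p:ℝ) ^ (-1 - 2 * (c / L)) :=
    (summable_Sp hcL0).sub (summable_Sp (by linarith))
  have sB : Summable fun p : Nat.Primes =>
      (p:ℝ) ^ (-1 - lam / 2 / L) - (p:ℝ) ^ (-1 - 2 * (lam / 2 / L)) :=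
    (summable_Sp hlL0).sub (summable_Sp (by linarith))
  have hterm : ∀ p : Nat.Primes, (1 - (z p).re) * d p ≤
      (if (p:ℕ) ∈ Tp c N then (1 - (z p).re) / (p:ℝ) else 0) +
      (16 * ((p:ℝ) ^ (-1 - c / L) - (p:ℝ) ^ (-1 - 2 * (c / L))) +
      4 * ((p:ℝ) ^ (-1 - lam / 2 / L) - (p:ℝ) ^ (-1 - 2 * (lam / 2 / L)))) := by
    intro p
    have hp1 := pr_one p
    have hp0 : (0:ℝ) < (p:ℝ) := by linarith
    have hl0 : 0 ≤ Real.log p := Real.log_nonneg hp1
    have hpi : 0 ≤ (p:ℝ)⁻¹ := inv_nonneg.2 hp0.le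
    have dA := mul_nonneg hpi (dpos hl0 hcL0.le)
    have dB := mul_nonneg hpi (dpos hl0 hlL0.le)
    have eA : (p:ℝ) ^ (-1 - c / L) - (p:ℝ) ^ (-1 - 2 * (c / L)) =
        (p:ℝ)⁻¹ * (Real.exp (-(c / L * Real.log p)) - Real.exp (-(2 * (c / L) * Real.log p))) := by
      rw [rp hp0, rp hp0]
      ring
    have eB : (p:ℝ) ^ (-1 - lam / 2 / L) - (p:ℝ) ^ (-1 - 2 * (lam / 2 / L)) =
        (p:ℝ)⁻¹ * (Real.exp (-(lam / 2 / L * Real.log p)) -
          Real.exp (-(2 * (lam / 2 / L) * Real.log p))) := by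
      rw [rp hp0, rp hp0]
      ring
    have ed : d p = (p:ℝ)⁻¹ * (Real.exp (-(lam / L * Real.log p)) -
        Real.exp (-(K * (lam / L) * Real.log p))) := by
      rw [hd]
      simp only
      rw [rp hp0, rp hp0, hη]
      ring
    rw [eA, eB]
    set X := (p:ℝ)⁻¹ * (Real.exp (-(c / L * Real.log p)) -
      Real.exp (-(2 * (c / L) * Real.log p))) with hX
    set W := (p:ℝ)⁻¹ * (Real.exp (-(lam / 2 / L * Real.log p)) -
          Real.exp (-(2 * (lam / 2 / L) * Real.log p))) with hW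
    split_ifs with hT
    · have h1 : d p ≤ (p:ℝ)⁻¹ := by
        have h2 : (p:ℝ) ^ (-1 - η) ≤ (p:ℝ) ^ (-1:ℝ) :=
          Real.rpow_le_rpow_of_exponent_le hp1 (by linarith)
        have h3 : 0 ≤ (p:ℝ) ^ (-1 - K * η) := by positivity
        rw [Real.rpow_neg_one] at h2
        rw [hd]
        simp only
        linarith
      have h2 : (1 - (z p).re) * d p ≤ (1 - (z p).re) * (p:ℝ)⁻¹ :=
        mul_le_mul_of_nonneg_left h1 (hnonneg p)
      have h3 : (1 - (z p).re) / (p:ℝ) = (1 - (z p).re) * (p:ℝ)⁻¹ := by ring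
      rw [h3]
      linarith
    · have h0 : (1 - (z p).re) * d p ≤ 2 * d p := mul_le_mul_of_nonneg_right (hle2 p) (hd0 p)
      by_cases hpN : (p:ℕ) ≤ N
      · have hpc : (p:ℕ) ^ c ≤ N := by
          by_contra hcon
          apply hT
          rw [Tp, Finset.mem_filter, Finset.mem_Icc]
          exact ⟨⟨p.2.one_lt.le, hpN⟩, p.2, not_le.1 hcon⟩
        have hlc : (c:ℝ) * Real.log p ≤ L := by
          rw [← Real.log_pow, hLdef]
          apply Real.log_le_log (by positivity)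
          exact_mod_cast hpc
        have h3 := mul_le_mul_of_nonneg_left (caseA hl0 hL hc1 hK1 hlam2 hlc) hpi
        rw [← ed] at h3
        have h4 : (p:ℝ)⁻¹ * (8 * (K - 1) * (lam / c) * (Real.exp (-(c / L * Real.log p)) -
            Real.exp (-(2 * (c / L) * Real.log p)))) = (K - 1) * (lam / c) * (8 * X) := by
          rw [hX]
          ring
        rw [h4] at h3
        have h5 : (K - 1) * (lam / c) ≤ 1 := by
          rw [← mul_div_assoc, div_le_one hc0]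
          have : (K - 1) * lam ≤ K * lam := by nlinarith
          linarith
        have h6 : (K - 1) * (lam / c) * (8 * X) ≤ 1 * (8 * X) :=
          mul_le_mul_of_nonneg_right h5 (by linarith)
        linarith
      · have hlp : L ≤ Real.log p := by
          rw [hLdef]
          apply Real.log_le_log hNr
          exact_mod_cast (not_le.1 hpN).le
        have h3 := mul_le_mul_of_nonneg_left (caseB (κ := K) hL hlam2 hlp) hpi
        rw [← ed] at h3
        have h4 : (p:ℝ)⁻¹ * (2 * Real.exp (-lam / 2) * (Real.exp (-(lam / 2 / L * Real.log p)) -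
            Real.exp (-(2 * (lam / 2 / L) * Real.log p)))) = Real.exp (-lam / 2) * (2 * W) := by
          rw [hW]
          ring
        rw [h4] at h3
        have h5 : Real.exp (-lam / 2) ≤ 1 := Real.exp_le_one_iff.2 (by linarith)
        have h6 : Real.exp (-lam / 2) * (2 * W) ≤ 1 * (2 * W) :=
          mul_le_mul_of_nonneg_right h5 (by linarith)
        linarith
  have hup : ∑' p : Nat.Primes, (1 - (z p).re) * d p ≤
      ∑ p ∈ Tp c N, (1 - (z p).re) / (p:ℝ) + 20 := by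
    have hL1 : Summable fun p : Nat.Primes => (1 - (z p).re) * d p := by
      refine (hdsum.sub hzdre).congr ?_
      intro p
      ring
    have hS1 := summ_Tp c N (fun p => (1 - (z p).re) / (p:ℝ))
    have hS2 := (sA.mul_left 16).add (sB.mul_left 4)
    refine (hL1.tsum_le_tsum hterm (hS1.add hS2)).trans ?_
    rw [hS1.tsum_add hS2, sum_Tp c N (fun p => (1 - (z p).re) / (p:ℝ)),
      (sA.mul_left 16).tsum_add (sB.mul_left 4), tsum_mul_left, tsum_mul_left,
      (summable_Sp hcL0).tsum_sub (summable_Sp (by linarith)),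
      (summable_Sp hlL0).tsum_sub (summable_Sp (by linarith))]
    have h1 : Sp ((c:ℝ) / L) - Sp (2 * ((c:ℝ) / L)) < 1 := hB' _ hcL0 hcL1
    have h2 : Sp (lam / 2 / L) - Sp (2 * (lam / 2 / L)) < 1 := hB' _ hlL0 hlL1
    unfold Sp at h1 h2
    linarith
  -- conclusion
  have hkey : s * δ + 3 * s ^ 2 ≤ 2 * δ * Real.log κ := by
    have h1 : s * (32 / 33) ≤ s / (1 + s) := by
      rw [le_div_iff₀ (by linarith)]
      nlinarith
    have h2 : s * (32 / 33) ≤ Real.log κ := h1.trans hlogκl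
    have h3 : 2 * δ * (s * (32 / 33)) ≤ 2 * δ * Real.log κ :=
      mul_le_mul_of_nonneg_left h2 (by linarith)
    have h4 : 3 * s ^ 2 = 3 / 8 * (s * δ) := by rw [hs]; ring
    have h5 : 0 ≤ s * δ := by positivity
    nlinarith
  have h6 : (n:ℝ) * (s * δ + 3 * s ^ 2) ≤ n * (2 * δ * Real.log κ) :=
    mul_le_mul_of_nonneg_left hkey (Nat.cast_nonneg n)
  have h7 : ((R - 1) * y - Real.log κ) * (1 - 2 * δ) ≤ (n:ℝ) * Real.log κ * (1 - 2 * δ) :=
    mul_le_mul_of_nonneg_right hnge (by linarith)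
  have h8 : Real.log κ * (1 - 2 * δ) ≤ Real.log κ * 1 :=
    mul_le_mul_of_nonneg_left (by linarith) hlogκ.le
  nlinarith [h6, h7, h8, hup, hmainlow]

end Pool.Agent.Lib.P4a7640S
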