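import Mathlib
import Pool.Agent.Lib.P4a7640S.Main
import Pool.Agent.Lib.P4a7640S.Conc
import Pool.Agent.Lib.P4a7640S.MassD
import Pool.Agent.Lib.P4a7640S.WinMass
import Pool.Agent.Lib.P4a7640S.TauLim
import Pool.Agent.Lib.P4a7640S.Select
import Pool.Agent.Lib.P4a7640S.AperQ
import Pool.Agent.Lib.P4a7640S.Triv

/-!
# Corollaries of the structure theorem
-/

open Finset Filter Topology
open Pool.Agent.Lib.P4a7640 Pool.Agent.Lib.P4a7640C

namespace Pool.Agent.Lib.P4a7640S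

theorem MassB.mono {l : Filter ℕ} (hl : l ≤ atTop) {z : ℕ → ℂ} {b K : ℝ}
    (h : MassB atTop z b K) : MassB l z b K := fun c hc δ hδ => hl (h c hc δ hδ)

/-- an exponent between -/
theorem exists_exp {α x : ℝ} (hx : 1 ≤ x) (h : α * x < 1) :
    ∃ α' : ℝ, 0 < α' ∧ α < α' ∧ α' * x < 1 := by
  have hx0 : 0 < x := by linarith
  have h1 : α < 1 / x := by rwa [lt_div_iff₀ hx0]
  have h2 : max α 0 < 1 / x := max_lt h1 (by positivity)
  refine ⟨(max α 0 + 1 / x) / 2, ?_, ?_, ?_⟩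
  · have := le_max_right α 0
    have : 0 < 1 / x := by positivity
    linarith
  · have := le_max_left α 0
    linarith
  · have h3 : (max α 0 + 1 / x) / 2 < 1 / x := by linarith
    rwa [lt_div_iff₀ hx0] at h3

theorem corC_aux {α b K δ : ℝ} (hδ : 0 < δ) (hb0 : 0 ≤ b) (hb2 : b ≤ 2)
    (hα : α * (1 + 2 * b) < 1) :
    ∃ L₀ : ℕ, ∀ f g : ℕ → ℤˣ, (MultS fun n => f n * g n) → (Aperiodic fun n => f n * g n) →
      ∀ q : ℕ, 0 < q → ∀ (χ : DirichletCharacter ℂ q),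
      (∀ᶠ η in 𝓝[>] (0:ℝ), δ ≤ ‖Dm (ze (fun n => f n * g n) χ) η‖ ∧
        δ ≤ ‖Dm (ze (fun n => f n * g n) χ) η + 1‖) →
      ∀ l : Filter ℕ, l.NeBot → l ≤ atTop → MassB l (ze (fun n => f n * g n) χ) b K →
      ∀ J : Finset ℕ, L₀ ≤ J.card → Rich f g l J α := by
  obtain ⟨α', hα'0, hαα', hα'⟩ := exists_exp (by linarith) hα
  obtain ⟨L₁, hL₁⟩ := structure_thm (K := K) hα'0 hb0 hb2 hα' (le_refl (1:ℝ)) (half_pos hδ) 1
  obtain ⟨L₂, hL₂⟩ := rich_of_large hα'0 hαα'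
  refine ⟨max L₁ (max L₂ 1), ?_⟩
  intro f g hm ha q hq χ hD l hne hl hmass J hJ
  have hJ1 : L₁ ≤ J.card := (le_max_left _ _).trans hJ
  have hJ2 : L₂ ≤ J.card := ((le_max_left _ _).trans (le_max_right _ _)).trans hJ
  have hJ3 : 1 ≤ J.card := ((le_max_right _ _).trans (le_max_right _ _)).trans hJ
  apply hL₂ f g l J hJ2
  by_contra hcon
  have hcard := not_lt.1 hcon
  have hS := hL₁ f g hm ha (fun _ => q) (fun _ => hq) (fun _ => χ) l hl (fun _ => hmass) J hJ1 hcard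
  rw [eventually_nhdsWithin_iff] at hD
  obtain ⟨ρ, hρ, hD'⟩ := Metric.eventually_nhds_iff.1 hD
  have hlogN : Tendsto (fun N : ℕ => Real.log (N:ℝ)) l atTop :=
    (Real.tendsto_log_atTop.comp tendsto_natCast_atTop_atTop).mono_left hl
  have e1 : ∀ᶠ N : ℕ in l, (J.card:ℝ) / Real.log N < ρ := by
    have h1 : Tendsto (fun N : ℕ => (J.card:ℝ) / Real.log (N:ℝ)) l (𝓝 0) :=
      hlogN.const_div_atTop _
    exact h1.eventually (gt_mem_nhds hρ)
  have e2 : ∀ᶠ N : ℕ in l, 0 < Real.log (N:ℝ) := hlogN.eventually_gt_atTop 0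
  obtain ⟨N, hN1, hN2, hN3⟩ := (hS.and (e1.and e2)).exists
  obtain ⟨y, hy1, hy2, hy3⟩ := hN1
  rw [one_mul] at hy2
  have hJ0 : (0:ℝ) < J.card := by exact_mod_cast hJ3
  have hη0 : 0 < Real.exp y / Real.log N := by positivity
  have hη1 : Real.exp y / Real.log N < ρ := by
    refine lt_of_le_of_lt ?_ hN2
    apply div_le_div_of_nonneg_right _ hN3.le
    have := Real.exp_le_exp.2 hy2
    rwa [Real.exp_log hJ0] at this
  have hd : dist (Real.exp y / Real.log N) 0 < ρ := by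
    rw [Real.dist_eq, sub_zero, abs_of_pos hη0]
    exact hη1
  obtain ⟨k1, k2⟩ := hD' hd hη0
  rcases hy3 0 with h | h
  · have := h y le_rfl (by linarith)
    linarith
  · have := h y le_rfl (by linarith)
    linarith

/-- (C): the smooth means stay away from `0` and `-1` -/
theorem corC {α β δ : ℝ} (hδ : 0 < δ) (hβ1 : -1 ≤ β) (hβ : β ≤ 1) (hα : α * (3 - 2 * β) < 1) :
    ∃ L₀ : ℕ, ∀ f g : ℕ → ℤˣ, (MultS fun n => f n * g n) → (Aperiodic fun n => f n * g n) →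
      ∀ q : ℕ, 0 < q → ∀ (χ : DirichletCharacter ℂ q),
      (∀ᶠ η in 𝓝[>] (0:ℝ), δ ≤ ‖Dm (ze (fun n => f n * g n) χ) η‖ ∧
        δ ≤ ‖Dm (ze (fun n => f n * g n) χ) η + 1‖ ∧
        β ≤ (Dm (ze (fun n => f n * g n) χ) η).re) →
      ∀ l : Filter ℕ, l.NeBot → l ≤ atTop → ∀ J : Finset ℕ, L₀ ≤ J.card → Rich f g l J α := by
  rcases eq_or_lt_of_le hβ1 with hβe | hβl
  · obtain ⟨L₀, hL₀⟩ := corC_aux (α := α) (b := 2) (K := 0) hδ (by norm_num) le_rfl
      (by rw [← hβe] at hα; linarith)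
    refine ⟨L₀, fun f g hm ha q hq χ hD l hne hl J hJ => ?_⟩
    exact hL₀ f g hm ha q hq χ (hD.mono fun η h => ⟨h.1, h.2.1⟩) l hne hl
      (MassB.mono hl (mass_triv _ (norm_ze_le _ χ))) J hJ
  · obtain ⟨α', hα'0, hαα', hα'⟩ := exists_exp (by linarith) hα
    -- room for the exponent
    obtain ⟨ε, hε, hε1, hε2⟩ : ∃ ε : ℝ, 0 < ε ∧ ε ≤ 1 + β ∧ α' * (1 + 2 * (1 - β + ε)) < 1 := by
      have h1 : 0 < 1 - α' * (3 - 2 * β) := by linarith
      refine ⟨min (1 + β) ((1 - α' * (3 - 2 * β)) / (4 * α')), lt_min (by linarith) (by positivity),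
        min_le_left _ _, ?_⟩
      have h2 : min (1 + β) ((1 - α' * (3 - 2 * β)) / (4 * α')) ≤
          (1 - α' * (3 - 2 * β)) / (4 * α') := min_le_right _ _
      have h3 : α' * min (1 + β) ((1 - α' * (3 - 2 * β)) / (4 * α')) ≤
          (1 - α' * (3 - 2 * β)) / 4 := by
        refine (mul_le_mul_of_nonneg_left h2 hα'0.le).trans (le_of_eq ?_)
        field_simp
      nlinarith
    obtain ⟨K, hK⟩ := mass_of_D hβ1 hβ hε
    obtain ⟨L₀, hL₀⟩ := corC_aux (α := α) (b := 1 - β + ε) (K := K) hδ (by linarith) (by linarith)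
      (by
        have h4 : 0 ≤ 1 + 2 * (1 - β + ε) := by linarith
        have h5 : α * (1 + 2 * (1 - β + ε)) ≤ α' * (1 + 2 * (1 - β + ε)) :=
          mul_le_mul_of_nonneg_right hαα'.le h4
        linarith)
    refine ⟨L₀, fun f g hm ha q hq χ hD l hne hl J hJ => ?_⟩
    exact hL₀ f g hm ha q hq χ (hD.mono fun η h => ⟨h.1, h.2.1⟩) l hne hl
      (MassB.mono hl (hK _ (norm_ze_le _ χ) (hD.mono fun η h => h.2.2))) J hJ

/-- (K): the mass of the disagreement is at most `b log c + K` with `b < 1` -/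
theorem corK {α b K : ℝ} (hb0 : 0 ≤ b) (hb1 : b < 1) (hα : α * (1 + 2 * b) < 1) :
    ∃ L₀ : ℕ, ∀ f g : ℕ → ℤˣ, (MultS fun n => f n * g n) → (Aperiodic fun n => f n * g n) →
      ∀ q : ℕ, 0 < q → ∀ (χ : DirichletCharacter ℂ q),
      ∀ l : Filter ℕ, l.NeBot → l ≤ atTop → MassB l (ze (fun n => f n * g n) χ) b K →
      ∀ J : Finset ℕ, L₀ ≤ J.card → Rich f g l J α := by
  obtain ⟨α', hα'0, hαα', hα'⟩ := exists_exp (by linarith) hα
  set δ : ℝ := (1 - b) / 8 with hδ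
  have hδ0 : 0 < δ := by rw [hδ]; linarith
  have hδ4 : δ ≤ 1 / 4 := by rw [hδ]; linarith
  set R : ℝ := |K| + 25 + 4 / (1 - b) with hR
  have hb1' : 0 < 1 - b := by linarith
  have hRb : 4 ≤ R * (1 - b) := by
    have h1 : 4 / (1 - b) * (1 - b) = 4 := by field_simp
    have h2 : 0 ≤ (|K| + 25) * (1 - b) := by positivity
    rw [hR]
    nlinarith
  have hRK : |K| + 25 < R := by
    rw [hR]
    have : 0 < 4 / (1 - b) := by positivity
    linarith
  have hR1 : 1 ≤ R := by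
    have := abs_nonneg K
    linarith
  obtain ⟨L₁, hL₁⟩ := structure_thm (K := K) hα'0 hb0 (by linarith) hα' hR1 hδ0 1
  obtain ⟨L₂, hL₂⟩ := rich_of_large hα'0 hαα'
  refine ⟨max L₁ (max L₂ 1), ?_⟩
  intro f g hm ha q hq χ l hne hl hmass J hJ
  have hJ1 : L₁ ≤ J.card := (le_max_left _ _).trans hJ
  have hJ2 : L₂ ≤ J.card := ((le_max_left _ _).trans (le_max_right _ _)).trans hJ
  have hJ3 : 1 ≤ J.card := ((le_max_right _ _).trans (le_max_right _ _)).trans hJ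
  have hJ0 : (0:ℝ) < J.card := by exact_mod_cast hJ3
  apply hL₂ f g l J hJ2
  by_contra hcon
  have hcard := not_lt.1 hcon
  have hS := hL₁ f g hm ha (fun _ => q) (fun _ => hq) (fun _ => χ) l hl (fun _ => hmass) J hJ1 hcard
  have hW := (win_mass hδ0 hδ4 hR1 (Real.log J.card)).filter_mono hl
  have hM : ∀ᶠ N : ℕ in l, ∀ c ∈ range (J.card + 2), 1 ≤ c →
      ∑ p ∈ Tp c N, (1 - (ze (fun n => f n * g n) χ p).re) / (p:ℝ) ≤ b * Real.log c + K + 1 := by
    rw [eventually_all_finset]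
    intro c _
    by_cases hc : 1 ≤ c
    · filter_upwards [hmass c hc 1 one_pos] with N h _
      exact h
    · filter_upwards with N h
      exact absurd h hc
  obtain ⟨N, hN1, hN2, hN3⟩ := (hS.and (hW.and hM)).exists
  obtain ⟨y, hy1, hy2, hy3⟩ := hN1
  have hy0 : 1 ≤ y := hR1.trans hy1
  have hre : ∀ t : ℝ, y ≤ t → t ≤ R * y →
      (Dm (ze (fun n => f n * g n) χ) (Real.exp t / Real.log N)).re ≤ δ := by
    intro t ht1 ht2
    rcases hy3 0 with h | h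
    · exact (Complex.re_le_norm _).trans (h t ht1 ht2)
    · have h1 := (Complex.re_le_norm _).trans (h t ht1 ht2)
      rw [Complex.add_re, Complex.one_re] at h1
      linarith
  have k1 := hN2 _ (norm_ze_le _ χ) y hy0 hy2 hre
  have hRy : 0 ≤ R * y := by positivity
  have hexp1 : 1 ≤ Real.exp (R * y) := Real.one_le_exp hRy
  have hc1 : 1 ≤ ⌈Real.exp (R * y)⌉₊ := Nat.one_le_ceil_iff.2 (Real.exp_pos _)
  have hcJ : ⌈Real.exp (R * y)⌉₊ ∈ range (J.card + 2) := by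
    rw [mem_range]
    have h1 : Real.exp (R * y) ≤ J.card := by
      have := Real.exp_le_exp.2 hy2
      rwa [Real.exp_log hJ0] at this
    have h2 : ⌈Real.exp (R * y)⌉₊ ≤ J.card := Nat.ceil_le.2 h1
    omega
  have k2 := hN3 _ hcJ hc1
  have k3 : Real.log ((⌈Real.exp (R * y)⌉₊ : ℕ) : ℝ) ≤ R * y + 1 := by
    have h1 : ((⌈Real.exp (R * y)⌉₊ : ℕ) : ℝ) ≤ Real.exp (R * y) + 1 :=
      (Nat.ceil_lt_add_one (Real.exp_pos _).le).le
    have h2 : Real.exp (R * y) + 1 ≤ Real.exp (R * y + 1) := by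
      rw [Real.exp_add]
      have : 2 ≤ Real.exp 1 := by
        have := Real.add_one_le_exp (1:ℝ)
        linarith
      nlinarith
    have h3 : (0:ℝ) < ((⌈Real.exp (R * y)⌉₊ : ℕ) : ℝ) := by exact_mod_cast hc1
    have h4 := Real.log_le_log h3 (h1.trans h2)
    rwa [Real.log_exp] at h4
  have k4 : b * Real.log ((⌈Real.exp (R * y)⌉₊ : ℕ) : ℝ) ≤ b * (R * y + 1) :=
    mul_le_mul_of_nonneg_left k3 hb0
  have k5 : (R - 1) * y * (1 - 2 * δ) - 22 ≤ b * (R * y + 1) + K + 1 := by linarith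
  have hδe : 1 - 2 * δ = 3 / 4 + b / 4 := by rw [hδ]; ring
  rw [hδe] at k5
  have hKa := le_abs_self K
  -- (R-1) y (3/4 + b/4) - b R y ≥ y (3/4 R (1-b) - 1)
  have k6 : y * (3 / 4 * (R * (1 - b)) - 1) ≤ (R - 1) * y * (3 / 4 + b / 4) - b * (R * y) := by
    have h7 : 0 ≤ y * (1 / 4 - b / 4) := by
      apply mul_nonneg (by linarith) (by linarith)
    nlinarith
  have k7 : y * 2 ≤ y * (3 / 4 * (R * (1 - b)) - 1) :=
    mul_le_mul_of_nonneg_left (by linarith) (by linarith)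
  nlinarith

/-- (Q): congruence functions -/
theorem corQ {q : ℕ} [NeZero q] {α : ℝ} (hα : α < 1 / 4) :
    ∃ L₀ : ℕ, ∀ f g : ℕ → ℤˣ, (MultS fun n => f n * g n) → ∀ ψ : (ZMod q)ˣ → ℤˣ,
      (∀ p : ℕ, p.Prime → ∀ a : (ZMod q)ˣ, ((p:ℕ) : ZMod q) = (a : ZMod q) → f p * g p = ψ a) →
      (∀ (φ : (ZMod q)ˣ →* ℤˣ) (s : ℤˣ), ∃ a, ψ a ≠ s * φ a) →
      ∀ l : Filter ℕ, l.NeBot → l ≤ atTop → ∀ J : Finset ℕ, L₀ ≤ J.card → Rich f g l J α := by
  classical
  have hq : 0 < q := Nat.pos_of_ne_zero (NeZero.ne q)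
  have key : ∀ ψ : (ZMod q)ˣ → ℤˣ, ∃ L₀ : ℕ,
      (∀ (φ : (ZMod q)ˣ →* ℤˣ) (s : ℤˣ), ∃ a, ψ a ≠ s * φ a) →
      ∀ f g : ℕ → ℤˣ, (MultS fun n => f n * g n) →
      (∀ p : ℕ, p.Prime → ∀ a : (ZMod q)ˣ, ((p:ℕ) : ZMod q) = (a : ZMod q) → f p * g p = ψ a) →
      ∀ l : Filter ℕ, l.NeBot → l ≤ atTop → ∀ J : Finset ℕ, L₀ ≤ J.card → Rich f g l J α := by
    intro ψ
    by_cases h : ∀ (φ : (ZMod q)ˣ →* ℤˣ) (s : ℤˣ), ∃ a, ψ a ≠ s * φ a
    · obtain ⟨χ, hχ0, hχ1⟩ := exists_tau ψ h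
      set τ : ℂ := tau ψ χ with hτ
      have hτ1 : 0 < ‖τ + 1‖ := by
        rw [norm_pos_iff]
        intro h0
        have h1 : τ = -1 := by linear_combination h0
        rw [h1] at hχ1
        norm_num at hχ1
      have hτ0 : 0 < ‖τ‖ := norm_pos_iff.2 hχ0
      set ε : ℝ := (1 / 4 - α) with hε
      have hε0 : 0 < ε := by rw [hε]; linarith
      -- β = -1/2 - ε'
      set ε' : ℝ := min ε (1 / 2) with hε'
      have hε'0 : 0 < ε' := lt_min hε0 (by norm_num)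
      have hε'1 : ε' ≤ 1 / 2 := min_le_right _ _
      have hε'2 : ε' ≤ ε := min_le_left _ _
      obtain ⟨L₀, hL₀⟩ := corC (α := α) (β := -(1 / 2) - ε') (δ := min ‖τ‖ ‖τ + 1‖ / 2)
        (by have := lt_min hτ0 hτ1; linarith) (by linarith) (by linarith) (by
          have h1 : α ≤ 1 / 4 - ε' := by rw [hε] at hε'2; linarith
          have h2 : 3 - 2 * (-(1 / 2) - ε') = 4 + 2 * ε' := by ring
          rw [h2]
          nlinarith)
      refine ⟨L₀, fun _ f g hm hu l hne hl J hJ => ?_⟩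
      have ha : Aperiodic fun n => f n * g n :=
        aper_cong (fun n => f n * g n) ψ hu fun φ => by
          obtain ⟨a, ha⟩ := h φ 1
          exact ⟨a, by rwa [one_mul] at ha⟩
      refine hL₀ f g hm ha q hq χ ?_ l hne hl J hJ
      have hlim := Dm_lim (fun n => f n * g n) ψ hu χ
      have hmin : 0 < min (min ‖τ‖ ‖τ + 1‖ / 2) ε' := by
        have := lt_min hτ0 hτ1
        exact lt_min (by linarith) hε'0
      filter_upwards [(Metric.tendsto_nhds.1 hlim) _ hmin] with η hη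
      rw [dist_eq_norm] at hη
      have h1 : ‖Dm (ze (fun n => f n * g n) χ) η - τ‖ < min ‖τ‖ ‖τ + 1‖ / 2 :=
        hη.trans_le (min_le_left _ _)
      have h2 : ‖Dm (ze (fun n => f n * g n) χ) η - τ‖ < ε' := hη.trans_le (min_le_right _ _)
      refine ⟨?_, ?_, ?_⟩
      · have h3 : ‖τ‖ ≤ ‖Dm (ze (fun n => f n * g n) χ) η‖ +
            ‖Dm (ze (fun n => f n * g n) χ) η - τ‖ := by
          have := norm_sub_le (Dm (ze (fun n => f n * g n) χ) η)
            (Dm (ze (fun n => f n * g n) χ) η - τ)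
          simpa using this
        have h4 : min ‖τ‖ ‖τ + 1‖ ≤ ‖τ‖ := min_le_left _ _
        linarith
      · have h3 : ‖τ + 1‖ ≤ ‖Dm (ze (fun n => f n * g n) χ) η + 1‖ +
            ‖Dm (ze (fun n => f n * g n) χ) η - τ‖ := by
          have := norm_sub_le (Dm (ze (fun n => f n * g n) χ) η + 1)
            (Dm (ze (fun n => f n * g n) χ) η - τ)
          have h5 : Dm (ze (fun n => f n * g n) χ) η + 1 -
            (Dm (ze (fun n => f n * g n) χ) η - τ) = τ + 1 := by ring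
          rwa [h5] at this
        have h4 : min ‖τ‖ ‖τ + 1‖ ≤ ‖τ + 1‖ := min_le_right _ _
        linarith
      · have h3 : |(Dm (ze (fun n => f n * g n) χ) η - τ).re| ≤
            ‖Dm (ze (fun n => f n * g n) χ) η - τ‖ := Complex.abs_re_le_norm _
        have h4 := (abs_le.1 h3).1
        rw [Complex.sub_re] at h4
        linarith
    · exact ⟨0, fun h' => absurd h' h⟩
  choose L hL using key
  refine ⟨univ.sup L, fun f g hm ψ hu h l hne hl J hJ => ?_⟩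
  exact hL ψ h f g hm hu l hne hl J ((Finset.le_sup (f := L) (mem_univ ψ)).trans hJ)

end Pool.Agent.Lib.P4a7640S
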