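import Mathlib
import Pool.Agent.Lib.P4a7640S.WinMass

/-!
# No windows if the mass is small
-/

open Finset Filter Topology
open Pool.Agent.Lib.P4a7640

namespace Pool.Agent.Lib.P4a7640S

theorem no_window {b K : ℝ} (hb0 : 0 ≤ b) (hb1 : b < 1) :
    ∃ R δ : ℝ, 1 ≤ R ∧ 0 < δ ∧ δ ≤ 1 / 4 ∧ ∀ (L : ℕ), 1 ≤ L → ∀ z : ℕ → ℂ, (∀ p, ‖z p‖ ≤ 1) →
      ∀ l : Filter ℕ, l ≤ atTop → MassB l z b K → ∀ᶠ N : ℕ in l, ∀ y : ℝ, R ≤ y →
      R * y ≤ Real.log L →
      ¬ ((∀ t : ℝ, y ≤ t → t ≤ R * y → ‖Dm z (Real.exp t / Real.log N)‖ ≤ δ) ∨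
        (∀ t : ℝ, y ≤ t → t ≤ R * y → ‖Dm z (Real.exp t / Real.log N) + 1‖ ≤ δ)) := by
  set δ : ℝ := (1 - b) / 8 with hδ
  have hδ0 : 0 < δ := by rw [hδ]; linarith
  have hδ4 : δ ≤ 1 / 4 := by rw [hδ]; linarith
  set R : ℝ := |K| + 25 + 4 / (1 - b) with hR
  have hb1' : 0 < 1 - b := by linarith
  have hRb : 4 ≤ R * (1 - b) := by
    have h1 : 4 / (1 - b) * (1 - b) = 4 := by field_simp
    have h2 : 0 ≤ (|K| + 25) * (1 - b) := by positivity
    rw [hR]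
    nlinarith
  have hRK : |K| + 25 < R := by
    rw [hR]
    have : 0 < 4 / (1 - b) := by positivity
    linarith
  have hR1 : 1 ≤ R := by
    have := abs_nonneg K
    linarith
  refine ⟨R, δ, hR1, hδ0, hδ4, fun L hL z hz l hl hmass => ?_⟩
  have hJ0 : (0:ℝ) < L := by exact_mod_cast hL
  have hW := (win_mass hδ0 hδ4 hR1 (Real.log L)).filter_mono hl
  have hM : ∀ᶠ N : ℕ in l, ∀ c ∈ range (L + 2), 1 ≤ c →
      ∑ p ∈ Tp c N, (1 - (z p).re) / (p:ℝ) ≤ b * Real.log c + K + 1 := by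
    rw [eventually_all_finset]
    intro c _
    by_cases hc : 1 ≤ c
    · filter_upwards [hmass c hc 1 one_pos] with N h _
      exact h
    · filter_upwards with N h
      exact absurd h hc
  filter_upwards [hW, hM] with N hN2 hN3 y hy1 hy2 hy3
  have hy0 : 1 ≤ y := hR1.trans hy1
  have hre : ∀ t : ℝ, y ≤ t → t ≤ R * y → (Dm z (Real.exp t / Real.log N)).re ≤ δ := by
    intro t ht1 ht2
    rcases hy3 with h | h
    · exact (Complex.re_le_norm _).trans (h t ht1 ht2)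
    · have h1 := (Complex.re_le_norm _).trans (h t ht1 ht2)
      rw [Complex.add_re, Complex.one_re] at h1
      linarith
  have k1 := hN2 z hz y hy0 hy2 hre
  have hRy : 0 ≤ R * y := by positivity
  have hexp1 : 1 ≤ Real.exp (R * y) := Real.one_le_exp hRy
  have hc1 : 1 ≤ ⌈Real.exp (R * y)⌉₊ := Nat.one_le_ceil_iff.2 (Real.exp_pos _)
  have hcJ : ⌈Real.exp (R * y)⌉₊ ∈ range (L + 2) := by
    rw [mem_range]
    have h1 : Real.exp (R * y) ≤ L := by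
      have := Real.exp_le_exp.2 hy2
      rwa [Real.exp_log hJ0] at this
    have h2 : ⌈Real.exp (R * y)⌉₊ ≤ L := Nat.ceil_le.2 h1
    omega
  have k2 := hN3 _ hcJ hc1
  have k3 : Real.log ((⌈Real.exp (R * y)⌉₊ : ℕ) : ℝ) ≤ R * y + 1 := by
    have h1 : ((⌈Real.exp (R * y)⌉₊ : ℕ) : ℝ) ≤ Real.exp (R * y) + 1 :=
      (Nat.ceil_lt_add_one (Real.exp_pos _).le).le
    have h2 : Real.exp (R * y) + 1 ≤ Real.exp (R * y + 1) := by
      rw [Real.exp_add]
      have : 2 ≤ Real.exp 1 := by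
        have := Real.add_one_le_exp (1:ℝ)
        linarith
      nlinarith
    have h3 : (0:ℝ) < ((⌈Real.exp (R * y)⌉₊ : ℕ) : ℝ) := by exact_mod_cast hc1
    have h4 := Real.log_le_log h3 (h1.trans h2)
    rwa [Real.log_exp] at h4
  have k4 : b * Real.log ((⌈Real.exp (R * y)⌉₊ : ℕ) : ℝ) ≤ b * (R * y + 1) :=
    mul_le_mul_of_nonneg_left k3 hb0
  have k5 : (R - 1) * y * (1 - 2 * δ) - 22 ≤ b * (R * y + 1) + K + 1 := by linarith
  have hδe : 1 - 2 * δ = 3 / 4 + b / 4 := by rw [hδ]; ring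
  rw [hδe] at k5
  have hKa := le_abs_self K
  have k6 : y * (3 / 4 * (R * (1 - b)) - 1) ≤ (R - 1) * y * (3 / 4 + b / 4) - b * (R * y) := by
    have h7 : 0 ≤ y * (1 / 4 - b / 4) := by
      apply mul_nonneg (by linarith) (by linarith)
    nlinarith
  have k7 : y * 2 ≤ y * (3 / 4 * (R * (1 - b)) - 1) :=
    mul_le_mul_of_nonneg_left (by linarith) (by linarith)
  nlinarith

end Pool.Agent.Lib.P4a7640S
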