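import Mathlib
import Pool.Agent.Lib.P4a7640S.Par

/-!
# Choice of the parameters, entropies

Module P4a7640S.ParE (1.5 h). Copy the proof of `Par.lean` (P4a7640S.par, same structure) with other exponents.

`0 ≤ b < 1`, `γ < (1-b)/(1+b)` (WLOG `γ ≥ 0`: replace `γ` by `max γ 0`, `L^γ` is monotone in `γ` for `L ≥ 1`). Let
`gap = (1-b)/(1+b) - γ > 0` and `e > 0` small (`e ≤ gap/100`, `e ≤ 1/100`); `ρ = 1/(1+b) - 10 e > 0`; `m = ⌈8/e⌉₊ + 1`,
`ε = e/2`. For `L` large: `r = ⌈L^ρ⌉₊`, `Ks = ⌈r log L/log 2⌉₊ + 2 r + 2` (then `4^Ks ≥ 8 L^(2r)`), `b'` with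
`L^e ≤ 2^b' ≤ 2 L^e`, `c'` with `A Ks 2^b' ≤ 2^c' ≤ 2 A Ks 2^b'`, so `L^(ρ+e) ≤ 2^c' ≤ L^(ρ+2e)`. For
`3 log L ≤ lam ≤ L^(e/2)`: as in `par`; the new terms are `10 √((1 + L^γ)/L) ≤ 20 L^((γ-1)/2)` and `L^γ/r ≤ L^(γ-ρ)`;
right-hand side `≥ ξ exp (-(K+1)) L^(-b(ρ+2e)) L^(-e/2)/2`. Needed: `(1-γ)/2 > b (ρ + 2e) + e/2` and
`ρ - γ > b (ρ + 2 e) + e/2`, with a little room: `(1 - γ)/2 = (1 - (1-b)/(1+b) + gap)/2 = b/(1+b) + gap/2` and
`b ρ + 2 b e + e/2 ≤ b/(1+b) + 3 e`; `ρ (1 - b) - γ = (1-b)/(1+b) - 10 e (1-b) - γ ≥ gap - 10 e`.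
-/

open Filter Topology

namespace Pool.Agent.Lib.P4a7640S

open ParAux

theorem parE {b γ : ℝ} (K : ℝ) (hb0 : 0 ≤ b) (hb1 : b < 1) (hγ : γ < (1 - b) / (1 + b))
    (A : ℕ) (hA : 1 ≤ A) :
    ∃ m : ℕ, 1 ≤ m ∧ ∃ ε : ℝ, 0 < ε ∧ ε ≤ 1 ∧ ∀ ξ : ℝ, 0 < ξ → ∃ L₀ : ℕ, ∀ L : ℕ, L₀ ≤ L →
      ∃ r Ks b' c' : ℕ, 1 ≤ r ∧ 2 * r ≤ Ks ∧
        8 * L ^ (2 * r) ≤ 4 ^ Ks ∧ A * Ks * 2 ^ b' ≤ 2 ^ c' ∧ 1 ≤ b' ∧
        ∀ lam : ℝ, 3 * Real.log L ≤ lam → lam ≤ (L:ℝ) ^ ε →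
          8 ≤ lam ∧ 16 * lam ≤ 2 ^ c' ∧ lam ≤ 2 ^ b' ∧
          40 * (lam / 2 ^ c') + 10 * Real.exp (-lam / 2) ≤ ξ / 2 ∧
          (lam / 2 ^ b') ^ m + (10 * Real.sqrt ((1 + (L:ℝ) ^ γ) / L) + (L:ℝ) ^ γ / r) +
              Real.exp (-lam) / lam ≤
            ξ * (Real.exp (-(K + 1)) * ((2:ℝ) ^ c') ^ (-b) / (2 * lam)) := by
  obtain ⟨γ', hγ', hγ'0, hγγ⟩ : ∃ γ' : ℝ, γ' < (1 - b) / (1 + b) ∧ 0 ≤ γ' ∧ γ ≤ γ' :=
    ⟨max γ 0, max_lt hγ (div_pos (by linarith) (by linarith)), le_max_right _ _, le_max_left _ _⟩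
  obtain ⟨u, hu, hu2, hu1⟩ : ∃ u : ℝ, b * u = 1 - u ∧ 1 / 2 ≤ u ∧ u ≤ 1 := by
    refine ⟨1 / (1 + b), ?_, ?_, ?_⟩
    · have : 1 + b ≠ 0 := by positivity
      field_simp
      ring
    · exact one_div_le_one_div_of_le (by linarith) (by linarith)
    · rw [div_le_one (by linarith)]
      linarith
  obtain ⟨g, hg0, hg⟩ : ∃ g : ℝ, 0 < g ∧ g = (2 * u - 1) - γ' := by
    refine ⟨_, ?_, rfl⟩
    have h1 : (1 - b) / (1 + b) = 2 * u - 1 := by
      rw [div_eq_iff (by linarith)]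
      nlinarith
    rw [h1] at hγ'
    linarith
  obtain ⟨e, he0, he20, heg⟩ : ∃ e : ℝ, 0 < e ∧ e ≤ 1 / 100 ∧ 100 * e ≤ g := by
    refine ⟨min (1 / 100) (g / 100), ?_, min_le_left _ _, ?_⟩
    · exact lt_min (by norm_num) (by linarith)
    · have := min_le_right (1 / 100 : ℝ) (g / 100)
      linarith
  obtain ⟨ρ, hρ⟩ : ∃ ρ : ℝ, ρ = u - 10 * e := ⟨_, rfl⟩
  have hρ0 : 0 < ρ := by rw [hρ]; linarith
  refine ⟨⌈8 / e⌉₊ + 1, by omega, e / 2, by positivity, by linarith, fun ξ hξ => ?_⟩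
  obtain ⟨m, hm⟩ : ∃ m : ℕ, m = ⌈8 / e⌉₊ + 1 := ⟨_, rfl⟩
  rw [← hm]
  have hme : 4 ≤ (m : ℝ) * (e / 2) := by
    have h1 : 8 / e ≤ m := by
      rw [hm]
      push_cast
      have := Nat.le_ceil (8 / e)
      linarith
    rw [div_le_iff₀ he0] at h1
    linarith
  obtain ⟨q, hq⟩ : ∃ q : ℝ, q = b * (ρ + 2 * e) + e / 2 := ⟨_, rfl⟩
  have hbe : 0 ≤ b * e := by positivity
  have hbe1 : b * e ≤ e := by nlinarith
  have hq1 : q = 1 - u - 8 * (b * e) + e / 2 := by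
    rw [hq, hρ]
    linear_combination hu
  have hq2 : q < 3 := by linarith
  have hq3 : q < (1 - γ') / 2 := by linarith
  have hq4 : q < ρ - γ' := by linarith
  obtain ⟨c, hc⟩ : ∃ c : ℝ, c = ξ * Real.exp (-(K + 1)) / 2 := ⟨_, rfl⟩
  have hc0 : 0 < c := by rw [hc]; positivity
  have key : ∀ᶠ L : ℕ in atTop, ∃ r Ks b' c' : ℕ, 1 ≤ r ∧ 2 * r ≤ Ks ∧
        8 * L ^ (2 * r) ≤ 4 ^ Ks ∧ A * Ks * 2 ^ b' ≤ 2 ^ c' ∧ 1 ≤ b' ∧
        ∀ lam : ℝ, 3 * Real.log L ≤ lam → lam ≤ (L:ℝ) ^ (e / 2) →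
          8 ≤ lam ∧ 16 * lam ≤ 2 ^ c' ∧ lam ≤ 2 ^ b' ∧
          40 * (lam / 2 ^ c') + 10 * Real.exp (-lam / 2) ≤ ξ / 2 ∧
          (lam / 2 ^ b') ^ m + (10 * Real.sqrt ((1 + (L:ℝ) ^ γ) / L) + (L:ℝ) ^ γ / r) +
              Real.exp (-lam) / lam ≤
            ξ * (Real.exp (-(K + 1)) * ((2:ℝ) ^ c') ^ (-b) / (2 * lam)) := by
    filter_upwards [eventually_ge_atTop 1, ev_big hρ0 2,
      ev_big (show 0 < e / 4 by positivity) (4 / (e * Real.log 2) + 5),
      ev_big (show 0 < e / 2 by positivity) (4 * A), ev_log (8 / 3),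
      ev_big (show 0 < e / 2 by positivity) 16,
      ev_small (show 0 < e / 2 by positivity) (show 0 < ξ / 4 by positivity) 40,
      ev_small (show (0 : ℝ) < 3 / 2 by norm_num) (show 0 < ξ / 4 by positivity) 10,
      ev_small (show 0 < 4 - q by linarith) (show 0 < c / 4 by positivity) 1,
      ev_small (show 0 < (1 - γ') / 2 - q by linarith) (show 0 < c / 4 by positivity)
        (10 * Real.sqrt 2),
      ev_small (show 0 < 3 - q by linarith) (show 0 < c / 4 by positivity) 1,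
      ev_small (show 0 < ρ - γ' - q by linarith) (show 0 < c / 4 by positivity) 2] with
      L g1 g2 g3 g4 g5 g6 g7 g8 g9 g10 g11 g12
    obtain ⟨x, hx⟩ : ∃ x : ℝ, x = L := ⟨_, rfl⟩
    rw [← hx] at g2 g3 g4 g5 g6 g7 g8 g9 g10 g11 g12 ⊢
    have hx1 : 1 ≤ x := by rw [hx]; exact_mod_cast g1
    have hx0 : 0 < x := by linarith
    obtain ⟨r, Ks, hr1, hr2, hr3, hr4, hK1, hK2, hK3⟩ := exists_rK hρ0 he0 hx1 g2 g3
    obtain ⟨b', hb1, hb2, hb3⟩ := exists_pow (Real.one_le_rpow hx1 he0.le)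
    have hAK : (1 : ℝ) ≤ A * Ks := by
      have h1 : (1 : ℝ) ≤ A := by exact_mod_cast hA
      have h2 : (1 : ℝ) ≤ Ks := by exact_mod_cast hK1
      exact one_le_mul_of_one_le_of_one_le h1 h2
    have h2b : (1 : ℝ) ≤ 2 ^ b' := one_le_pow₀ (by norm_num)
    obtain ⟨c', hc1, hc2, hc3⟩ := exists_pow (one_le_mul_of_one_le_of_one_le hAK h2b)
    have hcb : (2 : ℝ) ^ b' ≤ 2 ^ c' :=
      (le_mul_of_one_le_left (by positivity) hAK).trans hc2
    have hxe : x ^ e = x ^ (e / 2) * x ^ (e / 2) := by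
      rw [← Real.rpow_add hx0]
      congr 1
      ring
    have hc4 : (2 : ℝ) ^ c' ≤ x ^ (ρ + 2 * e) := by
      have h1 : x ^ (ρ + 2 * e) = x ^ (ρ + e / 2) * (x ^ e * x ^ (e / 2)) := by
        rw [← Real.rpow_add hx0, ← Real.rpow_add hx0]
        congr 1
        ring
      rw [h1]
      calc (2 : ℝ) ^ c' ≤ 2 * (A * Ks * 2 ^ b') := hc3
        _ ≤ 2 * (A * x ^ (ρ + e / 2) * (2 * x ^ e)) := by gcongr
        _ = x ^ (ρ + e / 2) * (x ^ e * (4 * A)) := by ring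
        _ ≤ _ := by gcongr
    refine ⟨r, Ks, b', c', hr1, hr4, ?_, ?_, hb1, ?_⟩
    · rw [hx] at hK2
      exact_mod_cast hK2
    · exact_mod_cast hc2
    intro lam hl1 hl2
    have hl8 : 8 ≤ lam := by linarith
    have hl0 : 0 < lam := by linarith
    have hle : 16 * lam ≤ x ^ e := by
      rw [hxe]
      have h1 : 0 < x ^ (e / 2) := by positivity
      calc 16 * lam ≤ 16 * x ^ (e / 2) := by gcongr
        _ ≤ x ^ (e / 2) * x ^ (e / 2) := by gcongr
    have hlog : Real.exp (-lam) ≤ x ^ (-3 : ℝ) := by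
      rw [Real.rpow_def_of_pos hx0]
      exact Real.exp_le_exp.2 (by linarith)
    refine ⟨hl8, hle.trans (hb2.trans hcb), ?_, ?_, ?_⟩
    · linarith
    · have h1 : 40 * (lam / 2 ^ c') ≤ ξ / 4 := by
        refine le_trans ?_ g7
        have h2 : lam / 2 ^ c' ≤ x ^ (-(e / 2)) := by
          rw [div_le_iff₀ (by positivity)]
          calc lam ≤ x ^ (e / 2) := hl2
            _ = x ^ (-(e / 2)) * x ^ e := by
              rw [← Real.rpow_add hx0]
              congr 1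
              ring
            _ ≤ x ^ (-(e / 2)) * 2 ^ c' := by
              have := hb2.trans hcb
              gcongr
        linarith
      have h3 : 10 * Real.exp (-lam / 2) ≤ ξ / 4 := by
        refine le_trans ?_ g8
        have h4 : Real.exp (-lam / 2) ≤ x ^ (-(3 / 2) : ℝ) := by
          rw [Real.rpow_def_of_pos hx0]
          exact Real.exp_le_exp.2 (by linarith)
        linarith
      linarith
    · -- the right-hand side
      have hRHS : c * x ^ (-q) ≤ ξ * (Real.exp (-(K + 1)) * ((2:ℝ) ^ c') ^ (-b) / (2 * lam)) := by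
        have h1 : x ^ (-(b * (ρ + 2 * e))) ≤ ((2:ℝ) ^ c') ^ (-b) := by
          have h2 : x ^ (-(b * (ρ + 2 * e))) = (x ^ (ρ + 2 * e)) ^ (-b) := by
            rw [← Real.rpow_mul hx0.le]
            congr 1
            ring
          rw [h2]
          exact Real.rpow_le_rpow_of_nonpos (by positivity) hc4 (by linarith)
        have h3 : x ^ (-(e / 2)) ≤ 1 / lam := by
          rw [Real.rpow_neg hx0.le, ← one_div]
          exact one_div_le_one_div_of_le hl0 hl2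
        have h4 : x ^ (-q) = x ^ (-(b * (ρ + 2 * e))) * x ^ (-(e / 2)) := by
          rw [← Real.rpow_add hx0]
          congr 1
          rw [hq]
          ring
        rw [h4, hc]
        calc ξ * Real.exp (-(K + 1)) / 2 * (x ^ (-(b * (ρ + 2 * e))) * x ^ (-(e / 2)))
            ≤ ξ * Real.exp (-(K + 1)) / 2 * (((2:ℝ) ^ c') ^ (-b) * (1 / lam)) := by gcongr
          _ = ξ * (Real.exp (-(K + 1)) * ((2:ℝ) ^ c') ^ (-b) / (2 * lam)) := by
            field_simp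
      refine le_trans ?_ hRHS
      have hxq : 0 < x ^ (-q) := by positivity
      -- the four terms
      have t1 : (lam / 2 ^ b') ^ m ≤ c / 4 * x ^ (-q) := by
        have h2 : lam / 2 ^ b' ≤ x ^ (-(e / 2)) := by
          rw [div_le_iff₀ (by positivity)]
          calc lam ≤ x ^ (e / 2) := hl2
            _ = x ^ (-(e / 2)) * x ^ e := by
              rw [← Real.rpow_add hx0]
              congr 1
              ring
            _ ≤ x ^ (-(e / 2)) * 2 ^ b' := by gcongr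
        calc (lam / 2 ^ b') ^ m ≤ (x ^ (-(e / 2))) ^ m := by gcongr
          _ = x ^ (-(e / 2) * m) := by rw [Real.rpow_mul hx0.le, Real.rpow_natCast]
          _ ≤ x ^ (-4 : ℝ) := Real.rpow_le_rpow_of_exponent_le hx1 (by linarith)
          _ = (1 * x ^ (-(4 - q))) * x ^ (-q) := by
            rw [one_mul, ← Real.rpow_add hx0]
            congr 1
            ring
          _ ≤ c / 4 * x ^ (-q) := by gcongr
      have hγx : x ^ γ ≤ x ^ γ' := Real.rpow_le_rpow_of_exponent_le hx1 hγγ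
      have hγ1 : 1 ≤ x ^ γ' := Real.one_le_rpow hx1 hγ'0
      have t2 : 10 * Real.sqrt ((1 + x ^ γ) / x) ≤ c / 4 * x ^ (-q) := by
        have h1 : (1 + x ^ γ) / x ≤ 2 * x ^ (γ' - 1) := by
          rw [Real.rpow_sub_one hx0.ne', mul_div_assoc']
          gcongr
          linarith
        have h2 : Real.sqrt (x ^ (γ' - 1)) = x ^ ((γ' - 1) / 2) := by
          rw [Real.sqrt_eq_rpow, ← Real.rpow_mul hx0.le]
          congr 1
          ring
        calc 10 * Real.sqrt ((1 + x ^ γ) / x)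
            ≤ 10 * Real.sqrt (2 * x ^ (γ' - 1)) := by
              gcongr
          _ = 10 * Real.sqrt 2 * x ^ ((γ' - 1) / 2) := by
              rw [Real.sqrt_mul (by positivity), h2]
              ring
          _ = (10 * Real.sqrt 2 * x ^ (-((1 - γ') / 2 - q))) * x ^ (-q) := by
              rw [mul_assoc (10 * Real.sqrt 2), ← Real.rpow_add hx0]
              congr 2
              ring
          _ ≤ c / 4 * x ^ (-q) := by gcongr
      have t4 : x ^ γ / r ≤ c / 4 * x ^ (-q) := by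
        have hr0 : (0 : ℝ) < r := by exact_mod_cast hr1
        have hxρ : 0 < x ^ ρ := by positivity
        calc x ^ γ / r ≤ x ^ γ' / (x ^ ρ / 2) := by
              gcongr
              linarith
          _ = 2 * x ^ (γ' - ρ) := by
              rw [Real.rpow_sub hx0]
              field_simp
          _ = (2 * x ^ (-(ρ - γ' - q))) * x ^ (-q) := by
              rw [mul_assoc, ← Real.rpow_add hx0]
              congr 2
              ring
          _ ≤ c / 4 * x ^ (-q) := by gcongr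
      have t3 : Real.exp (-lam) / lam ≤ c / 4 * x ^ (-q) := by
        calc Real.exp (-lam) / lam ≤ Real.exp (-lam) / 1 := by gcongr; linarith
          _ ≤ x ^ (-3 : ℝ) := by rw [div_one]; exact hlog
          _ = (1 * x ^ (-(3 - q))) * x ^ (-q) := by
            rw [one_mul, ← Real.rpow_add hx0]
            congr 1
            ring
          _ ≤ c / 4 * x ^ (-q) := by gcongr
      linarith
  obtain ⟨L₀, hL₀⟩ := eventually_atTop.1 key
  exact ⟨L₀, hL₀⟩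

end Pool.Agent.Lib.P4a7640S
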