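import Mathlib
import Pool.Agent.Lib.P4a7640C.CoreE
import Pool.Agent.Lib.P4a7640S.Bridge
import Pool.Agent.Lib.P4a7640S.Abs
import Pool.Agent.Lib.P4a7640S.ParE
import Pool.Agent.Lib.P4a7640S.NoWin
import Pool.Agent.Lib.P4a7640E.EntA

/-!
# The lower bound of the block entropies
-/

open Finset Filter Topology
open Pool.Agent.Lib.P4a7640 Pool.Agent.Lib.P4a7640C Pool.Agent.Lib.P4a7640E

namespace Pool.Agent.Lib.P4a7640S

theorem ent_low {b K γ : ℝ} (hb0 : 0 ≤ b) (hb1 : b < 1) (hγ : γ < (1 - b) / (1 + b)) :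
    ∃ L₀ : ℕ, ∀ u : ℕ → ℤˣ, MultS u → Aperiodic u → ∀ q : ℕ, 0 < q →
      ∀ (χ : DirichletCharacter ℂ q) (l : Filter ℕ), l ≤ atTop → MassB l (ze u χ) b K →
      ∀ J : Finset ℕ, L₀ ≤ J.card → ∀ᶠ N : ℕ in l, (J.card : ℝ) ^ γ ≤ Ent N (patn u J) := by
  classical
  obtain ⟨A, hA, hcore⟩ := coreE
  obtain ⟨m, hm, ε, hε, hε1, hpar⟩ := parE K hb0 hb1 hγ A hA
  obtain ⟨R, δ, hR, hδ, _, hnw⟩ := no_window (K := K) hb0 hb1
  obtain ⟨ξ, κ, hξ, hκ, L₂, hL₂⟩ := struct_abs (b := b) (K := K) hR hδ 1 hm hε hε1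
  obtain ⟨L₁, hL₁⟩ := hpar ξ hξ
  refine ⟨max (max L₁ L₂) 3, ?_⟩
  intro u hmul haper q hq χ l hl hmass J hJ
  have hLL₁ : L₁ ≤ J.card := ((le_max_left _ _).trans (le_max_left _ _)).trans hJ
  have hLL₂ : L₂ ≤ J.card := ((le_max_right _ _).trans (le_max_left _ _)).trans hJ
  have hL3 : 3 ≤ J.card := (le_max_right _ _).trans hJ
  have hL0 : (0:ℝ) < J.card := by
    have : (3:ℝ) ≤ J.card := by exact_mod_cast hL3
    linarith
  have hJne : J.Nonempty := by
    rw [← Finset.card_pos]; omega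
  obtain ⟨r, Ks, b', c', hr, hrK, h8, hAK, hb', hlam⟩ := hL₁ J.card hLL₁
  obtain ⟨M, hM⟩ := hL₂ J.card hLL₂
  have hmain := hM b' c' (10 * Real.sqrt ((1 + (J.card:ℝ) ^ γ) / J.card) + (J.card:ℝ) ^ γ / r)
    hb' hlam (fun _ => ze u χ) (fun _ p => norm_ze_le _ χ p) l hl (fun _ => hmass)
  have e0 : ∀ᶠ N : ℕ in l, 2 ≤ N := hl (eventually_ge_atTop 2)
  have e1 := (hcore u hmul haper q hq χ J hJne r Ks b' c' hr hrK h8 hAK).filter_mono hl
  have e2 := hnw J.card (by omega) (ze u χ) (norm_ze_le _ χ) l hl hmass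
  filter_upwards [hmain, e0, e1, e2] with N h1 h2 h3 h4
  by_contra hcon
  have hE : Ent N (patn u J) ≤ (J.card:ℝ) ^ γ := (not_le.1 hcon).le
  have hE0 : 0 ≤ Ent N (patn u J) := Ent_nonneg N _
  have hlogN0 : 0 < Real.log (N:ℝ) := Real.log_pos (by exact_mod_cast h2)
  obtain ⟨y, hy1, hy2, hy3⟩ := h1 (by
    intro _ j _ hj1 _
    have hκj : (0:ℝ) ≤ κ ^ j := by positivity
    rw [mid_eq u χ (2 ^ c') (2 ^ b') h2]
    -- the weight, extended to be at most 1 and decreasing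
    have k1 := h3 (fun n => Real.exp (-(κ ^ j * Real.log n / Real.log N))) (fun n => by
        refine ⟨(Real.exp_pos _).le, ?_⟩
        rw [← Real.exp_zero]
        apply Real.exp_le_exp.2
        have : 0 ≤ Real.log (n:ℝ) := Real.log_natCast_nonneg n
        have : 0 ≤ κ ^ j * Real.log n / Real.log N := by positivity
        linarith) (fun n => by
        apply Real.exp_le_exp.2
        have h5 : Real.log (n:ℝ) ≤ Real.log ((n + 1 : ℕ) : ℝ) := by
          rcases Nat.eq_zero_or_pos n with h0 | h0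
          · subst h0; simp
          · apply Real.log_le_log (by exact_mod_cast h0)
            push_cast; linarith
        have h6 : κ ^ j * Real.log n / Real.log N ≤ κ ^ j * Real.log ((n + 1 : ℕ) : ℝ) / Real.log N :=
          div_le_div_of_nonneg_right (mul_le_mul_of_nonneg_left h5 hκj) hlogN0.le
        linarith)
    refine k1.trans ?_
    have hr0 : (0:ℝ) < r := by exact_mod_cast hr
    have k2 : (1 + Ent N (patn u J)) / J.card ≤ (1 + (J.card:ℝ) ^ γ) / J.card :=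
      div_le_div_of_nonneg_right (by linarith) hL0.le
    have k3 : Ent N (patn u J) / r ≤ (J.card:ℝ) ^ γ / r :=
      div_le_div_of_nonneg_right hE hr0.le
    have k4 := Real.sqrt_le_sqrt k2
    linarith)
  exact h4 y hy1 hy2 (hy3 0)

end Pool.Agent.Lib.P4a7640S
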