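import Mathlib
import Pool.Agent.Lib.P4a7640C.CoreE
import Pool.Agent.Lib.P4a7640E.Lim

/-!
# Entropies of finitely many coordinates of a Furstenberg system

`HMJ μ J`: the entropy of the coordinates in `J`. `Ent_tendsto_J`: along a filter with Furstenberg
system `μ` the entropy of the pattern of `f` on `J` tends to it. `mem_patJ_iff`: the patterns of
positive upper logarithmic density along the filter are those of positive measure.
-/

open Finset Filter Topology MeasureTheory
open Pool.Agent.Lib.P4a7640 Pool.Agent.Lib.P4a7640C Pool.Agent.Lib.P4a7640E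

namespace Pool.Agent.Lib.P4a7640S

/-- the entropy (in nats) of the coordinates in `J` -/
noncomputable def HMJ (μ : Measure XX) (J : Finset ℕ) : ℝ :=
  ∑ x : J → SignType, Real.negMulLog (μ.real {y | ∀ j : J, y (j : ℕ) = x j})

namespace FurstJAux

/-- the cylinder set of a pattern on `J` -/
def cylJ (J : Finset ℕ) (x : J → SignType) : Set XX := {y | ∀ j : J, y (j : ℕ) = x j}

theorem cylJ_clopen (J : Finset ℕ) (x : J → SignType) : IsClopen (cylJ J x) := by
  have h : cylJ J x = ⋂ j : J, (fun y : XX => y ((j : ℕ) : ℤ)) ⁻¹' {x j} := by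
    ext y
    simp [cylJ]
  rw [h]
  exact isClopen_iInter_of_finite fun j =>
    (isClopen_discrete {x j}).preimage (continuous_apply (((j : ℕ) : ℤ)))

theorem cylJ_lim {f : ℕ → ℤˣ} {l : Filter ℕ} {μ : Measure XX} (h : FurstAlong f l μ)
    (J : Finset ℕ) (x : J → SignType) :
    Tendsto (fun N => muInt f N ((cylJ J x).indicator (fun _ => (1 : ℝ)))) l
      (𝓝 (μ.real (cylJ J x))) := by
  have h1 := h.2 ((cylJ J x).indicator (fun _ => (1 : ℝ)))
    ((cylJ_clopen J x).continuous_indicator continuous_const)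
  have h2 : ∫ y, (cylJ J x).indicator (fun _ => (1 : ℝ)) y ∂μ = μ.real (cylJ J x) := by
    rw [integral_indicator (cylJ_clopen J x).isOpen.measurableSet]
    simp
  rw [h2] at h1
  exact h1

theorem mem_cylJ (f : ℕ → ℤˣ) {n : ℕ} (hn : 1 ≤ n) (J : Finset ℕ) (x : J → SignType) :
    (fun i : ℤ => xf f (i + n)) ∈ cylJ J x ↔ ∀ j : J, LimAux.sg (f (n + j)) = x j := by
  refine forall_congr' fun j => ?_
  show xf f (((j : ℕ) : ℤ) + (n : ℤ)) = x j ↔ _
  rw [LimAux.xf_shift f hn]

open Classical in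
theorem muInt_cylJ (f : ℕ → ℤˣ) (J : Finset ℕ) (x : J → ℤˣ) {N : ℕ} (hN : 2 ≤ N) :
    muInt f N ((cylJ J (fun j => LimAux.sg (x j))).indicator (fun _ => (1 : ℝ))) =
      pr N (fun n => patn f J n = x) * LA (fun _ => 1) N := by
  have hlog : 0 < Real.log N := Real.log_pos (by exact_mod_cast hN)
  have hS : 0 < ∑ n ∈ Icc 1 N, (1 : ℝ) / n := by
    refine Finset.sum_pos (fun n hn => ?_) ⟨1, by rw [Finset.mem_Icc]; omega⟩
    rw [Finset.mem_Icc] at hn
    have : (0 : ℝ) < n := by exact_mod_cast hn.1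
    positivity
  have h1 : ∑ n ∈ Icc 1 N, (cylJ J (fun j => LimAux.sg (x j))).indicator (fun _ => (1 : ℝ))
      (fun i : ℤ => xf f (i + n)) / (n : ℝ) =
      ∑ n ∈ (Icc 1 N).filter (fun n => patn f J n = x), (1 : ℝ) / n := by
    rw [Finset.sum_filter]
    refine Finset.sum_congr rfl fun n hn => ?_
    rw [Finset.mem_Icc] at hn
    have h2 : (fun i : ℤ => xf f (i + n)) ∈ cylJ J (fun j => LimAux.sg (x j)) ↔
        patn f J n = x := by
      rw [mem_cylJ f hn.1]
      constructor
      · intro h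
        funext j
        exact LimAux.sg_inj (h j)
      · rintro rfl j
        rfl
    by_cases h3 : patn f J n = x
    · rw [if_pos h3, Set.indicator_of_mem (h2.2 h3)]
    · rw [if_neg h3, Set.indicator_of_notMem (fun h => h3 (h2.1 h)), zero_div]
  unfold muInt LA pr
  rw [h1]
  field_simp

theorem prJ_tendsto {f : ℕ → ℤˣ} {l : Filter ℕ} (hl : l ≤ atTop) {μ : Measure XX}
    (h : FurstAlong f l μ) (J : Finset ℕ) (x : J → ℤˣ) :
    Tendsto (fun N => pr N (fun n => patn f J n = x)) l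
      (𝓝 (μ.real (cylJ J (fun j => LimAux.sg (x j))))) := by
  have h1 := cylJ_lim h J (fun j => LimAux.sg (x j))
  have h2 : Tendsto (LA fun _ => 1) l (𝓝 1) := tendsto_LA_one.mono_left hl
  have h3 := h1.div h2 one_ne_zero
  rw [div_one] at h3
  refine h3.congr' ?_
  have h4 : ∀ᶠ N in l, 2 ≤ N := hl (eventually_ge_atTop 2)
  filter_upwards [h4] with N hN
  simp only [Pi.div_apply]
  rw [muInt_cylJ f J x hN]
  have := one_le_LA_one hN
  field_simp

theorem cylJ_zero {f : ℕ → ℤˣ} {l : Filter ℕ} [l.NeBot] {μ : Measure XX}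
    (h : FurstAlong f l μ) (J : Finset ℕ) (x : J → SignType) (j : J) (hj : x j = 0) :
    μ.real (cylJ J x) = 0 := by
  have h1 := cylJ_lim h J x
  have h2 : ∀ N, muInt f N ((cylJ J x).indicator (fun _ => (1 : ℝ))) = 0 := by
    intro N
    unfold muInt
    rw [Finset.sum_eq_zero, zero_div]
    intro n hn
    rw [Finset.mem_Icc] at hn
    rw [Set.indicator_of_notMem, zero_div]
    rw [mem_cylJ f hn.1]
    intro h3
    have h4 := h3 j
    rw [hj] at h4
    unfold LimAux.sg at h4
    rcases Int.units_eq_one_or (f (n + j)) with h5 | h5 <;> rw [h5] at h4 <;> simp at h4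
  simp only [h2] at h1
  exact (tendsto_nhds_unique h1 tendsto_const_nhds)

theorem HMJ_eq {f : ℕ → ℤˣ} {l : Filter ℕ} [l.NeBot] {μ : Measure XX}
    (h : FurstAlong f l μ) (J : Finset ℕ) :
    HMJ μ J = ∑ x : J → ℤˣ, Real.negMulLog (μ.real (cylJ J (fun j => LimAux.sg (x j)))) := by
  unfold HMJ
  symm
  refine Fintype.sum_of_injective (fun (x : J → ℤˣ) (j : J) => LimAux.sg (x j)) ?_ _ _ ?_ ?_
  · intro x y hxy
    funext j
    exact LimAux.sg_inj (congrFun hxy j)
  · intro x hx
    have h1 : ∃ j, x j = 0 := by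
      by_contra hcon
      push Not at hcon
      apply hx
      choose u hu using fun j => LimAux.sg_range (x j) (hcon j)
      exact ⟨u, funext hu⟩
    obtain ⟨j, hj⟩ := h1
    have h2 := cylJ_zero h J x j hj
    have h3 : μ.real {y | ∀ j : J, y (j : ℕ) = x j} = 0 := h2
    rw [h3, Real.negMulLog_zero]
  · intro x
    rfl

theorem cylJ_sg (J : Finset ℕ) (x : J → ℤˣ) : cylJ J (fun j => LimAux.sg (x j)) =
    {y : XX | ∀ j : J, y (j : ℕ) = SignType.sign ((x j : ℤˣ) : ℤ)} := rfl

end FurstJAux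

open FurstJAux

theorem Ent_tendsto_J {f : ℕ → ℤˣ} {l : Filter ℕ} [l.NeBot] (hl : l ≤ atTop) {μ : Measure XX}
    (h : FurstAlong f l μ) (J : Finset ℕ) :
    Tendsto (fun N => Ent N (patn f J)) l (𝓝 (HMJ μ J)) := by
  rw [HMJ_eq h J]
  unfold Ent
  refine tendsto_finsetSum _ fun x _ => ?_
  exact (Real.continuous_negMulLog.tendsto _).comp (prJ_tendsto hl h J x)

theorem mem_patJ_iff {f : ℕ → ℤˣ} {l : Filter ℕ} [l.NeBot] (hl : l ≤ atTop) {μ : Measure XX}
    (h : FurstAlong f l μ) (J : Finset ℕ) (x : J → ℤˣ) :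
    x ∈ patJ f l J ↔
      0 < μ.real {y | ∀ j : J, y (j : ℕ) = SignType.sign ((x j : ℤˣ) : ℤ)} := by
  classical
  have h1 := prJ_tendsto hl h J x
  rw [cylJ_sg] at h1
  have h2 : ∀ N, pr N (fun n => patn f J n = x) = pr N (fun n => ∀ j : J, f (n + j) = x j) := by
    intro N
    refine pr_congr fun n _ _ => ?_
    exact ⟨fun h j => congrFun h j, fun h => funext h⟩
  simp only [h2] at h1
  unfold patJ
  rw [Finset.mem_filter]
  constructor
  · rintro ⟨_, hx⟩
    refine lt_of_le_of_ne measureReal_nonneg fun h0 => hx ?_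
    rw [← h0] at h1
    exact h1
  · intro hpos
    refine ⟨Finset.mem_univ _, fun h0 => ?_⟩
    exact hpos.ne' (tendsto_nhds_unique h1 h0)

end Pool.Agent.Lib.P4a7640S
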