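import Mathlib
import Pool.Agent.Lib.P4a7640S.EntLow
import Pool.Agent.Lib.P4a7640S.FurstJ
import Pool.Agent.Lib.P4a7640S.MassD

/-!
# Growth of entropies, final form
-/

open Finset Filter Topology MeasureTheory
open Pool.Agent.Lib.P4a7640 Pool.Agent.Lib.P4a7640C Pool.Agent.Lib.P4a7640E

namespace Pool.Agent.Lib.P4a7640S

/-- Lower bounds `h` for the entropies of the patterns on `J` in `f` and `g`: at all large scales
along `l`, and for the Furstenberg systems along `l`. -/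
def EntBd (f g : ℕ → ℤˣ) (l : Filter ℕ) (J : Finset ℕ) (h : ℝ) : Prop :=
  (∀ᶠ N in l, h ≤ Ent N (patn f J) + Ent N (patn g J)) ∧
    ∀ μ ν : Measure XX, FurstAlong f l μ → FurstAlong g l ν → h ≤ HMJ μ J + HMJ ν J

theorem entBd_of {f g : ℕ → ℤˣ} {l : Filter ℕ} (hne : l.NeBot) (hl : l ≤ atTop) {J : Finset ℕ}
    {h : ℝ} (hE : ∀ᶠ N in l, h ≤ Ent N (patn (fun n => f n * g n) J)) : EntBd f g l J h := by
  have h1 : ∀ᶠ N in l, h ≤ Ent N (patn f J) + Ent N (patn g J) :=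
    hE.mono fun N hN => hN.trans (entJ f g J N)
  refine ⟨h1, fun μ ν hμ hν => ?_⟩
  exact ge_of_tendsto ((Ent_tendsto_J hl hμ J).add (Ent_tendsto_J hl hν J)) h1

theorem ent_main {b K γ : ℝ} (hb0 : 0 ≤ b) (hb1 : b < 1) (hγ : γ < (1 - b) / (1 + b)) :
    ∃ L₀ : ℕ, ∀ f g : ℕ → ℤˣ, (MultS fun n => f n * g n) → (Aperiodic fun n => f n * g n) →
      ∀ q : ℕ, 0 < q → ∀ (χ : DirichletCharacter ℂ q) (l : Filter ℕ), l.NeBot → l ≤ atTop →
      MassB l (ze (fun n => f n * g n) χ) b K →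
      ∀ J : Finset ℕ, L₀ ≤ J.card → EntBd f g l J ((J.card : ℝ) ^ γ) := by
  obtain ⟨L₀, hL₀⟩ := ent_low (K := K) hb0 hb1 hγ
  exact ⟨L₀, fun f g hm ha q hq χ l hne hl hmass J hJ =>
    entBd_of hne hl (hL₀ _ hm ha q hq χ l hl hmass J hJ)⟩

theorem ent_D {β γ : ℝ} (hβ0 : 0 < β) (hβ1 : β ≤ 1) (hγ : γ < β / (2 - β)) :
    ∃ L₀ : ℕ, ∀ f g : ℕ → ℤˣ, (MultS fun n => f n * g n) → (Aperiodic fun n => f n * g n) →
      ∀ q : ℕ, 0 < q → ∀ (χ : DirichletCharacter ℂ q),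
      (∀ᶠ η in 𝓝[>] (0:ℝ), β ≤ (Dm (ze (fun n => f n * g n) χ) η).re) →
      ∀ l : Filter ℕ, l.NeBot → l ≤ atTop →
      ∀ J : Finset ℕ, L₀ ≤ J.card → EntBd f g l J ((J.card : ℝ) ^ γ) := by
  -- choose `ε` with `γ < (β - ε) / (2 - β + ε)`
  have hcont : ContinuousAt (fun ε : ℝ => (β - ε) / (2 - β + ε)) 0 := by
    apply ContinuousAt.div (by fun_prop) (by fun_prop)
    have : (2:ℝ) - β + 0 ≠ 0 := by linarith
    exact this
  have h0 : γ < (β - 0) / (2 - β + 0) := by simpa using hγ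
  have h1 : ∀ᶠ ε in 𝓝[>] (0:ℝ), γ < (β - ε) / (2 - β + ε) :=
    (hcont.eventually (lt_mem_nhds h0)).filter_mono nhdsWithin_le_nhds
  have h2 : ∀ᶠ ε in 𝓝[>] (0:ℝ), ε < β := by
    have : ∀ᶠ ε in 𝓝 (0:ℝ), ε < β := gt_mem_nhds hβ0
    exact this.filter_mono nhdsWithin_le_nhds
  obtain ⟨ε, he1, he2, he3⟩ := (h1.and (h2.and self_mem_nhdsWithin)).exists
  have he0 : 0 < ε := he3
  obtain ⟨K, hK⟩ := mass_of_D (β := β) (ε := ε) (by linarith) hβ1 he0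
  obtain ⟨L₀, hL₀⟩ := ent_main (b := 1 - β + ε) (K := K) (γ := γ) (by linarith) (by linarith) (by
    have e1 : (1 - (1 - β + ε)) / (1 + (1 - β + ε)) = (β - ε) / (2 - β + ε) := by
      congr 1 <;> ring
    rw [e1]; exact he1)
  refine ⟨L₀, fun f g hm ha q hq χ hD l hne hl J hJ => ?_⟩
  exact hL₀ f g hm ha q hq χ l hne hl
    (fun c hc δ hδ => hl (hK _ (norm_ze_le _ χ) hD c hc δ hδ)) J hJ

end Pool.Agent.Lib.P4a7640S
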