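import Mathlib
import Pool.Agent.Lib.P4a7640S.Base
import Pool.Agent.Lib.P4a7640S.DmA
import Pool.Agent.Lib.P4a7640W.Base

/-!
# Smooth mean values of twisted characters
-/

open Finset Filter Topology
open Pool.Agent.Lib.P4a7640 Pool.Agent.Lib.P4a7640W

namespace Pool.Agent.Lib.P4a7640S

/-- `u(p) conj (χ(p) p^(it))` -/
noncomputable def zt (u : ℕ → ℤˣ) {q : ℕ} (χ : DirichletCharacter ℂ q) (t : ℝ) (p : ℕ) : ℂ :=
  (((u p : ℤˣ) : ℤ) : ℂ) * (starRingEnd ℂ) (χ (p : ZMod q) * tw t p)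

theorem norm_tw (t : ℝ) (n : ℕ) : ‖tw t n‖ = 1 := by
  unfold tw
  exact Complex.norm_exp_ofReal_mul_I _

theorem tw_zero (n : ℕ) : tw 0 n = 1 := by
  unfold tw
  simp

theorem tw_add (s t : ℝ) (n : ℕ) : tw (s + t) n = tw s n * tw t n := by
  unfold tw
  rw [← Complex.exp_add]
  congr 1
  push_cast
  ring

theorem tw_conj (t : ℝ) (n : ℕ) : (starRingEnd ℂ) (tw t n) = tw (-t) n := by
  unfold tw
  rw [← Complex.exp_conj]
  congr 1
  rw [map_mul, Complex.conj_ofReal, Complex.conj_I]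
  push_cast
  ring

theorem zt_zero (u : ℕ → ℤˣ) {q : ℕ} (χ : DirichletCharacter ℂ q) : zt u χ 0 = ze u χ := by
  funext p
  unfold zt ze
  rw [tw_zero, mul_one]

theorem norm_zt_le (u : ℕ → ℤˣ) {q : ℕ} (χ : DirichletCharacter ℂ q) (t : ℝ) (p : ℕ) :
    ‖zt u χ t p‖ ≤ 1 := by
  unfold zt
  have h1 : ‖(((u p : ℤˣ) : ℤ) : ℂ)‖ = 1 := by
    rcases Int.units_eq_one_or (u p) with h | h <;> simp [h]
  rw [norm_mul, h1, one_mul, RCLike.norm_conj, norm_mul, norm_tw, mul_one]
  exact DirichletCharacter.norm_le_one χ _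

namespace TwLimAux

open ArithmeticFunction ArithmeticFunction.vonMangoldt

theorem cpow_eq {p : ℕ} (hp : 0 < p) (σ t : ℝ) :
    (p : ℂ) ^ (-((σ : ℂ) - (t : ℂ) * Complex.I)) = (((p : ℝ) ^ (-σ) : ℝ) : ℂ) * tw t p := by
  have hp' : (p : ℂ) ≠ 0 := by exact_mod_cast hp.ne'
  have hpr : (0 : ℝ) < p := by exact_mod_cast hp
  rw [Complex.cpow_def_of_ne_zero hp', Real.rpow_def_of_pos hpr, Complex.ofReal_exp, tw,
    ← Complex.exp_add]
  congr 1
  rw [← Complex.natCast_log]
  push_cast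
  ring

/-- the non-prime part -/
theorem summ_np : Summable fun n : ℕ => (if n.Prime then 0 else vonMangoldt n) / (n:ℝ) := by
  have h := summable_residueClass_non_primes_div (0 : ZMod 1)
  refine h.congr fun n => ?_
  have : residueClass (0 : ZMod 1) n = vonMangoldt n := by
    unfold residueClass
    rw [Set.indicator_of_mem]
    exact Subsingleton.elim _ _
  rw [this]

theorem Dm_tw_bound {q : ℕ} [NeZero q] (χ : DirichletCharacter ℂ q) (t : ℝ) :
    ∃ C : ℝ, ∀ η : ℝ, 0 < η → ‖∑' p : Nat.Primes, (χ (p : ZMod q) * tw t p) *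
      ((Real.log p * (p:ℝ) ^ (-1 - η) : ℝ) : ℂ) -
      LSeries (fun n => χ n * (vonMangoldt n : ℂ)) (((1 + η : ℝ) : ℂ) - (t : ℂ) * Complex.I)‖ ≤ C := by
  refine ⟨∑' n : ℕ, (if n.Prime then 0 else vonMangoldt n) / (n:ℝ), fun η hη => ?_⟩
  set s : ℂ := ((1 + η : ℝ) : ℂ) - (t : ℂ) * Complex.I with hs
  have hsre : s.re = 1 + η := by simp [hs]
  have hsum : LSeriesSummable (fun n => χ n * (vonMangoldt n : ℂ)) s :=
    DirichletCharacter.LSeriesSummable_twist_vonMangoldt χ (by rw [hsre]; linarith)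
  set F : ℕ → ℂ := fun n => LSeries.term (fun n => χ n * (vonMangoldt n : ℂ)) s n with hF
  have hFs : Summable F := hsum
  -- the prime part
  have hterm : ∀ p : Nat.Primes, F (p : ℕ) = (χ ((p : ℕ) : ZMod q) * tw t p) *
      ((Real.log p * (p:ℝ) ^ (-1 - η) : ℝ) : ℂ) := by
    intro p
    have hp0 : (p : ℕ) ≠ 0 := p.2.ne_zero
    simp only [hF]
    rw [LSeries.term_of_ne_zero hp0, vonMangoldt_apply_prime p.2, div_eq_mul_inv, ← Complex.cpow_neg,
      hs, cpow_eq p.2.pos]
    have : (-(1 + η) : ℝ) = -1 - η := by ring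
    rw [this]
    push_cast
    ring
  have h1 : ∑' p : Nat.Primes, (χ ((p : ℕ) : ZMod q) * tw t p) *
      ((Real.log p * (p:ℝ) ^ (-1 - η) : ℝ) : ℂ) =
      ∑' n : ℕ, Set.indicator {p : ℕ | p.Prime} F n := by
    rw [← tsum_subtype {p : ℕ | p.Prime} F]
    exact tsum_congr fun p => (hterm p).symm
  have h2 : Summable (Set.indicator {p : ℕ | p.Prime} F) := hFs.indicator _
  rw [h1, LSeries]
  change ‖∑' n : ℕ, Set.indicator {p : ℕ | p.Prime} F n - ∑' n : ℕ, F n‖ ≤ _
  rw [← h2.tsum_sub hFs]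
  refine tsum_of_norm_bounded summ_np.hasSum fun n => ?_
  by_cases hn : n.Prime
  · rw [Set.indicator_of_mem (show n ∈ {p : ℕ | p.Prime} from hn), sub_self, norm_zero, if_pos hn]
    simp
  · rw [Set.indicator_of_notMem (show n ∉ {p : ℕ | p.Prime} from hn), zero_sub, norm_neg, if_neg hn]
    rcases Nat.eq_zero_or_pos n with rfl | hn0
    · simp [hF]
    · have hnr : (1:ℝ) ≤ n := by exact_mod_cast hn0
      simp only [hF]
      rw [LSeries.term_of_ne_zero hn0.ne', norm_div, norm_mul, Complex.norm_natCast_cpow_of_pos hn0,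
        hsre]
      have h3 : ‖((vonMangoldt n : ℝ) : ℂ)‖ = vonMangoldt n := by
        rw [Complex.norm_real, Real.norm_eq_abs, abs_of_nonneg vonMangoldt_nonneg]
      rw [h3]
      have h4 : ‖χ (n : ZMod q)‖ * vonMangoldt n ≤ 1 * vonMangoldt n :=
        mul_le_mul_of_nonneg_right (DirichletCharacter.norm_le_one χ _) vonMangoldt_nonneg
      rw [one_mul] at h4
      have h5 : (n:ℝ) ≤ (n:ℝ) ^ (1 + η) := by
        conv_lhs => rw [← Real.rpow_one (n : ℝ)]
        exact Real.rpow_le_rpow_of_exponent_le hnr (by linarith)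
      exact div_le_div₀ vonMangoldt_nonneg h4 (by linarith) h5

end TwLimAux

open TwLimAux in
/-- The smooth mean value of a nontrivial twisted character is small. -/
theorem tw_lim {q : ℕ} [NeZero q] (χ : DirichletCharacter ℂ q) (t : ℝ) (h : χ ≠ 1 ∨ t ≠ 0) :
    Tendsto (fun η => Dm (fun p => χ (p : ZMod q) * tw t p) η) (𝓝[>] 0) (𝓝 0) := by
  obtain ⟨C, hC⟩ := Dm_tw_bound χ t
  set s₀ : ℂ := 1 - (t : ℂ) * Complex.I with hs₀
  have hs₀1 : χ ≠ 1 ∨ s₀ ≠ 1 := by
    rcases h with h | h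
    · exact Or.inl h
    · right
      intro h1
      rw [hs₀, sub_eq_self] at h1
      rcases mul_eq_zero.1 h1 with h2 | h2
      · exact h (by exact_mod_cast h2)
      · exact Complex.I_ne_zero h2
  have hane : AnalyticAt ℂ (DirichletCharacter.LFunction χ) s₀ := by
    rcases hs₀1 with h | h
    · exact (DirichletCharacter.differentiable_LFunction h).analyticAt s₀
    · have hopen : IsOpen ({1}ᶜ : Set ℂ) := isOpen_compl_singleton
      have hd : DifferentiableOn ℂ (DirichletCharacter.LFunction χ) ({1}ᶜ : Set ℂ) := fun s hs =>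
        (DirichletCharacter.differentiableAt_LFunction χ s (Or.inl hs)).differentiableWithinAt
      exact hd.analyticAt (hopen.mem_nhds h)
  have hne : DirichletCharacter.LFunction χ s₀ ≠ 0 :=
    DirichletCharacter.LFunction_ne_zero_of_one_le_re χ hs₀1 (by simp [hs₀])
  have hcont : ContinuousAt (fun s => - deriv (DirichletCharacter.LFunction χ) s /
      DirichletCharacter.LFunction χ s) s₀ :=
    (hane.deriv.continuousAt.neg).div hane.continuousAt hne
  have hpath : Tendsto (fun η : ℝ => ((1 + η : ℝ) : ℂ) - (t : ℂ) * Complex.I) (𝓝[>] 0) (𝓝 s₀) := by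
    have h1 : Continuous fun η : ℝ => ((1 + η : ℝ) : ℂ) - (t : ℂ) * Complex.I := by fun_prop
    have h2 := (h1.tendsto 0).mono_left (nhdsWithin_le_nhds (s := Set.Ioi 0))
    simpa [hs₀] using h2
  have hlim := hcont.tendsto.comp hpath
  have hid : Tendsto (fun η : ℝ => (η : ℂ)) (𝓝[>] 0) (𝓝 0) := by
    have := (Complex.continuous_ofReal.tendsto (0:ℝ)).mono_left (nhdsWithin_le_nhds (s := Set.Ioi 0))
    simpa using this
  -- the main part
  have hmain : Tendsto (fun η : ℝ => (η : ℂ) *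
      LSeries (fun n => χ n * (ArithmeticFunction.vonMangoldt n : ℂ))
        (((1 + η : ℝ) : ℂ) - (t : ℂ) * Complex.I)) (𝓝[>] 0) (𝓝 0) := by
    have h1 := hid.mul hlim
    rw [zero_mul] at h1
    refine h1.congr' ?_
    filter_upwards [self_mem_nhdsWithin] with η hη
    have hη0 : (0:ℝ) < η := hη
    have hre : 1 < (((1 + η : ℝ) : ℂ) - (t : ℂ) * Complex.I).re := by
      simp; exact hη0
    simp only [Function.comp]
    congr 1
    have h2 := DirichletCharacter.LSeries_twist_vonMangoldt_eq χ hre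
    have h3 := DirichletCharacter.LFunction_eq_LSeries χ hre
    have h4 := DirichletCharacter.deriv_LFunction_eq_deriv_LSeries χ hre
    rw [h3, h4]
    exact h2.symm
  -- the difference
  have hdiff : Tendsto (fun η : ℝ => Dm (fun p => χ (p : ZMod q) * tw t p) η - (η : ℂ) *
      LSeries (fun n => χ n * (ArithmeticFunction.vonMangoldt n : ℂ))
        (((1 + η : ℝ) : ℂ) - (t : ℂ) * Complex.I)) (𝓝[>] 0) (𝓝 0) := by
    have hηC : Tendsto (fun η : ℝ => η * C) (𝓝[>] 0) (𝓝 0) := by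
      have h1 : Tendsto (fun η : ℝ => η) (𝓝[>] 0) (𝓝 0) :=
        (continuous_id.tendsto (0:ℝ)).mono_left nhdsWithin_le_nhds
      have := h1.mul_const C
      rwa [zero_mul] at this
    refine squeeze_zero_norm' ?_ hηC
    filter_upwards [self_mem_nhdsWithin] with η hη
    have hη0 : (0:ℝ) < η := hη
    unfold Dm
    rw [← mul_sub, norm_mul, Complex.norm_real, Real.norm_eq_abs, abs_of_pos hη0]
    exact mul_le_mul_of_nonneg_left (hC η hη0) hη0.le
  have := hdiff.add hmain
  rw [zero_add] at this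
  refine this.congr fun η => ?_
  ring

end Pool.Agent.Lib.P4a7640S
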