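import Mathlib
import Pool.Agent.Lib.P4a7640S.Base
import Pool.Agent.Lib.P4a7640S.TwLim
import Pool.Agent.Lib.P4a7640W.Base

/-!
# The middle part in the two notations, twisted
-/

open Finset Filter Topology
open Pool.Agent.Lib.P4a7640 Pool.Agent.Lib.P4a7640C Pool.Agent.Lib.P4a7640W

namespace Pool.Agent.Lib.P4a7640S

theorem wt_eq (u : ℕ → ℤˣ) {q : ℕ} (χ : DirichletCharacter ℂ q) (t : ℝ) {c N n : ℕ}
    (hn : n ∈ Icc 1 N) : wt c u χ t N n = wT (zt u χ t) (Tp c N) n := by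
  rw [mem_Icc] at hn
  unfold wt wT
  have h : n.primeFactors.filter (fun p => N < p ^ c) = (Tp c N).filter (fun p => p ∣ n) := by
    ext p
    simp only [mem_filter, Tp, mem_Icc, Nat.mem_primeFactors]
    constructor
    · rintro ⟨⟨h1, h2, h3⟩, h4⟩
      exact ⟨⟨⟨h1.one_lt.le, (Nat.le_of_dvd (by omega) h2).trans hn.2⟩, h1, h4⟩, h2⟩
    · rintro ⟨⟨⟨h1, h2⟩, h3, h4⟩, h5⟩
      exact ⟨⟨h3, h5, by omega⟩, h4⟩
  rw [h]
  refine prod_congr rfl fun p _ => ?_
  rfl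

theorem mid_eqT (u : ℕ → ℤˣ) {q : ℕ} (χ : DirichletCharacter ℂ q) (t : ℝ) (c B : ℕ) {N : ℕ}
    (hN : 2 ≤ N) (lam : ℝ) :
    mid (zt u χ t) (Tp c N) N B lam = (∑ n ∈ Icc 1 N, ((io B N n *
      Real.exp (-(lam * Real.log n / Real.log N)) : ℝ) : ℂ) * wt c u χ t N n / n) /
        (Real.log N : ℂ) := by
  unfold mid
  rw [Complex.ofReal_inv, sum_filter, ← div_eq_inv_mul]
  refine congrArg (fun t : ℂ => t / ((Real.log N : ℝ) : ℂ)) (sum_congr rfl fun n hn => ?_)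
  rw [wt_eq u χ t hn]
  rw [mem_Icc] at hn
  have hn0 : (0:ℝ) < n := by exact_mod_cast hn.1
  unfold io
  by_cases h : N ≤ n ^ B
  · rw [if_pos h, if_pos h, one_mul]
    have h2 : (n:ℝ) ^ (-1 - lam / Real.log N) =
        Real.exp (-(lam * Real.log n / Real.log N)) / n := by
      rw [Real.rpow_sub hn0, Real.rpow_neg_one, Real.rpow_def_of_pos hn0, Real.exp_neg,
        show Real.log n * (lam / Real.log N) = lam * Real.log n / Real.log N by ring]
      field_simp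
    rw [h2]
    push_cast
    ring
  · rw [if_neg h, if_neg h]
    simp

end Pool.Agent.Lib.P4a7640S
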