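import Mathlib
import Pool.Agent.Lib.P4a7640S.TwLim

/-!
# At most one character can be close to `-u`, and it is real
-/

open Finset Filter Topology
open Pool.Agent.Lib.P4a7640 Pool.Agent.Lib.P4a7640W

namespace Pool.Agent.Lib.P4a7640S

namespace ExclAux

theorem w_nonneg (p : Nat.Primes) (η : ℝ) : 0 ≤ Real.log p * (p:ℝ) ^ (-1 - η) := by
  have h1 : (1:ℝ) ≤ p := by exact_mod_cast p.2.one_lt.le
  exact mul_nonneg (Real.log_nonneg h1) (Real.rpow_nonneg (by linarith) _)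

theorem summ_w {η : ℝ} (hη : 0 < η) : Summable fun p : Nat.Primes =>
    Real.log p * (p:ℝ) ^ (-1 - η) := by
  have h := (summable_k 1 hη).mul_left η⁻¹
  refine h.congr fun p => ?_
  rw [pow_one]
  field_simp

theorem re_Dm {z : ℕ → ℂ} (hz : ∀ p, ‖z p‖ ≤ 1) {η : ℝ} (hη : 0 < η) :
    (Dm z η).re = η * ∑' p : Nat.Primes, (z p).re * (Real.log p * (p:ℝ) ^ (-1 - η)) := by
  unfold Dm
  have hs : Summable fun p : Nat.Primes => z p * ((Real.log p * (p:ℝ) ^ (-1 - η) : ℝ) : ℂ) := by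
    refine Summable.of_norm_bounded (summ_w hη) fun p => ?_
    rw [norm_mul, Complex.norm_real, Real.norm_eq_abs, abs_of_nonneg (w_nonneg p η)]
    calc ‖z p‖ * _ ≤ 1 * _ := mul_le_mul_of_nonneg_right (hz p) (w_nonneg p η)
      _ = _ := one_mul _
  rw [Complex.re_ofReal_mul, Complex.re_tsum hs]
  congr 1
  refine tsum_congr fun p => ?_
  rw [Complex.re_mul_ofReal]

theorem summ_re {z : ℕ → ℂ} (hz : ∀ p, ‖z p‖ ≤ 1) {η : ℝ} (hη : 0 < η) :
    Summable fun p : Nat.Primes => (z p).re * (Real.log p * (p:ℝ) ^ (-1 - η)) := by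
  refine Summable.of_norm_bounded (summ_w hη) fun p => ?_
  rw [norm_mul, Real.norm_eq_abs, Real.norm_eq_abs, abs_of_nonneg (w_nonneg p η)]
  calc |(z p).re| * _ ≤ 1 * _ :=
        mul_le_mul_of_nonneg_right ((Complex.abs_re_le_norm _).trans (hz p)) (w_nonneg p η)
    _ = _ := one_mul _

theorem pos_comb {k : ℕ} (c : Fin k → ℝ) (z : Fin k → ℕ → ℂ) (hz : ∀ i p, ‖z i p‖ ≤ 1)
    (h : ∀ p : ℕ, 0 ≤ ∑ i, c i * (z i p).re) {η : ℝ} (hη : 0 < η) :
    0 ≤ ∑ i, c i * (Dm (z i) η).re := by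
  have h1 : ∑ i, c i * (Dm (z i) η).re = η * ∑' p : Nat.Primes,
      (∑ i, c i * (z i p).re) * (Real.log p * (p:ℝ) ^ (-1 - η)) := by
    have h2 : ∀ p : Nat.Primes, (∑ i, c i * (z i p).re) * (Real.log p * (p:ℝ) ^ (-1 - η)) =
        ∑ i, c i * ((z i p).re * (Real.log p * (p:ℝ) ^ (-1 - η))) := by
      intro p
      rw [Finset.sum_mul]
      exact Finset.sum_congr rfl fun i _ => by ring
    rw [tsum_congr h2, Summable.tsum_finsetSum (fun i _ => (summ_re (hz i) hη).mul_left _),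
      Finset.mul_sum]
    refine Finset.sum_congr rfl fun i _ => ?_
    rw [re_Dm (hz i) hη, tsum_mul_left]
    ring
  rw [h1]
  exact mul_nonneg hη.le (tsum_nonneg fun p => mul_nonneg (h p) (w_nonneg p η))

theorem pos4 (c₀ c₁ c₂ c₃ : ℝ) {z₁ z₂ z₃ : ℕ → ℂ} (h₁ : ∀ p, ‖z₁ p‖ ≤ 1) (h₂ : ∀ p, ‖z₂ p‖ ≤ 1)
    (h₃ : ∀ p, ‖z₃ p‖ ≤ 1)
    (h : ∀ p : ℕ, 0 ≤ c₀ + c₁ * (z₁ p).re + c₂ * (z₂ p).re + c₃ * (z₃ p).re) {η : ℝ} (hη : 0 < η) :
    0 ≤ c₀ * (Dm (fun _ => 1) η).re + c₁ * (Dm z₁ η).re + c₂ * (Dm z₂ η).re +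
      c₃ * (Dm z₃ η).re := by
  have key := pos_comb ![c₀, c₁, c₂, c₃] ![fun _ => 1, z₁, z₂, z₃] (by
      intro i p
      fin_cases i
      · simp
      · exact h₁ p
      · exact h₂ p
      · exact h₃ p) (by
      intro p
      have := h p
      simpa [Fin.sum_univ_four] using this) hη
  simpa [Fin.sum_univ_four] using key

theorem ev_one {ε : ℝ} (hε : 0 < ε) : ∀ᶠ η in 𝓝[>] (0:ℝ), (Dm (fun _ => 1) η).re ≤ 1 + ε := by
  obtain ⟨η₀, h0, h1⟩ := Dm_le hε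
  have h2 : Set.Ioo (0:ℝ) η₀ ∈ 𝓝[>] (0:ℝ) := Ioo_mem_nhdsGT h0
  filter_upwards [h2] with η hη
  exact (Complex.re_le_norm _).trans (h1 η hη.1 hη.2 _ fun p => by simp)

theorem ev_tw {q : ℕ} [NeZero q] (χ : DirichletCharacter ℂ q) (t : ℝ) (h : χ ≠ 1 ∨ t ≠ 0)
    {ε : ℝ} (hε : 0 < ε) :
    ∀ᶠ η in 𝓝[>] (0:ℝ), (Dm (fun p => χ (p : ZMod q) * tw t p) η).re ≤ ε := by
  have h1 := tw_lim χ t h
  rw [Metric.tendsto_nhds] at h1
  filter_upwards [h1 ε hε] with η hη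
  rw [dist_zero_right] at hη
  exact (Complex.re_le_norm _).trans hη.le

theorem norm_chi_tw_le {q : ℕ} (χ : DirichletCharacter ℂ q) (t : ℝ) (p : ℕ) :
    ‖χ (p : ZMod q) * tw t p‖ ≤ 1 := by
  rw [norm_mul, norm_tw, mul_one]
  exact DirichletCharacter.norm_le_one χ _

end ExclAux

open ExclAux

/-- `u` does not look like `- χ(p) p^(it)`, unless `χ` is real and `t = 0` -/
theorem not_neg {q : ℕ} [NeZero q] (χ : DirichletCharacter ℂ q) (t : ℝ)
    (h : χ ^ 2 ≠ 1 ∨ t ≠ 0) :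
    ∀ᶠ η in 𝓝[>] (0:ℝ), ∀ u : ℕ → ℤˣ, -(4 / 5) ≤ (Dm (zt u χ t) η).re := by
  have h1 := ev_tw (χ ^ 2) (2 * t) (h.imp id fun h2 => by simpa using h2)
    (show (0:ℝ) < 1 / 20 by norm_num)
  filter_upwards [h1, ev_one (show (0:ℝ) < 1 / 20 by norm_num), self_mem_nhdsWithin]
    with η e1 e2 e3 u
  have hη : (0:ℝ) < η := e3
  have key := pos4 3 4 1 0 (norm_zt_le u χ t) (norm_chi_tw_le (χ ^ 2) (2 * t))
    (norm_zt_le u χ t) (by
      intro p
      set a : ℂ := χ (p : ZMod q) * tw t p with ha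
      have ha1 : ‖a‖ ≤ 1 := norm_chi_tw_le χ t p
      have h3 : (χ ^ 2) (p : ZMod q) * tw (2 * t) p = a * a := by
        rw [two_mul, tw_add, ha, sq, MulChar.mul_apply]
        ring
      have h4 : (zt u χ t p).re = (((u p : ℤˣ) : ℤ) : ℝ) * a.re := by
        unfold zt
        rw [← ha]
        have : ((((u p : ℤˣ) : ℤ) : ℂ)) = (((((u p : ℤˣ) : ℤ) : ℝ)) : ℂ) := by push_cast; rfl
        rw [this, Complex.re_ofReal_mul, Complex.conj_re]
      have h6 : (a * a).re = a.re ^ 2 - a.im ^ 2 := by rw [Complex.mul_re]; ring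
      rw [h3, h4, h6]
      have h5 : a.re ^ 2 + a.im ^ 2 ≤ 1 := by
        have : ‖a‖ ^ 2 = a.re ^ 2 + a.im ^ 2 := by
          rw [← Complex.normSq_eq_norm_sq, Complex.normSq_apply]; ring
        rw [← this]
        exact pow_le_one₀ (norm_nonneg _) ha1
      rcases Int.units_eq_one_or (u p) with hu | hu
      · rw [hu]
        simp only [Units.val_one, Int.cast_one, one_mul]
        nlinarith [sq_nonneg (1 + a.re)]
      · rw [hu]
        simp only [Units.val_neg, Units.val_one, Int.cast_neg, Int.cast_one]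
        nlinarith [sq_nonneg (1 - a.re)]) hη
  linarith

theorem real_val {q : ℕ} {χ : DirichletCharacter ℂ q} (h : χ ^ 2 = 1) (a : ZMod q) :
    χ a = 0 ∨ χ a = 1 ∨ χ a = -1 := by
  by_cases ha : IsUnit a
  · right
    have h1 : χ a * χ a = 1 := by
      rw [← MulChar.mul_apply, ← sq, h, MulChar.one_apply ha]
    exact mul_self_eq_one_iff.1 h1
  · left
    exact MulChar.map_nonunit χ ha

/-- two different real characters cannot both be close to `-u` -/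
theorem not_two {q : ℕ} [NeZero q] (χ₁ χ₂ : DirichletCharacter ℂ q) (h₁ : χ₁ ^ 2 = 1)
    (h₂ : χ₂ ^ 2 = 1) (hne : χ₁ ≠ χ₂) :
    ∀ᶠ η in 𝓝[>] (0:ℝ), ∀ u : ℕ → ℤˣ,
      -(6 / 5) ≤ (Dm (zt u χ₁ 0) η).re + (Dm (zt u χ₂ 0) η).re := by
  have hne' : χ₁ * χ₂ ≠ 1 := by
    intro h
    apply hne
    have h3 : χ₁ * χ₂ * χ₂ = χ₂ := by rw [h, one_mul]
    rw [mul_assoc, ← sq, h₂, mul_one] at h3
    exact h3
  have h1 := ev_tw (χ₁ * χ₂) 0 (Or.inl hne') (show (0:ℝ) < 1 / 10 by norm_num)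
  filter_upwards [h1, ev_one (show (0:ℝ) < 1 / 10 by norm_num), self_mem_nhdsWithin]
    with η e1 e2 e3 u
  have hη : (0:ℝ) < η := e3
  have key := pos4 1 1 1 1 (norm_zt_le u χ₁ 0) (norm_zt_le u χ₂ 0) (norm_chi_tw_le (χ₁ * χ₂) 0) (by
      intro p
      rw [zt_zero, zt_zero, tw_zero, mul_one, MulChar.mul_apply]
      unfold ze
      rcases real_val h₁ (p : ZMod q) with hx | hx | hx <;>
        rcases real_val h₂ (p : ZMod q) with hy | hy | hy <;>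
        rcases Int.units_eq_one_or (u p) with hu | hu <;>
        rw [hx, hy, hu] <;> simp <;> norm_num) hη
  linarith

end Pool.Agent.Lib.P4a7640S
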