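import Mathlib
import Pool.Agent.Lib.P4a7640S.Main
import Pool.Agent.Lib.P4a7640S.BridgeT

/-!
# The structure theorem for twisted characters with twists in a given set
-/

open Finset Filter Topology
open Pool.Agent.Lib.P4a7640 Pool.Agent.Lib.P4a7640C

namespace Pool.Agent.Lib.P4a7640S

/-- The statement of the structure theorem, for the twists `t ∈ A` -/
def StrHyp (A : Set ℝ) : Prop :=
  ∀ α b K R δ τ : ℝ, 0 < α → 0 ≤ b → b ≤ 2 → α * (1 + 2 * b) < 1 → 1 ≤ R → 0 < δ → ∀ X : ℕ,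
    ∃ L₀ : ℕ, ∀ f g : ℕ → ℤˣ, (MultS fun n => f n * g n) → (Aperiodic fun n => f n * g n) →
      ∀ q : Fin X → ℕ, (∀ i, 0 < q i) → ∀ (χ : ∀ i, DirichletCharacter ℂ (q i)) (t : Fin X → ℝ),
      (∀ i, t i ∈ A ∧ |t i| ≤ τ) → ∀ l : Filter ℕ,
      l ≤ atTop → (∀ i, MassB l (zt (fun n => f n * g n) (χ i) (t i)) b K) →
      ∀ J : Finset ℕ, L₀ ≤ J.card →
      ((patJ f l J).card : ℝ) * (patJ g l J).card ≤ Real.exp ((J.card : ℝ) ^ α) →
      ∀ᶠ N : ℕ in l, ∃ y : ℝ, R ≤ y ∧ R * y ≤ Real.log J.card ∧ ∀ i,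
        (∀ s : ℝ, y ≤ s → s ≤ R * y →
          ‖Dm (zt (fun n => f n * g n) (χ i) (t i)) (Real.exp s / Real.log N)‖ ≤ δ) ∨
        (∀ s : ℝ, y ≤ s → s ≤ R * y →
          ‖Dm (zt (fun n => f n * g n) (χ i) (t i)) (Real.exp s / Real.log N) + 1‖ ≤ δ)

theorem strHyp_zero : StrHyp {0} := by
  intro α b K R δ τ hα0 hb0 hb2 hα hR hδ X
  obtain ⟨L₀, hL₀⟩ := structure_thm (K := K) hα0 hb0 hb2 hα hR hδ X
  refine ⟨L₀, fun f g hm ha q hq χ t ht l hl hmass J hJ hcard => ?_⟩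
  have h0 : t = fun _ => 0 := by
    funext i
    exact (ht i).1
  subst h0
  simp only [zt_zero] at hmass ⊢
  exact hL₀ f g hm ha q hq χ l hl hmass J hJ hcard

end Pool.Agent.Lib.P4a7640S
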