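import Mathlib
import Pool.Agent.Lib.P4a7640S.Main
import Pool.Agent.Lib.P4a7640S.Conc

/-!
# Almost all scales
-/

open Finset Filter Topology MeasureTheory
open Pool.Agent.Lib.P4a7640 Pool.Agent.Lib.P4a7640C

namespace Pool.Agent.Lib.P4a7640S

/-- Tiling: if every large `s₀` is the right end of an interval in which `A` has small proportion,
then `A` has small upper density. -/
theorem tile {A : Set ℝ} {κ s_min Λ : ℝ} (hκ : 0 ≤ κ) (hs : 0 ≤ s_min) (hΛ : 0 ≤ Λ)
    (h : ∀ s₀ : ℝ, s_min ≤ s₀ → ∃ s₁ : ℝ, s₁ ≤ s₀ - 1 ∧ s₀ - Λ ≤ s₁ ∧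
      volume (A ∩ Set.Icc s₁ s₀) ≤ ENNReal.ofReal (κ * (s₀ - s₁))) :
    ∀ s₀ : ℝ, 0 ≤ s₀ →
      volume (A ∩ Set.Icc 0 s₀) ≤ ENNReal.ofReal (s_min + κ * Λ + κ * s₀) := by
  have key : ∀ n : ℕ, ∀ s₀ : ℝ, 0 ≤ s₀ → s₀ ≤ n →
      volume (A ∩ Set.Icc 0 s₀) ≤ ENNReal.ofReal (s_min + κ * Λ + κ * s₀) := by
    intro n
    induction n with
    | zero =>
      intro s₀ h0 hn
      have hs0 : s₀ = 0 := le_antisymm (by simpa using hn) h0
      subst hs0
      refine (measure_mono Set.inter_subset_right).trans ?_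
      simp
    | succ n ih =>
      intro s₀ h0 hn
      rcases lt_or_ge s₀ s_min with hlt | hge
      · refine (measure_mono Set.inter_subset_right).trans ?_
        rw [Real.volume_Icc, sub_zero]
        apply ENNReal.ofReal_le_ofReal
        have : 0 ≤ κ * Λ := mul_nonneg hκ hΛ
        have : 0 ≤ κ * s₀ := mul_nonneg hκ h0
        linarith
      · obtain ⟨s₁, h1, h2, h3⟩ := h s₀ hge
        rcases lt_or_ge s₁ 0 with hneg | hpos
        · refine (measure_mono (Set.inter_subset_inter_right A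
            (Set.Icc_subset_Icc hneg.le le_rfl))).trans (h3.trans ?_)
          apply ENNReal.ofReal_le_ofReal
          have : κ * (s₀ - s₁) ≤ κ * Λ := mul_le_mul_of_nonneg_left (by linarith) hκ
          have : 0 ≤ κ * s₀ := mul_nonneg hκ h0
          linarith
        · have hsub : A ∩ Set.Icc 0 s₀ ⊆ (A ∩ Set.Icc 0 s₁) ∪ (A ∩ Set.Icc s₁ s₀) := by
            rintro s ⟨hA, hs1, hs2⟩
            rcases le_total s s₁ with hle | hle
            · exact Or.inl ⟨hA, hs1, hle⟩
            · exact Or.inr ⟨hA, hle, hs2⟩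
          have hih := ih s₁ hpos (by push_cast at hn; linarith)
          refine (measure_mono hsub).trans ((measure_union_le _ _).trans
            ((add_le_add hih h3).trans ?_))
          rw [← ENNReal.ofReal_add]
          · apply ENNReal.ofReal_le_ofReal
            nlinarith
          · have : 0 ≤ κ * Λ := mul_nonneg hκ hΛ
            have : 0 ≤ κ * s₁ := mul_nonneg hκ hpos
            linarith
          · apply mul_nonneg hκ; linarith
  intro s₀ h0
  exact key ⌈s₀⌉₊ s₀ h0 (Nat.le_ceil _)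

/-- the scales `s = log (1/η)` at which the smooth mean is not `δ`-close to `0` or `-1` -/
def badS (z : ℕ → ℂ) (δ : ℝ) : Set ℝ :=
  {s | δ ≤ ‖Dm z (Real.exp (-s))‖ ∧ δ ≤ ‖Dm z (Real.exp (-s)) + 1‖}

/-- (D): the smooth mean is not close to `0`, `-1` at a positive proportion of the scales -/
theorem corD {α b K δ ρ : ℝ} (hb0 : 0 ≤ b) (hb2 : b ≤ 2) (hα : α * (1 + 2 * b) < 1)
    (hδ : 0 < δ) (hρ : 0 < ρ) :
    ∃ L₀ : ℕ, ∀ f g : ℕ → ℤˣ, (MultS fun n => f n * g n) → (Aperiodic fun n => f n * g n) →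
      ∀ q : ℕ, 0 < q → ∀ (χ : DirichletCharacter ℂ q),
      MassB atTop (ze (fun n => f n * g n) χ) b K →
      (∃ᶠ S : ℝ in atTop, ENNReal.ofReal (ρ * S) ≤
        volume (badS (ze (fun n => f n * g n) χ) δ ∩ Set.Icc 0 S)) →
      ∀ J : Finset ℕ, L₀ ≤ J.card → Rich f g atTop J α := by
  have hx : 1 ≤ 1 + 2 * b := by linarith
  obtain ⟨α', hα'0, hαα', hα'⟩ : ∃ α' : ℝ, 0 < α' ∧ α < α' ∧ α' * (1 + 2 * b) < 1 := by
    have hx0 : 0 < 1 + 2 * b := by linarith
    have h1 : α < 1 / (1 + 2 * b) := by rwa [lt_div_iff₀ hx0]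
    have h2 : max α 0 < 1 / (1 + 2 * b) := max_lt h1 (by positivity)
    refine ⟨(max α 0 + 1 / (1 + 2 * b)) / 2, ?_, ?_, ?_⟩
    · have := le_max_right α 0
      have : 0 < 1 / (1 + 2 * b) := by positivity
      linarith
    · have := le_max_left α 0
      linarith
    · have h3 : (max α 0 + 1 / (1 + 2 * b)) / 2 < 1 / (1 + 2 * b) := by linarith
      rwa [lt_div_iff₀ hx0] at h3
  set R : ℝ := max 2 (4 / ρ) with hR
  have hR2 : 2 ≤ R := le_max_left _ _
  have hRρ : 4 / R ≤ ρ := by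
    have h1 : 4 / ρ ≤ R := le_max_right _ _
    rw [div_le_iff₀ (by linarith)]
    rw [div_le_iff₀ hρ] at h1
    linarith
  obtain ⟨L₁, hL₁⟩ := structure_thm (K := K) hα'0 hb0 hb2 hα' (by linarith : (1:ℝ) ≤ R)
    (half_pos hδ) 1
  obtain ⟨L₂, hL₂⟩ := rich_of_large hα'0 hαα'
  refine ⟨max L₁ (max L₂ 1), ?_⟩
  intro f g hm ha q hq χ hmass hden J hJ
  have hJ1 : L₁ ≤ J.card := (le_max_left _ _).trans hJ
  have hJ2 : L₂ ≤ J.card := ((le_max_left _ _).trans (le_max_right _ _)).trans hJ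
  have hJ3 : 1 ≤ J.card := ((le_max_right _ _).trans (le_max_right _ _)).trans hJ
  apply hL₂ f g atTop J hJ2
  by_contra hcon
  have hcard := not_lt.1 hcon
  have hS := hL₁ f g hm ha (fun _ => q) (fun _ => hq) (fun _ => χ) atTop le_rfl
    (fun _ => hmass) J hJ1 hcard
  obtain ⟨N₀, hN₀⟩ := eventually_atTop.1 hS
  set z := ze (fun n => f n * g n) χ with hz
  have hlogJ : 0 ≤ Real.log J.card := Real.log_natCast_nonneg _
  -- the tiling
  have htile : ∀ s₀ : ℝ, max 2 (N₀:ℝ) ≤ s₀ → ∃ s₁ : ℝ, s₁ ≤ s₀ - 1 ∧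
      s₀ - (Real.log J.card + 1) ≤ s₁ ∧
      volume (badS z δ ∩ Set.Icc s₁ s₀) ≤ ENNReal.ofReal (2 / R * (s₀ - s₁)) := by
    intro s₀ hs₀
    have hs2 : 2 ≤ s₀ := (le_max_left _ _).trans hs₀
    have hsN : (N₀:ℝ) ≤ s₀ := (le_max_right _ _).trans hs₀
    set N : ℕ := ⌊Real.exp (Real.exp s₀)⌋₊ with hN
    have e1 : s₀ + 1 ≤ Real.exp s₀ := Real.add_one_le_exp s₀
    have e2 : Real.exp s₀ + 1 ≤ Real.exp (Real.exp s₀) := Real.add_one_le_exp _
    have hNle : (N:ℝ) ≤ Real.exp (Real.exp s₀) := Nat.floor_le (Real.exp_pos _).le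
    have hNge : Real.exp (Real.exp s₀) < (N:ℝ) + 1 := Nat.lt_floor_add_one _
    have hN₀N : N₀ ≤ N := by
      have : (N₀:ℝ) < (N:ℝ) + 1 := by linarith
      have : (N₀:ℝ) < ((N + 1 : ℕ) : ℝ) := by push_cast; linarith
      have := Nat.cast_lt.1 this
      omega
    have hNpos : (2:ℝ) < N := by linarith
    have hlogN1 : Real.log N ≤ Real.exp s₀ := by
      have := Real.log_le_log (by linarith) hNle
      rwa [Real.log_exp] at this
    -- log N ≥ exp (s₀ - 1)
    have hlogN2 : Real.exp (s₀ - 1) ≤ Real.log N := by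
      have h1 : Real.exp (Real.exp s₀ - 1) ≤ N := by
        have h3 : Real.exp (Real.exp s₀ - 1) = Real.exp (Real.exp s₀) / Real.exp 1 := Real.exp_sub _ _
        rw [h3, div_le_iff₀ (Real.exp_pos 1)]
        have h4 : (2:ℝ) ≤ Real.exp 1 := by
          have := Real.add_one_le_exp (1:ℝ)
          linarith
        nlinarith
      have h2 := Real.log_le_log (Real.exp_pos _) h1
      rw [Real.log_exp] at h2
      have h5 : Real.exp (s₀ - 1) ≤ Real.exp s₀ - 1 := by
        have h6 : Real.exp (s₀ - 1) = Real.exp s₀ / Real.exp 1 := Real.exp_sub _ _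
        rw [h6, div_le_iff₀ (Real.exp_pos 1)]
        have h4 : (2:ℝ) ≤ Real.exp 1 := by
          have := Real.add_one_le_exp (1:ℝ)
          linarith
        nlinarith
      linarith
    have hlogN0 : 0 < Real.log N := (Real.exp_pos _).trans_le hlogN2
    set σ : ℝ := Real.log (Real.log N) with hσ
    have hσ1 : σ ≤ s₀ := by
      have := Real.log_le_log hlogN0 hlogN1
      rwa [Real.log_exp] at this
    have hσ2 : s₀ - 1 ≤ σ := by
      have := Real.log_le_log (Real.exp_pos _) hlogN2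
      rwa [Real.log_exp] at this
    obtain ⟨y, hy1, hy2, hy3⟩ := hN₀ N hN₀N
    refine ⟨σ - R * y, ?_, by linarith, ?_⟩
    · have : 2 * 1 ≤ R * y := mul_le_mul hR2 (by linarith) (by norm_num) (by linarith)
      linarith
    · -- outside of the window
      have hsub : badS z δ ∩ Set.Icc (σ - R * y) s₀ ⊆ Set.Icc (σ - y) s₀ := by
        rintro s ⟨⟨hs1, hs2'⟩, hs3, hs4⟩
        refine ⟨?_, hs4⟩
        by_contra hlt
        have hlt' : s < σ - y := not_le.1 hlt
        have heq : Real.exp (-s) = Real.exp (σ - s) / Real.log N := by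
          rw [sub_eq_add_neg, Real.exp_add, hσ, Real.exp_log hlogN0]
          field_simp
        rcases hy3 0 with h | h
        · have := h (σ - s) (by linarith) (by linarith)
          rw [← heq] at this
          linarith
        · have := h (σ - s) (by linarith) (by linarith)
          rw [← heq] at this
          linarith
      refine (measure_mono hsub).trans ?_
      rw [Real.volume_Icc]
      apply ENNReal.ofReal_le_ofReal
      have hy0 : 2 ≤ y := hR2.trans hy1
      have hR0 : 0 < R := by linarith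
      have h7 : 2 / R * (R * y) = 2 * y := by field_simp
      have h8 : R * y ≤ s₀ - (σ - R * y) := by linarith
      have h9 : 2 / R * (R * y) ≤ 2 / R * (s₀ - (σ - R * y)) :=
        mul_le_mul_of_nonneg_left h8 (by positivity)
      linarith
  have hR0 : 0 < R := by linarith
  have hfin := tile (κ := 2 / R) (by positivity) (le_trans (by norm_num) (le_max_left 2 (N₀:ℝ)))
    (by linarith : 0 ≤ Real.log J.card + 1) htile
  -- contradiction with the density
  set C : ℝ := max 2 (N₀:ℝ) + 2 / R * (Real.log J.card + 1) with hC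
  have hev : ∀ᶠ S : ℝ in atTop, 0 < S ∧ C + 2 / R * S < ρ * S := by
    filter_upwards [eventually_gt_atTop 0, eventually_gt_atTop (2 * C / ρ)] with S h1 h2
    refine ⟨h1, ?_⟩
    rw [div_lt_iff₀ hρ] at h2
    have h3 : 2 / R * S ≤ ρ / 2 * S := by
      apply mul_le_mul_of_nonneg_right _ h1.le
      have : 2 / R = (4 / R) / 2 := by ring
      rw [this]; linarith
    linarith
  obtain ⟨S, hS1, hS2, hS3⟩ := (hden.and_eventually hev).exists
  have h1 := hS1.trans (hfin S hS2.le)
  have hC0 : 0 ≤ C := by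
    rw [hC]
    have : (0:ℝ) ≤ max 2 (N₀:ℝ) := le_trans (by norm_num) (le_max_left 2 (N₀:ℝ))
    have : 0 ≤ 2 / R * (Real.log J.card + 1) := by positivity
    linarith
  have h2 : 0 ≤ C + 2 / R * S := by positivity
  rw [ENNReal.ofReal_le_ofReal_iff h2] at h1
  linarith

end Pool.Agent.Lib.P4a7640S
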