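import Mathlib
import Pool.Agent.Lib.P4a7640S.Tile

/-!
# From windows at every scale to almost all scales
-/

open Finset Filter Topology MeasureTheory
open Pool.Agent.Lib.P4a7640 Pool.Agent.Lib.P4a7640C

namespace Pool.Agent.Lib.P4a7640S

/-- If at every large scale `N` there is a window `[y, R y] ⊆ [R, Λ]` on which `P (e^s / log N)`
holds, then `P (e^(-s))` fails for a proportion at most `2/R` of the `s`. -/
theorem tile_win {P : ℝ → Prop} {R Λ : ℝ} (hR2 : 2 ≤ R) (hΛ : 0 ≤ Λ)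
    (h : ∀ᶠ N : ℕ in atTop, ∃ y : ℝ, R ≤ y ∧ R * y ≤ Λ ∧
      ∀ s : ℝ, y ≤ s → s ≤ R * y → P (Real.exp s / Real.log N)) :
    ∃ C : ℝ, 0 ≤ C ∧ ∀ S : ℝ, 0 ≤ S →
      volume ({s : ℝ | ¬ P (Real.exp (-s))} ∩ Set.Icc 0 S) ≤ ENNReal.ofReal (C + 2 / R * S) := by
  obtain ⟨N₀, hN₀⟩ := eventually_atTop.1 h
  set A : Set ℝ := {s : ℝ | ¬ P (Real.exp (-s))} with hA
  have htile : ∀ s₀ : ℝ, max 2 (N₀:ℝ) ≤ s₀ → ∃ s₁ : ℝ, s₁ ≤ s₀ - 1 ∧
      s₀ - (Λ + 1) ≤ s₁ ∧
      volume (A ∩ Set.Icc s₁ s₀) ≤ ENNReal.ofReal (2 / R * (s₀ - s₁)) := by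
    intro s₀ hs₀
    have hs2 : 2 ≤ s₀ := (le_max_left _ _).trans hs₀
    have hsN : (N₀:ℝ) ≤ s₀ := (le_max_right _ _).trans hs₀
    set N : ℕ := ⌊Real.exp (Real.exp s₀)⌋₊ with hN
    have e1 : s₀ + 1 ≤ Real.exp s₀ := Real.add_one_le_exp s₀
    have e2 : Real.exp s₀ + 1 ≤ Real.exp (Real.exp s₀) := Real.add_one_le_exp _
    have hNle : (N:ℝ) ≤ Real.exp (Real.exp s₀) := Nat.floor_le (Real.exp_pos _).le
    have hNge : Real.exp (Real.exp s₀) < (N:ℝ) + 1 := Nat.lt_floor_add_one _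
    have hN₀N : N₀ ≤ N := by
      have : (N₀:ℝ) < (N:ℝ) + 1 := by linarith
      have : (N₀:ℝ) < ((N + 1 : ℕ) : ℝ) := by push_cast; linarith
      have := Nat.cast_lt.1 this
      omega
    have hNpos : (2:ℝ) < N := by linarith
    have hlogN1 : Real.log N ≤ Real.exp s₀ := by
      have := Real.log_le_log (by linarith) hNle
      rwa [Real.log_exp] at this
    have hlogN2 : Real.exp (s₀ - 1) ≤ Real.log N := by
      have h1 : Real.exp (Real.exp s₀ - 1) ≤ N := by
        have h3 : Real.exp (Real.exp s₀ - 1) = Real.exp (Real.exp s₀) / Real.exp 1 := Real.exp_sub _ _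
        rw [h3, div_le_iff₀ (Real.exp_pos 1)]
        have h4 : (2:ℝ) ≤ Real.exp 1 := by
          have := Real.add_one_le_exp (1:ℝ)
          linarith
        nlinarith
      have h2 := Real.log_le_log (Real.exp_pos _) h1
      rw [Real.log_exp] at h2
      have h5 : Real.exp (s₀ - 1) ≤ Real.exp s₀ - 1 := by
        have h6 : Real.exp (s₀ - 1) = Real.exp s₀ / Real.exp 1 := Real.exp_sub _ _
        rw [h6, div_le_iff₀ (Real.exp_pos 1)]
        have h4 : (2:ℝ) ≤ Real.exp 1 := by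
          have := Real.add_one_le_exp (1:ℝ)
          linarith
        nlinarith
      linarith
    have hlogN0 : 0 < Real.log N := (Real.exp_pos _).trans_le hlogN2
    set σ : ℝ := Real.log (Real.log N) with hσ
    have hσ1 : σ ≤ s₀ := by
      have := Real.log_le_log hlogN0 hlogN1
      rwa [Real.log_exp] at this
    have hσ2 : s₀ - 1 ≤ σ := by
      have := Real.log_le_log (Real.exp_pos _) hlogN2
      rwa [Real.log_exp] at this
    obtain ⟨y, hy1, hy2, hy3⟩ := hN₀ N hN₀N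
    refine ⟨σ - R * y, ?_, by linarith, ?_⟩
    · have : 2 * 1 ≤ R * y := mul_le_mul hR2 (by linarith) (by norm_num) (by linarith)
      linarith
    · have hsub : A ∩ Set.Icc (σ - R * y) s₀ ⊆ Set.Icc (σ - y) s₀ := by
        rintro s ⟨hs1, hs3, hs4⟩
        refine ⟨?_, hs4⟩
        by_contra hlt
        have hlt' : s < σ - y := not_le.1 hlt
        have heq : Real.exp (-s) = Real.exp (σ - s) / Real.log N := by
          rw [sub_eq_add_neg, Real.exp_add, hσ, Real.exp_log hlogN0]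
          field_simp
        apply hs1
        rw [heq]
        exact hy3 (σ - s) (by linarith) (by linarith)
      refine (measure_mono hsub).trans ?_
      rw [Real.volume_Icc]
      apply ENNReal.ofReal_le_ofReal
      have hy0 : 2 ≤ y := hR2.trans hy1
      have hR0 : 0 < R := by linarith
      have h7 : 2 / R * (R * y) = 2 * y := by field_simp
      have h8 : R * y ≤ s₀ - (σ - R * y) := by linarith
      have h9 : 2 / R * (R * y) ≤ 2 / R * (s₀ - (σ - R * y)) :=
        mul_le_mul_of_nonneg_left h8 (by positivity)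
      linarith
  have hR0 : 0 < R := by linarith
  have hfin := tile (κ := 2 / R) (by positivity) (le_trans (by norm_num) (le_max_left 2 (N₀:ℝ)))
    (by linarith : 0 ≤ Λ + 1) htile
  refine ⟨max 2 (N₀:ℝ) + 2 / R * (Λ + 1), ?_, hfin⟩
  have : (0:ℝ) ≤ max 2 (N₀:ℝ) := le_trans (by norm_num) (le_max_left 2 (N₀:ℝ))
  have : 0 ≤ 2 / R * (Λ + 1) := by positivity
  linarith

/-- the linear bound is at most `ρ S` for large `S` if `2/R < ρ` -/
theorem tile_ev {C R ρ : ℝ} (hC : 0 ≤ C) (hR : 0 < R) (hρ : 0 < ρ) (h : 4 / R ≤ ρ) :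
    ∀ᶠ S : ℝ in atTop, 0 ≤ S ∧ C + 2 / R * S ≤ ρ * S := by
  filter_upwards [eventually_ge_atTop 0, eventually_ge_atTop (2 * C / ρ)] with S h1 h2
  refine ⟨h1, ?_⟩
  rw [div_le_iff₀ hρ] at h2
  have h3 : 2 / R * S ≤ ρ / 2 * S := by
    apply mul_le_mul_of_nonneg_right _ h1
    have : 2 / R = (4 / R) / 2 := by ring
    rw [this]; linarith
  linarith

end Pool.Agent.Lib.P4a7640S
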