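import Mathlib
import Pool.Agent.Lib.P4a7640S.StrHyp
import Pool.Agent.Lib.P4a7640S.Excl
import Pool.Agent.Lib.P4a7640S.TileG
import Pool.Agent.Lib.P4a7640S.Triv
import Pool.Agent.Lib.P4a7640S.Cor
import Pool.Agent.Lib.P4a7640S.NoWin

/-!
# The structure theorem with all characters modulo `q`
-/

open Finset Filter Topology MeasureTheory
open Pool.Agent.Lib.P4a7640 Pool.Agent.Lib.P4a7640C

namespace Pool.Agent.Lib.P4a7640S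

/-- At the scale `η` the smooth means `D_{χ,t}`, `χ` mod `q`, `t ∈ T`, are `δ`-close to `0`, except
possibly for one real character `χ₀`, `t = 0`, for which `D_{χ₀,0}` is `δ`-close to `-1`
(`χ₀ = none`: no exception). -/
def Str (u : ℕ → ℤˣ) (q : ℕ) (T : Finset ℝ) (δ η : ℝ) (χ₀ : Option (DirichletCharacter ℂ q)) :
    Prop :=
  (∀ (χ : DirichletCharacter ℂ q) (t : ℝ), t ∈ T →
    (χ₀ = some χ ∧ t = 0) ∨ ‖Dm (zt u χ t) η‖ ≤ δ) ∧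
  ∀ χ : DirichletCharacter ℂ q, χ₀ = some χ → χ ^ 2 = 1 ∧ ‖Dm (zt u χ 0) η + 1‖ ≤ δ

theorem Str.mono {u : ℕ → ℤˣ} {q : ℕ} {T : Finset ℝ} {δ δ' η : ℝ}
    {χ₀ : Option (DirichletCharacter ℂ q)} (h : Str u q T δ η χ₀) (hδ : δ ≤ δ') :
    Str u q T δ' η χ₀ :=
  ⟨fun χ t ht => (h.1 χ t ht).imp id fun h1 => h1.trans hδ,
    fun χ hχ => ⟨(h.2 χ hχ).1, (h.2 χ hχ).2.trans hδ⟩⟩

/-- The events at all small scales -/
theorem excl_small (q : ℕ) [NeZero q] (T : Finset ℝ) : ∃ η₀ : ℝ, 0 < η₀ ∧ ∀ η : ℝ, 0 < η → η < η₀ →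
    (∀ (χ : DirichletCharacter ℂ q), ∀ t ∈ T, (χ ^ 2 ≠ 1 ∨ t ≠ 0) → ∀ u : ℕ → ℤˣ,
      -(4 / 5) ≤ (Dm (zt u χ t) η).re) ∧
    ∀ χ₁ χ₂ : DirichletCharacter ℂ q, χ₁ ^ 2 = 1 → χ₂ ^ 2 = 1 → χ₁ ≠ χ₂ → ∀ u : ℕ → ℤˣ,
      -(6 / 5) ≤ (Dm (zt u χ₁ 0) η).re + (Dm (zt u χ₂ 0) η).re := by
  have h1 : ∀ᶠ η in 𝓝[>] (0:ℝ), ∀ (χ : DirichletCharacter ℂ q), ∀ t ∈ T, (χ ^ 2 ≠ 1 ∨ t ≠ 0) →
      ∀ u : ℕ → ℤˣ, -(4 / 5) ≤ (Dm (zt u χ t) η).re := by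
    rw [eventually_all]
    intro χ
    rw [eventually_all_finset]
    intro t _
    by_cases h : χ ^ 2 ≠ 1 ∨ t ≠ 0
    · filter_upwards [not_neg χ t h] with η h2 _
      exact h2
    · exact Eventually.of_forall fun η h3 => absurd h3 h
  have h2 : ∀ᶠ η in 𝓝[>] (0:ℝ), ∀ χ₁ χ₂ : DirichletCharacter ℂ q, χ₁ ^ 2 = 1 → χ₂ ^ 2 = 1 →
      χ₁ ≠ χ₂ → ∀ u : ℕ → ℤˣ,
      -(6 / 5) ≤ (Dm (zt u χ₁ 0) η).re + (Dm (zt u χ₂ 0) η).re := by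
    rw [eventually_all]
    intro χ₁
    rw [eventually_all]
    intro χ₂
    by_cases h : χ₁ ^ 2 = 1 ∧ χ₂ ^ 2 = 1 ∧ χ₁ ≠ χ₂
    · filter_upwards [not_two χ₁ χ₂ h.1 h.2.1 h.2.2] with η h2 _ _ _
      exact h2
    · exact Eventually.of_forall fun η h3 h4 h5 => absurd ⟨h3, h4, h5⟩ h
  have h3 := h1.and h2
  rw [eventually_nhdsWithin_iff, Metric.eventually_nhds_iff] at h3
  obtain ⟨η₀, hη₀, h4⟩ := h3
  refine ⟨η₀, hη₀, fun η hη hlt => ?_⟩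
  refine h4 (y := η) ?_ hη
  rw [Real.dist_eq, sub_zero, abs_of_pos hη]
  exact hlt

/-- all scales in the windows are small -/
theorem win_small {η₀ : ℝ} (hη₀ : 0 < η₀) (Λ : ℝ) : ∀ᶠ N : ℕ in atTop, 0 < Real.log N ∧
    ∀ s : ℝ, s ≤ Λ → Real.exp s / Real.log N < η₀ := by
  have h1 : Tendsto (fun N : ℕ => Real.log (N:ℝ)) atTop atTop :=
    Real.tendsto_log_atTop.comp tendsto_natCast_atTop_atTop
  filter_upwards [h1.eventually_gt_atTop (Real.exp Λ / η₀), h1.eventually_gt_atTop 0] with N h2 h3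
  refine ⟨h3, fun s hs => ?_⟩
  rw [div_lt_iff₀ hη₀] at h2
  rw [div_lt_iff₀ h3]
  have := Real.exp_le_exp.2 hs
  linarith

/-- from each close to `0` or `-1` to `Str` -/
theorem str_of_win {u : ℕ → ℤˣ} {q : ℕ} {T : Finset ℝ} {δ y z L : ℝ} (hyz : y ≤ z)
    (hδ : δ ≤ 1 / 10)
    (hη₀ : ∀ s : ℝ, y ≤ s → s ≤ z →
      (∀ (χ : DirichletCharacter ℂ q), ∀ t ∈ T, (χ ^ 2 ≠ 1 ∨ t ≠ 0) → ∀ u : ℕ → ℤˣ,
        -(4 / 5) ≤ (Dm (zt u χ t) (Real.exp s / L)).re) ∧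
      ∀ χ₁ χ₂ : DirichletCharacter ℂ q, χ₁ ^ 2 = 1 → χ₂ ^ 2 = 1 → χ₁ ≠ χ₂ → ∀ u : ℕ → ℤˣ,
        -(6 / 5) ≤ (Dm (zt u χ₁ 0) (Real.exp s / L)).re + (Dm (zt u χ₂ 0) (Real.exp s / L)).re)
    (h : ∀ (χ : DirichletCharacter ℂ q) (t : ℝ), t ∈ T →
      (∀ s : ℝ, y ≤ s → s ≤ z → ‖Dm (zt u χ t) (Real.exp s / L)‖ ≤ δ) ∨
      (∀ s : ℝ, y ≤ s → s ≤ z → ‖Dm (zt u χ t) (Real.exp s / L) + 1‖ ≤ δ)) :
    ∃ χ₀ : Option (DirichletCharacter ℂ q), ∀ s : ℝ, y ≤ s → s ≤ z →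
      Str u q T δ (Real.exp s / L) χ₀ := by
  have hre : ∀ (χ : DirichletCharacter ℂ q) (t s : ℝ), ‖Dm (zt u χ t) (Real.exp s / L) + 1‖ ≤ δ →
      (Dm (zt u χ t) (Real.exp s / L)).re ≤ -(9 / 10) := by
    intro χ t s hs
    have h1 := (Complex.re_le_norm _).trans hs
    rw [Complex.add_re, Complex.one_re] at h1
    linarith
  -- exceptional pairs are real and untwisted
  have hreal : ∀ (χ : DirichletCharacter ℂ q) (t : ℝ), t ∈ T →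
      (∀ s : ℝ, y ≤ s → s ≤ z → ‖Dm (zt u χ t) (Real.exp s / L) + 1‖ ≤ δ) → χ ^ 2 = 1 ∧ t = 0 := by
    intro χ t ht hs
    by_contra hcon
    have h1 : χ ^ 2 ≠ 1 ∨ t ≠ 0 := by
      by_contra h2
      push Not at h2
      exact hcon h2
    have h2 := (hη₀ y le_rfl hyz).1 χ t ht h1 u
    have h3 := hre χ t y (hs y le_rfl hyz)
    linarith
  by_cases hex : ∃ χ : DirichletCharacter ℂ q, (0:ℝ) ∈ T ∧
      ∀ s : ℝ, y ≤ s → s ≤ z → ‖Dm (zt u χ 0) (Real.exp s / L) + 1‖ ≤ δ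
  · obtain ⟨χ₁, hT, hχ₁⟩ := hex
    refine ⟨some χ₁, fun s hs1 hs2 => ⟨fun χ t ht => ?_, fun χ hχ => ?_⟩⟩
    · rcases h χ t ht with h1 | h1
      · exact Or.inr (h1 s hs1 hs2)
      · left
        obtain ⟨h2, h3⟩ := hreal χ t ht h1
        subst h3
        refine ⟨?_, rfl⟩
        by_contra hne
        have hne' : χ₁ ≠ χ := fun h4 => hne (by rw [h4])
        have h5 := (hη₀ y le_rfl hyz).2 χ₁ χ (hreal χ₁ 0 hT hχ₁).1 h2 hne' u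
        have h6 := hre χ₁ 0 y (hχ₁ y le_rfl hyz)
        have h7 := hre χ 0 y (h1 y le_rfl hyz)
        linarith
    · have h1 : χ₁ = χ := Option.some_injective _ hχ
      subst h1
      exact ⟨(hreal χ₁ 0 hT hχ₁).1, hχ₁ s hs1 hs2⟩
  · refine ⟨none, fun s hs1 hs2 => ⟨fun χ t ht => ?_, fun χ hχ => ?_⟩⟩
    · rcases h χ t ht with h1 | h1
      · exact Or.inr (h1 s hs1 hs2)
      · exfalso
        obtain ⟨h2, h3⟩ := hreal χ t ht h1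
        subst h3
        exact hex ⟨χ, ht, h1⟩
    · exact absurd hχ (by simp)

/-- (S) -/
theorem splus {A : Set ℝ} (hA : StrHyp A) {α R δ : ℝ} (hα0 : 0 < α) (hα : α < 1 / 5) (hR : 1 ≤ R)
    (hδ : 0 < δ) (q : ℕ) [NeZero q] (T : Finset ℝ) (hT : ∀ t ∈ T, t ∈ A) :
    ∃ L₀ : ℕ, ∀ f g : ℕ → ℤˣ, (MultS fun n => f n * g n) → (Aperiodic fun n => f n * g n) →
      ∀ l : Filter ℕ, l ≤ atTop → ∀ J : Finset ℕ, L₀ ≤ J.card →
      ((patJ f l J).card : ℝ) * (patJ g l J).card ≤ Real.exp ((J.card : ℝ) ^ α) →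
      ∀ᶠ N : ℕ in l, ∃ y : ℝ, R ≤ y ∧ R * y ≤ Real.log J.card ∧
        ∃ χ₀ : Option (DirichletCharacter ℂ q), ∀ s : ℝ, y ≤ s → s ≤ R * y →
          Str (fun n => f n * g n) q T δ (Real.exp s / Real.log N) χ₀ := by
  classical
  obtain ⟨η₀, hη₀, hsmall⟩ := excl_small q T
  haveI : Fintype (DirichletCharacter ℂ q) := Fintype.ofFinite _
  set I := (DirichletCharacter ℂ q) × {t : ℝ // t ∈ T} with hI
  obtain ⟨e⟩ : Nonempty (Fin (Fintype.card I) ≃ I) := ⟨(Fintype.equivFin I).symm⟩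
  obtain ⟨τ, hτ⟩ : ∃ τ : ℝ, ∀ t ∈ T, |t| ≤ τ := by
    obtain ⟨τ, hτ⟩ := (T.image (fun t => |t|)).bddAbove
    exact ⟨τ, fun t ht => hτ (by simp only [Finset.coe_image]; exact ⟨t, ht, rfl⟩)⟩
  set δ' : ℝ := min δ (1 / 10) with hδ'
  have hδ'0 : 0 < δ' := lt_min hδ (by norm_num)
  obtain ⟨L₀, hL₀⟩ := hA α 2 0 R δ' τ hα0 (by norm_num) (by norm_num) (by linarith) hR hδ'0
    (Fintype.card I)
  refine ⟨L₀, fun f g hm ha l hl J hJ hcard => ?_⟩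
  have h1 := hL₀ f g hm ha (fun _ => q) (fun _ => Nat.pos_of_ne_zero (NeZero.ne q))
    (fun i => (e i).1) (fun i => ((e i).2 : ℝ)) (fun i => ⟨hT _ (e i).2.2, hτ _ (e i).2.2⟩) l hl
    (fun i c hc ε hε => hl (mass_triv _ (norm_zt_le _ (e i).1 ((e i).2 : ℝ)) c hc ε hε)) J hJ hcard
  have h2 := hl (win_small hη₀ (Real.log J.card))
  filter_upwards [h1, h2] with N h3 h4
  obtain ⟨y, hy1, hy2, hy3⟩ := h3
  refine ⟨y, hy1, hy2, ?_⟩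
  have hyR : y ≤ R * y := by nlinarith
  obtain ⟨χ₀, hχ₀⟩ := str_of_win (u := fun n => f n * g n) (q := q) (T := T) (δ := δ')
    (L := Real.log N) hyR (min_le_right _ _)
    (fun s _ hs2 => hsmall _ (div_pos (Real.exp_pos _) h4.1) (h4.2 s (hs2.trans hy2)))
    (fun χ t ht => by
      have h5 := hy3 (e.symm (χ, ⟨t, ht⟩))
      simp only [Equiv.apply_symm_apply] at h5
      exact h5)
  exact ⟨χ₀, fun s hs1 hs2 => (hχ₀ s hs1 hs2).mono (min_le_left _ _)⟩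

/-- (S), final form -/
theorem dichoT {A : Set ℝ} (hA : StrHyp A) {α R δ : ℝ} (hα : α < 1 / 5) (hR : 1 ≤ R)
    (hδ : 0 < δ) (q : ℕ) [NeZero q] (T : Finset ℝ) (hT : ∀ t ∈ T, t ∈ A) :
    ∃ L₀ : ℕ, ∀ f g : ℕ → ℤˣ, (MultS fun n => f n * g n) → (Aperiodic fun n => f n * g n) →
      ∀ l : Filter ℕ, l ≤ atTop → ∀ J : Finset ℕ, L₀ ≤ J.card → Rich f g l J α ∨
      ∀ᶠ N : ℕ in l, ∃ y : ℝ, R ≤ y ∧ R * y ≤ Real.log J.card ∧
        ∃ χ₀ : Option (DirichletCharacter ℂ q), ∀ s : ℝ, y ≤ s → s ≤ R * y →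
          Str (fun n => f n * g n) q T δ (Real.exp s / Real.log N) χ₀ := by
  obtain ⟨α', hα'0, hαα', hα'⟩ := exists_exp (show (1:ℝ) ≤ 5 by norm_num)
    (show α * 5 < 1 by linarith)
  obtain ⟨L₁, hL₁⟩ := splus hA hα'0 (by linarith : α' < 1 / 5) hR hδ q T hT
  obtain ⟨L₂, hL₂⟩ := rich_of_large hα'0 hαα'
  refine ⟨max L₁ L₂, fun f g hm ha l hl J hJ => ?_⟩
  rcases lt_or_ge (Real.exp ((J.card : ℝ) ^ α')) (((patJ f l J).card : ℝ) * (patJ g l J).card)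
    with h | h
  · exact Or.inl (hL₂ f g l J ((le_max_right _ _).trans hJ) h)
  · exact Or.inr (hL₁ f g hm ha l hl J ((le_max_left _ _).trans hJ) h)

/-- (D): almost all scales -/
theorem densT {A : Set ℝ} (hA : StrHyp A) {α : ℝ} (hα : α < 1 / 5) {f g : ℕ → ℤˣ}
    (hm : MultS fun n => f n * g n) (ha : Aperiodic fun n => f n * g n)
    (hlow : ∀ L₀ : ℕ, ∃ J : Finset ℕ, L₀ ≤ J.card ∧ ¬ Rich f g atTop J α)
    (q : ℕ) [NeZero q] (T : Finset ℝ) (hT : ∀ t ∈ T, t ∈ A) {δ ρ : ℝ} (hδ : 0 < δ) (hρ : 0 < ρ) :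
    ∀ᶠ S : ℝ in atTop, volume ({s : ℝ | ¬ ∃ χ₀ : Option (DirichletCharacter ℂ q),
        Str (fun n => f n * g n) q T δ (Real.exp (-s)) χ₀} ∩ Set.Icc 0 S) ≤
      ENNReal.ofReal (ρ * S) := by
  set R : ℝ := max 2 (4 / ρ) with hR
  have hR2 : 2 ≤ R := le_max_left _ _
  have hRρ : 4 / R ≤ ρ := by
    have h1 : 4 / ρ ≤ R := le_max_right _ _
    rw [div_le_iff₀ (by linarith)]
    rw [div_le_iff₀ hρ] at h1
    linarith
  obtain ⟨L₀, hL₀⟩ := dichoT hA hα (by linarith : (1:ℝ) ≤ R) hδ q T hT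
  obtain ⟨J, hJ, hnr⟩ := hlow L₀
  have h1 := (hL₀ f g hm ha atTop le_rfl J hJ).resolve_left hnr
  obtain ⟨C, hC, hfin⟩ := tile_win (P := fun η => ∃ χ₀ : Option (DirichletCharacter ℂ q),
      Str (fun n => f n * g n) q T δ η χ₀) hR2 (Real.log_natCast_nonneg J.card) (by
    filter_upwards [h1] with N h2
    obtain ⟨y, hy1, hy2, χ₀, hy3⟩ := h2
    exact ⟨y, hy1, hy2, fun s hs1 hs2 => ⟨χ₀, hy3 s hs1 hs2⟩⟩)
  filter_upwards [tile_ev hC (by linarith : 0 < R) hρ hRρ] with S hS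
  exact (hfin S hS.1).trans (ENNReal.ofReal_le_ofReal hS.2)

/-- (K) -/
theorem corKT {A : Set ℝ} (hA : StrHyp A) {α b K τ : ℝ} (hb0 : 0 ≤ b) (hb1 : b < 1)
    (hα : α * (1 + 2 * b) < 1) :
    ∃ L₀ : ℕ, ∀ f g : ℕ → ℤˣ, (MultS fun n => f n * g n) → (Aperiodic fun n => f n * g n) →
      ∀ q : ℕ, 0 < q → ∀ (χ : DirichletCharacter ℂ q) (t : ℝ), t ∈ A → |t| ≤ τ →
      ∀ l : Filter ℕ, l.NeBot → l ≤ atTop → MassB l (zt (fun n => f n * g n) χ t) b K →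
      ∀ J : Finset ℕ, L₀ ≤ J.card → Rich f g l J α := by
  obtain ⟨α', hα'0, hαα', hα'⟩ := exists_exp (by linarith) hα
  obtain ⟨R, δ, hR, hδ, _, hnw⟩ := no_window (K := K) hb0 hb1
  obtain ⟨L₁, hL₁⟩ := hA α' b K R δ τ hα'0 hb0 (by linarith) hα' hR hδ 1
  obtain ⟨L₂, hL₂⟩ := rich_of_large hα'0 hαα'
  refine ⟨max L₁ (max L₂ 1), ?_⟩
  intro f g hm ha q hq χ t htA ht l hne hl hmass J hJ
  have hJ1 : L₁ ≤ J.card := (le_max_left _ _).trans hJ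
  have hJ2 : L₂ ≤ J.card := ((le_max_left _ _).trans (le_max_right _ _)).trans hJ
  have hJ3 : 1 ≤ J.card := ((le_max_right _ _).trans (le_max_right _ _)).trans hJ
  apply hL₂ f g l J hJ2
  by_contra hcon
  have hcard := not_lt.1 hcon
  have hS := hL₁ f g hm ha (fun _ => q) (fun _ => hq) (fun _ => χ) (fun _ => t)
    (fun _ => ⟨htA, ht⟩) l hl (fun _ => hmass) J hJ1 hcard
  have hN := hnw J.card hJ3 (zt (fun n => f n * g n) χ t) (norm_zt_le _ χ t) l hl hmass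
  haveI := hne
  obtain ⟨N, h1, h2⟩ := (hS.and hN).exists
  obtain ⟨y, hy1, hy2, hy3⟩ := h1
  exact h2 y hy1 hy2 (hy3 0)

end Pool.Agent.Lib.P4a7640S
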