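import Mathlib
import Pool.Agent.Lib.P4a7640S.SPlus

/-!
# Functions of low complexity together with their product with the Liouville function
-/

open Finset Filter Topology MeasureTheory
open Pool.Agent.Lib.P4a7640 Pool.Agent.Lib.P4a7640C

namespace Pool.Agent.Lib.P4a7640S

theorem Dm_neg_of {u v : ℕ → ℤˣ} (h : ∀ p : ℕ, p.Prime → v p = - u p) {q : ℕ}
    (χ : DirichletCharacter ℂ q) (t η : ℝ) : Dm (zt v χ t) η = - Dm (zt u χ t) η := by
  unfold Dm
  rw [← mul_neg, ← tsum_neg]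
  congr 1
  refine tsum_congr fun p => ?_
  have h1 : zt v χ t p = - zt u χ t p := by
    unfold zt
    rw [h p p.2]
    push_cast
    ring
  rw [h1]
  ring

/-- If both `Str u` and `Str (-u)` hold, there is no exceptional character. -/
theorem no_exc {u v : ℕ → ℤˣ} (h : ∀ p : ℕ, p.Prime → v p = - u p) {q : ℕ} {T : Finset ℝ}
    {δ η : ℝ} (hδ : δ ≤ 1 / 10) {χ₀ χ₁ : Option (DirichletCharacter ℂ q)}
    (h0 : Str u q T δ η χ₀) (h1 : Str v q T δ η χ₁) (χ : DirichletCharacter ℂ q) {t : ℝ}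
    (ht : t ∈ T) : ‖Dm (zt u χ t) η‖ ≤ δ := by
  rcases h0.1 χ t ht with ⟨h2, h3⟩ | h2
  · exfalso
    subst h3
    have h4 := (h0.2 χ h2).2
    have h5 : (Dm (zt u χ 0) η).re ≤ -(9 / 10) := by
      have := (Complex.re_le_norm _).trans h4
      rw [Complex.add_re, Complex.one_re] at this
      linarith
    rcases h1.1 χ 0 ht with ⟨h6, _⟩ | h6
    · have h7 := (h1.2 χ h6).2
      rw [Dm_neg_of h] at h7
      have := (Complex.re_le_norm _).trans h7
      rw [Complex.add_re, Complex.one_re, Complex.neg_re] at this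
      linarith
    · rw [Dm_neg_of h, norm_neg] at h6
      have h8 := (Complex.abs_re_le_norm _).trans h6
      have h9 := (abs_le.1 h8).1
      linarith
  · exact h2

theorem densL {A : Set ℝ} (hA : StrHyp A) {α : ℝ} (hα : α < 1 / 5) {f g f' g' : ℕ → ℤˣ}
    (hm : MultS fun n => f n * g n) (ha : Aperiodic fun n => f n * g n)
    (hlow : ∀ L₀ : ℕ, ∃ J : Finset ℕ, L₀ ≤ J.card ∧ ¬ Rich f g atTop J α)
    (hm' : MultS fun n => f' n * g' n) (ha' : Aperiodic fun n => f' n * g' n)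
    (hlow' : ∀ L₀ : ℕ, ∃ J : Finset ℕ, L₀ ≤ J.card ∧ ¬ Rich f' g' atTop J α)
    (hl : ∀ p : ℕ, p.Prime → f' p * g' p = - (f p * g p))
    (q : ℕ) [NeZero q] (T : Finset ℝ) (hT : ∀ t ∈ T, t ∈ A) {δ ρ : ℝ} (hδ : 0 < δ) (hρ : 0 < ρ) :
    ∀ᶠ S : ℝ in atTop, volume ({s : ℝ | ¬ ∀ (χ : DirichletCharacter ℂ q), ∀ t ∈ T,
        ‖Dm (zt (fun n => f n * g n) χ t) (Real.exp (-s))‖ ≤ δ} ∩ Set.Icc 0 S) ≤
      ENNReal.ofReal (ρ * S) := by
  set δ' : ℝ := min δ (1 / 10) with hδ'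
  have hδ'0 : 0 < δ' := lt_min hδ (by norm_num)
  have h1 := densT hA hα hm ha hlow q T hT hδ'0 (half_pos hρ)
  have h2 := densT hA hα hm' ha' hlow' q T hT hδ'0 (half_pos hρ)
  filter_upwards [h1, h2, eventually_ge_atTop 0] with S h3 h4 h5
  have hsub : ({s : ℝ | ¬ ∀ (χ : DirichletCharacter ℂ q), ∀ t ∈ T,
      ‖Dm (zt (fun n => f n * g n) χ t) (Real.exp (-s))‖ ≤ δ} ∩ Set.Icc 0 S) ⊆
      ({s : ℝ | ¬ ∃ χ₀ : Option (DirichletCharacter ℂ q),
        Str (fun n => f n * g n) q T δ' (Real.exp (-s)) χ₀} ∩ Set.Icc 0 S) ∪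
      ({s : ℝ | ¬ ∃ χ₀ : Option (DirichletCharacter ℂ q),
        Str (fun n => f' n * g' n) q T δ' (Real.exp (-s)) χ₀} ∩ Set.Icc 0 S) := by
    rintro s ⟨hs1, hs2⟩
    by_cases hs3 : ∃ χ₀ : Option (DirichletCharacter ℂ q),
        Str (fun n => f n * g n) q T δ' (Real.exp (-s)) χ₀
    · by_cases hs4 : ∃ χ₀ : Option (DirichletCharacter ℂ q),
          Str (fun n => f' n * g' n) q T δ' (Real.exp (-s)) χ₀
      · exfalso
        obtain ⟨χ₀, hχ₀⟩ := hs3
        obtain ⟨χ₁, hχ₁⟩ := hs4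
        exact hs1 fun χ t ht => (no_exc (u := fun n => f n * g n) (v := fun n => f' n * g' n)
          hl (min_le_right _ _) hχ₀ hχ₁ χ ht).trans (min_le_left _ _)
      · exact Or.inr ⟨hs4, hs2⟩
    · exact Or.inl ⟨hs3, hs2⟩
  refine (measure_mono hsub).trans ((measure_union_le _ _).trans ((add_le_add h3 h4).trans ?_))
  rw [← ENNReal.ofReal_add (by positivity) (by positivity)]
  apply ENNReal.ofReal_le_ofReal
  linarith

end Pool.Agent.Lib.P4a7640S
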