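import Mathlib
import Pool.Agent.Lib.P4a7640S.Cor

/-!
# The structure theorem, final form
-/

open Finset Filter Topology
open Pool.Agent.Lib.P4a7640 Pool.Agent.Lib.P4a7640C

namespace Pool.Agent.Lib.P4a7640S

theorem dichotomy {α b K R δ : ℝ} (hb0 : 0 ≤ b) (hb2 : b ≤ 2)
    (hα : α * (1 + 2 * b) < 1) (hR : 1 ≤ R) (hδ : 0 < δ) (X : ℕ) :
    ∃ L₀ : ℕ, ∀ f g : ℕ → ℤˣ, (MultS fun n => f n * g n) → (Aperiodic fun n => f n * g n) →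
      ∀ q : Fin X → ℕ, (∀ i, 0 < q i) → ∀ (χ : ∀ i, DirichletCharacter ℂ (q i)) (l : Filter ℕ),
      l ≤ atTop → (∀ i, MassB l (ze (fun n => f n * g n) (χ i)) b K) →
      ∀ J : Finset ℕ, L₀ ≤ J.card →
      Rich f g l J α ∨ ∀ᶠ N : ℕ in l, ∃ y : ℝ, R ≤ y ∧ R * y ≤ Real.log J.card ∧ ∀ i,
        (∀ t : ℝ, y ≤ t → t ≤ R * y →
          ‖Dm (ze (fun n => f n * g n) (χ i)) (Real.exp t / Real.log N)‖ ≤ δ) ∨
        (∀ t : ℝ, y ≤ t → t ≤ R * y →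
          ‖Dm (ze (fun n => f n * g n) (χ i)) (Real.exp t / Real.log N) + 1‖ ≤ δ) := by
  obtain ⟨α', hα'0, hαα', hα'⟩ := exists_exp (by linarith) hα
  obtain ⟨L₁, hL₁⟩ := structure_thm (K := K) hα'0 hb0 hb2 hα' hR hδ X
  obtain ⟨L₂, hL₂⟩ := rich_of_large hα'0 hαα'
  refine ⟨max L₁ L₂, fun f g hm ha q hq χ l hl hmass J hJ => ?_⟩
  rcases lt_or_ge (Real.exp ((J.card : ℝ) ^ α')) (((patJ f l J).card : ℝ) * (patJ g l J).card)
    with h | h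
  · exact Or.inl (hL₂ f g l J ((le_max_right _ _).trans hJ) h)
  · exact Or.inr (hL₁ f g hm ha q hq χ l hl hmass J ((le_max_left _ _).trans hJ) h)

end Pool.Agent.Lib.P4a7640S
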