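import Mathlib
import Pool.Agent.Lib.P4a7640W.CoreT
import Pool.Agent.Lib.P4a7640S.BridgeT
import Pool.Agent.Lib.P4a7640S.Abs
import Pool.Agent.Lib.P4a7640S.Par
import Pool.Agent.Lib.P4a7640S.StrHyp

/-!
# The structure theorem for twisted characters
-/

open Finset Filter Topology
open Pool.Agent.Lib.P4a7640 Pool.Agent.Lib.P4a7640C Pool.Agent.Lib.P4a7640W

namespace Pool.Agent.Lib.P4a7640S

theorem tau_cond (τ : ℝ) : ∃ K₀ : ℕ, ∀ K : ℕ, K₀ ≤ K → 4 * (1 + 2 * K * τ) ≤ (4:ℝ) ^ K := by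
  have h1 : Tendsto (fun n : ℕ => (n:ℝ) ^ 1 / (4:ℝ) ^ n) atTop (𝓝 0) :=
    tendsto_pow_const_div_const_pow_of_one_lt 1 (by norm_num)
  have h2 : ∀ᶠ n : ℕ in atTop, (n:ℝ) ^ 1 / (4:ℝ) ^ n < 1 / (16 * (|τ| + 1)) :=
    h1.eventually (gt_mem_nhds (by positivity))
  obtain ⟨K₀, hK₀⟩ := eventually_atTop.1 h2
  refine ⟨max K₀ 2, fun K hK => ?_⟩
  have h3 := hK₀ K ((le_max_left _ _).trans hK)
  have hK2 : (2:ℝ) ≤ K := by exact_mod_cast (le_max_right _ _).trans hK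
  have h4 : (0:ℝ) < 4 ^ K := by positivity
  rw [pow_one, div_lt_div_iff₀ h4 (by positivity), one_mul] at h3
  have h5 : τ ≤ |τ| := le_abs_self τ
  have h6 : (K:ℝ) * τ ≤ K * |τ| := mul_le_mul_of_nonneg_left h5 (by linarith)
  nlinarith [abs_nonneg τ]

theorem strHyp_univ : StrHyp Set.univ := by
  classical
  intro α b K R δ τ hα0 hb0 hb2 hα hR hδ X
  obtain ⟨A, hA, hcore⟩ := coreT
  obtain ⟨m, hm, ε, hε, hε1, hpar⟩ := par K hα0 hb0 hb2 hα A hA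
  obtain ⟨ξ, κ, hξ, hκ, L₂, hL₂⟩ := struct_abs (b := b) (K := K) hR hδ X hm hε hε1
  obtain ⟨L₁, hL₁⟩ := hpar ξ hξ
  obtain ⟨K₀, hK₀⟩ := tau_cond τ
  refine ⟨max (max L₁ L₂) (4 ^ K₀ + 1), ?_⟩
  intro f g hmul haper q hq χ t ht l hl hmass J hJ hcard
  have hLL₁ : L₁ ≤ J.card := ((le_max_left _ _).trans (le_max_left _ _)).trans hJ
  have hLL₂ : L₂ ≤ J.card := ((le_max_right _ _).trans (le_max_left _ _)).trans hJ
  have hL1 : 4 ^ K₀ + 1 ≤ J.card := (le_max_right _ _).trans hJ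
  have hJpos : 1 ≤ J.card := le_trans (Nat.le_add_left 1 _) hL1
  have hJne : J.Nonempty := by
    rw [← Finset.card_pos]; exact hJpos
  obtain ⟨r, Ks, b', c', hr, hLα, hrK, h8, hAK, hb', hlam⟩ := hL₁ J.card hLL₁
  have hKs : K₀ ≤ Ks := by
    by_contra hlt
    have h1 : Ks ≤ K₀ := by omega
    have h2 : 4 ^ Ks ≤ 4 ^ K₀ := Nat.pow_le_pow_right (by norm_num) h1
    have h3 : J.card ^ 1 ≤ J.card ^ (2 * r) := Nat.pow_le_pow_right hJpos (by omega)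
    rw [pow_one] at h3
    have h4 : J.card ≤ 4 ^ K₀ := by
      calc J.card ≤ J.card ^ (2 * r) := h3
        _ ≤ 8 * J.card ^ (2 * r) := by omega
        _ ≤ 4 ^ Ks := h8
        _ ≤ 4 ^ K₀ := h2
    exact absurd (hL1.trans h4) (by simp)
  have hτi : ∀ i, 2 + Ks * |t i| ≤ (4:ℝ) ^ Ks := by
    intro i
    have h1 := hK₀ Ks hKs
    have h2 : |t i| ≤ τ := (ht i).2
    have h3 : (Ks:ℝ) * |t i| ≤ Ks * τ := mul_le_mul_of_nonneg_left h2 (Nat.cast_nonneg _)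
    have h4 : (0:ℝ) ≤ Ks * |t i| := mul_nonneg (Nat.cast_nonneg _) (abs_nonneg _)
    nlinarith
  obtain ⟨M, hM⟩ := hL₂ J.card hLL₂
  have hmain := hM b' c' (6 * Real.sqrt (2 * Real.exp 1 * r / J.card)) hb' hlam
    (fun i => zt (fun n => f n * g n) (χ i) (t i)) (fun i p => norm_zt_le _ (χ i) (t i) p) l hl hmass
  have e0 : ∀ᶠ N : ℕ in l, 2 ≤ N := hl (eventually_ge_atTop 2)
  have e1 : ∀ᶠ N : ℕ in l, ∀ i, ∀ j ∈ range (M + 1), 3 * Real.log J.card ≤ κ ^ j →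
      κ ^ j ≤ (J.card:ℝ) ^ ε →
      ‖mid (zt (fun n => f n * g n) (χ i) (t i)) (Tp (2 ^ c') N) N (2 ^ b') (κ ^ j)‖ ≤
        6 * Real.sqrt (2 * Real.exp 1 * r / J.card) := by
    rw [eventually_all]
    intro i
    rw [eventually_all_finset]
    intro j _
    have h1 := hcore f g hmul haper (q i) (hq i) (χ i) (t i) l hl J hJne r Ks b' c' hr hrK h8 (hτi i)
      hAK (hcard.trans (Real.exp_le_exp.2 hLα)) (κ ^ j) (by positivity)
    filter_upwards [h1, e0] with N h2 h3 _ _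
    rw [mid_eqT (fun n => f n * g n) (χ i) (t i) (2 ^ c') (2 ^ b') h3]
    exact h2
  filter_upwards [hmain, e1] with N h1 h2
  exact h1 h2

end Pool.Agent.Lib.P4a7640S
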